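import Pool.Agent.H11.TS.Rtt

/-!
# THEOREM TS, Asm: the Lehmer bound for points over `L₀` gives the bound with exponent `1 + ε` for all subvarieties over all `L ≤ L₀`
-/

set_option autoImplicit false
set_option linter.unusedSectionVars false

open NumberField

namespace Pool.Agent.H11.TS

open Pool.Agent.H33.TR Pool.Agent.H72.PB Pool.Agent.H11.TH

theorem degP_mono {K Ω : Type} [Field K] [Field Ω] [Algebra K Ω] [Algebra.IsAlgebraic K Ω]
    {L L₀ : IntermediateField K Ω} (h : L ≤ L₀) {k : ℕ} (γ : Fin k → Ωˣ) :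
    degP L₀ γ ≤ degP L γ := by
  classical
  obtain ⟨T, hT⟩ : ∃ T : Set Ω, T = Set.range fun i => (γ i : Ω) := ⟨_, rfl⟩
  unfold degP
  rw [← hT]
  have hTfin : T.Finite := by
    rw [hT]
    exact Set.finite_range _
  have halg : Algebra.IsAlgebraic L Ω := Algebra.IsAlgebraic.tower_top (K := K) L
  have halg₀ : Algebra.IsAlgebraic L₀ Ω := Algebra.IsAlgebraic.tower_top (K := K) L₀
  have hfin : FiniteDimensional L (IntermediateField.adjoin L T) := by
    have : Finite T := hTfin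
    exact IntermediateField.finiteDimensional_adjoin fun x _ =>
      Algebra.IsIntegral.isIntegral x
  obtain ⟨r, hr⟩ : ∃ r, r = Module.finrank L (IntermediateField.adjoin L T) := ⟨_, rfl⟩
  let b := Module.finBasis L (IntermediateField.adjoin L T)
  rw [← hr]
  -- the span over `L₀`
  obtain ⟨S, hS⟩ : ∃ S : Submodule L₀ Ω, S = Submodule.span L₀ (IntermediateField.adjoin L T : Set Ω) :=
    ⟨_, rfl⟩
  have hSb : S ≤ Submodule.span L₀ (Set.range fun i => ((b i : IntermediateField.adjoin L T) : Ω)) := by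
    rw [hS, Submodule.span_le]
    intro x hx
    have h1 := b.sum_repr ⟨x, hx⟩
    have h2 : x = ∑ i, ((b.repr ⟨x, hx⟩ i : L) : Ω) * ((b i : IntermediateField.adjoin L T) : Ω) := by
      have h3 := congrArg (fun z : IntermediateField.adjoin L T => (z : Ω)) h1
      simp only at h3
      refine h3.symm.trans ?_
      rw [AddSubmonoidClass.coe_finset_sum]
      refine Finset.sum_congr rfl fun i _ => ?_
      rw [IntermediateField.coe_smul, Algebra.smul_def]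
      rfl
    rw [h2]
    refine Submodule.sum_mem _ fun i _ => ?_
    have h4 : ((b.repr ⟨x, hx⟩ i : L) : Ω) * ((b i : IntermediateField.adjoin L T) : Ω) =
        (⟨((b.repr ⟨x, hx⟩ i : L) : Ω), h (b.repr ⟨x, hx⟩ i).2⟩ : L₀) •
          ((b i : IntermediateField.adjoin L T) : Ω) := by
      rw [Algebra.smul_def]
      rfl
    rw [h4]
    exact Submodule.smul_mem _ _ (Submodule.subset_span ⟨i, rfl⟩)
  have hSS : ∀ x ∈ S, ∀ y ∈ S, x * y ∈ S := by
    intro x hx y hy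
    have h1 : x * y ∈ S * S := Submodule.mul_mem_mul hx hy
    rw [hS, Submodule.span_mul_span] at h1
    rw [hS]
    refine Submodule.span_mono ?_ h1
    rintro _ ⟨u, hu, w, hw, rfl⟩
    exact (IntermediateField.adjoin L T).mul_mem hu hw
  have h1S : (1 : Ω) ∈ S := by
    rw [hS]
    exact Submodule.subset_span (IntermediateField.adjoin L T).one_mem
  let A : Subalgebra L₀ Ω :=
    { carrier := S
      mul_mem' := fun {x y} hx hy => hSS x hx y hy
      one_mem' := h1S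
      add_mem' := fun {x y} hx hy => S.add_mem hx hy
      zero_mem' := S.zero_mem
      algebraMap_mem' := fun c => by
        have h1 : algebraMap L₀ Ω c = c • (1 : Ω) := by rw [Algebra.smul_def, mul_one]
        rw [h1]
        exact S.smul_mem c h1S }
  have hTA : Algebra.adjoin L₀ T ≤ A := by
    rw [Algebra.adjoin_le_iff]
    intro x hx
    change x ∈ S
    rw [hS]
    exact Submodule.subset_span (IntermediateField.subset_adjoin L T hx)
  have hle : Subalgebra.toSubmodule (IntermediateField.adjoin L₀ T).toSubalgebra ≤ S := by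
    rw [IntermediateField.adjoin_toSubalgebra_of_isAlgebraic (F := L₀) (E := Ω) fun x _ =>
      Algebra.IsAlgebraic.isAlgebraic x]
    intro x hx
    exact hTA hx
  have hfinS : Module.Finite L₀ (Submodule.span L₀ (Set.range fun i =>
      ((b i : IntermediateField.adjoin L T) : Ω))) := by
    exact FiniteDimensional.span_of_finite L₀ (Set.finite_range _)
  have h5 : Module.finrank L₀ (Submodule.span L₀ (Set.range fun i =>
      ((b i : IntermediateField.adjoin L T) : Ω))) ≤ r := by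
    refine (finrank_range_le_card _).trans ?_
    rw [Fintype.card_fin, hr]
  refine le_trans ?_ h5
  exact Submodule.finrank_mono (hle.trans hSb)

theorem asm {K Ω : Type} [Field K] [NumberField K] [Field Ω] [CharZero Ω] [IsAlgClosed Ω]
    [Algebra K Ω] [IsGalois K Ω] (Λ : Subgroup Ωˣ) (L₀ : IntermediateField K Ω)
    (hPT : ∀ k : ℕ, 1 ≤ k → ∀ δ : ℝ, 0 < δ → ∃ c : ℝ, 0 < c ∧ ∀ γ : Fin k → Ωˣ, IndM Λ γ →
      ∀ h : ℝ, (∀ i, absLogHeight₁ (γ i : Ω) ≤ h) → c ≤ (degP L₀ γ : ℝ) ^ (1 / (k : ℝ) + δ) * h)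
    (n : ℕ) (ε : ℝ) (hε : 0 < ε) : ∃ c : ℝ, 0 < c ∧
    ∀ (L : IntermediateField K Ω) (_ : L ≤ L₀)
      (Γ : Subgroup (Tor Ω n)) (_ : ∀ x : Tor Ω n, (∀ l, x l ∈ Λ) → x ∈ Γ)
      (V : Set (Tor Ω n)) (_ : (idl V).IsPrime) (_ : Transv K Γ V)
      (Z : Set (Tor Ω n)) (d' : ℕ) (δ ω : ℝ) (_ : ClosedOver L Z) (_ : Z ≠ Set.univ)
      (_ : Equidim Z d') (_ : HasDeg Z d' δ) (_ : V ⊆ Z) (_ : δ ^ (1 / ((n : ℝ) - d')) ≤ ω)
      (θ : ℝ) (_ : idl {x | x ∈ V ∧ ht x ≤ θ} ≤ idl V),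
      1 ≤ ω ∧ c ≤ ω ^ (1 + ε) * θ := by
  classical
  have halg : Algebra.IsAlgebraic K Ω := inferInstance
  obtain ⟨ε₁, hε₁⟩ : ∃ ε₁ : ℝ, ε₁ = min (ε / 3) 1 := ⟨_, rfl⟩
  have he0 : 0 < ε₁ := by
    rw [hε₁]
    exact lt_min (by linarith) one_pos
  have he1 : ε₁ ≤ 1 := by
    rw [hε₁]
    exact min_le_right _ _
  have he3 : ε₁ ≤ ε / 3 := by
    rw [hε₁]
    exact min_le_left _ _
  have hsq : (1 + ε₁) * (1 + ε₁) ≤ 1 + ε := by nlinarith
  have h1 : ∃ c : ℝ, 0 < c ∧ ∀ γ : Fin 1 → Ωˣ, IndM Λ γ →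
      c ≤ (degP L₀ γ : ℝ) ^ (2 : ℝ) * absLogHeight₁ (γ 0 : Ω) := by
    obtain ⟨c, hc, h⟩ := hPT 1 le_rfl 1 one_pos
    refine ⟨c, hc, fun γ hγ => ?_⟩
    have h2 := h γ hγ (absLogHeight₁ (γ 0 : Ω)) (fun i => by rw [Subsingleton.elim i 0])
    have h3 : (1 : ℝ) / ((1 : ℕ) : ℝ) + 1 = 2 := by norm_num
    rwa [h3] at h2
  have hk : ∀ k : ℕ, ∃ c : ℝ, 0 < c ∧ (1 ≤ k → PtB L₀ Λ k (1 + ε₁) c) := by
    intro k
    by_cases hk1 : 1 ≤ k
    · obtain ⟨c, hc, h⟩ := root_trick L₀ Λ k hk1 h1 (hPT k hk1) ε₁ he0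
      exact ⟨c, hc, fun _ => h⟩
    · exact ⟨1, one_pos, fun h => absurd h hk1⟩
  choose cf hcf hcP using hk
  obtain ⟨c₁, hc₁, hc₁le⟩ : ∃ c₁ : ℝ, 0 < c₁ ∧ ∀ k ≤ n, c₁ ≤ cf k := by
    obtain ⟨k₀, -, hmin⟩ := Finset.exists_min_image (Finset.range (n + 1)) cf
      ⟨0, Finset.mem_range.2 (Nat.succ_pos n)⟩
    exact ⟨cf k₀, hcf k₀, fun k hkn => hmin k (Finset.mem_range.2 (by omega))⟩
  obtain ⟨κ, hκ, hmain⟩ := ts_PZ n (1 + ε₁) ε₁ (by linarith) he0
  refine ⟨κ * min 1 c₁, mul_pos hκ (lt_min one_pos hc₁), ?_⟩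
  intro L hL Γ hΓ V hV htr Z d' δ ω hZ hZne hZd hZδ hVZ hω θ hθ
  have h2 := hmain K Ω c₁ hc₁.le Λ L (fun k hk1 hkn γ hγ => by
    have h3 := hcP k hk1 γ hγ
    have h4 : (degP L₀ γ : ℝ) ≤ degP L γ := by exact_mod_cast degP_mono hL γ
    have h5 : (0 : ℝ) ≤ ∏ i, absLogHeight₁ (γ i : Ω) :=
      Finset.prod_nonneg fun i _ => ht_nonneg _
    calc c₁ ≤ cf k := hc₁le k hkn
      _ ≤ (degP L₀ γ : ℝ) ^ (1 + ε₁) * ∏ i, absLogHeight₁ (γ i : Ω) := h3
      _ ≤ (degP L γ : ℝ) ^ (1 + ε₁) * ∏ i, absLogHeight₁ (γ i : Ω) :=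
        mul_le_mul_of_nonneg_right (Real.rpow_le_rpow (Nat.cast_nonneg _) h4 (by linarith)) h5)
    Γ hΓ V hV htr Z d' δ ω hZ hZne hZd hZδ hVZ hω θ hθ
  obtain ⟨hω1, h3⟩ := h2
  refine ⟨hω1, h3.trans ?_⟩
  have hθ0 : 0 ≤ θ := by
    obtain ⟨x, hx⟩ : {x | x ∈ V ∧ ht x ≤ θ}.Nonempty := by
      by_contra hcon
      rw [Set.not_nonempty_iff_eq_empty] at hcon
      rw [hcon] at hθ
      apply hV.ne_top
      rw [eq_top_iff]
      refine le_trans ?_ hθ
      intro f _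
      rw [mem_idl]
      intro x hx
      exact absurd hx (Set.notMem_empty x)
    refine le_trans ?_ hx.2
    unfold ht
    exact Finset.sum_nonneg fun l _ => ht_nonneg _
  exact mul_le_mul_of_nonneg_right (Real.rpow_le_rpow_of_exponent_le hω1 hsq) hθ0

end Pool.Agent.H11.TS
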