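import Mathlib

/-!
# THEOREM TS, Par: the parameters

`ta n a = n (10 n^2 + a) + 2` (= τ, `T = 2τ`), the primes are in `(P₀, 2^(2τ) P₀]`, `P₁ = 2^(2τ) P₀`, `Qr = P₁^n (P₁ τ)^(4n)` the ratio of a range, `Mx = Qr^(2n) D` the
end of the last range.

`par_all`. PROOF: `Mx = P₁^(10 n^2) τ^(8 n^2) D = K₁ P₀^(10 n^2) D` with `K₁ = 2^(2τ * 10 n^2) τ^(8 n^2)` depending only on `n, a`
(`(P₁^n (P₁ τ)^(4n))^(2n) = P₁^(10n^2) τ^(8n^2)`). With `D ≤ P₀^a`: `2 τ Mx + 1 ≤ (2τ + 1) K₁ P₀^(10n^2+a)`, so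
`(2τ Mx + 1)^n ≤ K₂ P₀^(n(10n^2+a))`, `K₂ = ((2τ+1) K₁)^n`, and `n! Mx^n ≤ n! K₁^n P₀^(n(10n^2+a))`. With `C ≥ K₂, n! K₁^n, K₁, 3`, `P₀ ≥ C`:
both are `≤ P₀^(n(10n^2+a)+1) = P₀^(τ-1) < P₀^τ`.
`par_log`. PROOF: `p ≤ P₁`, `P₁ 2τ Mx θ ≤ 1`: `2 (log (..) + p 2τ Mx θ) ≤ 2 ((τ-1) log P₀ + 1) ≤ 2 τ log P₀ < 2 τ log p` as `log P₀ ≥ 1` for `P₀ ≥ 3`
(`Real.exp_one_lt_d9`: `e < 3`).
-/

set_option autoImplicit false

namespace Pool.Agent.H11.TS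

/-- the parameter `τ` -/
def ta (n a : ℕ) : ℕ := n * (10 * n ^ 2 + a) + 2

/-- the upper bound of the primes -/
def pu (n a P₀ : ℕ) : ℕ := 2 ^ (2 * ta n a) * P₀

/-- the ratio of a range -/
def Qr (n a P₀ : ℕ) : ℕ := pu n a P₀ ^ n * (pu n a P₀ * ta n a) ^ (4 * n)

/-- the end of the last range -/
def Mx (n a P₀ D : ℕ) : ℕ := Qr n a P₀ ^ (2 * n) * D

private theorem ta_sub (n a : ℕ) : n * (10 * n ^ 2 + a) + 1 = ta n a - 1 := by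
  unfold ta
  omega

private theorem mx_eq (n a P₀ D : ℕ) : Mx n a P₀ D =
    (2 ^ (2 * ta n a * (10 * n ^ 2)) * ta n a ^ (8 * n ^ 2)) * P₀ ^ (10 * n ^ 2) * D := by
  obtain ⟨t, ht⟩ : ∃ t : ℕ, t = ta n a := ⟨_, rfl⟩
  unfold Mx Qr pu
  rw [← ht]
  obtain ⟨x, hx⟩ : ∃ x : ℕ, x = 2 ^ (2 * t) := ⟨_, rfl⟩
  have h1 : 2 ^ (2 * t * (10 * n ^ 2)) = x ^ (10 * n ^ 2) := by
    rw [hx, ← pow_mul]
  rw [h1, ← hx]
  have h2 : ((x * P₀) ^ n * (x * P₀ * t) ^ (4 * n)) ^ (2 * n) =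
      (x * P₀) ^ (10 * n ^ 2) * t ^ (8 * n ^ 2) := by
    rw [mul_pow (x * P₀) t (4 * n), ← mul_assoc, ← pow_add, mul_pow, ← pow_mul, ← pow_mul]
    congr 2
    · ring
    · ring
  rw [h2, mul_pow]
  ring

theorem par_all (n a : ℕ) : ∃ C : ℕ, 3 ≤ C ∧ ∀ P₀ D : ℕ, C ≤ P₀ → 1 ≤ D → D ≤ P₀ ^ a →
    (2 * ta n a * Mx n a P₀ D + 1) ^ n ≤ P₀ ^ (ta n a - 1) ∧
    n.factorial * Mx n a P₀ D ^ n < P₀ ^ ta n a ∧
    Mx n a P₀ D ≤ C * P₀ ^ (10 * n ^ 2) * D := by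
  obtain ⟨K, hK⟩ : ∃ K : ℕ, K = 2 ^ (2 * ta n a * (10 * n ^ 2)) * ta n a ^ (8 * n ^ 2) := ⟨_, rfl⟩
  obtain ⟨t, ht⟩ : ∃ t : ℕ, t = ta n a := ⟨_, rfl⟩
  have hK1 : 1 ≤ K := by
    rw [hK]
    refine Nat.mul_pos (Nat.pow_pos (by norm_num)) (Nat.pow_pos ?_)
    unfold ta
    omega
  refine ⟨((2 * t + 1) * K) ^ n + n.factorial * K ^ n + K + 3, by omega, fun P₀ D hC hD hDa => ?_⟩
  have hP1 : 1 ≤ P₀ := by omega
  have hMx : Mx n a P₀ D = K * P₀ ^ (10 * n ^ 2) * D := by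
    rw [mx_eq, ← hK]
  have hMx1 : Mx n a P₀ D ≤ K * P₀ ^ (10 * n ^ 2 + a) := by
    rw [hMx, pow_add, ← mul_assoc]
    exact Nat.mul_le_mul_left _ hDa
  obtain ⟨Y, hY⟩ : ∃ Y : ℕ, Y = P₀ ^ (10 * n ^ 2 + a) := ⟨_, rfl⟩
  rw [← hY] at hMx1
  have hY1 : 1 ≤ Y := by
    rw [hY]
    exact Nat.pow_pos hP1
  have hYn : P₀ * Y ^ n = P₀ ^ (ta n a - 1) := by
    rw [hY, ← pow_mul, ← ta_sub, pow_succ, mul_comm P₀]
    congr 2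
    ring
  have hlt : P₀ ^ (ta n a - 1) < P₀ ^ ta n a := by
    refine Nat.pow_lt_pow_right (by omega) ?_
    unfold ta
    omega
  refine ⟨?_, ?_, ?_⟩
  · rw [← hYn, ← ht]
    calc (2 * t * Mx n a P₀ D + 1) ^ n ≤ (((2 * t + 1) * K) * Y) ^ n := by
          refine Nat.pow_le_pow_left ?_ n
          have h1 : 2 * t * Mx n a P₀ D ≤ 2 * t * (K * Y) := Nat.mul_le_mul_left _ hMx1
          have h2 : 1 ≤ K * Y := Nat.mul_pos hK1 hY1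
          calc 2 * t * Mx n a P₀ D + 1 ≤ 2 * t * (K * Y) + K * Y := Nat.add_le_add h1 h2
            _ = ((2 * t + 1) * K) * Y := by ring
      _ = ((2 * t + 1) * K) ^ n * Y ^ n := mul_pow _ _ _
      _ ≤ P₀ * Y ^ n := Nat.mul_le_mul_right _ (by omega)
  · refine lt_of_le_of_lt ?_ hlt
    rw [← hYn]
    calc n.factorial * Mx n a P₀ D ^ n ≤ n.factorial * (K * Y) ^ n :=
          Nat.mul_le_mul_left _ (Nat.pow_le_pow_left hMx1 n)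
      _ = (n.factorial * K ^ n) * Y ^ n := by rw [mul_pow, mul_assoc]
      _ ≤ P₀ * Y ^ n := Nat.mul_le_mul_right _ (by omega)
  · rw [hMx]
    exact Nat.mul_le_mul_right _ (Nat.mul_le_mul_right _ (by omega))

theorem par_log (n a P₀ D p : ℕ) (θ : ℝ) (hθ : 0 ≤ θ) (hP : 3 ≤ P₀) (hp : P₀ < p)
    (hp' : p ≤ pu n a P₀)
    (h1 : (2 * ta n a * Mx n a P₀ D + 1) ^ n ≤ P₀ ^ (ta n a - 1))
    (h2 : ((pu n a P₀ * (2 * ta n a * Mx n a P₀ D) : ℕ) : ℝ) * θ ≤ 1) :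
    2 * (Real.log (((2 * ta n a * Mx n a P₀ D + 1) ^ n : ℕ) : ℝ) +
      ((p * (2 * ta n a * Mx n a P₀ D) : ℕ) : ℝ) * θ) < (2 * ta n a : ℕ) * Real.log p := by
  have hta : 2 ≤ ta n a := by
    unfold ta
    omega
  have hP0 : (0 : ℝ) < P₀ := by exact_mod_cast (by omega : 0 < P₀)
  have hlog1 : 1 ≤ Real.log P₀ := by
    rw [Real.le_log_iff_exp_le hP0]
    have h3 : (3 : ℝ) ≤ P₀ := by exact_mod_cast hP
    have h4 := Real.exp_one_lt_d9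
    linarith
  have hlogp : Real.log P₀ < Real.log p := Real.log_lt_log hP0 (by exact_mod_cast hp)
  have hA : Real.log (((2 * ta n a * Mx n a P₀ D + 1) ^ n : ℕ) : ℝ) ≤
      ((ta n a : ℝ) - 1) * Real.log P₀ := by
    have h3 : (((2 * ta n a * Mx n a P₀ D + 1) ^ n : ℕ) : ℝ) ≤ (P₀ : ℝ) ^ (ta n a - 1) := by
      exact_mod_cast h1
    have h4 : (0 : ℝ) < (((2 * ta n a * Mx n a P₀ D + 1) ^ n : ℕ) : ℝ) := by
      exact_mod_cast Nat.pow_pos (Nat.succ_pos _)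
    refine (Real.log_le_log h4 h3).trans (le_of_eq ?_)
    rw [Real.log_pow, Nat.cast_sub (by omega), Nat.cast_one]
  have hB : ((p * (2 * ta n a * Mx n a P₀ D) : ℕ) : ℝ) * θ ≤ 1 := by
    refine le_trans (mul_le_mul_of_nonneg_right ?_ hθ) h2
    exact_mod_cast Nat.mul_le_mul_right _ hp'
  have hta' : (2 : ℝ) ≤ (ta n a : ℝ) := by exact_mod_cast hta
  have h5 : (ta n a : ℝ) * Real.log P₀ < (ta n a : ℝ) * Real.log p :=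
    mul_lt_mul_of_pos_left hlogp (by linarith)
  have h6 : ((2 * ta n a : ℕ) : ℝ) = 2 * (ta n a : ℝ) := by
    rw [Nat.cast_mul, Nat.cast_ofNat]
  rw [h6]
  nlinarith [hA, hB, hlog1, h5]

end Pool.Agent.H11.TS
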