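import Mathlib

/-!
# THEOREM TS, Pgn: two pigeonholes

`pigeon_ranges`. PROOF: `b i j = 1` if `f i (j+1) < f i j`, else `0`. `∑_(j < 2n) b i j ≤ f i 0 - f i (2n) ≤ n` (telescoping, `f i` decreasing), so
`∑_j ∑_i b i j ≤ t n` and for some `j < 2n`: `2 n ∑_i b i j ≤ t n`, `2 ∑_i b i j ≤ t`; the other `i` satisfy `f i (j+1) = f i j` and their number `c` satisfies
`c = t - ∑_i b i j`, `2 c ≥ t`.
`pigeon_rank`: otherwise `f` is strictly increasing on `0..n`: `f n ≥ f 0 + n ≥ n + 1`.
-/

set_option autoImplicit false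

namespace Pool.Agent.H11.TS

private theorem pgn_tel (g : ℕ → ℕ) (hg : Antitone g) (m : ℕ) :
    (∑ j ∈ Finset.range m, (if g j = g (j + 1) then 0 else 1)) + g m ≤ g 0 := by
  induction m with
  | zero => simp
  | succ m ih =>
    rw [Finset.sum_range_succ]
    have h1 : g (m + 1) ≤ g m := hg (Nat.le_succ m)
    by_cases h : g m = g (m + 1)
    · rw [if_pos h]; omega
    · rw [if_neg h]; omega

theorem pigeon_ranges (t n : ℕ) (hn : 1 ≤ n) (f : Fin t → ℕ → ℕ) (hf : ∀ i, Antitone (f i))
    (h0 : ∀ i, f i 0 ≤ n) :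
    ∃ j < 2 * n, t ≤ 2 * (Finset.univ.filter fun i => f i j = f i (j + 1)).card := by
  by_contra hcon
  push Not at hcon
  have hc : ∀ j, (Finset.univ.filter fun i => f i j = f i (j + 1)).card +
      ∑ i : Fin t, (if f i j = f i (j + 1) then 0 else 1) = t := by
    intro j
    rw [Finset.card_filter, ← Finset.sum_add_distrib]
    have : ∀ i : Fin t, ((if f i j = f i (j + 1) then 1 else 0) +
        (if f i j = f i (j + 1) then 0 else 1) : ℕ) = 1 := by
      intro i; split_ifs <;> rfl
    rw [Finset.sum_congr rfl fun i _ => this i]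
    simp
  have hb : ∀ j ∈ Finset.range (2 * n),
      t + 1 ≤ 2 * ∑ i : Fin t, (if f i j = f i (j + 1) then 0 else 1) := by
    intro j hj
    have h1 := hcon j (Finset.mem_range.1 hj)
    have h2 := hc j
    omega
  have hs : ∑ j ∈ Finset.range (2 * n), (t + 1) ≤
      ∑ j ∈ Finset.range (2 * n), 2 * ∑ i : Fin t, (if f i j = f i (j + 1) then 0 else 1) :=
    Finset.sum_le_sum hb
  rw [← Finset.mul_sum, Finset.sum_comm] at hs
  have hu : ∑ i : Fin t, ∑ j ∈ Finset.range (2 * n),
      (if f i j = f i (j + 1) then 0 else 1) ≤ ∑ i : Fin t, n := by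
    refine Finset.sum_le_sum fun i _ => ?_
    have h1 := pgn_tel (f i) (hf i) (2 * n)
    have h2 := h0 i
    omega
  simp only [Finset.sum_const, Finset.card_range, Finset.card_univ, Fintype.card_fin,
    smul_eq_mul] at hs hu
  nlinarith [hs, hu, hn]

theorem pigeon_rank (n : ℕ) (f : ℕ → ℕ) (hf : Monotone f) (h0 : 1 ≤ f 0) (hn : f n ≤ n) :
    ∃ a < n, f a = f (a + 1) := by
  by_contra hcon
  push Not at hcon
  have h : ∀ m, m ≤ n → m + 1 ≤ f m := by
    intro m
    induction m with
    | zero => intro _; omega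
    | succ m ih =>
      intro hm
      have h1 := ih (by omega)
      have h2 := hcon m (by omega)
      have h3 : f m ≤ f (m + 1) := hf (Nat.le_succ m)
      omega
  have := h n le_rfl
  omega

end Pool.Agent.H11.TS
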