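import Pool.Agent.H11.TS.Pdt
import Pool.Agent.H11.TS.Pgn
import Pool.Agent.H11.TS.Par

/-!
# THEOREM TS, Cm1: the range and the lattice

`cm1`. PROOF: `τ = ta n a`, `t = 2τ`. For `i < t` let `p_i` be a prime with `2^i P₀ < p_i ≤ 2^(i+1) P₀` (`Nat.exists_prime_lt_and_le_two_mul`), all
different, in `(P₀, pu n a P₀]`. Choose `S_i` from `PData` for `p_i` (antitone, gradings, growth; `choose`). `f i j = finrank (ZMod p_i) (S_i (Qr^j D))`,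
antitone in `j` (`Qr ≥ 1`, `Submodule.finrank_mono`), `f i 0 ≤ n` (`Submodule.finrank_le`, needs `Fact p_i.Prime`). `pigeon_ranges`: `j < 2n` and a set of at least `τ`
indices with `f i j = f i (j+1)`; `N₀ := Qr^j D`, `Qr N₀ = Qr^(j+1) D ≤ Qr^(2n) D = Mx`. `G` := the set of the `p_i` of these indices (`card ≥ τ`). For `p = p_i ∈ G`
`S p := S_i N₀ = S_i (Qr N₀)` (`S_i (Qr N₀) ≤ S_i N₀` and equal dimensions: `Submodule.eq_of_le_of_finrank_eq`). To avoid dependent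
choices define `S p` directly from the `PData` of `p` (`Classical.choose`, for every prime `p` of the interval) instead of the index `i`, and index the
pigeonhole by `i ↦ p_i`. `Λ := ⨅ p ∈ G, lt (S p)`. `Gr L g (Qr N₀) Λ` by `gr_finset` (`S p = S_i (Qr N₀)`). `∃ e ∈ lb Λ N₀, e ≠ 0`: `gr_meet` at the level
`N₀` (`gr_mono` from `Qr N₀`), for the relation `b` extended by `0` from `bx n D` to `bx n N₀` (`D ≤ N₀`; as in `stb_anti` in `Stb.lean`).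
-/

set_option autoImplicit false

namespace Pool.Agent.H11.TS

/-- the primes -/
private theorem cm1_primes (P₀ : ℕ) (hP₀ : 1 ≤ P₀) : ∃ q : ℕ → ℕ, Function.Injective q ∧
    ∀ i, (q i).Prime ∧ 2 ^ i * P₀ < q i ∧ q i ≤ 2 ^ (i + 1) * P₀ := by
  have h : ∀ i : ℕ, ∃ p, p.Prime ∧ 2 ^ i * P₀ < p ∧ p ≤ 2 ^ (i + 1) * P₀ := by
    intro i
    have h0 : 2 ^ i * P₀ ≠ 0 := by positivity
    obtain ⟨p, hp, h1, h2⟩ := Nat.exists_prime_lt_and_le_two_mul (2 ^ i * P₀) h0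
    refine ⟨p, hp, h1, h2.trans (le_of_eq ?_)⟩
    ring
  choose q hq using h
  have hmono : StrictMono q := strictMono_nat_of_lt_succ fun i => (hq i).2.2.trans_lt (hq (i + 1)).2.1
  exact ⟨q, hmono.injective, hq⟩

/-- the families of subspaces -/
private theorem cm1_fam {L F : Type} [Field L] [Field F] [Algebra L F] {n : ℕ} (g : Fin n → F)
    (P₀ P₁ τ M : ℕ) (hS : ∀ p, p.Prime → P₀ < p → p ≤ P₁ → PData L g p τ M) :
    ∃ SS : (p : ℕ) → ℕ → Submodule (ZMod p) (Fin n → ZMod p),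
      ∀ p, p.Prime → P₀ < p → p ≤ P₁ → Antitone (SS p) ∧ (∀ N, Gr L g N (lt (SS p N))) ∧
        ∀ N₀ N : ℕ, p ^ n * N₀ ≤ N → (p * τ) ^ 4 * N ≤ M →
          hd L g (bx n ((p * τ) ^ 4 * N)) ≤
            p * (2 * (2 * τ) ^ (n + 1) * Nat.card (SS p N₀)) ^ 4 * hd L g (bx n N) := by
  have h : ∀ p : ℕ, ∃ S : ℕ → Submodule (ZMod p) (Fin n → ZMod p),
      p.Prime → P₀ < p → p ≤ P₁ → Antitone S ∧ (∀ N, Gr L g N (lt (S N))) ∧
        ∀ N₀ N : ℕ, p ^ n * N₀ ≤ N → (p * τ) ^ 4 * N ≤ M →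
          hd L g (bx n ((p * τ) ^ 4 * N)) ≤
            p * (2 * (2 * τ) ^ (n + 1) * Nat.card (S N₀)) ^ 4 * hd L g (bx n N) := by
    intro p
    by_cases hc : p.Prime ∧ P₀ < p ∧ p ≤ P₁
    · obtain ⟨S, h1⟩ := hS p hc.1 hc.2.1 hc.2.2
      exact ⟨S, fun _ _ _ => h1⟩
    · exact ⟨fun _ => ⊥, fun h1 h2 h3 => absurd ⟨h1, h2, h3⟩ hc⟩
  choose SS hSS using h
  exact ⟨SS, hSS⟩

private theorem cm1_rank {p n : ℕ} (hp : p.Prime) (S : ℕ → Submodule (ZMod p) (Fin n → ZMod p))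
    (hS : Antitone S) : (Antitone fun N => Module.finrank (ZMod p) (S N)) ∧
    (∀ N, Module.finrank (ZMod p) (S N) ≤ n) ∧
    ∀ N N', N ≤ N' → Module.finrank (ZMod p) (S N) = Module.finrank (ZMod p) (S N') → S N' = S N := by
  have : Fact p.Prime := ⟨hp⟩
  refine ⟨fun N N' h => Submodule.finrank_mono (hS h), fun N => ?_, fun N N' h he => ?_⟩
  · refine (Submodule.finrank_le (S N)).trans (le_of_eq ?_)
    rw [Module.finrank_fin_fun]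
  · exact Submodule.eq_of_le_of_finrank_eq (hS h) he.symm

private theorem cm1_ext {L F : Type} [Field L] [Field F] [Algebra L F] {n : ℕ} (g : Fin n → F)
    (N N' : ℕ) (h : N ≤ N') (b : (Fin n → ℤ) → L)
    (hb : ∑ e ∈ bx n N, algebraMap L F (b e) * mz g e = 0) (hb0 : ∃ e ∈ bx n N, b e ≠ 0) :
    ∃ b' : (Fin n → ℤ) → L, ∑ e ∈ bx n N', algebraMap L F (b' e) * mz g e = 0 ∧
      ∃ e ∈ bx n N', b' e ≠ 0 := by
  classical
  have hsub : bx n N ⊆ bx n N' := by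
    intro e he
    rw [mem_bx] at he ⊢
    intro i
    have h1 := he i
    have h2 : (N : ℤ) ≤ N' := by exact_mod_cast h
    exact ⟨h1.1, h1.2.trans h2⟩
  refine ⟨fun e => if e ∈ bx n N then b e else 0, ?_, ?_⟩
  · rw [← Finset.sum_subset hsub]
    · rw [← hb]
      refine Finset.sum_congr rfl fun e he => ?_
      beta_reduce
      rw [if_pos he]
    · intro e _ he
      beta_reduce
      rw [if_neg he, map_zero, zero_mul]
  · obtain ⟨e, he, hbe⟩ := hb0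
    refine ⟨e, hsub he, ?_⟩
    beta_reduce
    rw [if_pos he]
    exact hbe

theorem cm1 {L F : Type} [Field L] [Field F] [Algebra L F] (n a : ℕ) (hn : 1 ≤ n) (g : Fin n → F)
    (hg : ∀ i, g i ≠ 0) (P₀ D : ℕ) (hP₀ : 3 ≤ P₀) (hD : 1 ≤ D) (b : (Fin n → ℤ) → L)
    (hb : ∑ e ∈ bx n D, algebraMap L F (b e) * mz g e = 0) (hb0 : ∃ e ∈ bx n D, b e ≠ 0)
    (hS : ∀ p, p.Prime → P₀ < p → p ≤ pu n a P₀ → PData L g p (ta n a) (Mx n a P₀ D)) :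
    ∃ (N₀ : ℕ) (Λ : AddSubgroup (Fin n → ℤ)) (G : Finset ℕ)
      (S : (p : ℕ) → Submodule (ZMod p) (Fin n → ZMod p)),
      1 ≤ N₀ ∧ Qr n a P₀ * N₀ ≤ Mx n a P₀ D ∧ ta n a ≤ G.card ∧
      (∀ p ∈ G, p.Prime ∧ P₀ < p ∧ p ≤ pu n a P₀) ∧ (∀ p ∈ G, Λ ≤ lt (S p)) ∧
      (∀ p ∈ G, ∀ N : ℕ, p ^ n * N₀ ≤ N → (p * ta n a) ^ 4 * N ≤ Mx n a P₀ D →
        hd L g (bx n ((p * ta n a) ^ 4 * N)) ≤
          p * (2 * (2 * ta n a) ^ (n + 1) * Nat.card (S p)) ^ 4 * hd L g (bx n N)) ∧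
      Gr L g (Qr n a P₀ * N₀) Λ ∧ ∃ e ∈ lb Λ N₀, e ≠ 0 := by
  classical
  obtain ⟨q, hqi, hq⟩ := cm1_primes P₀ (by omega)
  obtain ⟨SS, hSS⟩ := cm1_fam g P₀ (pu n a P₀) (ta n a) (Mx n a P₀ D) hS
  obtain ⟨τ, hτ⟩ : ∃ τ, τ = ta n a := ⟨_, rfl⟩
  have hτ2 : 2 ≤ τ := by
    rw [hτ, ta]
    exact Nat.le_add_left _ _
  have hqb : ∀ i : ℕ, i < 2 * τ → (q i).Prime ∧ P₀ < q i ∧ q i ≤ pu n a P₀ := by
    intro i hi
    obtain ⟨h1, h2, h3⟩ := hq i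
    refine ⟨h1, lt_of_le_of_lt (Nat.le_mul_of_pos_left P₀ (by positivity)) h2, h3.trans ?_⟩
    unfold pu
    rw [← hτ]
    exact Nat.mul_le_mul_right _ (Nat.pow_le_pow_right (by norm_num) (by omega))
  have hpu1 : 1 ≤ pu n a P₀ := by
    unfold pu
    exact Nat.one_le_iff_ne_zero.2 (by positivity)
  obtain ⟨Q, hQ⟩ : ∃ Q, Q = Qr n a P₀ := ⟨_, rfl⟩
  have hQ1 : 1 ≤ Q := by
    rw [hQ, Qr, ← hτ]
    exact Nat.one_le_iff_ne_zero.2 (by positivity)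
  have hmon : Monotone fun j : ℕ => Q ^ j * D := fun i j h =>
    Nat.mul_le_mul_right D (Nat.pow_le_pow_right hQ1 h)
  have hr : ∀ i : Fin (2 * τ), _ := fun i =>
    cm1_rank (hqb i i.2).1 (SS (q i)) (hSS (q i) (hqb i i.2).1 (hqb i i.2).2.1 (hqb i i.2).2.2).1
  obtain ⟨j, hj, hcard⟩ := pigeon_ranges (2 * τ) n hn
    (fun i j => Module.finrank (ZMod (q i)) (SS (q i) (Q ^ j * D)))
    (fun i => (hr i).1.comp_monotone hmon) (fun i => (hr i).2.1 _)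
  obtain ⟨I, hI⟩ : ∃ I : Finset (Fin (2 * τ)), I = Finset.univ.filter fun i : Fin (2 * τ) =>
      Module.finrank (ZMod (q i)) (SS (q i) (Q ^ j * D)) =
        Module.finrank (ZMod (q i)) (SS (q i) (Q ^ (j + 1) * D)) := ⟨_, rfl⟩
  rw [← hI] at hcard
  obtain ⟨G, hG⟩ : ∃ G : Finset ℕ, G = I.image fun i : Fin (2 * τ) => q i := ⟨_, rfl⟩
  have hGc : τ ≤ G.card := by
    have h1 : (I.image fun i : Fin (2 * τ) => q i).card = I.card :=
      Finset.card_image_of_injective I (hqi.comp Fin.val_injective)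
    rw [hG, h1]
    omega
  have hN : Q * (Q ^ j * D) = Q ^ (j + 1) * D := by ring
  have hGp : ∀ p ∈ G, (p.Prime ∧ P₀ < p ∧ p ≤ pu n a P₀) ∧ SS p (Q * (Q ^ j * D)) = SS p (Q ^ j * D) := by
    intro p hp
    rw [hG, Finset.mem_image] at hp
    obtain ⟨i, hi, rfl⟩ := hp
    rw [hI, Finset.mem_filter] at hi
    refine ⟨hqb i i.2, ?_⟩
    rw [hN]
    exact (hr i).2.2 _ _ (hmon (Nat.le_succ j)) hi.2
  have hN1 : 1 ≤ Q ^ j * D := Nat.mul_pos (Nat.pow_pos hQ1) hD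
  have hDN : D ≤ Q ^ j * D := Nat.le_mul_of_pos_left D (Nat.pow_pos hQ1)
  have hgr : Gr L g (Q * (Q ^ j * D)) (⨅ p ∈ G, lt (SS p (Q ^ j * D))) := by
    refine gr_finset g _ G (fun p => lt (SS p (Q ^ j * D))) fun p hp => ?_
    obtain ⟨h1, h2⟩ := hGp p hp
    have h3 := (hSS p h1.1 h1.2.1 h1.2.2).2.1 (Q * (Q ^ j * D))
    rw [h2] at h3
    exact h3
  refine ⟨Q ^ j * D, ⨅ p ∈ G, lt (SS p (Q ^ j * D)), G, fun p => SS p (Q ^ j * D), hN1, ?_, ?_,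
    fun p hp => (hGp p hp).1, fun p hp => iInf₂_le p hp, fun p hp N h1 h2 => ?_, ?_, ?_⟩
  · rw [← hQ, hN, Mx, ← hQ]
    exact hmon (show j + 1 ≤ 2 * n by omega)
  · rw [← hτ]
    exact hGc
  · obtain ⟨h3, -⟩ := hGp p hp
    exact (hSS p h3.1 h3.2.1 h3.2.2).2.2 _ N h1 h2
  · rw [← hQ]
    exact hgr
  · obtain ⟨b', hb', hb0'⟩ := cm1_ext g D (Q ^ j * D) hDN b hb hb0
    exact gr_meet g hg (Q ^ j * D) _
      (gr_mono g (Nat.le_mul_of_pos_left _ hQ1) _ hgr) b' hb' hb0'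

end Pool.Agent.H11.TS
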