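import Pool.Agent.H11.TS.Defs

/-!
# THEOREM TS, Mnr: minors, a good prime, the size of the stabiliser

`minor_exists`: independent rows: the matrix `k × n` over `ℚ` has rank `k`, so `k` independent columns (`Matrix.rank_transpose`, or:
extract from the columns a basis of the column space `ℚ^k`, `exists_linearIndependent`), and the determinant over `ℚ` is the cast of
the one over `ℤ` (`Int.cast_det`/`RingHom.map_det`).
`minor_le`: `Matrix.det_apply`, `Finset.abs_sum_le_sum_abs`, `k!` terms of size `≤ N^k` (or `Matrix.det_le`).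
`good_prime`: otherwise the product of the `p ∈ G` (pairwise coprime) divides `Δ ≠ 0`: `P₀^card ≤ ∏ p ≤ |Δ|`
(`Finset.prod_dvd_of_coprime`/`Finset.prod_primes_dvd`; `Int.le_of_dvd`).
`stab_card`: for `u ∈ S` the `k` equations `∑_i u_i (e j)_i = 0` over the field `ℤ/p`; the matrix has the invertible minor `c` modulo `p`, so the
linear map `ℤ/p^n → ℤ/p^k`, `u ↦ (∑_i u_i (e j)_i)_j` is surjective (it is so on the coordinates `c`; `c` is injective as the minor is not `0`), its kernel
has dimension `n - k` and contains `S`: `Nat.card S = p^(finrank S) ≤ p^(n-k)` (`Module.card_eq_pow_finrank`, `Nat.card_eq_fintype_card`).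
-/

set_option autoImplicit false

namespace Pool.Agent.H11.TS

theorem minor_exists {k n : ℕ} (e : Fin k → Fin n → ℤ)
    (h : LinearIndependent ℚ (fun i => rv (e i))) :
    ∃ c : Fin k → Fin n, Matrix.det (Matrix.of fun i j => e i (c j)) ≠ 0 := by
  classical
  let f : Fin n → (Fin k → ℚ) := fun j i => (e i j : ℚ)
  let A : Matrix (Fin k) (Fin n) ℚ := Matrix.of fun i j => (e i j : ℚ)
  have hrank : A.rank = k := by
    have h1 : LinearIndependent ℚ A.row := h
    have h2 := h1.rank_matrix
    simpa using h2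
  have hfin : Module.finrank ℚ (Submodule.span ℚ (Set.range f)) = k := by
    have h1 := Matrix.rank_eq_finrank_span_cols A
    rw [hrank] at h1
    exact h1.symm
  obtain ⟨g', hg', -, hli'⟩ := Submodule.exists_fun_fin_finrank_span_eq ℚ (Set.range f)
  obtain ⟨g, hg, hli⟩ : ∃ g : Fin k → (Fin k → ℚ), (∀ i, g i ∈ Set.range f) ∧ LinearIndependent ℚ g :=
    ⟨g' ∘ (finCongr hfin.symm), fun i => hg' _, hli'.comp _ (finCongr hfin.symm).injective⟩
  choose c hc using hg
  refine ⟨c, fun h0 => ?_⟩
  let M : Matrix (Fin k) (Fin k) ℚ := Matrix.of fun i j => (e i (c j) : ℚ)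
  have hM : M.det = 0 := by
    have h1 := (Int.castRingHom ℚ).map_det (Matrix.of fun i j => e i (c j))
    rw [h0, map_zero] at h1
    rw [h1]
    rfl
  have hrow : M.transpose.row = g := by
    funext j
    rw [← hc j]
    rfl
  have hU : IsUnit M.transpose := Matrix.linearIndependent_rows_iff_isUnit.1 (by rw [hrow]; exact hli)
  have h2 := (Matrix.isUnit_iff_isUnit_det _).1 hU
  rw [Matrix.det_transpose, hM] at h2
  exact not_isUnit_zero h2

theorem minor_le {k : ℕ} (A : Matrix (Fin k) (Fin k) ℤ) (N : ℕ) (h : ∀ i j, |A i j| ≤ N) :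
    |A.det| ≤ (k.factorial * N ^ k : ℕ) := by
  have h1 := Matrix.det_le (A := A) (abv := AbsoluteValue.abs) (x := (N : ℤ)) h
  rw [Fintype.card_fin, nsmul_eq_mul] at h1
  push_cast
  exact h1

theorem good_prime (G : Finset ℕ) (P₀ : ℕ) (hG : ∀ p ∈ G, p.Prime ∧ P₀ ≤ p) (Δ : ℤ) (hΔ0 : Δ ≠ 0)
    (hΔ : |Δ| < (P₀ ^ G.card : ℕ)) : ∃ p ∈ G, ¬ (p : ℤ) ∣ Δ := by
  by_contra hcon0
  have hcon : ∀ p ∈ G, (p : ℤ) ∣ Δ := fun p hp => by
    by_contra h
    exact hcon0 ⟨p, hp, h⟩
  have h1 : ∏ p ∈ G, p ∣ Δ.natAbs :=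
    Finset.prod_primes_dvd _ (fun p hp => (hG p hp).1.prime) fun p hp => Int.natCast_dvd.1 (hcon p hp)
  have h2 : ∏ p ∈ G, p ≤ Δ.natAbs := Nat.le_of_dvd (Int.natAbs_pos.2 hΔ0) h1
  have h3 : P₀ ^ G.card ≤ ∏ p ∈ G, p := Finset.pow_card_le_prod _ _ _ fun p hp => (hG p hp).2
  have h4 : |Δ| = (Δ.natAbs : ℤ) := Int.abs_eq_natAbs Δ
  rw [h4] at hΔ
  have h5 : Δ.natAbs < P₀ ^ G.card := by exact_mod_cast hΔ
  omega

theorem stab_card {p k n : ℕ} [Fact p.Prime] (S : Submodule (ZMod p) (Fin n → ZMod p))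
    (e : Fin k → Fin n → ℤ) (he : ∀ i, e i ∈ lt S) (c : Fin k → Fin n)
    (hΔ : ¬ (p : ℤ) ∣ Matrix.det (Matrix.of fun i j => e i (c j))) :
    Nat.card S ≤ p ^ (n - k) := by
  classical
  have hp := (Fact.out : p.Prime)
  let B : Matrix (Fin k) (Fin k) (ZMod p) := Matrix.of fun i j => (e i (c j) : ZMod p)
  have hB : IsUnit B.det := by
    have h1 := (Int.castRingHom (ZMod p)).map_det (Matrix.of fun i j => e i (c j))
    have h2 : B.det = Int.castRingHom (ZMod p) (Matrix.det (Matrix.of fun i j => e i (c j))) := by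
      rw [h1]
      rfl
    rw [h2, isUnit_iff_ne_zero]
    intro h3
    exact hΔ ((ZMod.intCast_zmod_eq_zero_iff_dvd _ _).1 h3)
  let φ : (Fin n → ZMod p) →ₗ[ZMod p] (Fin k → ZMod p) :=
    { toFun := fun u i => ∑ l, u l * (e i l : ZMod p)
      map_add' := by
        intro u v
        funext i
        simp only [Pi.add_apply, add_mul, Finset.sum_add_distrib]
      map_smul' := by
        intro a u
        funext i
        simp only [Pi.smul_apply, smul_eq_mul, RingHom.id_apply, Finset.mul_sum, mul_assoc] }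
  have hsurj : Function.Surjective φ := by
    intro y
    let v : Fin k → ZMod p := B⁻¹.mulVec y
    have hv : B.mulVec v = y := by
      show B.mulVec (B⁻¹.mulVec y) = y
      rw [Matrix.mulVec_mulVec, Matrix.mul_nonsing_inv _ hB, Matrix.one_mulVec]
    refine ⟨fun l => ∑ j, if c j = l then v j else 0, ?_⟩
    funext i
    show ∑ l, (∑ j, if c j = l then v j else 0) * (e i l : ZMod p) = y i
    have h1 : ∀ l, (∑ j, if c j = l then v j else 0) * (e i l : ZMod p) =
        ∑ j, if c j = l then v j * (e i l : ZMod p) else 0 := by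
      intro l
      rw [Finset.sum_mul]
      refine Finset.sum_congr rfl fun j _ => ?_
      split_ifs
      · rfl
      · rw [zero_mul]
    rw [Finset.sum_congr rfl fun l _ => h1 l, Finset.sum_comm]
    have h2 : ∀ j, (∑ l, if c j = l then v j * (e i l : ZMod p) else 0) = v j * (e i (c j) : ZMod p) := by
      intro j
      rw [Finset.sum_ite_eq]
      simp
    rw [Finset.sum_congr rfl fun j _ => h2 j]
    have h3 : y i = (B.mulVec v) i := by rw [hv]
    rw [h3]
    show _ = ∑ j, B i j * v j
    refine Finset.sum_congr rfl fun j _ => ?_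
    rw [mul_comm]
    rfl
  have hle : S ≤ LinearMap.ker φ := by
    intro u hu
    rw [LinearMap.mem_ker]
    funext i
    exact he i u hu
  have hrn := LinearMap.finrank_range_add_finrank_ker φ
  rw [LinearMap.range_eq_top.2 hsurj, finrank_top, Module.finrank_fin_fun, Module.finrank_fin_fun] at hrn
  have hS : Module.finrank (ZMod p) S ≤ n - k := by
    have h1 := Submodule.finrank_mono hle
    omega
  have hcard : Nat.card S = p ^ Module.finrank (ZMod p) S := by
    have h1 := Module.natCard_eq_pow_finrank (K := ZMod p) (V := S)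
    rw [Nat.card_zmod] at h1
    exact h1
  rw [hcard]
  exact Nat.pow_le_pow_right hp.pos hS

end Pool.Agent.H11.TS
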