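import Pool.Agent.H11.TS.Defs

/-!
# THEOREM TS, Hdb: basic properties of the dimensions `hd`

The span of a finite set is finite-dimensional; `hd_mono`: larger span (`Submodule.finrank_mono`); `hd_card`: `finrank_span_le_card`;
`hd_trans`: multiplication by `mz g v ≠ 0` is an injective `L`-linear map of `F` which maps one span to the other (`mz_add`);
`hd_biUnion`: `finrank` of a finite sum of subspaces `≤` the sum (`Submodule.finrank_add_le_finrank_add_finrank`);
`hd_base_le`: with `V = span_L (mz g '' E)`, `W = span_P (mz g '' E)` (as `P`-space of dimension `r = hd P g E`, basis `w_1, .., w_r`): every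
element of `W` is `∑_k y_k • w_k`, `y_k ∈ P`, hence an `L`-combination of the `q r` elements `algebraMap P F (s j) * w_k`; `V ⊆ W`, so
`finrank L V ≤ q r` (`finrank_span_le_card` and monotonicity; scalars: `hι`).
`hd_base_ge`: an `L`-basis of `V` (elements `mz g e`, `e ∈ E' ⊆ E`, `exists_linearIndependent`) spans `W` over `P` (`algebraMap L F x = algebraMap P F (ι x)`).
`hd_pos`: `mz g 0 = 1 ≠ 0`.
-/

set_option autoImplicit false

namespace Pool.Agent.H11.TS

variable {L P F : Type} [Field L] [Field P] [Field F] [Algebra L F] [Algebra P F] {n : ℕ}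

private theorem hd_fin (L : Type) {F : Type} [Field L] [Field F] [Algebra L F] {n : ℕ}
    (g : Fin n → F) (E : Finset (Fin n → ℤ)) :
    Module.Finite L (Submodule.span L (mz g '' (E : Set (Fin n → ℤ)))) :=
  FiniteDimensional.span_of_finite L (E.finite_toSet.image _)

private theorem fr_le {K V : Type} [Field K] [AddCommGroup V] [Module K V] {I : Type} [Fintype I]
    (u : I → V) (U : Submodule K V) (h : U ≤ Submodule.span K (Set.range u)) :
    Module.finrank K U ≤ Fintype.card I := by
  have h1 : Module.Finite K (Submodule.span K (Set.range u)) :=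
    FiniteDimensional.span_of_finite K (Set.finite_range u)
  exact (Submodule.finrank_mono h).trans (finrank_range_le_card u)

theorem hd_mono (g : Fin n → F) {E E' : Finset (Fin n → ℤ)} (h : E ⊆ E') : hd L g E ≤ hd L g E' := by
  have := hd_fin L g E'
  exact Submodule.finrank_mono (Submodule.span_mono (Set.image_mono (Finset.coe_subset.2 h)))

theorem hd_card (g : Fin n → F) (E : Finset (Fin n → ℤ)) : hd L g E ≤ E.card := by
  classical
  unfold hd
  rw [← Finset.coe_image]
  exact (finrank_span_finset_le_card _).trans Finset.card_image_le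

theorem hd_trans (g : Fin n → F) (hg : ∀ i, g i ≠ 0) (E : Finset (Fin n → ℤ)) (v : Fin n → ℤ) :
    hd L g (E.image (fun e => v + e)) = hd L g E := by
  classical
  have h1 : Submodule.span L (mz g '' ((E.image (fun e => v + e) : Finset (Fin n → ℤ)) :
      Set (Fin n → ℤ))) = (Submodule.span L (mz g '' (E : Set (Fin n → ℤ)))).map
        (LinearMap.mulLeft L (mz g v)) := by
    rw [Submodule.map_span, Finset.coe_image, Set.image_image, Set.image_image]
    congr 1
    refine Set.image_congr fun e _ => ?_
    rw [mz_add g hg, LinearMap.mulLeft_apply]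
  have h2 : Function.Injective (LinearMap.mulLeft L (mz g v)) := by
    intro a b hab
    exact mul_left_cancel₀ (mz_ne_zero g hg v) hab
  unfold hd
  rw [h1]
  exact (LinearEquiv.finrank_eq (Submodule.equivMapOfInjective _ h2 _)).symm

theorem hd_biUnion (g : Fin n → F) {I : Type} (s : Finset I) (E : I → Finset (Fin n → ℤ)) :
    hd L g (s.biUnion E) ≤ ∑ i ∈ s, hd L g (E i) := by
  classical
  induction s using Finset.induction_on with
  | empty =>
    rw [Finset.biUnion_empty, Finset.sum_empty]
    exact (hd_card g ∅).trans (by rw [Finset.card_empty])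
  | insert i s his ih =>
    rw [Finset.biUnion_insert, Finset.sum_insert his]
    have h1 := hd_fin L g (E i)
    have h2 := hd_fin L g (s.biUnion E)
    have h3 : hd L g (E i ∪ s.biUnion E) ≤ hd L g (E i) + hd L g (s.biUnion E) := by
      unfold hd
      rw [Finset.coe_union, Set.image_union, Submodule.span_union]
      exact Submodule.finrank_add_le_finrank_add_finrank _ _
    exact h3.trans (Nat.add_le_add_left ih _)

theorem hd_pos (g : Fin n → F) {E : Finset (Fin n → ℤ)} (h : 0 ∈ E) : 1 ≤ hd L g E := by
  have := hd_fin L g E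
  unfold hd
  rw [Submodule.one_le_finrank_iff]
  intro h0
  have h1 : (1 : F) ∈ Submodule.span L (mz g '' (E : Set (Fin n → ℤ))) :=
    Submodule.subset_span ⟨0, h, mz_zero g⟩
  rw [h0, Submodule.mem_bot] at h1
  exact one_ne_zero h1

theorem hd_base_le (ι : L →+* P) (hι : ∀ x, algebraMap P F (ι x) = algebraMap L F x) (q : ℕ)
    (s : Fin q → P) (hs : ∀ y : P, ∃ c : Fin q → L, y = ∑ j, ι (c j) * s j) (g : Fin n → F)
    (E : Finset (Fin n → ℤ)) : hd L g E ≤ q * hd P g E := by
  have hW := hd_fin P g E
  set W := Submodule.span P (mz g '' (E : Set (Fin n → ℤ))) with hWd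
  have b := Module.finBasis P W
  have h1 := fr_le (K := L) (fun jk : Fin q × Fin (Module.finrank P W) =>
    algebraMap P F (s jk.1) * (b jk.2 : F)) (Submodule.span L (mz g '' (E : Set (Fin n → ℤ)))) ?_
  · rw [Fintype.card_prod, Fintype.card_fin, Fintype.card_fin] at h1
    exact h1
  · rw [Submodule.span_le]
    rintro _ ⟨e, he, rfl⟩
    have hx : mz g e ∈ W := Submodule.subset_span ⟨e, he, rfl⟩
    have h2 := congrArg (fun z : W => (z : F)) (b.sum_repr ⟨mz g e, hx⟩)
    simp only [Submodule.coe_sum, Submodule.coe_smul] at h2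
    change mz g e ∈ Submodule.span L _
    rw [← h2]
    refine Submodule.sum_mem _ fun k _ => ?_
    obtain ⟨c, hc⟩ := hs (b.repr ⟨mz g e, hx⟩ k)
    rw [Algebra.smul_def, hc, map_sum, Finset.sum_mul]
    refine Submodule.sum_mem _ fun j _ => ?_
    rw [map_mul, hι, mul_assoc, ← Algebra.smul_def]
    exact Submodule.smul_mem _ _ (Submodule.subset_span ⟨(j, k), rfl⟩)

theorem hd_base_ge (ι : L →+* P) (hι : ∀ x, algebraMap P F (ι x) = algebraMap L F x)
    (g : Fin n → F) (E : Finset (Fin n → ℤ)) : hd P g E ≤ hd L g E := by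
  have hV := hd_fin L g E
  set V := Submodule.span L (mz g '' (E : Set (Fin n → ℤ))) with hVd
  have b := Module.finBasis L V
  have h1 := fr_le (K := P) (fun k : Fin (Module.finrank L V) => (b k : F))
    (Submodule.span P (mz g '' (E : Set (Fin n → ℤ)))) ?_
  · rw [Fintype.card_fin] at h1
    exact h1
  · rw [Submodule.span_le]
    rintro _ ⟨e, he, rfl⟩
    have hx : mz g e ∈ V := Submodule.subset_span ⟨e, he, rfl⟩
    have h2 := congrArg (fun z : V => (z : F)) (b.sum_repr ⟨mz g e, hx⟩)
    simp only [Submodule.coe_sum, Submodule.coe_smul] at h2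
    change mz g e ∈ Submodule.span P _
    rw [← h2]
    refine Submodule.sum_mem _ fun k _ => ?_
    rw [Algebra.smul_def, ← hι, ← Algebra.smul_def]
    exact Submodule.smul_mem _ _ (Submodule.subset_span ⟨k, rfl⟩)

end Pool.Agent.H11.TS
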