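import Pool.Agent.H11.TS.Cmp
import Pool.Agent.H11.TS.Hdb

/-!
# THEOREM TS, Cm3: a level with small doubling

`cm3`. PROOF: `lam = p τ ≥ 2`, `N' = lam^4 N₂ / 3` (natural division), `3 N' ≤ lam^4 N₂`, `3 (N' + 1) > lam^4 N₂`, `N₂ + 1 ≤ N'` (as `lam^4 ≥ 16^.. `: `lam^4 N₂ / 3 ≥ 5 N₂`). `rk Λ N' ≤ k`
(`rk_mono`). `hd (bx (3N')) ≤ hd (bx (lam^4 N₂)) ≤ B hd (bx N₂)` (`hd_mono`) with `B = p (2 (2τ)^(n+1) p^(n-k))^4`. `count`: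
`hd (lb N') ≤ B (12 n)^n ((N₂+1)/(N'+1))^(n-k) hd (lb N₂)`, `(N₂+1)/(N'+1) ≤ 2 N₂ * 3/(lam^4 N₂) = 6/lam^4 ≤ 6 / p^4`: so `hd (lb N') ≤ C₅ p hd (lb N₂)`,
`C₅ = (2 (2τ)^(n+1))^4 (72 n)^n`, `< p^2 hd (lb N₂)` (`hC : C₅ < p`).
Dyadic: let `K` be the largest number with `2^K N₂ ≤ N'` (`K = Nat.log 2 (N'/N₂)`). If `3 hd (lb (2^i N₂)) ≤ 2 hd (lb (2^(i+1) N₂))` for all `i < K` then
`(3/2)^K hd (lb N₂) ≤ hd (lb (2^K N₂)) ≤ hd (lb N')` (`hd_mono`), so `(3/2)^K < p^2` (`hd (lb N₂) ≥ 1`: `hd_pos`, `0 ∈ lb`). But `2^(K+1) N₂ > N'`, so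
`2^(K+1) ≥ (N'+1)/N₂ > lam^4/3`, and `(3/2)^2 > 2`: `((3/2)^(K+1))^2 ≥ 2^(K+1) > lam^4/3`, `(3/2)^K > (2/3) lam^2 / sqrt 3 ≥ lam^2/3 ≥ p^2 τ^2/3 ≥ p^2` as
`τ ≥ 2`: in squares: `((3/2)^K)^2 * (9/4) > lam^4/3` so `((3/2)^K)^2 > 4 p^4 τ^4/27 ≥ 64 p^4/27 > p^4`. Contradiction. So for some `i < K`, `N = 2^i N₂`:
`2 hd (lb (2N)) < 3 hd (lb N)`, `N₂ ≤ N`, `2 N ≤ 2^K N₂ ≤ N' ≤ lam^4 N₂`.
-/

set_option autoImplicit false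

namespace Pool.Agent.H11.TS

variable {L F : Type} [Field L] [Field F] [Algebra L F] {n : ℕ}

private theorem bx_mono {N N' : ℕ} (h : N ≤ N') : bx n N ⊆ bx n N' := by
  intro e he
  rw [mem_bx] at he ⊢
  exact fun i => ⟨(he i).1, (he i).2.trans (by exact_mod_cast h)⟩

private theorem lb_mono (Λ : AddSubgroup (Fin n → ℤ)) {N N' : ℕ} (h : N ≤ N') : lb Λ N ⊆ lb Λ N' := by
  intro e he
  rw [mem_lb] at he ⊢
  exact ⟨fun i => (he.1 i).trans (by exact_mod_cast h), he.2⟩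

private theorem zero_mem_lb (Λ : AddSubgroup (Fin n → ℤ)) (N : ℕ) : (0 : Fin n → ℤ) ∈ lb Λ N := by
  rw [mem_lb]
  exact ⟨fun i => by simp, Λ.zero_mem⟩

/-- dyadic pigeonhole -/
private theorem dyad (h : ℕ → ℕ) (hm : Monotone h) (N₂ N' m p : ℕ) (hN₂ : 1 ≤ N₂) (hN' : N₂ ≤ N')
    (hN'm : N' ≤ m) (h1 : 1 ≤ h N₂) (hp : 0 < p) (hbig : 16 * p ^ 4 * N₂ < 3 * (N' + 1))
    (hgr : h N' < p ^ 2 * h N₂) : ∃ N : ℕ, N₂ ≤ N ∧ 2 * N ≤ m ∧ 2 * h (2 * N) < 3 * h N := by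
  by_contra hcon
  push Not at hcon
  have h2 : ∀ i, 2 ^ i * N₂ ≤ N' → 3 ^ i * h N₂ ≤ 2 ^ i * h (2 ^ i * N₂) := by
    intro i
    induction i with
    | zero => intro _; simp
    | succ i ih =>
      intro hi
      have h3 : 2 * (2 ^ i * N₂) ≤ N' := by
        have : 2 * (2 ^ i * N₂) = 2 ^ (i + 1) * N₂ := by ring
        rw [this]
        exact hi
      have h4 : 2 ^ i * N₂ ≤ N' := by omega
      have h5 : N₂ ≤ 2 ^ i * N₂ := Nat.le_mul_of_pos_left _ (by positivity)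
      have h6 := hcon (2 ^ i * N₂) h5 (h3.trans hN'm)
      have h7 : 2 * (2 ^ i * N₂) = 2 ^ (i + 1) * N₂ := by ring
      rw [h7] at h6
      calc 3 ^ (i + 1) * h N₂ = 3 * (3 ^ i * h N₂) := by ring
        _ ≤ 3 * (2 ^ i * h (2 ^ i * N₂)) := Nat.mul_le_mul_left _ (ih h4)
        _ = 2 ^ i * (3 * h (2 ^ i * N₂)) := by ring
        _ ≤ 2 ^ i * (2 * h (2 ^ (i + 1) * N₂)) := Nat.mul_le_mul_left _ h6
        _ = 2 ^ (i + 1) * h (2 ^ (i + 1) * N₂) := by ring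
  set K := Nat.log 2 (N' / N₂) with hK
  have hq : N' / N₂ ≠ 0 := (Nat.div_pos hN' hN₂).ne'
  have h3 : 2 ^ K * N₂ ≤ N' := by
    have h4 : 2 ^ K ≤ N' / N₂ := Nat.pow_log_le_self 2 hq
    exact (Nat.mul_le_mul_right _ h4).trans (Nat.div_mul_le_self _ _)
  have h4 : N' < 2 ^ (K + 1) * N₂ := by
    have h5 : N' / N₂ < 2 ^ (K + 1) := Nat.lt_pow_succ_log_self (by norm_num) _
    exact (Nat.div_lt_iff_lt_mul hN₂).1 h5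
  have h5 : 3 ^ K * h N₂ < 2 ^ K * (p ^ 2 * h N₂) :=
    calc 3 ^ K * h N₂ ≤ 2 ^ K * h (2 ^ K * N₂) := h2 K h3
      _ ≤ 2 ^ K * h N' := Nat.mul_le_mul_left _ (hm h3)
      _ < 2 ^ K * (p ^ 2 * h N₂) := Nat.mul_lt_mul_of_pos_left hgr (by positivity)
  have h6 : 3 ^ K < 2 ^ K * p ^ 2 := by
    have : 3 ^ K * h N₂ < (2 ^ K * p ^ 2) * h N₂ := by
      rw [mul_assoc]
      exact h5
    exact lt_of_mul_lt_mul_right this (Nat.zero_le _)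
  have h7 : (3 ^ K) ^ 2 < (2 ^ K * p ^ 2) ^ 2 := Nat.pow_lt_pow_left h6 (by norm_num)
  have h8 : 16 * p ^ 4 < 6 * 2 ^ K := by
    have h9 : 16 * p ^ 4 * N₂ < (6 * 2 ^ K) * N₂ := by
      calc 16 * p ^ 4 * N₂ < 3 * (N' + 1) := hbig
        _ ≤ 3 * (2 ^ (K + 1) * N₂) := Nat.mul_le_mul_left _ h4
        _ = (6 * 2 ^ K) * N₂ := by ring
    exact lt_of_mul_lt_mul_right h9 (Nat.zero_le _)
  have h10 : p ^ 4 ≤ 2 ^ K := by omega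
  have h11 : (2 ^ K * p ^ 2) ^ 2 ≤ (3 ^ K) ^ 2 := by
    have e1 : (2 ^ K * p ^ 2) ^ 2 = 4 ^ K * p ^ 4 := by
      have : (4 : ℕ) ^ K = (2 ^ K) ^ 2 := by
        rw [← pow_mul, mul_comm K 2, pow_mul]
        norm_num
      rw [this]
      ring
    have e2 : ((3 : ℕ) ^ K) ^ 2 = 9 ^ K := by
      rw [← pow_mul, mul_comm K 2, pow_mul]
      norm_num
    rw [e1, e2]
    calc 4 ^ K * p ^ 4 ≤ 4 ^ K * 2 ^ K := Nat.mul_le_mul_left _ h10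
      _ = 8 ^ K := by
          rw [← mul_pow]
          norm_num
      _ ≤ 9 ^ K := Nat.pow_le_pow_left (by norm_num) _
  omega

private theorem cst (p τ N₂ N' n k B : ℕ) (a b : ℝ) (hp : 1 ≤ p) (hτ : 1 ≤ τ)
    (hN₂ : 1 ≤ N₂) (hN' : (p * τ) ^ 4 * N₂ < 3 * (N' + 1)) (hb : 0 ≤ b)
    (hB : B = p * (2 * (2 * τ) ^ (n + 1) * p ^ (n - k)) ^ 4)
    (h : a ≤ B * (12 * n : ℝ) ^ n * (((N₂ : ℝ) + 1) / ((N' : ℝ) + 1)) ^ (n - k) * b) :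
    a ≤ p * (((2 * (2 * τ) ^ (n + 1)) ^ 4 * (72 * n) ^ n : ℕ) : ℝ) * b := by
  have hpR : (1 : ℝ) ≤ p := by exact_mod_cast hp
  have hτR : (1 : ℝ) ≤ τ := by exact_mod_cast hτ
  have hN₂R : (1 : ℝ) ≤ N₂ := by exact_mod_cast hN₂
  have hp4 : (0 : ℝ) < (p : ℝ) ^ 4 := by positivity
  have hr : ((N₂ : ℝ) + 1) / ((N' : ℝ) + 1) ≤ 6 / (p : ℝ) ^ 4 := by
    rw [div_le_div_iff₀ (by positivity) hp4]
    have h1 : ((p : ℝ) * τ) ^ 4 * N₂ ≤ 3 * ((N' : ℝ) + 1) := by exact_mod_cast hN'.le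
    have h2 : (p : ℝ) ^ 4 ≤ ((p : ℝ) * τ) ^ 4 :=
      pow_le_pow_left₀ (by positivity) (le_mul_of_one_le_right (by positivity) hτR) 4
    calc ((N₂ : ℝ) + 1) * (p : ℝ) ^ 4 ≤ (2 * N₂) * (p : ℝ) ^ 4 :=
          mul_le_mul_of_nonneg_right (by linarith) hp4.le
      _ = 2 * ((p : ℝ) ^ 4 * N₂) := by ring
      _ ≤ 2 * (((p : ℝ) * τ) ^ 4 * N₂) := by
          refine mul_le_mul_of_nonneg_left (mul_le_mul_of_nonneg_right h2 (by positivity)) (by norm_num)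
      _ ≤ 2 * (3 * ((N' : ℝ) + 1)) := mul_le_mul_of_nonneg_left h1 (by norm_num)
      _ = 6 * ((N' : ℝ) + 1) := by ring
  have h6 : (((N₂ : ℝ) + 1) / ((N' : ℝ) + 1)) ^ (n - k) ≤ 6 ^ n / ((p : ℝ) ^ (n - k)) ^ 4 := by
    calc (((N₂ : ℝ) + 1) / ((N' : ℝ) + 1)) ^ (n - k) ≤ (6 / (p : ℝ) ^ 4) ^ (n - k) :=
          pow_le_pow_left₀ (by positivity) hr _
      _ = 6 ^ (n - k) / ((p : ℝ) ^ (n - k)) ^ 4 := by
          rw [div_pow, ← pow_mul, ← pow_mul, mul_comm 4 (n - k)]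
      _ ≤ 6 ^ n / ((p : ℝ) ^ (n - k)) ^ 4 :=
          div_le_div_of_nonneg_right (pow_le_pow_right₀ (by norm_num) (Nat.sub_le _ _)) (by positivity)
  refine h.trans ?_
  refine mul_le_mul_of_nonneg_right ?_ hb
  have hpk : (0 : ℝ) < ((p : ℝ) ^ (n - k)) ^ 4 := by positivity
  calc (B : ℝ) * (12 * n : ℝ) ^ n * (((N₂ : ℝ) + 1) / ((N' : ℝ) + 1)) ^ (n - k)
      ≤ (B : ℝ) * (12 * n : ℝ) ^ n * (6 ^ n / ((p : ℝ) ^ (n - k)) ^ 4) :=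
        mul_le_mul_of_nonneg_left h6 (by positivity)
    _ = p * (((2 * (2 * τ) ^ (n + 1)) ^ 4 * (72 * n) ^ n : ℕ) : ℝ) := by
        rw [hB]
        push_cast
        have e1 : ((72 : ℝ) * n) ^ n = (12 * n) ^ n * 6 ^ n := by
          rw [← mul_pow]
          ring
        rw [e1, mul_pow (2 * (2 * (τ : ℝ)) ^ (n + 1)) ((p : ℝ) ^ (n - k)) 4]
        field_simp

theorem cm3 (g : Fin n → F) (hg : ∀ i, g i ≠ 0) (Λ : AddSubgroup (Fin n → ℤ)) (τ p k N₂ : ℕ)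
    (hτ : 2 ≤ τ) (hkn : k ≤ n) (hN₂ : 1 ≤ N₂) (hk : rk Λ ((p * τ) ^ 4 * N₂) = k)
    (hGr : Gr L g ((p * τ) ^ 4 * N₂) Λ)
    (hB : hd L g (bx n ((p * τ) ^ 4 * N₂)) ≤
      p * (2 * (2 * τ) ^ (n + 1) * p ^ (n - k)) ^ 4 * hd L g (bx n N₂))
    (hC : (2 * (2 * τ) ^ (n + 1)) ^ 4 * (72 * n) ^ n < p) :
    ∃ N : ℕ, N₂ ≤ N ∧ 2 * N ≤ (p * τ) ^ 4 * N₂ ∧
      2 * hd L g (lb Λ (2 * N)) < 3 * hd L g (lb Λ N) := by
  have hp : 1 ≤ p := by omega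
  set m := (p * τ) ^ 4 * N₂ with hm
  set N' := m / 3 with hN'
  have hlam : 2 ^ 4 * p ^ 4 ≤ (p * τ) ^ 4 := by
    rw [mul_pow, mul_comm (2 ^ 4)]
    exact Nat.mul_le_mul_left _ (Nat.pow_le_pow_left hτ 4)
  have hlam2 : 16 * p ^ 4 * N₂ ≤ m := by
    rw [hm]
    exact Nat.mul_le_mul_right _ (by simpa using hlam)
  have hp4 : 1 ≤ p ^ 4 := Nat.one_le_pow _ _ hp
  have hm16 : 16 * N₂ ≤ m := by
    refine le_trans ?_ hlam2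
    have : 16 * 1 * N₂ ≤ 16 * p ^ 4 * N₂ := Nat.mul_le_mul_right _ (Nat.mul_le_mul_left _ hp4)
    omega
  have h3 : 3 * N' ≤ m := by omega
  have h3' : m < 3 * (N' + 1) := by omega
  have hN2 : N₂ + 1 ≤ N' := by omega
  have hNm : N' ≤ m := by omega
  have hcount := count (L := L) g hg Λ N₂ N' k (p * (2 * (2 * τ) ^ (n + 1) * p ^ (n - k)) ^ 4) hN2
    ((rk_mono Λ hNm).trans hk.le) hkn (gr_mono g h3 Λ hGr)
    ((hd_mono g (bx_mono h3)).trans hB)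
  have hc2 := cst p τ N₂ N' n k _ _ _ hp (by omega) hN₂ h3' (Nat.cast_nonneg _) rfl hcount
  have hpos : 1 ≤ hd L g (lb Λ N₂) := hd_pos g (zero_mem_lb Λ N₂)
  have hlt : hd L g (lb Λ N') < p ^ 2 * hd L g (lb Λ N₂) := by
    have h4 : hd L g (lb Λ N') ≤ p * ((2 * (2 * τ) ^ (n + 1)) ^ 4 * (72 * n) ^ n) *
        hd L g (lb Λ N₂) := by exact_mod_cast hc2
    refine lt_of_le_of_lt h4 ?_
    refine Nat.mul_lt_mul_of_pos_right ?_ hpos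
    rw [pow_two]
    exact Nat.mul_lt_mul_of_pos_left hC hp
  exact dyad (fun N => hd L g (lb Λ N)) (fun a b hab => hd_mono g (lb_mono Λ hab)) N₂ N' m p hN₂
    (by omega) hNm hpos hp (lt_of_le_of_lt hlam2 h3') hlt

end Pool.Agent.H11.TS
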