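import Pool.Agent.H11.TS.Thr2
import Pool.Agent.H11.TS.Hdb

/-!
# THEOREM TS, Cm4: the field

`cm4`. PROOF: `U = span L (mz g '' lb Λ N)`, `1 = mz g 0 ∈ U`; `U * U ≤ span L (mz g '' lb Λ (2N))` (`Submodule.span_mul_span`, `mz_add`; sums of two elements of
`lb Λ N` are in `lb Λ (2N)`), so `finrank (U * U) ≤ hd (lb Λ (2N))` and `2 finrank (U*U) < 3 hd (lb Λ N) = 3 finrank U`. `three_halves`: the intermediate field `H` with
`H = U * U`. `mz g e = mz g e * 1 ∈ U * U`. `H` is finite-dimensional, `finrank H = finrank (U*U)`: `2 finrank H ≤ 2 hd (lb (2N)) < 3 hd (lb N) ≤ 3 card (lb Λ N)` (`hd_card`).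
-/

set_option autoImplicit false

namespace Pool.Agent.H11.TS

variable {L F : Type} [Field L] [Field F] [Algebra L F] {n : ℕ}

theorem cm4 [Infinite L] (g : Fin n → F) (hg : ∀ i, g i ≠ 0) (Λ : AddSubgroup (Fin n → ℤ)) (N : ℕ)
    (h : 2 * hd L g (lb Λ (2 * N)) < 3 * hd L g (lb Λ N)) :
    ∃ H : IntermediateField L F, (∀ e ∈ lb Λ N, mz g e ∈ H) ∧ FiniteDimensional L H ∧
      2 * Module.finrank L H < 3 * (lb Λ N).card := by
  have hfin : ∀ E : Finset (Fin n → ℤ), FiniteDimensional L (Submodule.span L (mz g '' (E : Set (Fin n → ℤ)))) :=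
    fun E => FiniteDimensional.span_of_finite L (E.finite_toSet.image _)
  obtain ⟨U, hU⟩ : ∃ U : Submodule L F, U = Submodule.span L (mz g '' (lb Λ N : Set (Fin n → ℤ))) := ⟨_, rfl⟩
  obtain ⟨W, hW⟩ : ∃ W : Submodule L F, W = Submodule.span L (mz g '' (lb Λ (2 * N) : Set (Fin n → ℤ))) := ⟨_, rfl⟩
  have hUf : FiniteDimensional L U := by
    rw [hU]
    exact hfin _
  have hWf : FiniteDimensional L W := by
    rw [hW]
    exact hfin _
  have h0 : (0 : Fin n → ℤ) ∈ lb Λ N := by
    rw [mem_lb]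
    refine ⟨fun i => ?_, Λ.zero_mem⟩
    rw [Pi.zero_apply, abs_zero]
    exact Int.natCast_nonneg N
  have h1 : (1 : F) ∈ U := by
    rw [hU, ← mz_zero g]
    exact Submodule.subset_span ⟨0, Finset.mem_coe.2 h0, rfl⟩
  have hUW : U * U ≤ W := by
    rw [hU, hW, Submodule.span_mul_span]
    refine Submodule.span_mono ?_
    rintro x ⟨a, ⟨e, he, rfl⟩, b, ⟨e', he', rfl⟩, rfl⟩
    refine ⟨e + e', ?_, mz_add g hg e e'⟩
    have he1 := (mem_lb Λ N e).1 (Finset.mem_coe.1 he)
    have he2 := (mem_lb Λ N e').1 (Finset.mem_coe.1 he')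
    refine Finset.mem_coe.2 ((mem_lb Λ (2 * N) _).2 ⟨fun i => ?_, Λ.add_mem he1.2 he2.2⟩)
    rw [Pi.add_apply]
    have h3 := abs_add_le (e i) (e' i)
    have h4 := he1.1 i
    have h5 := he2.1 i
    push_cast
    linarith
  have hUUf : FiniteDimensional L (U * U : Submodule L F) := Submodule.finiteDimensional_of_le hUW
  have hle : Module.finrank L (U * U : Submodule L F) ≤ hd L g (lb Λ (2 * N)) := by
    have h6 := Submodule.finrank_mono hUW
    have h7 : Module.finrank L W = hd L g (lb Λ (2 * N)) := by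
      rw [hW]
      rfl
    omega
  have hUd : Module.finrank L U = hd L g (lb Λ N) := by
    rw [hU]
    rfl
  have hlt : 2 * Module.finrank L (U * U : Submodule L F) < 3 * Module.finrank L U := by omega
  obtain ⟨H, hH⟩ := three_halves U h1 hlt
  obtain ⟨f, hf⟩ : ∃ f : H →ₗ[L] (U * U : Submodule L F), Function.Injective f := by
    refine ⟨LinearMap.codRestrict (U * U) H.val.toLinearMap (fun x => (hH _).1 x.2), ?_⟩
    intro a b hab
    have h8 := congrArg Subtype.val hab
    exact Subtype.ext h8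
  refine ⟨H, fun e he => ?_, Module.Finite.of_injective f hf, ?_⟩
  · refine (hH _).2 ?_
    have h9 : mz g e ∈ U := by
      rw [hU]
      exact Submodule.subset_span ⟨e, Finset.mem_coe.2 he, rfl⟩
    have h10 := Submodule.mul_mem_mul h9 h1
    rwa [mul_one] at h10
  · have h11 : Module.finrank L H ≤ Module.finrank L (U * U : Submodule L F) :=
      LinearMap.finrank_le_finrank_of_injective hf
    have h12 := hd_card (L := L) g (lb Λ N)
    omega

end Pool.Agent.H11.TS
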