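import Pool.Agent.H11.TS.Lat

/-!
# THEOREM TS, Mna: successive minima

`minima`. PROOF: strong induction on `k = rk Λ N`, with the constant `(4n)^(k^2)` in the place of `(4n)^(n^2)` (if `n = 0` all is trivial: `k = 0`; for
`n ≥ 1` at the end `k ≤ n`, `rk_le`). `k = 0`: `(lb Λ N).card = 1` (every element has `rv e = 0`). `k ≥ 1`: let `u` be the least number with `rk Λ u = k`
(`N` is one; `u ≥ 1` as `rk Λ 0 = 0` by `lb_zero`; `u ≤ N`). `k' = rk Λ (u-1) < k` (`rk_mono` and minimality). By `lat` with `s = u`: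
`card (lb Λ N) ≤ (4nN/u)^k card (lb Λ (u-1))`. If `u - 1 ≥ 1` the induction hypothesis for `u - 1` gives `e'_i ∈ lb Λ (μ'_i)`, `i < k'`, independent,
`1 ≤ μ'_i ≤ u - 1`, `card (lb Λ (u-1)) ∏ μ'_i ≤ (4n)^(k'^2) (u-1)^k'`; if `u = 1` then `k' = 0`, `card (lb Λ 0) = 1`. The span of `rv '' lb Λ u` has
dimension `k` and contains the `rv e'_i`: extend the `k'` vectors by `k - k'` vectors of `rv '' lb Λ u` to `k` independent vectors, with
`μ = u` for the new ones. Then `card (lb Λ N) ∏ μ ≤ (4n)^k N^k u^(-k) (4n)^(k'^2) u^k' u^(k-k') = (4n)^(k + k'^2) N^k`, `k + k'^2 ≤ k^2`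
for `k' ≤ k - 1` (`k + (k-1)^2 ≤ k^2` iff `k ≤ 2k - 1`). (Reindex `Fin k ≃ Fin k' ⊕ Fin (k-k')`.)
-/

set_option autoImplicit false

namespace Pool.Agent.H11.TS

private theorem mn_mono {n : ℕ} (Λ : AddSubgroup (Fin n → ℤ)) {N N' : ℕ} (h : N ≤ N') {e : Fin n → ℤ}
    (he : e ∈ lb Λ N) : e ∈ lb Λ N' := by
  rw [mem_lb] at he ⊢
  refine ⟨fun i => (he.1 i).trans ?_, he.2⟩
  exact_mod_cast h

/-- extension of an independent family by vectors of `lb Λ u` -/
private theorem mn_ext {n : ℕ} (Λ : AddSubgroup (Fin n → ℤ)) (u k' : ℕ) (hu : 1 ≤ u)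
    (e' : Fin k' → Fin n → ℤ) (μ' : Fin k' → ℕ) (h1 : ∀ i, e' i ∈ lb Λ (μ' i))
    (h2 : ∀ i, 1 ≤ μ' i ∧ μ' i ≤ u) (h3 : LinearIndependent ℚ (fun i => rv (e' i))) :
    ∀ d : ℕ, k' + d ≤ rk Λ u → ∃ (e : Fin (k' + d) → Fin n → ℤ) (μ : Fin (k' + d) → ℕ),
      (∀ i, e i ∈ lb Λ (μ i)) ∧ (∀ i, 1 ≤ μ i ∧ μ i ≤ u) ∧
      LinearIndependent ℚ (fun i => rv (e i)) ∧ ∏ i, μ i = (∏ i, μ' i) * u ^ d
  | 0, _ => ⟨e', μ', h1, h2, h3, by
      rw [pow_zero, mul_one]
      rfl⟩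
  | d + 1, hd => by
    obtain ⟨e, μ, g1, g2, g3, g4⟩ := mn_ext Λ u k' hu e' μ' h1 h2 h3 d (by omega)
    obtain ⟨e0, he0, hne⟩ : ∃ e0 ∈ lb Λ u, rv e0 ∉ Submodule.span ℚ (Set.range fun i => rv (e i)) := by
      by_contra hcon
      push Not at hcon
      have h5 : Submodule.span ℚ (rv '' (lb Λ u : Set (Fin n → ℤ))) ≤
          Submodule.span ℚ (Set.range fun i => rv (e i)) := by
        rw [Submodule.span_le]
        rintro _ ⟨e0, he0, rfl⟩
        exact hcon e0 he0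
      have h6 : rk Λ u ≤ Module.finrank ℚ (Submodule.span ℚ (Set.range fun i => rv (e i))) :=
        Submodule.finrank_mono h5
      have h7 := finrank_range_le_card (R := ℚ) (fun i => rv (e i))
      rw [Fintype.card_fin] at h7
      have h8 : rk Λ u ≤ k' + d := h6.trans h7
      omega
    refine ⟨(Fin.cons e0 e : Fin (k' + d + 1) → Fin n → ℤ), (Fin.cons u μ : Fin (k' + d + 1) → ℕ),
      ?_, ?_, ?_, ?_⟩
    · intro i
      refine Fin.cases ?_ (fun i => ?_) i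
      · rw [Fin.cons_zero, Fin.cons_zero]
        exact he0
      · rw [Fin.cons_succ, Fin.cons_succ]
        exact g1 i
    · intro i
      refine Fin.cases ?_ (fun i => ?_) i
      · rw [Fin.cons_zero]
        exact ⟨hu, le_rfl⟩
      · rw [Fin.cons_succ]
        exact g2 i
    · have h5 : (fun i : Fin (k' + d + 1) => rv ((Fin.cons e0 e : Fin (k' + d + 1) → Fin n → ℤ) i)) =
          (Fin.cons (rv e0) (fun i => rv (e i)) : Fin (k' + d + 1) → Fin n → ℚ) := by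
        funext i
        refine Fin.cases ?_ (fun i => ?_) i
        · rw [Fin.cons_zero, Fin.cons_zero]
        · rw [Fin.cons_succ, Fin.cons_succ]
      change LinearIndependent ℚ
        (fun i : Fin (k' + d + 1) => rv ((Fin.cons e0 e : Fin (k' + d + 1) → Fin n → ℤ) i))
      rw [h5]
      exact linearIndependent_finCons.2 ⟨g3, hne⟩
    · change ∏ i : Fin (k' + d + 1), (Fin.cons u μ : Fin (k' + d + 1) → ℕ) i = _
      rw [Fin.prod_univ_succ, Fin.cons_zero]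
      have h5 : ∀ i : Fin (k' + d), (Fin.cons u μ : Fin (k' + d + 1) → ℕ) i.succ = μ i :=
        fun i => Fin.cons_succ _ _ _
      rw [Finset.prod_congr rfl fun i _ => h5 i, g4, pow_succ]
      ring

private theorem mn_card_zero {n : ℕ} (Λ : AddSubgroup (Fin n → ℤ)) (N : ℕ) (h : rk Λ N = 0) :
    (lb Λ N).card = 1 := by
  have h1 : ∀ e ∈ lb Λ N, e = 0 := by
    intro e he
    by_contra hne
    have h2 := rk_pos Λ N ⟨e, he, hne⟩
    omega
  have h2 : (0 : Fin n → ℤ) ∈ lb Λ N := by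
    rw [mem_lb]
    exact ⟨fun i => by simp, Λ.zero_mem⟩
  have h3 : lb Λ N = {0} := by
    ext e
    rw [Finset.mem_singleton]
    exact ⟨h1 e, fun h => h ▸ h2⟩
  rw [h3, Finset.card_singleton]

private theorem mn_aux {n : ℕ} (hn : 1 ≤ n) (Λ : AddSubgroup (Fin n → ℤ)) :
    ∀ k N : ℕ, 1 ≤ N → rk Λ N = k → ∃ (e : Fin k → Fin n → ℤ) (μ : Fin k → ℕ),
      (∀ i, e i ∈ lb Λ (μ i)) ∧ (∀ i, 1 ≤ μ i ∧ μ i ≤ N) ∧ LinearIndependent ℚ (fun i => rv (e i)) ∧
      ((lb Λ N).card : ℝ) * ((∏ i, μ i : ℕ) : ℝ) ≤ (4 * n : ℝ) ^ (k ^ 2) * (N : ℝ) ^ k := by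
  intro k
  induction k using Nat.strong_induction_on with
  | _ k ih =>
    intro N hN hk
    rcases Nat.eq_zero_or_pos k with hk0 | hk0
    · subst hk0
      refine ⟨fun i => i.elim0, fun i => i.elim0, fun i => i.elim0, fun i => i.elim0,
        linearIndependent_empty_type, ?_⟩
      rw [mn_card_zero Λ N hk]
      simp
    · classical
      have hex : ∃ u, rk Λ u = k := ⟨N, hk⟩
      obtain ⟨u, hu1, hmin, huN⟩ : ∃ u, rk Λ u = k ∧ (∀ v < u, rk Λ v ≠ k) ∧ u ≤ N :=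
        ⟨Nat.find hex, Nat.find_spec hex, fun v hv => Nat.find_min hex hv, Nat.find_min' hex hk⟩
      have hu0 : 1 ≤ u := by
        rcases Nat.eq_zero_or_pos u with h0 | h0
        · exfalso
          rw [h0] at hu1
          have h1 : 1 ≤ rk Λ 0 := by omega
          have h2 : rk Λ 0 = 0 := by
            unfold rk
            rw [lb_zero]
            have h3 : rv '' (({0} : Finset (Fin n → ℤ)) : Set (Fin n → ℤ)) = {0} := by
              rw [Finset.coe_singleton, Set.image_singleton]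
              congr 1
            rw [h3, Submodule.span_singleton_eq_bot.2 rfl, finrank_bot]
          omega
        · exact h0
      have hk1 : rk Λ (u - 1) < k := by
        have h1 : rk Λ (u - 1) ≤ k := by
          have h2 := rk_mono Λ (show u - 1 ≤ u by omega)
          omega
        have h2 : rk Λ (u - 1) ≠ k := hmin _ (by omega)
        omega
      obtain ⟨k', hkk, e', μ', g1, g2, g3, g4⟩ : ∃ k' < k, ∃ (e' : Fin k' → Fin n → ℤ)
          (μ' : Fin k' → ℕ), (∀ i, e' i ∈ lb Λ (μ' i)) ∧ (∀ i, 1 ≤ μ' i ∧ μ' i ≤ u) ∧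
          LinearIndependent ℚ (fun i => rv (e' i)) ∧
          ((lb Λ (u - 1)).card : ℝ) * ((∏ i, μ' i : ℕ) : ℝ) ≤
            (4 * n : ℝ) ^ (k' ^ 2) * (u : ℝ) ^ k' := by
        rcases Nat.lt_or_ge 1 u with h1 | h1
        · obtain ⟨e', μ', g1, g2, g3, g4⟩ := ih (rk Λ (u - 1)) hk1 (u - 1) (by omega) rfl
          refine ⟨rk Λ (u - 1), hk1, e', μ', g1, fun i => ⟨(g2 i).1, (g2 i).2.trans (by omega)⟩, g3,
            g4.trans ?_⟩
          refine mul_le_mul_of_nonneg_left ?_ (by positivity)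
          refine pow_le_pow_left₀ (Nat.cast_nonneg _) ?_ _
          exact_mod_cast (by omega : u - 1 ≤ u)
        · have h2 : u - 1 = 0 := by omega
          refine ⟨0, hk0, fun i => i.elim0, fun i => i.elim0, fun i => i.elim0, fun i => i.elim0,
            linearIndependent_empty_type, ?_⟩
          rw [h2, lb_zero, Finset.card_singleton]
          simp
      obtain ⟨d, hd⟩ := Nat.exists_eq_add_of_le hkk.le
      subst hd
      obtain ⟨e, μ, f1, f2, f3, f4⟩ := mn_ext Λ u k' hu0 e' μ' g1 g2 g3 d hu1.ge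
      refine ⟨e, μ, f1, fun i => ⟨(f2 i).1, (f2 i).2.trans huN⟩, f3, ?_⟩
      have hlat := lat Λ N u hu0 huN
      rw [hk] at hlat
      rw [f4]
      have hd1 : 1 ≤ d := by omega
      have hur : (0 : ℝ) < u := by exact_mod_cast hu0
      have hNr : (0 : ℝ) ≤ N := Nat.cast_nonneg _
      have hnr : (1 : ℝ) ≤ n := by exact_mod_cast hn
      have h4n : (1 : ℝ) ≤ 4 * n := by linarith
      push_cast
      have hexp : (k' + d) + k' ^ 2 ≤ (k' + d) ^ 2 := by
        have h1 : k' ≤ 2 * k' * d := by nlinarith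
        have h2 : d ≤ d ^ 2 := by nlinarith
        calc (k' + d) + k' ^ 2 ≤ (2 * k' * d + d ^ 2) + k' ^ 2 := by omega
          _ = (k' + d) ^ 2 := by ring
      have hP : (0 : ℝ) ≤ ∏ i, (μ' i : ℝ) := Finset.prod_nonneg fun i _ => Nat.cast_nonneg _
      have g4' : ((lb Λ (u - 1)).card : ℝ) * ∏ i, (μ' i : ℝ) ≤ (4 * n : ℝ) ^ (k' ^ 2) * (u : ℝ) ^ k' := by
        have h1 := g4
        push_cast at h1
        exact h1
      calc ((lb Λ N).card : ℝ) * ((∏ i, (μ' i : ℝ)) * (u : ℝ) ^ d)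
          ≤ ((4 * n * N / u : ℝ) ^ (k' + d) * (lb Λ (u - 1)).card) *
              ((∏ i, (μ' i : ℝ)) * (u : ℝ) ^ d) :=
            mul_le_mul_of_nonneg_right hlat (mul_nonneg hP (pow_nonneg hur.le _))
        _ = (4 * n * N / u : ℝ) ^ (k' + d) * (u : ℝ) ^ d *
              (((lb Λ (u - 1)).card : ℝ) * ∏ i, (μ' i : ℝ)) := by ring
        _ ≤ (4 * n * N / u : ℝ) ^ (k' + d) * (u : ℝ) ^ d *
              ((4 * n : ℝ) ^ (k' ^ 2) * (u : ℝ) ^ k') :=
            mul_le_mul_of_nonneg_left g4' (mul_nonneg (pow_nonneg (div_nonneg (by nlinarith) hur.le) _)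
              (pow_nonneg hur.le _))
        _ = (4 * n : ℝ) ^ ((k' + d) + k' ^ 2) * (N : ℝ) ^ (k' + d) := by
            rw [div_pow, mul_pow, pow_add (4 * n : ℝ) (k' + d) (k' ^ 2), pow_add (u : ℝ) k' d]
            have h1 : (u : ℝ) ^ k' ≠ 0 := pow_ne_zero _ hur.ne'
            have h2 : (u : ℝ) ^ d ≠ 0 := pow_ne_zero _ hur.ne'
            field_simp
        _ ≤ (4 * n : ℝ) ^ ((k' + d) ^ 2) * (N : ℝ) ^ (k' + d) :=
            mul_le_mul_of_nonneg_right (pow_le_pow_right₀ h4n hexp) (pow_nonneg hNr _)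

theorem minima {n : ℕ} (Λ : AddSubgroup (Fin n → ℤ)) (N : ℕ) (hN : 1 ≤ N) :
    ∃ (e : Fin (rk Λ N) → Fin n → ℤ) (μ : Fin (rk Λ N) → ℕ), (∀ i, e i ∈ lb Λ (μ i)) ∧
      (∀ i, 1 ≤ μ i ∧ μ i ≤ N) ∧ LinearIndependent ℚ (fun i => rv (e i)) ∧
      (lb Λ N).card * ∏ i, μ i ≤ (4 * n) ^ (n ^ 2) * N ^ rk Λ N := by
  rcases Nat.eq_zero_or_pos n with hn | hn
  · subst hn
    have h0 : rk Λ N = 0 := by
      have h1 := rk_le Λ N
      omega
    have hE : IsEmpty (Fin (rk Λ N)) := by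
      rw [h0]
      infer_instance
    refine ⟨fun i => hE.elim i, fun i => hE.elim i, fun i => hE.elim i, fun i => hE.elim i,
      linearIndependent_empty_type, ?_⟩
    rw [mn_card_zero Λ N h0, Finset.univ_eq_empty, Finset.prod_empty, h0]
    simp
  · obtain ⟨e, μ, h1, h2, h3, h4⟩ := mn_aux hn Λ (rk Λ N) N hN rfl
    refine ⟨e, μ, h1, h2, h3, ?_⟩
    have h5 : (4 * n : ℝ) ^ (rk Λ N ^ 2) * (N : ℝ) ^ rk Λ N ≤ (4 * n : ℝ) ^ (n ^ 2) * (N : ℝ) ^ rk Λ N := by
      refine mul_le_mul_of_nonneg_right ?_ (pow_nonneg (Nat.cast_nonneg _) _)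
      refine pow_le_pow_right₀ ?_ (Nat.pow_le_pow_left (rk_le Λ N) 2)
      have : (1 : ℝ) ≤ n := by exact_mod_cast hn
      linarith
    exact_mod_cast h4.trans h5

end Pool.Agent.H11.TS
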