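import Pool.Agent.H11.TS.Cm1
import Pool.Agent.H11.TS.Cm2
import Pool.Agent.H11.TS.Cm3
import Pool.Agent.H11.TS.Cm4
import Pool.Agent.H11.TS.Mna

/-!
# THEOREM TS, Cmb: the combinatorial core

`comb_core`. PROOF: `C := max C₁ ((2 (2τ)^(n+1))^4 (72 n)^n + 1) + 3 (4n)^(n^2)` with `C₁` from `par_all`, `τ = ta n a`. `cm1`: `N₀, Λ, G, S`. `par_all`:
`n! (Qr N₀)^n ≤ n! Mx^n < P₀^τ`; `cm2`: `p ∈ G`, `N₂`, `k`. Growth for `p`, `N₂`: `(pτ)^4 N₂ ≤ Qr N₀ ≤ Mx`, `Nat.card (S p) ≤ p^(n-k)`: the hypothesis `hB` of `cm3`; `hGr` by `gr_mono`;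
`hC`: `C ≤ P₀ < p`. `cm3`: `N`, `N₂ ≤ N`, `2N ≤ (pτ)^4 N₂ ≤ Mx`. `cm4`: `H`. `rk Λ N = k` (monotone between `N₂` and `(pτ)^4 N₂`). `minima` for `N`: `e, μ` indexed by
`Fin (rk Λ N)` (rewrite to `Fin k`): `card (lb Λ N) ∏ μ ≤ (4n)^(n^2) N^k`; `e i ∈ lb Λ (μ i) ⊆ lb Λ N`, so `mz g (e i) ∈ H`, and
`finrank H ∏ μ ≤ 2 card (lb Λ N) ∏ μ ≤ C N^k`.
-/

set_option autoImplicit false

namespace Pool.Agent.H11.TS

theorem comb_core (n a : ℕ) (hn : 1 ≤ n) : ∃ C : ℕ, 3 ≤ C ∧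
    (∀ P₀ D : ℕ, C ≤ P₀ → 1 ≤ D → D ≤ P₀ ^ a →
      (2 * ta n a * Mx n a P₀ D + 1) ^ n ≤ P₀ ^ (ta n a - 1) ∧
      Mx n a P₀ D ≤ C * P₀ ^ (10 * n ^ 2) * D) ∧
    ∀ (L F : Type) [Field L] [CharZero L] [Field F] [Algebra L F] (g : Fin n → F)
      (_ : ∀ i, g i ≠ 0) (P₀ D : ℕ) (_ : C ≤ P₀) (_ : 1 ≤ D) (_ : D ≤ P₀ ^ a)
      (b : (Fin n → ℤ) → L) (_ : ∑ e ∈ bx n D, algebraMap L F (b e) * mz g e = 0)
      (_ : ∃ e ∈ bx n D, b e ≠ 0)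
      (_ : ∀ p, p.Prime → P₀ < p → p ≤ pu n a P₀ → PData L g p (ta n a) (Mx n a P₀ D)),
      ∃ (k N : ℕ) (e : Fin k → Fin n → ℤ) (μ : Fin k → ℕ) (H : IntermediateField L F),
        1 ≤ k ∧ N ≤ Mx n a P₀ D ∧ LinearIndependent ℚ (fun i => rv (e i)) ∧
        (∀ i j, |e i j| ≤ μ i) ∧ (∀ i, 1 ≤ μ i ∧ μ i ≤ N) ∧ (∀ i, mz g (e i) ∈ H) ∧
        FiniteDimensional L H ∧ Module.finrank L H * ∏ i, μ i ≤ C * N ^ k := by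
  obtain ⟨C₁, hC₁, hpar⟩ := par_all n a
  obtain ⟨τ, hτ⟩ : ∃ τ : ℕ, τ = ta n a := ⟨_, rfl⟩
  obtain ⟨C₅, hC₅⟩ : ∃ C₅ : ℕ, C₅ = (2 * (2 * τ) ^ (n + 1)) ^ 4 * (72 * n) ^ n := ⟨_, rfl⟩
  obtain ⟨C₆, hC₆⟩ : ∃ C₆ : ℕ, C₆ = (4 * n) ^ (n ^ 2) := ⟨_, rfl⟩
  refine ⟨C₁ + (C₅ + 1) + 3 * C₆, by omega, ?_, ?_⟩
  · intro P₀ D hP hD hDa
    obtain ⟨h1, -, h3⟩ := hpar P₀ D (by omega) hD hDa
    refine ⟨h1, h3.trans ?_⟩
    exact Nat.mul_le_mul_right _ (Nat.mul_le_mul_right _ (by omega))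
  · intro L F _ _ _ _ g hg P₀ D hP hD hDa b hb hb0 hS
    have hInf : Infinite L := inferInstance
    obtain ⟨-, hnum, -⟩ := hpar P₀ D (by omega) hD hDa
    obtain ⟨N₀, Λ, G, S, hN₀, hQM, hGc, hG, hΛ, hgr, hGr, hne⟩ :=
      cm1 n a hn g hg P₀ D (by omega) hD b hb hb0 hS
    have hnum' : n.factorial * (Qr n a P₀ * N₀) ^ n < P₀ ^ ta n a :=
      lt_of_le_of_lt (Nat.mul_le_mul_left _ (Nat.pow_le_pow_left hQM n)) hnum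
    obtain ⟨p, hpG, N₂, k, h1, h2, h3, h4, h5, h6, h7, h8⟩ :=
      cm2 n a hn P₀ N₀ (by omega) hN₀ Λ G S hGc hG hΛ hne hnum'
    have hpM : (p * ta n a) ^ 4 * N₂ ≤ Mx n a P₀ D := h3.trans hQM
    have hB := hgr p hpG N₂ h1 hpM
    have hB' : hd L g (bx n ((p * ta n a) ^ 4 * N₂)) ≤
        p * (2 * (2 * ta n a) ^ (n + 1) * p ^ (n - k)) ^ 4 * hd L g (bx n N₂) :=
      hB.trans (Nat.mul_le_mul_right _ (Nat.mul_le_mul_left _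
        (Nat.pow_le_pow_left (Nat.mul_le_mul_left _ h8) 4)))
    have hGr' : Gr L g ((p * ta n a) ^ 4 * N₂) Λ := gr_mono g h3 Λ hGr
    have hta : 2 ≤ ta n a := by
      unfold ta
      omega
    have hCp : (2 * (2 * ta n a) ^ (n + 1)) ^ 4 * (72 * n) ^ n < p := by
      rw [← hτ, ← hC₅]
      have := (hG p hpG).2.1
      omega
    obtain ⟨N, hN1, hN2, hN3⟩ := cm3 g hg Λ (ta n a) p k N₂ hta h5 h2 h7 hGr' hB' hCp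
    obtain ⟨H, hH1, hH2, hH3⟩ := cm4 g hg Λ N hN3
    have hN : 1 ≤ N := h2.trans hN1
    obtain ⟨e, μ, he, hμ, hli, hm⟩ := minima Λ N hN
    have hk1 : k ≤ rk Λ N := by
      rw [← h6]
      exact rk_mono Λ hN1
    refine ⟨rk Λ N, N, e, μ, H, h4.trans hk1, ?_, hli, fun i j => ((mem_lb Λ _ _).1 (he i)).1 j, hμ,
      fun i => hH1 _ ?_, hH2, ?_⟩
    · omega
    · rw [mem_lb]
      refine ⟨fun j => (((mem_lb Λ _ _).1 (he i)).1 j).trans ?_, ((mem_lb Λ _ _).1 (he i)).2⟩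
      exact_mod_cast (hμ i).2
    · have e1 : 2 * Module.finrank L H * ∏ i, μ i ≤ 3 * (C₆ * N ^ rk Λ N) := by
        rw [hC₆]
        calc 2 * Module.finrank L H * ∏ i, μ i ≤ 3 * (lb Λ N).card * ∏ i, μ i :=
              Nat.mul_le_mul_right _ hH3.le
          _ = 3 * ((lb Λ N).card * ∏ i, μ i) := by ring
          _ ≤ 3 * ((4 * n) ^ (n ^ 2) * N ^ rk Λ N) := Nat.mul_le_mul_left _ hm
      have e2 : Module.finrank L H * ∏ i, μ i ≤ 2 * Module.finrank L H * ∏ i, μ i :=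
        Nat.mul_le_mul_right _ (by omega)
      have e3 : 3 * (C₆ * N ^ rk Λ N) ≤ (C₁ + (C₅ + 1) + 3 * C₆) * N ^ rk Λ N := by
        rw [← mul_assoc]
        exact Nat.mul_le_mul_right _ (by omega)
      exact e2.trans (e1.trans e3)

end Pool.Agent.H11.TS
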