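import Pool.Agent.H11.TS.Defs

/-!
# THEOREM TS, Lat: lattice points in cubes

`max_minor`: `W` a subspace of `ℚ^n` of dimension `k`: there are coordinates `c : Fin k → Fin n` such that `|x i| ≤ k max_j |x (c j)|` for all `x ∈ W`:
if `M ≥ 0` and `|x (c j)| ≤ M` for all `j` then `|x i| ≤ k M`. PROOF: `k = 0`: `x = 0`. Let `b : Fin k → W` be a basis, among all
`c : Fin k → Fin n` (finitely many) let `c` be one with `|det (b i (c j))|` largest; it is `> 0` (rank `k`: some minor is not `0`,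
`Matrix.rank`, or: the rows are independent so the map `W → ℚ^n` has `k` independent coordinate functionals). For a coordinate `i` write
the functional `x ↦ x i` on `W` as `∑_j t_j (x ↦ x (c j))` (the `k` functionals `x (c j)` are a basis of the dual); Cramer: `t_j` is the quotient of the
determinant with `c j` replaced by `i` and the determinant of `c`: `|t_j| ≤ 1`. So `|x i| ≤ ∑_j |x (c j)| ≤ k M`.

`lat`. PROOF: `k = rk Λ N`, `W` the span of `rv '' lb Λ N`, `c` from `max_minor`. If `k = 0` then all `e ∈ lb Λ N` have `rv e = 0`, `e = 0`: card `1`, and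
`0 ∈ lb Λ (s-1)`. Let `k ≥ 1` (so `n ≥ 1`, `k ≤ n`), `ℓ = (s - 1) / k + 1` (natural division). Put `e ∈ lb Λ N` in the cell
`q(e) : Fin k → ℤ`, `q(e) j = (e (c j) + N) / ℓ` (floor); `0 ≤ q(e) j ≤ 2N/ℓ`: at most `(2N/ℓ + 1)^k` cells. For `e, e'` in one cell
`|e (c j) - e' (c j)| ≤ ℓ - 1 ≤ (s-1)/k`, so `|e i - e' i| ≤ k (ℓ - 1) ≤ s - 1` (`max_minor` for `rv (e - e') ∈ W`), so `e - e' ∈ lb Λ (s-1)`: each cell has at most
`(lb Λ (s-1)).card` elements (inject by `e' ↦ e' - e`). `Finset.card_le_mul_card_image`. And `2N/ℓ + 1 ≤ 2Nk/s + 1 ≤ 4nN/s` as `ℓ ≥ s/k`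
(real numbers: `(s-1)/k + 1 > (s-1)/k` floor.. `k ℓ ≥ s`), `s ≤ N`, `k ≤ n`, `1 ≤ n N / s`.
`lb_zero`: `lb Λ 0 = {0}`. `rk_mono`, `rk_le`: spans. `rk_pos`: a nonzero element has `rv e ≠ 0`.
-/

set_option autoImplicit false

namespace Pool.Agent.H11.TS

private theorem exists_minor {n k : ℕ} (A : Matrix (Fin k) (Fin n) ℚ) (hA : LinearIndependent ℚ A.row) :
    ∃ c : Fin k → Fin n, (A.submatrix id c).det ≠ 0 := by
  have hr : A.rank = k := by rw [hA.rank_matrix, Fintype.card_fin]
  rw [Matrix.rank_eq_finrank_span_cols] at hr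
  obtain ⟨f, hf, -, hlin⟩ := Submodule.exists_fun_fin_finrank_span_eq ℚ (Set.range A.col)
  choose c0 hc0 using hf
  let e : Fin k ≃ Fin (Module.finrank ℚ (Submodule.span ℚ (Set.range A.col))) := finCongr hr.symm
  refine ⟨fun j => c0 (e j), ?_⟩
  have h1 : (A.submatrix id fun j => c0 (e j)).col = f ∘ e := by
    funext j
    show (fun i => A i (c0 (e j))) = f (e j)
    rw [← hc0 (e j)]
    rfl
  have h2 : LinearIndependent ℚ (A.submatrix id fun j => c0 (e j)).col := by
    rw [h1]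
    exact hlin.comp _ e.injective
  rw [Matrix.linearIndependent_cols_iff_isUnit, Matrix.isUnit_iff_isUnit_det] at h2
  exact h2.ne_zero

theorem max_minor {n k : ℕ} (W : Submodule ℚ (Fin n → ℚ)) (hW : Module.finrank ℚ W = k) :
    ∃ c : Fin k → Fin n, ∀ x ∈ W, ∀ M : ℚ, 0 ≤ M → (∀ j, |x (c j)| ≤ M) → ∀ i, |x i| ≤ k * M := by
  classical
  let b : Module.Basis (Fin k) ℚ W := Module.finBasisOfFinrankEq ℚ W hW
  let A : Matrix (Fin k) (Fin n) ℚ := Matrix.of fun a i => (b a : Fin n → ℚ) i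
  have hA : LinearIndependent ℚ A.row := by
    have h1 := b.linearIndependent.map' W.subtype W.ker_subtype
    exact h1
  obtain ⟨c1, hc1⟩ := exists_minor A hA
  obtain ⟨c, -, hmax⟩ := Finset.exists_max_image (Finset.univ : Finset (Fin k → Fin n))
    (fun c => |(A.submatrix id c).det|) ⟨c1, Finset.mem_univ _⟩
  have hc : (A.submatrix id c).det ≠ 0 := by
    intro h0
    have h1 := hmax c1 (Finset.mem_univ _)
    simp only [h0, abs_zero] at h1
    exact hc1 (abs_eq_zero.1 (le_antisymm h1 (abs_nonneg _)))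
  refine ⟨c, ?_⟩
  intro x hx M hM hj i
  set Mc := A.submatrix id c with hMc
  -- Cramer
  set t : Fin k → ℚ := fun j => Matrix.cramer Mc (A.col i) j / Mc.det with ht
  have ht1 : ∀ j, |t j| ≤ 1 := by
    intro j
    rw [ht]
    simp only
    rw [abs_div, div_le_one (abs_pos.2 hc), Matrix.cramer_apply]
    have h1 : Mc.updateCol j (A.col i) = A.submatrix id (Function.update c j i) := by
      ext a l
      rw [Matrix.updateCol_apply]
      by_cases hl : l = j
      · subst hl
        simp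
      · simp [hl, hMc]
    rw [h1]
    exact hmax _ (Finset.mem_univ _)
  have ht2 : ∀ a, A a i = ∑ j, Mc a j * t j := by
    intro a
    have h1 := congrFun (Matrix.mulVec_cramer Mc (A.col i)) a
    have h2 : (Mc.mulVec (Matrix.cramer Mc (A.col i))) a = ∑ j, Mc a j * Matrix.cramer Mc (A.col i) j := rfl
    rw [h2] at h1
    have h3 : (Mc.det • A.col i) a = Mc.det * A a i := rfl
    rw [h3] at h1
    have h4 : ∑ j, Mc a j * t j = (∑ j, Mc a j * Matrix.cramer Mc (A.col i) j) / Mc.det := by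
      rw [Finset.sum_div]
      refine Finset.sum_congr rfl fun j _ => ?_
      rw [ht]
      simp only
      rw [mul_div_assoc]
    rw [h4, h1, mul_div_cancel_left₀ _ hc]
  -- coordinates of `x`
  set y := b.repr ⟨x, hx⟩ with hy
  have hxl : ∀ l, x l = ∑ a, y a * A a l := by
    intro l
    have h1 := b.sum_repr ⟨x, hx⟩
    have h2 := congrArg (fun z : W => (z : Fin n → ℚ) l) h1
    simp only [Submodule.coe_sum, Finset.sum_apply, Submodule.coe_smul, Pi.smul_apply, smul_eq_mul] at h2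
    rw [← h2]
    rfl
  have hxi : x i = ∑ j, x (c j) * t j := by
    rw [hxl i]
    calc ∑ a, y a * A a i = ∑ a, ∑ j, y a * (Mc a j * t j) := by
          refine Finset.sum_congr rfl fun a _ => ?_
          rw [ht2 a, Finset.mul_sum]
      _ = ∑ j, ∑ a, y a * (Mc a j * t j) := Finset.sum_comm
      _ = ∑ j, x (c j) * t j := by
          refine Finset.sum_congr rfl fun j _ => ?_
          rw [hxl (c j), Finset.sum_mul]
          refine Finset.sum_congr rfl fun a _ => ?_
          rw [← mul_assoc]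
          rfl
  rw [hxi]
  calc |∑ j, x (c j) * t j| ≤ ∑ j, |x (c j) * t j| := Finset.abs_sum_le_sum_abs _ _
    _ ≤ ∑ _j : Fin k, M := by
        refine Finset.sum_le_sum fun j _ => ?_
        rw [abs_mul]
        calc |x (c j)| * |t j| ≤ M * 1 := mul_le_mul (hj j) (ht1 j) (abs_nonneg _) hM
          _ = M := mul_one _
    _ = k * M := by rw [Finset.sum_const, Finset.card_univ, Fintype.card_fin, nsmul_eq_mul]

private theorem zero_mem_lb {n : ℕ} (Λ : AddSubgroup (Fin n → ℤ)) (N : ℕ) : (0 : Fin n → ℤ) ∈ lb Λ N := by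
  rw [mem_lb]
  refine ⟨fun i => by simp, Λ.zero_mem⟩

private theorem rv_sub {n : ℕ} (e e' : Fin n → ℤ) : rv (e - e') = rv e - rv e' := by
  funext i
  simp [rv]

private theorem cell_card {n : ℕ} (Λ : AddSubgroup (Fin n → ℤ)) (N s : ℕ) (hs : 1 ≤ s) :
    (lb Λ N).card ≤ (lb Λ (s - 1)).card * (2 * N / ((s - 1) / rk Λ N + 1) + 1) ^ rk Λ N := by
  classical
  set k := rk Λ N with hk
  obtain ⟨c, hc⟩ := max_minor (k := k) (Submodule.span ℚ (rv '' (lb Λ N : Set (Fin n → ℤ)))) rfl
  set l := (s - 1) / k + 1 with hl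
  have hl0 : 0 < l := Nat.succ_pos _
  let q : (Fin n → ℤ) → (Fin k → ℕ) := fun e j => (e (c j) + N).toNat / l
  have him : (lb Λ N).image q ⊆ Fintype.piFinset fun _ => Finset.range (2 * N / l + 1) := by
    intro a ha
    obtain ⟨e, he, rfl⟩ := Finset.mem_image.1 ha
    rw [Fintype.mem_piFinset]
    intro j
    rw [Finset.mem_range, Nat.lt_succ_iff]
    refine Nat.div_le_div_right ?_
    have h1 := ((mem_lb Λ N e).1 he).1 (c j)
    have h2 := abs_le.1 h1
    omega
  have hcard : ((lb Λ N).image q).card ≤ (2 * N / l + 1) ^ k := by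
    refine (Finset.card_le_card him).trans ?_
    rw [Fintype.card_piFinset]
    simp
  refine (Finset.card_le_mul_card_image (f := q) (lb Λ N) (lb Λ (s - 1)).card ?_).trans
    (Nat.mul_le_mul_left _ hcard)
  intro a ha
  obtain ⟨e0, he0, rfl⟩ := Finset.mem_image.1 ha
  refine Finset.card_le_card_of_injOn (fun e => e - e0) ?_ ?_
  · intro e he
    have he1 : e ∈ lb Λ N := (Finset.mem_filter.1 he).1
    have he2 : q e = q e0 := (Finset.mem_filter.1 he).2
    have hm1 := (mem_lb Λ N e).1 he1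
    have hm0 := (mem_lb Λ N e0).1 he0
    show e - e0 ∈ (lb Λ (s - 1) : Set (Fin n → ℤ))
    rw [Finset.mem_coe, mem_lb]
    refine ⟨?_, Λ.sub_mem hm1.2 hm0.2⟩
    have hW : rv (e - e0) ∈ Submodule.span ℚ (rv '' (lb Λ N : Set (Fin n → ℤ))) := by
      rw [rv_sub]
      exact Submodule.sub_mem _ (Submodule.subset_span ⟨e, he1, rfl⟩) (Submodule.subset_span ⟨e0, he0, rfl⟩)
    have hj : ∀ j, |rv (e - e0) (c j)| ≤ ((l : ℚ) - 1) := by
      intro j
      have h1 : (e (c j) + N).toNat / l = (e0 (c j) + N).toNat / l := congrFun he2 j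
      have h2 := abs_le.1 (hm1.1 (c j))
      have h3 := abs_le.1 (hm0.1 (c j))
      have h4 : |(e (c j) - e0 (c j))| ≤ (l : ℤ) - 1 := by
        set u := (e (c j) + N).toNat with hu
        set w := (e0 (c j) + N).toNat with hw
        have h5 : (u : ℤ) = e (c j) + N := by omega
        have h6 : (w : ℤ) = e0 (c j) + N := by omega
        have h7 := Nat.div_add_mod u l
        have h8 := Nat.div_add_mod w l
        have h9 := Nat.mod_lt u hl0
        have h10 := Nat.mod_lt w hl0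
        rw [h1] at h7
        rw [abs_le]
        constructor
        · omega
        · omega
      have h5 : rv (e - e0) (c j) = ((e (c j) - e0 (c j) : ℤ) : ℚ) := rfl
      rw [h5, ← Int.cast_abs]
      exact_mod_cast h4
    have hl1 : (0 : ℚ) ≤ (l : ℚ) - 1 := by
      have : (1 : ℚ) ≤ (l : ℚ) := by exact_mod_cast hl0
      linarith
    intro i
    have h1 := hc (rv (e - e0)) hW ((l : ℚ) - 1) hl1 hj i
    have h2 : rv (e - e0) i = (((e - e0) i : ℤ) : ℚ) := rfl
    rw [h2, ← Int.cast_abs] at h1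
    have h3 : (k : ℚ) * ((l : ℚ) - 1) ≤ ((s - 1 : ℕ) : ℚ) := by
      have h4 : k * ((s - 1) / k) ≤ s - 1 := Nat.mul_div_le _ _
      have h5 : (l : ℚ) - 1 = (((s - 1) / k : ℕ) : ℚ) := by
        rw [hl]
        push_cast
        ring
      rw [h5]
      exact_mod_cast h4
    exact_mod_cast h1.trans h3
  · intro e _ e' _ h
    exact sub_left_injective h

theorem lat {n : ℕ} (Λ : AddSubgroup (Fin n → ℤ)) (N s : ℕ) (hs : 1 ≤ s) (hsN : s ≤ N) :
    ((lb Λ N).card : ℝ) ≤ (4 * n * N / s : ℝ) ^ rk Λ N * (lb Λ (s - 1)).card := by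
  have h1 := cell_card Λ N s hs
  have hkn : rk Λ N ≤ n := by
    unfold rk
    refine (Submodule.finrank_le _).trans ?_
    rw [Module.finrank_fin_fun]
  set k := rk Λ N with hk
  set l := (s - 1) / k + 1 with hl
  have h2 : ((lb Λ N).card : ℝ) ≤ (lb Λ (s - 1)).card * ((2 * N / l + 1 : ℕ) : ℝ) ^ k := by
    exact_mod_cast h1
  refine h2.trans ?_
  rw [mul_comm]
  refine mul_le_mul_of_nonneg_right ?_ (Nat.cast_nonneg _)
  rcases Nat.eq_zero_or_pos k with hk0 | hk0
  · rw [hk0, pow_zero, pow_zero]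
  · refine pow_le_pow_left₀ (Nat.cast_nonneg _) ?_ _
    have hs0 : (0 : ℝ) < s := by exact_mod_cast hs
    have h3 : s ≤ k * l := by
      have h4 := Nat.lt_mul_div_succ (s - 1) hk0
      have h5 : k * ((s - 1) / k + 1) = k * l := by rw [hl]
      omega
    have hl0 : (0 : ℝ) < l := by
      have : 0 < l := Nat.succ_pos _
      exact_mod_cast this
    have h4 : ((2 * N / l : ℕ) : ℝ) ≤ 2 * N / l := by
      have := Nat.cast_div_le (α := ℝ) (m := 2 * N) (n := l)
      push_cast at this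
      exact this
    have hN0 : (0 : ℝ) ≤ N := Nat.cast_nonneg _
    have hknr : (k : ℝ) ≤ n := by exact_mod_cast hkn
    have h5 : (2 * N / l : ℝ) ≤ 2 * n * N / s := by
      rw [div_le_div_iff₀ hl0 hs0]
      have h6 : (s : ℝ) ≤ k * l := by exact_mod_cast h3
      have h7 : (s : ℝ) ≤ n * l := h6.trans (mul_le_mul_of_nonneg_right hknr hl0.le)
      calc 2 * (N : ℝ) * s ≤ 2 * N * (n * l) := mul_le_mul_of_nonneg_left h7 (by positivity)
        _ = 2 * n * N * l := by ring
    have h6 : (1 : ℝ) ≤ 2 * n * N / s := by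
      rw [le_div_iff₀ hs0, one_mul]
      have h7 : (s : ℝ) ≤ N := by exact_mod_cast hsN
      have h8 : (1 : ℝ) ≤ n := by
        have : 1 ≤ n := hk0.trans_le hkn
        exact_mod_cast this
      calc (s : ℝ) ≤ N := h7
        _ = 1 * N := (one_mul _).symm
        _ ≤ (2 * n) * N := mul_le_mul_of_nonneg_right (by linarith) hN0
    push_cast
    calc ((2 * N / l : ℕ) : ℝ) + 1 ≤ 2 * n * N / s + 2 * n * N / s := add_le_add (h4.trans h5) h6
      _ = 4 * n * N / s := by ring

theorem lb_zero {n : ℕ} (Λ : AddSubgroup (Fin n → ℤ)) : lb Λ 0 = {0} := by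
  ext e
  rw [mem_lb, Finset.mem_singleton]
  constructor
  · rintro ⟨h1, -⟩
    funext i
    have h2 := h1 i
    simpa using h2
  · rintro rfl
    exact ⟨fun i => by simp, Λ.zero_mem⟩

theorem rk_mono {n : ℕ} (Λ : AddSubgroup (Fin n → ℤ)) {N N' : ℕ} (h : N ≤ N') :
    rk Λ N ≤ rk Λ N' := by
  unfold rk
  refine Submodule.finrank_mono (Submodule.span_mono (Set.image_mono ?_))
  intro e he
  rw [Finset.mem_coe, mem_lb] at he ⊢
  refine ⟨fun i => (he.1 i).trans ?_, he.2⟩
  exact_mod_cast h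

theorem rk_le {n : ℕ} (Λ : AddSubgroup (Fin n → ℤ)) (N : ℕ) : rk Λ N ≤ n := by
  unfold rk
  refine (Submodule.finrank_le _).trans ?_
  rw [Module.finrank_fin_fun]

theorem rk_pos {n : ℕ} (Λ : AddSubgroup (Fin n → ℤ)) (N : ℕ) (h : ∃ e ∈ lb Λ N, e ≠ 0) :
    1 ≤ rk Λ N := by
  obtain ⟨e, he, hne⟩ := h
  unfold rk
  rw [Submodule.one_le_finrank_iff]
  intro hbot
  have h1 : rv e ∈ Submodule.span ℚ (rv '' (lb Λ N : Set (Fin n → ℤ))) := Submodule.subset_span ⟨e, he, rfl⟩
  rw [hbot, Submodule.mem_bot] at h1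
  apply hne
  funext i
  have h2 := congrFun h1 i
  simpa [rv] using h2

end Pool.Agent.H11.TS
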