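import Pool.Agent.H11.TS.Cnt
import Pool.Agent.H11.TS.Lat

/-!
# THEOREM TS, Cmp: comparison of the dimensions at two levels

`count`. PROOF: `g' = hd (lb Λ N')`, `g₀ = hd (lb Λ N)`, `r' = card (lb Λ N')`, `r = card (lb Λ N)`, `ν' = nu Λ N'`, `ν = nu Λ N`.
`g' (N'+1)^n ≤ g' ν' r'` (`nu_ge`) `≤ hd (bx (3N')) r'` (`nu_le_hd`) `≤ B hd (bx N) r' ≤ B ν g₀ r'` (`hd_le_nu`)
`≤ B ν g₀ (4nN'/(N+1))^(rk Λ N') r` (`lat` with `s = N + 1 ≤ N'`, `s - 1 = N`) `≤ B g₀ (3N+1)^n (4nN'/(N+1))^k` (`nu_le`; if `n = 0` then `rk = 0 = k`... `rk ≤ k` and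
the base is `≥ 1` for `n ≥ 1`; for `n = 0` both powers are over `rk = 0`: `k ≤ n = 0`). `(3N+1)^n ≤ 3^n (N+1)^n`,
`(4nN'/(N+1))^k ≤ (4n)^n ((N'+1)/(N+1))^k` (`n ≥ 1`). Divide by `(N'+1)^n`: `g' ≤ B g₀ (12 n)^n ((N+1)/(N'+1))^(n-k)`.
-/

set_option autoImplicit false

namespace Pool.Agent.H11.TS

variable {L F : Type} [Field L] [Field F] [Algebra L F] {n : ℕ}

private theorem swap_pow (n k : ℕ) (hkn : k ≤ n) (x y : ℝ) (hx : 0 < x) (hy : 0 < y) :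
    (y / x) ^ k * x ^ n = (x / y) ^ (n - k) * y ^ n := by
  obtain ⟨m, rfl⟩ := Nat.exists_eq_add_of_le hkn
  have h1 : k + m - k = m := Nat.add_sub_cancel_left k m
  rw [h1, div_pow, div_pow, pow_add, pow_add]
  have hx1 : x ^ k ≠ 0 := pow_ne_zero _ hx.ne'
  have hy1 : y ^ m ≠ 0 := pow_ne_zero _ hy.ne'
  field_simp

private theorem num_key (n k a N N' : ℕ) (hN : N + 1 ≤ N') (ha : a ≤ k) (hkn : k ≤ n) :
    (4 * n * N' / ((N + 1 : ℕ) : ℝ) : ℝ) ^ a * ((3 * N + 1 : ℕ) : ℝ) ^ n ≤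
      (12 * n : ℝ) ^ n * ((((N : ℝ) + 1) / ((N' : ℝ) + 1)) ^ (n - k) * ((N' : ℝ) + 1) ^ n) := by
  rcases Nat.eq_zero_or_pos n with h0 | h0
  · subst h0
    have hk : k = 0 := Nat.le_zero.1 hkn
    subst hk
    have ha0 : a = 0 := Nat.le_zero.1 ha
    subst ha0
    simp
  · have hx : (0 : ℝ) < (N : ℝ) + 1 := by positivity
    have hy : (0 : ℝ) < (N' : ℝ) + 1 := by positivity
    have hn1 : (1 : ℝ) ≤ n := by exact_mod_cast h0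
    have hNr : (N : ℝ) + 1 ≤ N' := by exact_mod_cast hN
    rw [← swap_pow n k hkn _ _ hx hy]
    have hcast : ((N + 1 : ℕ) : ℝ) = (N : ℝ) + 1 := by push_cast; ring
    rw [hcast]
    have h1 : (1 : ℝ) ≤ 4 * n * N' / ((N : ℝ) + 1) := by
      rw [le_div_iff₀ hx, one_mul]
      calc (N : ℝ) + 1 ≤ N' := hNr
        _ = 1 * N' := (one_mul _).symm
        _ ≤ (4 * n) * N' := mul_le_mul_of_nonneg_right (by linarith) (Nat.cast_nonneg _)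
    have h2 : (4 * n * N' / ((N : ℝ) + 1) : ℝ) ^ a ≤ (4 * n * N' / ((N : ℝ) + 1)) ^ k :=
      pow_le_pow_right₀ h1 ha
    have h3 : (4 * n * N' / ((N : ℝ) + 1) : ℝ) ^ k ≤ (4 * n : ℝ) ^ n * (((N' : ℝ) + 1) / ((N : ℝ) + 1)) ^ k := by
      have h4 : (4 * n * N' / ((N : ℝ) + 1) : ℝ) = (4 * n) * (N' / ((N : ℝ) + 1)) := by ring
      rw [h4, mul_pow]
      refine mul_le_mul ?_ ?_ (by positivity) (by positivity)
      · exact pow_le_pow_right₀ (by linarith) hkn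
      · refine pow_le_pow_left₀ (by positivity) ?_ _
        exact div_le_div_of_nonneg_right (by linarith) hx.le
    have h5 : ((3 * N + 1 : ℕ) : ℝ) ^ n ≤ 3 ^ n * ((N : ℝ) + 1) ^ n := by
      rw [← mul_pow]
      refine pow_le_pow_left₀ (Nat.cast_nonneg _) ?_ _
      push_cast
      linarith
    calc (4 * n * N' / ((N : ℝ) + 1) : ℝ) ^ a * ((3 * N + 1 : ℕ) : ℝ) ^ n
        ≤ ((4 * n : ℝ) ^ n * (((N' : ℝ) + 1) / ((N : ℝ) + 1)) ^ k) * (3 ^ n * ((N : ℝ) + 1) ^ n) :=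
          mul_le_mul (h2.trans h3) h5 (by positivity) (by positivity)
      _ = (12 * n : ℝ) ^ n * ((((N' : ℝ) + 1) / ((N : ℝ) + 1)) ^ k * ((N : ℝ) + 1) ^ n) := by
          have h6 : (12 * n : ℝ) = (4 * n) * 3 := by ring
          rw [h6, mul_pow (4 * n : ℝ) 3 n]
          ring

theorem count (g : Fin n → F) (hg : ∀ i, g i ≠ 0) (Λ : AddSubgroup (Fin n → ℤ)) (N N' k B : ℕ)
    (hN : N + 1 ≤ N') (hk : rk Λ N' ≤ k) (hkn : k ≤ n) (hGr : Gr L g (3 * N') Λ)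
    (hB : hd L g (bx n (3 * N')) ≤ B * hd L g (bx n N)) :
    (hd L g (lb Λ N') : ℝ) ≤
      B * (12 * n : ℝ) ^ n * (((N : ℝ) + 1) / ((N' : ℝ) + 1)) ^ (n - k) * hd L g (lb Λ N) := by
  have e1 : (((N' : ℝ) + 1) ^ n : ℝ) ≤ (nu Λ N' : ℝ) * ((lb Λ N').card : ℝ) := by
    have := nu_ge Λ N'
    exact_mod_cast this
  have e2 : (nu Λ N' : ℝ) * (hd L g (lb Λ N') : ℝ) ≤ (hd L g (bx n (3 * N')) : ℝ) := by
    exact_mod_cast nu_le_hd (L := L) g hg Λ N' hGr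
  have e3 : (hd L g (bx n (3 * N')) : ℝ) ≤ (B : ℝ) * (hd L g (bx n N) : ℝ) := by
    exact_mod_cast hB
  have e4 : (hd L g (bx n N) : ℝ) ≤ (nu Λ N : ℝ) * (hd L g (lb Λ N) : ℝ) := by
    exact_mod_cast hd_le_nu (L := L) g hg Λ N
  have e5 := lat Λ N' (N + 1) (Nat.succ_pos N) hN
  rw [Nat.add_sub_cancel] at e5
  have e6 : (nu Λ N : ℝ) * ((lb Λ N).card : ℝ) ≤ ((3 * N + 1 : ℕ) : ℝ) ^ n := by
    exact_mod_cast nu_le Λ N
  have e7 := num_key n k (rk Λ N') N N' hN hk hkn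
  set g' : ℝ := (hd L g (lb Λ N') : ℝ) with hg'
  set g0 : ℝ := (hd L g (lb Λ N) : ℝ) with hg0
  set r' : ℝ := ((lb Λ N').card : ℝ) with hr'
  set r : ℝ := ((lb Λ N).card : ℝ) with hr
  set v' : ℝ := (nu Λ N' : ℝ) with hv'
  set v : ℝ := (nu Λ N : ℝ) with hv
  have p1 : (0 : ℝ) ≤ g' := Nat.cast_nonneg _
  have p2 : (0 : ℝ) ≤ g0 := Nat.cast_nonneg _
  have p3 : (0 : ℝ) ≤ r' := Nat.cast_nonneg _
  have p4 : (0 : ℝ) ≤ r := Nat.cast_nonneg _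
  have p5 : (0 : ℝ) ≤ v := Nat.cast_nonneg _
  have p6 : (0 : ℝ) ≤ B := Nat.cast_nonneg _
  have hy : (0 : ℝ) < ((N' : ℝ) + 1) ^ n := by positivity
  refine le_of_mul_le_mul_right ?_ hy
  calc g' * ((N' : ℝ) + 1) ^ n ≤ g' * (v' * r') := mul_le_mul_of_nonneg_left e1 p1
    _ = (v' * g') * r' := by ring
    _ ≤ (B * (v * g0)) * r' :=
        mul_le_mul_of_nonneg_right (e2.trans (e3.trans (mul_le_mul_of_nonneg_left e4 p6))) p3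
    _ ≤ (B * (v * g0)) * ((4 * n * N' / ((N + 1 : ℕ) : ℝ) : ℝ) ^ rk Λ N' * r) :=
        mul_le_mul_of_nonneg_left e5 (mul_nonneg p6 (mul_nonneg p5 p2))
    _ = (B * g0) * ((4 * n * N' / ((N + 1 : ℕ) : ℝ) : ℝ) ^ rk Λ N' * (v * r)) := by ring
    _ ≤ (B * g0) * ((4 * n * N' / ((N + 1 : ℕ) : ℝ) : ℝ) ^ rk Λ N' * ((3 * N + 1 : ℕ) : ℝ) ^ n) := by
        refine mul_le_mul_of_nonneg_left ?_ (mul_nonneg p6 p2)
        refine mul_le_mul_of_nonneg_left e6 ?_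
        positivity
    _ ≤ (B * g0) * ((12 * n : ℝ) ^ n * ((((N : ℝ) + 1) / ((N' : ℝ) + 1)) ^ (n - k) * ((N' : ℝ) + 1) ^ n)) :=
        mul_le_mul_of_nonneg_left e7 (mul_nonneg p6 p2)
    _ = (B * (12 * n : ℝ) ^ n * (((N : ℝ) + 1) / ((N' : ℝ) + 1)) ^ (n - k) * g0) * ((N' : ℝ) + 1) ^ n := by
        ring

end Pool.Agent.H11.TS
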