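import Pool.Agent.H11.TS.Grd

/-!
# THEOREM TS, Cnt: counting classes

`nu Λ N` is the number of classes modulo `Λ` which meet `bx n N`, `lb Λ N = Λ ∩ [-N, N]^n`.
`nu_ge`: the elements of `bx n N` in one class: fix `e₀` in it; `e ↦ e - e₀` is an injection to `lb Λ N`. So `(N+1)^n = card (bx n N) ≤ nu * card (lb)`
(`Finset.card_le_mul_card_image`).
`nu_le`: choose a representative `e_c ∈ bx n N` for every class `c`; `(c, v) ↦ e_c + v` (`v ∈ lb Λ N`) is injective with values in `[-N, 2N]^n`, which has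
`(3N+1)^n` elements.
`hd_le_nu`: `bx n N` is the union over the classes of sets contained in `e_c + lb Λ N`: `hd_biUnion`, `hd_mono`, `hd_trans`.
`nu_le_hd`: representatives `e_c ∈ bx n N`, `e'_c = e_c + (N, .., N)`; `E_c = e'_c + lb Λ N ⊆ [0, 3N]^n`, in pairwise different classes. For each `c`
choose `B_c ⊆ E_c` with `(mz g e)_(e ∈ B_c)` independent and `card B_c = hd (E_c) = hd (lb Λ N)` (`hd_trans`). The union `B` of the `B_c`
(disjoint) has independent `mz g e`: a relation over `L` supported in `B ⊆ bx n (3N)` splits by `Gr L g (3N) Λ` into relations supported in the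
`B_c` (`e - e'_c ∈ Λ` selects `B_c`). So `card B = nu * hd (lb) ≤ hd (bx n (3N))`.
-/

set_option autoImplicit false

namespace Pool.Agent.H11.TS

variable {L F : Type} [Field L] [Field F] [Algebra L F] {n : ℕ}

private theorem mk_sub_iff (Λ : AddSubgroup (Fin n → ℤ)) (a b : Fin n → ℤ) :
    (QuotientAddGroup.mk a : (Fin n → ℤ) ⧸ Λ) = QuotientAddGroup.mk b ↔ a - b ∈ Λ := by
  rw [eq_comm, QuotientAddGroup.eq, neg_add_eq_sub]

private theorem sub_mem_lb (Λ : AddSubgroup (Fin n → ℤ)) {N : ℕ} {a b : Fin n → ℤ}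
    (ha : a ∈ bx n N) (hb : b ∈ bx n N) (h : a - b ∈ Λ) : a - b ∈ lb Λ N := by
  rw [mem_lb]
  refine ⟨fun i => ?_, h⟩
  rw [mem_bx] at ha hb
  have h1 := ha i
  have h2 := hb i
  rw [Pi.sub_apply, abs_le]
  constructor <;> linarith [h1.1, h1.2, h2.1, h2.2]

private theorem reps (Λ : AddSubgroup (Fin n → ℤ)) (N : ℕ) :
    ∃ (C : Finset ((Fin n → ℤ) ⧸ Λ)) (r : (Fin n → ℤ) ⧸ Λ → Fin n → ℤ), C.card = nu Λ N ∧
      (∀ c ∈ C, r c ∈ bx n N) ∧ (∀ c ∈ C, (QuotientAddGroup.mk (r c) : (Fin n → ℤ) ⧸ Λ) = c) ∧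
      ∀ e ∈ bx n N, (QuotientAddGroup.mk e : (Fin n → ℤ) ⧸ Λ) ∈ C := by
  classical
  have h1 : ∀ c : (Fin n → ℤ) ⧸ Λ, ∃ e : Fin n → ℤ,
      c ∈ (bx n N).image (QuotientAddGroup.mk : (Fin n → ℤ) → (Fin n → ℤ) ⧸ Λ) →
        e ∈ bx n N ∧ (QuotientAddGroup.mk e : (Fin n → ℤ) ⧸ Λ) = c := by
    intro c
    by_cases hc : c ∈ (bx n N).image (QuotientAddGroup.mk : (Fin n → ℤ) → (Fin n → ℤ) ⧸ Λ)
    · obtain ⟨e, he, hec⟩ := Finset.mem_image.1 hc
      exact ⟨e, fun _ => ⟨he, hec⟩⟩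
    · exact ⟨0, fun h => absurd h hc⟩
  choose r hr using h1
  refine ⟨(bx n N).image QuotientAddGroup.mk, r, ?_, fun c hc => (hr c hc).1, fun c hc => (hr c hc).2,
    fun e he => Finset.mem_image_of_mem _ he⟩
  unfold nu
  refine congrArg Finset.card ?_
  ext c
  simp only [Finset.mem_image]

theorem nu_ge (Λ : AddSubgroup (Fin n → ℤ)) (N : ℕ) : (N + 1) ^ n ≤ nu Λ N * (lb Λ N).card := by
  classical
  obtain ⟨C, r, hC, hr, hrc, hm⟩ := reps Λ N
  rw [← card_bx, ← hC]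
  have h1 : bx n N ⊆ (C ×ˢ lb Λ N).image (fun q => r q.1 + q.2) := by
    intro e he
    rw [Finset.mem_image]
    refine ⟨(QuotientAddGroup.mk e, e - r (QuotientAddGroup.mk e)), ?_, ?_⟩
    · rw [Finset.mem_product]
      exact ⟨hm e he, sub_mem_lb Λ he (hr _ (hm e he)) ((mk_sub_iff Λ _ _).1 (hrc _ (hm e he)).symm)⟩
    · simp
  calc (bx n N).card ≤ ((C ×ˢ lb Λ N).image (fun q => r q.1 + q.2)).card := Finset.card_le_card h1
    _ ≤ (C ×ˢ lb Λ N).card := Finset.card_image_le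
    _ = C.card * (lb Λ N).card := Finset.card_product _ _

private theorem inj_rep (Λ : AddSubgroup (Fin n → ℤ)) (C : Finset ((Fin n → ℤ) ⧸ Λ))
    (B : Finset (Fin n → ℤ)) (hB : ∀ v ∈ B, v ∈ Λ) (r : (Fin n → ℤ) ⧸ Λ → Fin n → ℤ)
    (w : Fin n → ℤ) (hr : ∀ c ∈ C, (QuotientAddGroup.mk (r c) : (Fin n → ℤ) ⧸ Λ) = c) :
    Set.InjOn (fun q : ((Fin n → ℤ) ⧸ Λ) × (Fin n → ℤ) => w + r q.1 + q.2)
      ((C ×ˢ B : Finset (((Fin n → ℤ) ⧸ Λ) × (Fin n → ℤ))) : Set _) := by
  rintro ⟨c, v⟩ hq ⟨c', v'⟩ hq' he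
  rw [Finset.mem_coe, Finset.mem_product] at hq hq'
  obtain ⟨hc, hv⟩ := hq
  obtain ⟨hc', hv'⟩ := hq'
  simp only at hc hv hc' hv' he
  have h1 : r c + v = r c' + v' := by
    rw [add_assoc, add_assoc] at he
    exact add_left_cancel he
  have h2 : c = c' := by
    rw [← hr c hc, ← hr c' hc', mk_sub_iff]
    have h3 : r c - r c' = v' - v := by
      rw [sub_eq_sub_iff_add_eq_add, h1, add_comm]
    rw [h3]
    exact Λ.sub_mem (hB v' hv') (hB v hv)
  subst h2
  rw [add_left_cancel h1]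

theorem nu_le (Λ : AddSubgroup (Fin n → ℤ)) (N : ℕ) :
    nu Λ N * (lb Λ N).card ≤ (3 * N + 1) ^ n := by
  classical
  obtain ⟨C, r, hC, hr, hrc, hm⟩ := reps Λ N
  have h1 := inj_rep Λ C (lb Λ N) (fun v hv => ((mem_lb Λ N v).1 hv).2) r (fun _ => (N : ℤ)) hrc
  rw [← hC, ← Finset.card_product, ← Finset.card_image_of_injOn h1, ← card_bx]
  refine Finset.card_le_card ?_
  intro e he
  obtain ⟨⟨c, v⟩, hq, rfl⟩ := Finset.mem_image.1 he
  rw [Finset.mem_product] at hq
  have h2 := (mem_bx _).1 (hr c hq.1)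
  have h3 := ((mem_lb Λ N v).1 hq.2).1
  rw [mem_bx]
  intro i
  have h4 := h2 i
  have h5 := abs_le.1 (h3 i)
  simp only [Pi.add_apply]
  push_cast
  constructor <;> linarith [h4.1, h4.2, h5.1, h5.2]

theorem hd_le_nu (g : Fin n → F) (hg : ∀ i, g i ≠ 0) (Λ : AddSubgroup (Fin n → ℤ)) (N : ℕ) :
    hd L g (bx n N) ≤ nu Λ N * hd L g (lb Λ N) := by
  classical
  obtain ⟨C, r, hC, hr, hrc, hm⟩ := reps Λ N
  have h1 : bx n N ⊆ C.biUnion (fun c => (lb Λ N).image (fun e => r c + e)) := by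
    intro e he
    rw [Finset.mem_biUnion]
    refine ⟨QuotientAddGroup.mk e, hm e he, ?_⟩
    rw [Finset.mem_image]
    exact ⟨e - r (QuotientAddGroup.mk e),
      sub_mem_lb Λ he (hr _ (hm e he)) ((mk_sub_iff Λ _ _).1 (hrc _ (hm e he)).symm), by simp⟩
  refine (hd_mono g h1).trans ((hd_biUnion g C _).trans ?_)
  rw [Finset.sum_congr rfl (fun c _ => hd_trans g hg (lb Λ N) (r c)), Finset.sum_const, hC,
    smul_eq_mul]

theorem nu_le_hd (g : Fin n → F) (hg : ∀ i, g i ≠ 0) (Λ : AddSubgroup (Fin n → ℤ)) (N : ℕ)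
    (h : Gr L g (3 * N) Λ) : nu Λ N * hd L g (lb Λ N) ≤ hd L g (bx n (3 * N)) := by
  classical
  obtain ⟨C, r, hC, hr, hrc, hm⟩ := reps Λ N
  -- a basis of the span of the monomials in the lattice
  obtain ⟨b, hbs, -, hbt, hbi⟩ := exists_linearIndepOn_extension
    (linearIndepOn_empty L (mz g)) (Set.empty_subset ((lb Λ N : Finset (Fin n → ℤ)) : Set (Fin n → ℤ)))
  obtain ⟨B, rfl⟩ : ∃ B : Finset (Fin n → ℤ), (B : Set (Fin n → ℤ)) = b :=
    ⟨((lb Λ N).finite_toSet.subset hbs).toFinset, by simp⟩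
  have hBs : B ⊆ lb Λ N := Finset.coe_subset.1 hbs
  have hcard : ∀ T : Finset (Fin n → ℤ), LinearIndepOn L (mz g) (T : Set (Fin n → ℤ)) →
      hd L g T = T.card := by
    intro T hT
    unfold hd
    have h1 : (T : Set (Fin n → ℤ)).InjOn (mz g) := hT.injOn
    rw [← Finset.coe_image, finrank_span_finset_eq_card, Finset.card_image_of_injOn h1]
    rw [Finset.coe_image]
    exact hT.id_image
  have hBc : hd L g (lb Λ N) = B.card := by
    rw [← hcard B hbi]
    unfold hd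
    have h1 : Submodule.span L (mz g '' ((lb Λ N : Finset (Fin n → ℤ)) : Set (Fin n → ℤ))) =
        Submodule.span L (mz g '' (B : Set (Fin n → ℤ))) :=
      le_antisymm (Submodule.span_le.2 hbt) (Submodule.span_mono (Set.image_mono hbs))
    rw [h1]
  have hinj := inj_rep Λ C B (fun v hv => ((mem_lb Λ N v).1 (hBs hv)).2) r (fun _ => (N : ℤ)) hrc
  set w : Fin n → ℤ := fun _ => (N : ℤ) with hw
  set T := (C ×ˢ B).image (fun q : ((Fin n → ℤ) ⧸ Λ) × (Fin n → ℤ) => w + r q.1 + q.2) with hT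
  have hTs : T ⊆ bx n (3 * N) := by
    intro e he
    obtain ⟨⟨c, v⟩, hq, rfl⟩ := Finset.mem_image.1 he
    rw [Finset.mem_product] at hq
    have h2 := (mem_bx _).1 (hr c hq.1)
    have h3 := ((mem_lb Λ N v).1 (hBs hq.2)).1
    rw [mem_bx]
    intro i
    have h4 := h2 i
    have h5 := abs_le.1 (h3 i)
    simp only [Pi.add_apply, hw]
    push_cast
    constructor <;> linarith [h4.1, h4.2, h5.1, h5.2]
  have hTi : LinearIndepOn L (mz g) (T : Set (Fin n → ℤ)) := by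
    rw [linearIndepOn_finset_iff]
    intro f hf e he
    obtain ⟨⟨c, v⟩, hq, rfl⟩ := Finset.mem_image.1 he
    rw [Finset.mem_product] at hq
    have hcC : c ∈ C := hq.1
    have hsplit : ∀ A : Finset (Fin n → ℤ), A ⊆ bx n (3 * N) → ∑ e ∈ A, algebraMap L F (if e ∈ T then f e else 0) * mz g e =
        ∑ e ∈ A ∩ T, f e • mz g e := by
      intro A _
      rw [← Finset.filter_mem_eq_inter, Finset.sum_filter]
      refine Finset.sum_congr rfl fun e _ => ?_
      split_ifs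
      · rw [Algebra.smul_def]
      · rw [map_zero, zero_mul]
    have h1 := h (fun e => if e ∈ T then f e else 0) (by
      rw [hsplit _ (Finset.Subset.refl _), Finset.inter_eq_right.2 hTs]
      exact hf) (w + r c)
    have h2 : ((@Finset.filter _ (fun e => e - (w + r c) ∈ Λ) (Classical.decPred _) (bx n (3 * N))) ∩ T) =
        B.image (fun v => w + r c + v) := by
      ext e
      rw [Finset.mem_inter, Finset.mem_filter, hT, Finset.mem_image, Finset.mem_image]
      constructor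
      · rintro ⟨⟨-, h3⟩, ⟨⟨c', v'⟩, hq', rfl⟩⟩
        rw [Finset.mem_product] at hq'
        simp only at hq' h3 ⊢
        have h4 : c' = c := by
          rw [← hrc c' hq'.1, ← hrc c hcC, mk_sub_iff]
          have h5 : r c' - r c = (w + r c' + v' - (w + r c)) - v' := by
            abel
          rw [h5]
          exact Λ.sub_mem h3 ((mem_lb Λ N v').1 (hBs hq'.2)).2
        subst h4
        exact ⟨v', hq'.2, rfl⟩
      · rintro ⟨v', hv', rfl⟩
        refine ⟨⟨hTs (Finset.mem_image.2 ⟨(c, v'), Finset.mem_product.2 ⟨hcC, hv'⟩, rfl⟩), ?_⟩,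
          ⟨(c, v'), Finset.mem_product.2 ⟨hcC, hv'⟩, rfl⟩⟩
        rw [add_sub_cancel_left]
        exact ((mem_lb Λ N v').1 (hBs hv')).2
    rw [hsplit _ (Finset.filter_subset _ _), h2,
      Finset.sum_image (fun x _ y _ hxy => add_left_cancel hxy)] at h1
    have h3 : mz g (w + r c) * ∑ v' ∈ B, f (w + r c + v') • mz g v' = 0 := by
      rw [← h1, Finset.mul_sum]
      refine Finset.sum_congr rfl fun v' _ => ?_
      rw [mz_add g hg (w + r c) v', mul_smul_comm]
    have h4 := (mul_eq_zero.1 h3).resolve_left (mz_ne_zero g hg _)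
    exact (linearIndepOn_finset_iff.1 hbi) (fun v' => f (w + r c + v')) h4 v hq.2
  have h5 : T.card = C.card * B.card := by
    rw [hT, Finset.card_image_of_injOn hinj, Finset.card_product]
  rw [hBc, ← hC, ← h5, ← hcard T hTi]
  exact hd_mono g hTs

end Pool.Agent.H11.TS
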