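import Pool.Agent.H11.TS.Defs
import Pool.Agent.H33.TR.Ird

/-!
# THEOREM TS, Cst: algebraic characters are constant

`const_char`. PROOF: `z := mz g (e i) ∈ H` is algebraic over `L` (`H / L` is finite), so over `Ω` (scalar tower): a monic polynomial `q` over `Ω` with
`q(z) = 0`; `Ω` is algebraically closed: `q = ∏ (X - γ_j)`, and `F` is a field, so `z = algebraMap Ω F γ` for one `γ` (or:
`IsAlgClosed.algebraMap_surjective_of_isIntegral` style lemma; the element `z` is algebraic over the algebraically closed subfield `range (algebraMap Ω F)`).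
`γ ≠ 0` as `z ≠ 0`. By `hg.2` with `s = {e i, 0}` (if `e i = 0` then `γ = 1` directly; coefficients `1` at `e i`, `-γ` at `0`):
`ch (e i) x = γ` for all `x ∈ X`.
Degree: the `γ i ∈ Ω` satisfy `algebraMap Ω F (γ i) ∈ H`. The set `{y ∈ Ω : algebraMap Ω F y ∈ H}` is an intermediate field `M` of `Ω / L`
(`IntermediateField.comap` of `IsScalarTower.toAlgHom L Ω F`), which contains the `γ i`, and `M → H` is an injective `L`-linear map:
`finrank L M ≤ finrank L H` (`LinearMap.finrank_le_finrank_of_injective`), `M` is finite-dimensional, `adjoin ≤ M`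
(`IntermediateField.finrank_le_of_le_left..`/`Submodule.finrank_mono`).
-/

set_option autoImplicit false

namespace Pool.Agent.H11.TS

open Pool.Agent.H11.TH

private theorem alg_range {Ω F L : Type} [Field Ω] [IsAlgClosed Ω] [Field F] [Algebra Ω F] [Field L]
    [Algebra L Ω] [Algebra L F] [IsScalarTower L Ω F] (H : IntermediateField L F)
    [FiniteDimensional L H] (z : F) (hz : z ∈ H) : ∃ γ : Ω, algebraMap Ω F γ = z := by
  have h1 : IsIntegral L (⟨z, hz⟩ : H) := IsIntegral.of_finite L _
  have h2 : IsIntegral L z := h1.map H.val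
  have h3 : IsIntegral Ω z := h2.tower_top
  have h4 : (minpoly Ω z).degree = 1 :=
    IsAlgClosed.degree_eq_one_of_irreducible Ω (minpoly.irreducible h3)
  exact minpoly.mem_range_of_degree_eq_one Ω z h4

private theorem adj_fin {Ω F L : Type} [Field Ω] [Field F] [Algebra Ω F] [Field L]
    [Algebra L Ω] [Algebra L F] [IsScalarTower L Ω F] (H : IntermediateField L F)
    [FiniteDimensional L H] (S : Set Ω) (hS : ∀ y ∈ S, algebraMap Ω F y ∈ H) :
    FiniteDimensional L (IntermediateField.adjoin L S) ∧
      Module.finrank L (IntermediateField.adjoin L S) ≤ Module.finrank L H := by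
  have hle : IntermediateField.adjoin L S ≤ H.comap (IsScalarTower.toAlgHom L Ω F) := by
    rw [IntermediateField.adjoin_le_iff]
    intro y hy
    exact hS y hy
  have hmem : ∀ y : IntermediateField.adjoin L S, algebraMap Ω F (y : Ω) ∈ H := fun y => hle y.2
  let f : IntermediateField.adjoin L S →ₗ[L] H :=
    { toFun := fun y => ⟨algebraMap Ω F (y : Ω), hmem y⟩
      map_add' := by
        intro y y'
        apply Subtype.ext
        exact map_add (algebraMap Ω F) _ _
      map_smul' := by
        intro c y
        apply Subtype.ext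
        have h5 : algebraMap Ω F (c • (y : Ω)) = c • algebraMap Ω F (y : Ω) :=
          (IsScalarTower.toAlgHom L Ω F).toLinearMap.map_smul c (y : Ω)
        exact h5 }
  have hf : Function.Injective f := by
    intro y y' h
    have h6 : algebraMap Ω F (y : Ω) = algebraMap Ω F (y' : Ω) := congrArg Subtype.val h
    exact Subtype.ext ((algebraMap Ω F).injective h6)
  exact ⟨FiniteDimensional.of_injective f hf, LinearMap.finrank_le_finrank_of_injective hf⟩

theorem const_char {K Ω F : Type} [Field K] [Field Ω] [CharZero Ω] [IsAlgClosed Ω] [Algebra K Ω]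
    [Field F] [Algebra Ω F] {n : ℕ} (L : IntermediateField K Ω) (X : Set (Tor Ω n))
    (g : Fin n → F) (hg : Mdl X g) (H : IntermediateField L F) [FiniteDimensional L H] {k : ℕ}
    (e : Fin k → Fin n → ℤ) (he : ∀ i, mz g (e i) ∈ H) :
    ∃ γ : Fin k → Ωˣ, (∀ i, ∀ x ∈ X, ch (e i) x = γ i) ∧
      FiniteDimensional L (IntermediateField.adjoin L (Set.range fun i => (γ i : Ω))) ∧
      Module.finrank L (IntermediateField.adjoin L (Set.range fun i => (γ i : Ω))) ≤
        Module.finrank L H := by
  classical
  have h0 : ∀ i, ∃ γ : Ω, algebraMap Ω F γ = mz g (e i) := fun i => alg_range H _ (he i)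
  choose c hc using h0
  have hc0 : ∀ i, c i ≠ 0 := by
    intro i h
    have h1 := hc i
    rw [h, map_zero] at h1
    exact mz_ne_zero g hg.1 (e i) h1.symm
  refine ⟨fun i => Units.mk0 (c i) (hc0 i), fun i x hx => ?_, ?_⟩
  · apply Units.ext
    rw [Units.val_mk0]
    by_cases hei : e i = 0
    · have h1 := hc i
      rw [hei, mz_zero] at h1
      have h2 : c i = 1 := (algebraMap Ω F).injective (h1.trans (map_one _).symm)
      rw [h2, hei]
      unfold ch
      simp
    · have h1 := (hg.2 {e i, 0} (fun e' => if e' = e i then 1 else - c i)).1 (by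
        rw [Finset.sum_pair hei, if_pos rfl, if_neg (Ne.symm hei), map_one, one_mul, map_neg,
          mz_zero, mul_one, hc i, add_neg_cancel]) x hx
      rw [Finset.sum_pair hei, if_pos rfl, if_neg (Ne.symm hei), one_mul] at h1
      have h2 : ((ch 0 x : Ωˣ) : Ω) = 1 := by
        unfold ch
        simp
      rw [h2, mul_one] at h1
      exact add_neg_eq_zero.1 h1
  · refine adj_fin H _ ?_
    rintro _ ⟨i, rfl⟩
    show algebraMap Ω F ((Units.mk0 (c i) (hc0 i) : Ωˣ) : Ω) ∈ H
    rw [Units.val_mk0, hc i]
    exact he i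

end Pool.Agent.H11.TS
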