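import Pool.Agent.H11.TS.Defs
import Pool.Agent.H33.TR.Ird

/-!
# THEOREM TS, Gen: a generic point

`exists_mdl`. PROOF: `J = idl X` is prime; `F = FractionRing (MvPolynomial (Fin n) Ω ⧸ J)` (a field, `Algebra Ω F`), `g i` the image of
`X_i`; it is not `0` as `X_i ∉ J` (`X` is not empty since `J ≠ ⊤`, and the coordinates of its points are units; `mem_idl` in
`Pool/Agent/H33/TR/Ird.lean`). For a finite `s` and `a`: choose `N` with `0 ≤ e i + N` for `e ∈ s`, multiply by `mz g (N, .., N) ≠ 0`: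
`∑ a_e g^(e+N)` is the image of the polynomial `∑ monomial (e+N) (a_e)`, zero iff the polynomial is in `J` iff it vanishes at all `x ∈ X` iff
`∑ a_e x^e = 0` for all `x ∈ X` (divide by the unit `x^(N,..,N)`).
-/

set_option autoImplicit false

namespace Pool.Agent.H11.TS

open Pool.Agent.H11.TH

private theorem mz_nat {F : Type} [Field F] {n : ℕ} (g : Fin n → F) (hg : ∀ i, g i ≠ 0)
    (e : Fin n → ℤ) (N : ℕ) (h : ∀ i, 0 ≤ e i + N) :
    ∏ i, g i ^ (e i + N).toNat = mz g e * mz g (fun _ => (N : ℤ)) := by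
  rw [← mz_add g hg]
  unfold mz
  refine Finset.prod_congr rfl fun i _ => ?_
  rw [Pi.add_apply]
  conv_rhs => rw [← Int.toNat_of_nonneg (h i)]
  rw [zpow_natCast]

theorem exists_mdl {Ω : Type} [Field Ω] {n : ℕ} (X : Set (Tor Ω n)) (hX : (idl X).IsPrime) :
    ∃ (F : Type) (_ : Field F) (_ : Algebra Ω F) (g : Fin n → F), Mdl X g := by
  classical
  have : IsDomain (MvPolynomial (Fin n) Ω ⧸ idl X) := Ideal.Quotient.isDomain _
  let F := FractionRing (MvPolynomial (Fin n) Ω ⧸ idl X)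
  let φ : MvPolynomial (Fin n) Ω →+* F :=
    (algebraMap (MvPolynomial (Fin n) Ω ⧸ idl X) F).comp (Ideal.Quotient.mk (idl X))
  letI ia : Algebra Ω F := (φ.comp MvPolynomial.C).toAlgebra
  have hφ : ∀ P : MvPolynomial (Fin n) Ω, φ P = 0 ↔ ∀ x ∈ X, MvPolynomial.aeval (crd x) P = 0 := by
    intro P
    have h1 : φ P = 0 ↔ P ∈ idl X := by
      rw [← Ideal.Quotient.eq_zero_iff_mem]
      constructor
      · intro h
        have h2 : algebraMap (MvPolynomial (Fin n) Ω ⧸ idl X) F (Ideal.Quotient.mk (idl X) P) =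
            algebraMap (MvPolynomial (Fin n) Ω ⧸ idl X) F 0 := by
          rw [map_zero]
          exact h
        exact IsFractionRing.injective (MvPolynomial (Fin n) Ω ⧸ idl X) F h2
      · intro h
        change algebraMap (MvPolynomial (Fin n) Ω ⧸ idl X) F (Ideal.Quotient.mk (idl X) P) = 0
        rw [h, map_zero]
    rw [h1, Pool.Agent.H33.TR.mem_idl]
  have hg : ∀ i, φ (MvPolynomial.X i) ≠ 0 := by
    intro i h
    obtain ⟨x, hx⟩ := prime_nonempty hX
    have h1 := (hφ _).1 h x hx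
    rw [MvPolynomial.aeval_X] at h1
    exact (x i).ne_zero h1
  refine ⟨F, inferInstance, ia, fun i => φ (MvPolynomial.X i), hg, ?_⟩
  intro s a
  obtain ⟨N, hN⟩ : ∃ N : ℕ, ∀ e ∈ s, ∀ i, 0 ≤ e i + N := by
    refine ⟨∑ e ∈ s, ∑ i, (e i).natAbs, fun e he i => ?_⟩
    have h1 : (e i).natAbs ≤ ∑ i, (e i).natAbs :=
      Finset.single_le_sum (f := fun i => (e i).natAbs) (fun _ _ => Nat.zero_le _) (Finset.mem_univ i)
    have h2 : ∑ i, (e i).natAbs ≤ ∑ e ∈ s, ∑ i, (e i).natAbs :=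
      Finset.single_le_sum (f := fun e : Fin n → ℤ => ∑ i, (e i).natAbs) (fun _ _ => Nat.zero_le _) he
    have h3 := h1.trans h2
    omega
  have h1 : φ (∑ e ∈ s, MvPolynomial.monomial (Finsupp.equivFunOnFinite.symm fun i => (e i + N).toNat) (a e)) =
      (∑ e ∈ s, algebraMap Ω F (a e) * mz (fun i => φ (MvPolynomial.X i)) e) *
        mz (fun i => φ (MvPolynomial.X i)) (fun _ => (N : ℤ)) := by
    rw [map_sum, Finset.sum_mul]
    refine Finset.sum_congr rfl fun e he => ?_
    rw [mul_assoc, ← mz_nat _ hg e N (hN e he), MvPolynomial.monomial_eq, map_mul]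
    congr 1
    rw [Finsupp.prod_fintype _ _ (fun i => pow_zero _), map_prod]
    refine Finset.prod_congr rfl fun i _ => ?_
    rw [map_pow]
    rfl
  have h2 : ∀ x : Tor Ω n, MvPolynomial.aeval (crd x)
      (∑ e ∈ s, MvPolynomial.monomial (Finsupp.equivFunOnFinite.symm fun i => (e i + N).toNat) (a e)) =
      (∑ e ∈ s, a e * ((ch e x : Ωˣ) : Ω)) * mz (crd x) (fun _ => (N : ℤ)) := by
    intro x
    have hx : ∀ i, crd x i ≠ 0 := fun i => (x i).ne_zero
    rw [map_sum, Finset.sum_mul]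
    refine Finset.sum_congr rfl fun e he => ?_
    rw [mul_assoc, ← mz_ch, ← mz_nat _ hx e N (hN e he), MvPolynomial.aeval_monomial]
    congr 1
    rw [Finsupp.prod_fintype _ _ (fun i => pow_zero _)]
    rfl
  have h3 := hφ (∑ e ∈ s, MvPolynomial.monomial (Finsupp.equivFunOnFinite.symm fun i => (e i + N).toNat) (a e))
  rw [h1, mul_eq_zero_iff_right (mz_ne_zero _ hg _)] at h3
  rw [h3]
  refine forall₂_congr fun x _ => ?_
  rw [h2, mul_eq_zero_iff_right (mz_ne_zero (crd x) (fun i => (x i).ne_zero) _)]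

end Pool.Agent.H11.TS
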