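import Pool.Agent.H11.TS.Cmb
import Pool.Agent.H11.TS.Gen
import Pool.Agent.H11.TS.Cst

/-!
# THEOREM TS

`thm_ts`: `X` a set of points of `G_m^n` with prime ideal and heights at most `θ`, `L` any field between `K` and `Ω`, `F ≠ 0` over `L` of degree at most `D` in each
variable vanishing on `X`, `C ≤ P₀`, `D ≤ P₀^a`. Then `1 < C P₀^(10n^2+1) D θ`, or there are `k ≥ 1` independent characters `e_i`, `|e_i| ≤ μ_i ≤ N ≤ C P₀^(10n^2) D`,
constant `= γ_i` on `X`, with `[L(γ_1, .., γ_k) : L] ∏ μ_i ≤ C N^k`.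

PROOF: `n = 0`: `F` is a nonzero constant, but `X` is not empty (`idl X ≠ ⊤`): contradiction (`mem_idl` in H33/TR/Ird). `n ≥ 1`: `C₂` from `comb_core`,
`C := 2^(2τ) * 2τ * C₂ + C₂` (`τ = ta n a`). `0 ≤ θ` (`X` not empty, heights are `≥ 0`, as in `tr_A`, H33/TR/Fin). Suppose not `1 < C P₀^(10n^2+1) D θ`: then
`pu * (2τ Mx) θ ≤ 2^(2τ) P₀ 2τ C₂ P₀^(10n^2) D θ ≤ 1`. `exists_mdl`: the field `F'` and `g` (`Mdl X g`). `prime_data` for every prime `p ∈ (P₀, pu]` (`hnum` by `par_log`;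
`p ≠ 2` as `p > 3`). The relation: `b e` := the coefficient of `F` at `e` for `e ∈ bx n D` (the exponent as a `Finsupp` of natural numbers `(e i).toNat`), by `hg.2`
it holds for `g` because `F` vanishes on `X` (`mem_idl`, `aeval_box`; `algebraMap L F' = algebraMap Ω F' ∘ coe`); it is not zero since `F ≠ 0` has all its exponents in the box.
`comb_core` (`CharZero L`) and `const_char`.
-/

set_option autoImplicit false

open NumberField MvPolynomial

namespace Pool.Agent.H11.TS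

open Pool.Agent.H11.TH

/-- the coefficient of `F` at an integer exponent -/
private noncomputable def cf {R : Type} [Field R] {n : ℕ} (F : MvPolynomial (Fin n) R)
    (e : Fin n → ℤ) : R :=
  F.coeff (Finsupp.equivFunOnFinite.symm fun i => (e i).toNat)

private theorem sum_cf {R S : Type} [Field R] [Field S] [Algebra R S] {n D : ℕ}
    (F : MvPolynomial (Fin n) R) (hF : ∀ i, F.degreeOf i ≤ D) (y : Fin n → S) :
    ∑ e ∈ bx n D, algebraMap R S (cf F e) * mz y e = aeval y F := by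
  classical
  rw [Pool.Agent.H33.TR.aeval_box F hF y]
  symm
  refine Finset.sum_bij (fun (m : Pool.Agent.H33.TR.Bx n D) _ => fun l => ((m l : ℕ) : ℤ)) ?_ ?_ ?_ ?_
  · intro m _
    rw [mem_bx]
    intro i
    have := (m i).2
    constructor
    · exact Int.natCast_nonneg _
    · exact_mod_cast Nat.lt_succ_iff.1 this
  · intro m _ m' _ h
    funext l
    apply Fin.ext
    have h1 := congrFun h l
    exact_mod_cast h1
  · intro e he
    rw [mem_bx] at he
    refine ⟨fun l => ⟨(e l).toNat, ?_⟩, Finset.mem_univ _, ?_⟩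
    · have h1 := he l
      omega
    · funext l
      have h1 := he l
      show (((e l).toNat : ℕ) : ℤ) = e l
      omega
  · intro m _
    congr 1
    unfold mz Pool.Agent.H33.TR.mn
    exact Finset.prod_congr rfl fun l _ => (zpow_natCast _ _).symm

private theorem cf_ne {R : Type} [Field R] {n D : ℕ} (F : MvPolynomial (Fin n) R)
    (hF : ∀ i, F.degreeOf i ≤ D) (h0 : F ≠ 0) : ∃ e ∈ bx n D, cf F e ≠ 0 := by
  obtain ⟨m, hm⟩ := MvPolynomial.ne_zero_iff.1 h0
  refine ⟨fun i => ((m i : ℕ) : ℤ), ?_, ?_⟩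
  · rw [mem_bx]
    intro i
    refine ⟨Int.natCast_nonneg _, ?_⟩
    exact_mod_cast (monomial_le_degreeOf i (mem_support_iff.2 hm)).trans (hF i)
  · unfold cf
    have h1 : (Finsupp.equivFunOnFinite.symm fun i => ((((m i : ℕ) : ℤ)).toNat : ℕ)) = m := by
      ext i
      simp
    rw [h1]
    exact hm

theorem thm_ts (n a : ℕ) : ∃ C : ℕ, 1 ≤ C ∧
    ∀ (K Ω : Type) [Field K] [NumberField K] [Field Ω] [CharZero Ω] [IsAlgClosed Ω] [Algebra K Ω]
      [IsGalois K Ω] (L : IntermediateField K Ω) (X : Set (Tor Ω n)) (_ : (idl X).IsPrime)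
      (P₀ D : ℕ) (_ : C ≤ P₀) (_ : 1 ≤ D) (_ : D ≤ P₀ ^ a) (F : MvPolynomial (Fin n) L)
      (_ : F ≠ 0) (_ : ∀ i, F.degreeOf i ≤ D) (_ : map (algebraMap L Ω) F ∈ idl X) (θ : ℝ)
      (_ : ∀ x ∈ X, ht x ≤ θ),
      1 < (C * P₀ ^ (10 * n ^ 2 + 1) * D : ℕ) * θ ∨
      ∃ (k N : ℕ) (e : Fin k → Fin n → ℤ) (μ : Fin k → ℕ) (γ : Fin k → Ωˣ),
        1 ≤ k ∧ N ≤ C * P₀ ^ (10 * n ^ 2) * D ∧ LinearIndependent ℚ (fun i => rv (e i)) ∧
        (∀ i j, |e i j| ≤ μ i) ∧ (∀ i, 1 ≤ μ i ∧ μ i ≤ N) ∧ (∀ i, ∀ x ∈ X, ch (e i) x = γ i) ∧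
        FiniteDimensional L (IntermediateField.adjoin L (Set.range fun i => (γ i : Ω))) ∧
        Module.finrank L (IntermediateField.adjoin L (Set.range fun i => (γ i : Ω))) * ∏ i, μ i ≤
          C * N ^ k := by
  classical
  rcases Nat.eq_zero_or_pos n with hn | hn
  · subst hn
    refine ⟨1, le_rfl, ?_⟩
    intro K Ω _ _ _ _ _ _ _ L X hX P₀ D _ _ _ F hF _ hv θ _
    exfalso
    apply hX.ne_top
    rw [Ideal.eq_top_iff_one]
    have h1 : F = C (F.coeff 0) := eq_C_of_isEmpty F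
    have h2 : F.coeff 0 ≠ 0 := by
      intro h
      apply hF
      rw [h1, h, C_0]
    rw [h1, map_C] at hv
    have h3 : algebraMap L Ω (F.coeff 0) ≠ 0 := by
      intro h
      exact h2 ((map_eq_zero _).1 h)
    have h4 := (idl X).mul_mem_left (C (algebraMap L Ω (F.coeff 0))⁻¹) hv
    rw [← C_mul, inv_mul_cancel₀ h3, C_1] at h4
    exact h4
  · obtain ⟨C₂, hC₂, hpar, hcore⟩ := comb_core n a hn
    obtain ⟨t, ht⟩ : ∃ t : ℕ, t = ta n a := ⟨_, rfl⟩
    refine ⟨2 ^ (2 * t) * (2 * t) * C₂ + C₂, by omega, ?_⟩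
    intro K Ω _ _ _ _ _ _ _ L X hX P₀ D hP₀ hD hDa F hF hdeg hv θ hθ
    have hC₂P : C₂ ≤ P₀ := le_trans (Nat.le_add_left _ _) hP₀
    have hta : 1 ≤ ta n a := by
      unfold ta
      omega
    have hX0 : X.Nonempty := by
      by_contra h
      rw [Set.not_nonempty_iff_eq_empty] at h
      apply hX.ne_top
      rw [Ideal.eq_top_iff_one, Pool.Agent.H33.TR.mem_idl, h]
      intro x hx
      exact absurd hx (Set.notMem_empty x)
    have hθ0 : 0 ≤ θ := by
      obtain ⟨x, hx⟩ := hX0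
      refine le_trans ?_ (hθ x hx)
      unfold Pool.Agent.H11.TH.ht
      exact Finset.sum_nonneg fun l _ => Pool.Agent.H72.PB.ht_nonneg _
    obtain ⟨h1, h2⟩ := hpar P₀ D hC₂P hD hDa
    by_cases hcase : 1 < (((2 ^ (2 * t) * (2 * t) * C₂ + C₂) * P₀ ^ (10 * n ^ 2 + 1) * D : ℕ) : ℝ) * θ
    · exact Or.inl hcase
    right
    have h3 : ((pu n a P₀ * (2 * ta n a * Mx n a P₀ D) : ℕ) : ℝ) * θ ≤ 1 := by
      refine le_trans (mul_le_mul_of_nonneg_right ?_ hθ0) (not_lt.1 hcase)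
      have h4 : pu n a P₀ * (2 * ta n a * Mx n a P₀ D) ≤
          (2 ^ (2 * t) * (2 * t) * C₂ + C₂) * P₀ ^ (10 * n ^ 2 + 1) * D := by
        unfold pu
        rw [← ht]
        calc 2 ^ (2 * t) * P₀ * (2 * t * Mx n a P₀ D)
            ≤ 2 ^ (2 * t) * P₀ * (2 * t * (C₂ * P₀ ^ (10 * n ^ 2) * D)) :=
              Nat.mul_le_mul_left _ (Nat.mul_le_mul_left _ h2)
          _ = (2 ^ (2 * t) * (2 * t) * C₂) * P₀ ^ (10 * n ^ 2 + 1) * D := by
              rw [pow_succ]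
              ring
          _ ≤ _ := Nat.mul_le_mul_right _ (Nat.mul_le_mul_right _ (Nat.le_add_right _ _))
      exact_mod_cast h4
    obtain ⟨F', _, _, g, hg⟩ := exists_mdl X hX
    have hPD : ∀ p, p.Prime → P₀ < p → p ≤ pu n a P₀ →
        PData L g p (ta n a) (Mx n a P₀ D) := by
      intro p hp hp1 hp2
      exact prime_data L X g hg θ hθ0 hθ p hp (by omega) (ta n a) (Mx n a P₀ D) hta
        (par_log n a P₀ D p θ hθ0 (hC₂.trans hC₂P) hp1 hp2 h1 h3)
    have hrel : ∑ e ∈ bx n D, algebraMap L F' (cf F e) * mz g e = 0 := by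
      have h5 := (hg.2 (bx n D) (fun e => algebraMap L Ω (cf F e))).2 (fun x hx => by
        have h6 : ∑ e ∈ bx n D, algebraMap L Ω (cf F e) * ((ch e x : Ωˣ) : Ω) =
            aeval (crd x) F := by
          rw [← sum_cf F hdeg (crd x)]
          exact Finset.sum_congr rfl fun e _ => by rw [mz_ch]
        rw [h6, ← aeval_map_algebraMap Ω (crd x) F]
        exact Pool.Agent.H33.TR.mem_idl.1 hv x hx)
      rw [← h5]
      exact Finset.sum_congr rfl fun e _ => by rw [← IsScalarTower.algebraMap_apply]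
    obtain ⟨k, N, e, μ, H, hk, hN, hli, heμ, hμ, heH, hfd, hfin⟩ :=
      hcore L F' g hg.1 P₀ D hC₂P hD hDa (cf F) hrel (cf_ne F hdeg hF) hPD
    obtain ⟨γ, hγ, hfd', hle⟩ := const_char L X g hg H e heH
    refine ⟨k, N, e, μ, γ, hk, ?_, hli, heμ, hμ, hγ, hfd', ?_⟩
    · refine hN.trans (h2.trans ?_)
      exact Nat.mul_le_mul_right _ (Nat.mul_le_mul_right _ (Nat.le_add_left _ _))
    · refine (Nat.mul_le_mul_right _ hle).trans (hfin.trans ?_)
      exact Nat.mul_le_mul_right _ (Nat.le_add_left _ _)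

end Pool.Agent.H11.TS
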