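import Pool.Agent.H11.TS.Defs

/-!
# THEOREM TS, Cyc: adjoining the roots of unity of order `p`

`exists_cyc`. PROOF: `z ∈ Ω` a primitive root of unity of order `p` (`Ω` algebraically closed of characteristic 0:
`HasEnoughRootsOfUnity`/`IsSepClosed`.. or the roots of the cyclotomic polynomial; see how `IsAlgClosed` gives `IsPrimitiveRoot` in
`Pool/Agent/H11/TH` or Mathlib `IsAlgClosed.hasEnoughRootsOfUnity`). `M = IntermediateField.adjoin L {z}` (an intermediate field of `Ω / L`),
`P` = its restriction of scalars to `K` (`IntermediateField.restrictScalars K M`) - the same elements. `ζ = ⟨z, _⟩`. `ι x = ⟨x, _⟩` (`L ≤ P`).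
Every element of `M` is a polynomial in `z` over `L` (`z` is integral: `z^p = 1`) of degree `< p` (reduce the exponents modulo `p` with `z^p = 1`):
`s j = ζ^j`. (`IntermediateField.adjoin_simple...`, `IntermediateField.mem_adjoin_simple_iff`, or `Algebra.adjoin` = `IntermediateField.adjoin` for
algebraic elements: `IntermediateField.adjoin_simple_toSubalgebra_of_integral`, `Algebra.adjoin_singleton_eq_range_aeval`.)
-/

set_option autoImplicit false

namespace Pool.Agent.H11.TS

open Polynomial in
theorem exists_cyc {K Ω : Type} [Field K] [Field Ω] [CharZero Ω] [IsAlgClosed Ω] [Algebra K Ω]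
    (L : IntermediateField K Ω) (p : ℕ) (hp : p.Prime) :
    ∃ (P : IntermediateField K Ω) (ζ : P) (ι : L →+* P), IsPrimitiveRoot ζ p ∧
      (∀ x : L, ((ι x : P) : Ω) = (x : Ω)) ∧
      ∃ s : Fin p → P, ∀ y : P, ∃ c : Fin p → L, y = ∑ j, ι (c j) * s j := by
  have hp0 : p ≠ 0 := hp.ne_zero
  have hpn : NeZero (p : Ω) := ⟨Nat.cast_ne_zero.2 hp0⟩
  have hpn' : NeZero p := ⟨hp0⟩
  obtain ⟨z, hz⟩ : ∃ z : Ω, IsPrimitiveRoot z p := HasEnoughRootsOfUnity.exists_primitiveRoot Ω p
  have hzM : z ∈ IntermediateField.adjoin L {z} := IntermediateField.mem_adjoin_simple_self L z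
  have hL : ∀ x : L, (x : Ω) ∈ (IntermediateField.adjoin L {z}).restrictScalars K :=
    fun x => (IntermediateField.adjoin L {z}).algebraMap_mem x
  have hmon : (X ^ p - 1 : L[X]).Monic := by
    have h := monic_X_pow_sub_C (1 : L) hp0
    rwa [map_one] at h
  have hdeg : (X ^ p - 1 : L[X]).natDegree = p := by
    have h := natDegree_X_pow_sub_C (n := p) (r := (1 : L))
    rwa [map_one] at h
  have hval : aeval z (X ^ p - 1 : L[X]) = 0 := by
    rw [map_sub, map_pow, aeval_X, map_one, hz.pow_eq_one, sub_self]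
  have hint : IsIntegral L z := ⟨X ^ p - 1, hmon, by rw [← aeval_def]; exact hval⟩
  let ι : L →+* (IntermediateField.adjoin L {z}).restrictScalars K :=
    { toFun := fun x => ⟨x, hL x⟩
      map_one' := rfl
      map_mul' := fun _ _ => rfl
      map_zero' := rfl
      map_add' := fun _ _ => rfl }
  refine ⟨(IntermediateField.adjoin L {z}).restrictScalars K, ⟨z, hzM⟩, ι, ?_, fun x => rfl,
    fun j => ⟨z, hzM⟩ ^ (j : ℕ), fun y => ?_⟩
  · refine IsPrimitiveRoot.of_map_of_injective
      (f := ((IntermediateField.adjoin L {z}).restrictScalars K).val) ?_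
      Subtype.val_injective
    exact hz
  · have hy : (y : Ω) ∈ (IntermediateField.adjoin L {z}).toSubalgebra := y.2
    rw [IntermediateField.adjoin_simple_toSubalgebra_of_isAlgebraic hint.isAlgebraic,
      Algebra.adjoin_singleton_eq_range_aeval] at hy
    obtain ⟨f, hf⟩ := hy
    have h1 : aeval z (f %ₘ (X ^ p - 1)) = (y : Ω) := by
      rw [aeval_modByMonic_eq_self_of_root hval]
      exact hf
    have h2 : (f %ₘ (X ^ p - 1)).natDegree < p := by
      have h := natDegree_modByMonic_lt f hmon (by
        intro h3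
        rw [h3, natDegree_one] at hdeg
        exact hp0 hdeg.symm)
      rwa [hdeg] at h
    refine ⟨fun j => (f %ₘ (X ^ p - 1)).coeff j, Subtype.ext ?_⟩
    rw [← h1, aeval_eq_sum_range' h2, Finset.sum_range]
    have h4 : ((∑ j : Fin p, ι ((f %ₘ (X ^ p - 1)).coeff j) *
        (⟨z, hzM⟩ : (IntermediateField.adjoin L {z}).restrictScalars K) ^ (j : ℕ) :
        (IntermediateField.adjoin L {z}).restrictScalars K) : Ω) =
        ∑ j : Fin p, (((f %ₘ (X ^ p - 1)).coeff j : L) : Ω) * z ^ (j : ℕ) := by
      rw [AddSubmonoidClass.coe_finsetSum]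
      rfl
    refine Eq.trans ?_ h4.symm
    rfl

end Pool.Agent.H11.TS
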