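import Pool.Agent.H11.TH.Defs
import Pool.Agent.H33.TR.Loc

/-!
# THEOREM TS (MP_187c26_nt; think 1754): definitions

* `mz g e = ∏ g_i ^ e_i`, integer exponents; `hd L g E`: the dimension over `L` of the span of the monomials with exponents in `E`.
* `bx n N = [0, N]^n`, `sb n N = [-N, N]^n` in `ℤ^n`.
* `Mdl X g`: `g` is a generic point of the set of points `X`: the relations between the monomials in `g` with coefficients in `Ω`
  are the relations which hold at all points of `X`.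
* `tw`, `Stb`: the twist by `ζ ^ u`, `u ∈ (ℤ/p)^n`, and the stabiliser of the relations supported in `[0, N]^n`.
* `lt S`: the lattice of the exponents on which the twists in `S` are trivial. `rk Λ N`: the rank of `Λ ∩ [-N, N]^n`.
-/

set_option autoImplicit false
set_option linter.unusedSectionVars false

open NumberField MvPolynomial

namespace Pool.Agent.H11.TS

open Pool.Agent.H11.TH

/-- the monomial `∏ g_i ^ e_i` -/
def mz {F : Type} [Field F] {n : ℕ} (g : Fin n → F) (e : Fin n → ℤ) : F := ∏ i, g i ^ e i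

theorem mz_zero {F : Type} [Field F] {n : ℕ} (g : Fin n → F) : mz g 0 = 1 := by
  unfold mz
  simp

theorem mz_add {F : Type} [Field F] {n : ℕ} (g : Fin n → F) (hg : ∀ i, g i ≠ 0) (e e' : Fin n → ℤ) :
    mz g (e + e') = mz g e * mz g e' := by
  unfold mz
  rw [← Finset.prod_mul_distrib]
  exact Finset.prod_congr rfl fun i _ => zpow_add₀ (hg i) _ _

theorem mz_ne_zero {F : Type} [Field F] {n : ℕ} (g : Fin n → F) (hg : ∀ i, g i ≠ 0) (e : Fin n → ℤ) :
    mz g e ≠ 0 := by
  unfold mz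
  exact Finset.prod_ne_zero_iff.2 fun i _ => zpow_ne_zero _ (hg i)

theorem mz_neg {F : Type} [Field F] {n : ℕ} (g : Fin n → F) (e : Fin n → ℤ) :
    mz g (-e) = (mz g e)⁻¹ := by
  unfold mz
  rw [← Finset.prod_inv_distrib]
  exact Finset.prod_congr rfl fun i _ => zpow_neg _ _

theorem mz_ch {Ω : Type} [Field Ω] {n : ℕ} (x : Tor Ω n) (e : Fin n → ℤ) :
    mz (crd x) e = ((ch e x : Ωˣ) : Ω) := by
  unfold mz ch crd
  push_cast
  rfl

/-- the dimension over `L` of the span of the monomials with exponents in `E` -/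
noncomputable def hd (L : Type) {F : Type} [Field L] [Field F] [Algebra L F] {n : ℕ} (g : Fin n → F)
    (E : Finset (Fin n → ℤ)) : ℕ :=
  Module.finrank L (Submodule.span L (mz g '' (E : Set (Fin n → ℤ))))

/-- the box `[0, N]^n` -/
noncomputable def bx (n N : ℕ) : Finset (Fin n → ℤ) := Fintype.piFinset fun _ => Finset.Icc (0 : ℤ) N

/-- the box `[-N, N]^n` -/
noncomputable def sb (n N : ℕ) : Finset (Fin n → ℤ) := Fintype.piFinset fun _ => Finset.Icc (-(N : ℤ)) N

theorem mem_bx {n N : ℕ} (e : Fin n → ℤ) : e ∈ bx n N ↔ ∀ i, 0 ≤ e i ∧ e i ≤ N := by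
  unfold bx
  rw [Fintype.mem_piFinset]
  exact forall_congr' fun i => Finset.mem_Icc

theorem mem_sb {n N : ℕ} (e : Fin n → ℤ) : e ∈ sb n N ↔ ∀ i, |e i| ≤ N := by
  unfold sb
  rw [Fintype.mem_piFinset]
  exact forall_congr' fun i => by rw [Finset.mem_Icc, abs_le]

theorem card_bx (n N : ℕ) : (bx n N).card = (N + 1) ^ n := by
  unfold bx
  rw [Fintype.card_piFinset]
  simp

/-- the elements of `Λ` in the box `[-N, N]^n` -/
noncomputable def lb {n : ℕ} (Λ : AddSubgroup (Fin n → ℤ)) (N : ℕ) : Finset (Fin n → ℤ) :=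
  @Finset.filter _ (· ∈ Λ) (Classical.decPred _) (sb n N)

theorem mem_lb {n : ℕ} (Λ : AddSubgroup (Fin n → ℤ)) (N : ℕ) (e : Fin n → ℤ) :
    e ∈ lb Λ N ↔ (∀ i, |e i| ≤ N) ∧ e ∈ Λ := by
  classical
  unfold lb
  rw [← mem_sb]
  exact Finset.mem_filter

/-- the rational vector -/
def rv {n : ℕ} (e : Fin n → ℤ) : Fin n → ℚ := fun i => (e i : ℚ)

/-- the rank of `Λ ∩ [-N, N]^n` -/
noncomputable def rk {n : ℕ} (Λ : AddSubgroup (Fin n → ℤ)) (N : ℕ) : ℕ :=
  Module.finrank ℚ (Submodule.span ℚ (rv '' (lb Λ N : Set (Fin n → ℤ))))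

/-- the number of classes of the box `[0, N]^n` modulo `Λ` -/
noncomputable def nu {n : ℕ} (Λ : AddSubgroup (Fin n → ℤ)) (N : ℕ) : ℕ :=
  (@Finset.image _ _ (Classical.decEq _) (QuotientAddGroup.mk : (Fin n → ℤ) → (Fin n → ℤ) ⧸ Λ)
    (bx n N)).card

/-- `g` is a generic point of `X` -/
def Mdl {Ω F : Type} [Field Ω] [Field F] [Algebra Ω F] {n : ℕ} (X : Set (Tor Ω n)) (g : Fin n → F) :
    Prop :=
  (∀ i, g i ≠ 0) ∧ ∀ (s : Finset (Fin n → ℤ)) (a : (Fin n → ℤ) → Ω),
    ∑ e ∈ s, algebraMap Ω F (a e) * mz g e = 0 ↔ ∀ x ∈ X, ∑ e ∈ s, a e * ((ch e x : Ωˣ) : Ω) = 0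

/-- the factor of the twist by `ζ ^ u` -/
def tw {P : Type} [Field P] {p n : ℕ} (ζ : P) (u : Fin n → ZMod p) (e : Fin n → ℤ) : P :=
  ζ ^ (∑ i, u i * (e i : ZMod p)).val

/-- the lattice of the exponents on which the twists in `S` are trivial -/
def lt {p n : ℕ} (S : Submodule (ZMod p) (Fin n → ZMod p)) : AddSubgroup (Fin n → ℤ) where
  carrier := {e | ∀ u ∈ S, ∑ i, u i * (e i : ZMod p) = 0}
  zero_mem' := by
    intro u _
    simp
  add_mem' := by
    intro e e' h h' u hu
    have h1 : ∑ i, u i * (((e + e') i : ℤ) : ZMod p) = ∑ i, u i * (e i : ZMod p) + ∑ i, u i * (e' i : ZMod p) := by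
      rw [← Finset.sum_add_distrib]
      refine Finset.sum_congr rfl fun i _ => ?_
      rw [Pi.add_apply]
      push_cast
      ring
    rw [h1, h u hu, h' u hu, add_zero]
  neg_mem' := by
    intro e h u hu
    have h1 : ∑ i, u i * (((-e) i : ℤ) : ZMod p) = -∑ i, u i * (e i : ZMod p) := by
      rw [← Finset.sum_neg_distrib]
      refine Finset.sum_congr rfl fun i _ => ?_
      rw [Pi.neg_apply]
      push_cast
      ring
    rw [h1, h u hu, neg_zero]

end Pool.Agent.H11.TS
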