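import Pool.Agent.H11.TS.Defs
import Pool.Agent.H33.TR.Ker

/-!
# THEOREM TS, Dsc: relations with coefficients in `P` and minors

`rel_orb`. PROOF: `algebraMap P F (a e) = algebraMap Ω F (a e : Ω)` (`IsScalarTower.algebraMap_apply`), so by `hg.2` the relation holds at `x`;
apply `σ` (`σ (a e) = a e`, `ch_mv`, `sgm_val` in `Pool/Agent/H11/TH/Defs.lean`).

`minor`. PROOF: suppose all these determinants vanish. `S` := the set of the vectors `fun i => ch (e i) (mv σ x)`, `x ∈ X`, `σ` over `P`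
(in `ι → Ω`). `rel_of_det` (`Pool/Agent/H33/TR/Ker.lean`) gives a nonzero relation with coefficients in `Ω`, `rel_descent` (there; `S` is
stable under the automorphisms over `P`: `mv (σ' * σ)`) one with coefficients `c i ∈ P`. At the points of `X` (`σ = 1`) it gives
`∑_i c i * ch (e i) x = 0`; by `hg.2` (group the indices `i` by the value `e i`, or take `s = image e` and
`a e' = ∑_(i, e i = e') c i`) `∑_i algebraMap P F (c i) * mz g (e i) = 0`, i.e. `∑_i c i • mz g (e i) = 0`, so `c = 0` by `h`.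
-/

set_option autoImplicit false

namespace Pool.Agent.H11.TS

open Pool.Agent.H11.TH

variable {K Ω F : Type} [Field K] [Field Ω] [Algebra K Ω] [Field F] [Algebra Ω F] {n : ℕ}

theorem rel_orb (P : IntermediateField K Ω) (X : Set (Tor Ω n)) (g : Fin n → F) (hg : Mdl X g)
    (s : Finset (Fin n → ℤ)) (a : (Fin n → ℤ) → P)
    (h : ∑ e ∈ s, algebraMap P F (a e) * mz g e = 0) (σ : Ω ≃ₐ[K] Ω) (hσ : ∀ z ∈ P, σ z = z)
    (x : Tor Ω n) (hx : x ∈ X) : ∑ e ∈ s, (a e : Ω) * ((ch e (mv σ x) : Ωˣ) : Ω) = 0 := by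
  have h1 : ∑ e ∈ s, algebraMap Ω F (a e : Ω) * mz g e = 0 := by
    rw [← h]
    refine Finset.sum_congr rfl fun e _ => ?_
    rw [IsScalarTower.algebraMap_apply P Ω F]
    rfl
  have h2 := (hg.2 s (fun e => (a e : Ω))).1 h1 x hx
  have h3 := congrArg σ h2
  rw [map_sum, map_zero] at h3
  rw [← h3]
  refine Finset.sum_congr rfl fun e _ => ?_
  rw [map_mul, hσ _ (a e).2, ch_mv, sgm_val]

theorem minor [IsGalois K Ω] (P : IntermediateField K Ω) (X : Set (Tor Ω n)) (g : Fin n → F)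
    (hg : Mdl X g) {ι : Type} [Fintype ι] [DecidableEq ι] (e : ι → Fin n → ℤ)
    (h : LinearIndependent P (fun i => mz g (e i))) :
    ∃ y : ι → Tor Ω n, (∀ i, ∃ x ∈ X, ∃ σ : Ω ≃ₐ[K] Ω, (∀ z ∈ P, σ z = z) ∧ y i = mv σ x) ∧
      Matrix.det (Matrix.of fun i j => ((ch (e j) (y i) : Ωˣ) : Ω)) ≠ 0 := by
  classical
  by_contra hcon
  push Not at hcon
  obtain ⟨S, hSdef⟩ : ∃ S : Set (ι → Ω), S = {v | ∃ x ∈ X, ∃ σ : Ω ≃ₐ[K] Ω, (∀ z ∈ P, σ z = z) ∧
      v = fun i => ((ch (e i) (mv σ x) : Ωˣ) : Ω)} := ⟨_, rfl⟩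
  have hmem : ∀ v : ι → Ω, v ∈ S ↔ ∃ x ∈ X, ∃ σ : Ω ≃ₐ[K] Ω, (∀ z ∈ P, σ z = z) ∧
      v = fun i => ((ch (e i) (mv σ x) : Ωˣ) : Ω) := by
    intro v
    rw [hSdef]
    rfl
  have hdet : ∀ y : ι → ι → Ω, (∀ i, y i ∈ S) → Matrix.det (Matrix.of y) = 0 := by
    intro y hy
    have h1 : ∀ i, ∃ w : Tor Ω n, (∃ x ∈ X, ∃ σ : Ω ≃ₐ[K] Ω, (∀ z ∈ P, σ z = z) ∧ w = mv σ x) ∧
        y i = fun j => ((ch (e j) w : Ωˣ) : Ω) := by
      intro i
      obtain ⟨x, hx, σ, hσ, hv⟩ := (hmem _).1 (hy i)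
      exact ⟨mv σ x, ⟨x, hx, σ, hσ, rfl⟩, hv⟩
    choose w hw hyw using h1
    have h2 := hcon w hw
    have h3 : (Matrix.of y : Matrix ι ι Ω) = Matrix.of fun i j => ((ch (e j) (w i) : Ωˣ) : Ω) := by
      ext i j
      rw [Matrix.of_apply, Matrix.of_apply, hyw i]
    rw [h3]
    exact h2
  have hst : ∀ σ : Ω ≃ₐ[K] Ω, (∀ z ∈ P, σ z = z) → ∀ s ∈ S, (fun m => σ (s m)) ∈ S := by
    intro σ hσ s hs
    obtain ⟨x, hx, τ, hτ, hv⟩ := (hmem _).1 hs
    refine (hmem _).2 ⟨x, hx, σ * τ, ?_, ?_⟩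
    · intro z hz
      rw [AlgEquiv.mul_apply, hτ z hz, hσ z hz]
    · funext i
      rw [hv]
      show σ ((ch (e i) (mv τ x) : Ωˣ) : Ω) = _
      rw [ch_mv, ch_mv, sgm_val, sgm_val, AlgEquiv.mul_apply]
  obtain ⟨c, hc0, hc⟩ := Pool.Agent.H33.TR.rel_descent P S hst (Pool.Agent.H33.TR.rel_of_det S hdet)
  have hone : ∀ x : Tor Ω n, mv (1 : Ω ≃ₐ[K] Ω) x = x := by
    intro x
    funext l
    apply Units.ext
    rfl
  have hX : ∀ x ∈ X, ∑ i, (c i : Ω) * ((ch (e i) x : Ωˣ) : Ω) = 0 := by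
    intro x hx
    have h1 := hc _ ((hmem _).2 ⟨x, hx, 1, fun z _ => rfl, rfl⟩)
    rw [hone] at h1
    exact h1
  have hgrp : ∀ {M : Type} [AddCommMonoid M] (f : ι → M),
      ∑ i, f i = ∑ u ∈ Finset.univ.image e, ∑ i ∈ Finset.univ.filter (fun i => e i = u), f i := by
    intro M _ f
    exact (Finset.sum_fiberwise_of_maps_to (fun i _ => Finset.mem_image_of_mem e (Finset.mem_univ i)) f).symm
  have hrel : ∑ u ∈ Finset.univ.image e,
      algebraMap Ω F (∑ i ∈ Finset.univ.filter (fun i => e i = u), (c i : Ω)) * mz g u = 0 := by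
    refine (hg.2 (Finset.univ.image e)
      (fun u => ∑ i ∈ Finset.univ.filter (fun i => e i = u), (c i : Ω))).2 fun x hx => ?_
    rw [← hX x hx, hgrp fun i => (c i : Ω) * ((ch (e i) x : Ωˣ) : Ω)]
    refine Finset.sum_congr rfl fun u _ => ?_
    rw [Finset.sum_mul]
    refine Finset.sum_congr rfl fun i hi => ?_
    rw [(Finset.mem_filter.1 hi).2]
  have hrel2 : ∑ i, c i • mz g (e i) = 0 := by
    rw [← hrel, hgrp fun i => c i • mz g (e i)]
    refine Finset.sum_congr rfl fun u _ => ?_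
    rw [map_sum, Finset.sum_mul]
    refine Finset.sum_congr rfl fun i hi => ?_
    rw [(Finset.mem_filter.1 hi).2, Algebra.smul_def, IsScalarTower.algebraMap_apply P Ω F]
    rfl
  exact hc0 (funext fun i => Fintype.linearIndependent_iff.1 h c hrel2 i)

end Pool.Agent.H11.TS
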