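import Pool.Agent.H11.TS.Defs

/-!
# THEOREM TS, Ech: echelon bases and orthonormal families with respect to an absolute value

`echelon`. PROOF: for `f ≠ 0` in `R` let `lead f` be the index `u` with `Φ u` largest among the `b` with `v (f b) = max_b v (f b)`.
`S` := the set of all leads of the nonzero `f ∈ R` (a set of elements of the finite type `B`; classical filter). For `u ∈ S` choose `f`
with lead `u` and divide it by `f u` (`R` is a subspace): `v (f u) = 1`, `v (f b) ≤ 1` for all `b`, and for `Φ u < Φ b` the value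
`v (f b)` is not the maximum (else the lead would be larger), so `< 1`. If `S.card < finrank R`, the linear map `R → (S → E)` (restriction)
is not injective (`LinearMap.exists_ne_zero...`/`finrank_le`), so some `f ≠ 0` in `R` vanishes on `S`; but its lead `u` is in `S` and
`f u ≠ 0`: contradiction.

`ortho`. PROOF: if `W` is empty nothing. Let `c` be the maximum of `v (lam w)`, `w ∈ W`, and suppose `c > 1`; among the `w` with
`v (lam w) = c` take `w₀` with `Φ w₀` largest. In `q w₀ = ∑_w lam w * G w w₀` the term `w₀` has value `c`, the terms with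
`Φ w < Φ w₀` have value `< c` (as `v (G w w₀) < 1`, and if `lam w = 0` it is `0 < c`), the terms with `Φ w > Φ w₀` have
`v (lam w) < c`, `v (G w w₀) ≤ 1` (`Φ` is injective: `Φ w = Φ w₀` only for `w = w₀`); ultrametric: `v (q w₀) = c > 1`
(`IsNonarchimedean`, compare `Pool/Agent/H33/TH2/Loc.lean`, `sum_lt`, `hv.add_eq_max_of_ne`). Contradiction.

`ortho_li`. PROOF: if `∑ lam w • G w = 0` with some `lam w ≠ 0`: multiply `lam` by a large power of... simpler: as in `ortho`, with `c > 0`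
the maximum of the `v (lam w)`: `v (∑ lam w * G w w₀) = c > 0`, contradiction.
-/

set_option autoImplicit false

namespace Pool.Agent.H11.TS

private theorem lead {E : Type} [Field E] (v : AbsoluteValue E ℝ) {B : Type} (s : Finset B) (Φ : B → ℕ)
    (f : B → E) (hf : ∃ b ∈ s, f b ≠ 0) :
    ∃ u ∈ s, 0 < v (f u) ∧ (∀ b ∈ s, v (f b) ≤ v (f u)) ∧ ∀ b ∈ s, Φ u < Φ b → v (f b) < v (f u) := by
  classical
  obtain ⟨b0, hb0, hne⟩ := hf
  obtain ⟨m, hm, hmax⟩ := Finset.exists_max_image s (fun b => v (f b)) ⟨b0, hb0⟩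
  have hne' : (s.filter fun b => v (f b) = v (f m)).Nonempty := ⟨m, Finset.mem_filter.2 ⟨hm, rfl⟩⟩
  obtain ⟨u, hu, hmax2⟩ := Finset.exists_max_image _ Φ hne'
  obtain ⟨hus, hum⟩ := Finset.mem_filter.1 hu
  refine ⟨u, hus, ?_, ?_, ?_⟩
  · rw [hum]
    exact lt_of_lt_of_le (v.pos hne) (hmax b0 hb0)
  · intro b hb
    rw [hum]
    exact hmax b hb
  · intro b hb hlt
    rw [hum]
    refine lt_of_le_of_ne (hmax b hb) fun h => ?_
    exact absurd (hmax2 b (Finset.mem_filter.2 ⟨hb, h⟩)) (not_le.2 hlt)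

theorem echelon {E : Type} [Field E] (v : AbsoluteValue E ℝ) {B : Type} [Fintype B] (Φ : B → ℕ)
    (hΦ : Function.Injective Φ) (R : Submodule E (B → E)) :
    ∃ (S : Finset B) (f : B → B → E), Module.finrank E R ≤ S.card ∧ ∀ u ∈ S, f u ∈ R ∧
      v (f u u) = 1 ∧ (∀ b, v (f u b) ≤ 1) ∧ ∀ b, Φ u < Φ b → v (f u b) < 1 := by
  classical
  let P : B → (B → E) → Prop := fun u g => g ∈ R ∧ v (g u) = 1 ∧ (∀ b, v (g b) ≤ 1) ∧
    ∀ b, Φ u < Φ b → v (g b) < 1
  let S : Finset B := Finset.univ.filter fun u => ∃ g, P u g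
  have hS : ∀ u, ∃ g : B → E, u ∈ S → P u g := by
    intro u
    by_cases hu : u ∈ S
    · obtain ⟨g, hg⟩ := (Finset.mem_filter.1 hu).2
      exact ⟨g, fun _ => hg⟩
    · exact ⟨0, fun h => absurd h hu⟩
  choose f hf using hS
  refine ⟨S, f, ?_, fun u hu => hf u hu⟩
  by_contra hlt
  push Not at hlt
  let ρ : R →ₗ[E] (S → E) := (LinearMap.funLeft E E (fun u : S => (u : B))).comp R.subtype
  have hlt2 : Module.finrank E (S → E) < Module.finrank E R := by
    rw [Module.finrank_fintype_fun_eq_card, Fintype.card_coe]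
    exact hlt
  obtain ⟨g, hg, hg0⟩ := Submodule.exists_mem_ne_zero_of_ne_bot
    (LinearMap.ker_ne_bot_of_finrank_lt (f := ρ) hlt2)
  have hgB : (g : B → E) ≠ 0 := fun h => hg0 (Subtype.ext h)
  obtain ⟨b0, hb0⟩ := Function.ne_iff.1 hgB
  obtain ⟨u, -, hpos, hle, hlt3⟩ := lead v Finset.univ Φ (g : B → E) ⟨b0, Finset.mem_univ _, hb0⟩
  have hu0 : (g : B → E) u ≠ 0 := fun h => by
    rw [h, map_zero] at hpos
    exact lt_irrefl _ hpos
  have huS : u ∈ S := by
    refine Finset.mem_filter.2 ⟨Finset.mem_univ _, ((g : B → E) u)⁻¹ • (g : B → E), ?_, ?_, ?_, ?_⟩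
    · exact R.smul_mem _ g.2
    · rw [Pi.smul_apply, smul_eq_mul, inv_mul_cancel₀ hu0, map_one]
    · intro b
      rw [Pi.smul_apply, smul_eq_mul, map_mul, map_inv₀]
      exact inv_mul_le_one_of_le₀ (hle b (Finset.mem_univ _)) (v.nonneg _)
    · intro b hb
      rw [Pi.smul_apply, smul_eq_mul, map_mul, map_inv₀]
      rw [inv_mul_lt_iff₀ hpos, mul_one]
      exact hlt3 b (Finset.mem_univ _) hb
  have h0 : (g : B → E) u = 0 := by
    have := congrFun (LinearMap.mem_ker.1 hg) ⟨u, huS⟩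
    exact this
  exact hu0 h0

private theorem key {E : Type} [Field E] (v : AbsoluteValue E ℝ) (hv : IsNonarchimedean v) {B : Type}
    (Φ : B → ℕ) (hΦ : Function.Injective Φ) (W : Finset B) (G : B → B → E)
    (hG : ∀ w ∈ W, v (G w w) = 1 ∧ (∀ b, v (G w b) ≤ 1) ∧ ∀ b, Φ w < Φ b → v (G w b) < 1)
    (lam : B → E) (h : ∃ w ∈ W, lam w ≠ 0) :
    ∃ u ∈ W, 0 < v (lam u) ∧ (∀ w ∈ W, v (lam w) ≤ v (lam u)) ∧
      v (∑ w ∈ W, lam w * G w u) = v (lam u) := by
  classical
  obtain ⟨u, hu, hpos, hle, hlt⟩ := lead v W Φ lam h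
  refine ⟨u, hu, hpos, hle, ?_⟩
  rw [← Finset.add_sum_erase _ _ hu]
  have e1 : v (lam u * G u u) = v (lam u) := by rw [map_mul, (hG u hu).1, mul_one]
  have e2 : v (∑ w ∈ W.erase u, lam w * G w u) < v (lam u) := by
    rcases (W.erase u).eq_empty_or_nonempty with he | he
    · rw [he, Finset.sum_empty, map_zero]
      exact hpos
    · obtain ⟨w, hw, hwle⟩ := hv.finset_image_add_of_nonempty (fun w => lam w * G w u) he
      refine lt_of_le_of_lt hwle ?_
      obtain ⟨hne, hwW⟩ := Finset.mem_erase.1 hw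
      rw [map_mul]
      rcases lt_trichotomy (Φ w) (Φ u) with h1 | h1 | h1
      · have h2 : v (G w u) < 1 := (hG w hwW).2.2 u h1
        calc v (lam w) * v (G w u) ≤ v (lam u) * v (G w u) :=
              mul_le_mul_of_nonneg_right (hle w hwW) (v.nonneg _)
          _ < v (lam u) * 1 := mul_lt_mul_of_pos_left h2 hpos
          _ = v (lam u) := mul_one _
      · exact absurd (hΦ h1) hne
      · calc v (lam w) * v (G w u) ≤ v (lam w) * 1 :=
              mul_le_mul_of_nonneg_left ((hG w hwW).2.1 u) (v.nonneg _)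
          _ = v (lam w) := mul_one _
          _ < v (lam u) := hlt w hwW h1
  have hne : v (lam u * G u u) ≠ v (∑ w ∈ W.erase u, lam w * G w u) := by
    rw [e1]
    exact e2.ne'
  rw [hv.add_eq_max_of_ne hne, e1, max_eq_left e2.le]

theorem ortho {E : Type} [Field E] (v : AbsoluteValue E ℝ) (hv : IsNonarchimedean v) {B : Type}
    [Fintype B] (Φ : B → ℕ) (hΦ : Function.Injective Φ) (W : Finset B) (G : B → B → E)
    (hG : ∀ w ∈ W, v (G w w) = 1 ∧ (∀ b, v (G w b) ≤ 1) ∧ ∀ b, Φ w < Φ b → v (G w b) < 1)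
    (lam : B → E) (hq : ∀ b, v (∑ w ∈ W, lam w * G w b) ≤ 1) : ∀ w ∈ W, v (lam w) ≤ 1 := by
  classical
  intro w hw
  by_cases h : ∃ w ∈ W, lam w ≠ 0
  · obtain ⟨u, -, -, hle, he⟩ := key v hv Φ hΦ W G hG lam h
    exact (hle w hw).trans (he ▸ hq u)
  · push Not at h
    rw [h w hw, map_zero]
    exact zero_le_one

theorem ortho_li {E : Type} [Field E] (v : AbsoluteValue E ℝ) (hv : IsNonarchimedean v) {B : Type}
    [Fintype B] (Φ : B → ℕ) (hΦ : Function.Injective Φ) (W : Finset B) (G : B → B → E)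
    (hG : ∀ w ∈ W, v (G w w) = 1 ∧ (∀ b, v (G w b) ≤ 1) ∧ ∀ b, Φ w < Φ b → v (G w b) < 1) :
    LinearIndependent E (fun w : W => G w) := by
  classical
  rw [Fintype.linearIndependent_iff]
  intro g hg
  by_contra hcon
  push Not at hcon
  obtain ⟨i, hi⟩ := hcon
  let lam : B → E := fun b => if hb : b ∈ W then g ⟨b, hb⟩ else 0
  have hlam : ∀ w : W, lam w = g w := fun w => by
    show (if hb : (w : B) ∈ W then g ⟨w, hb⟩ else 0) = g w
    rw [dif_pos w.2]
  obtain ⟨u, hu, hpos, -, he⟩ := key v hv Φ hΦ W G hG lam ⟨i, i.2, by rw [hlam]; exact hi⟩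
  have h0 : ∑ w ∈ W, lam w * G w u = 0 := by
    rw [← Finset.sum_coe_sort W (fun w => lam w * G w u)]
    have := congrFun hg u
    rw [Finset.sum_apply, Pi.zero_apply] at this
    rw [← this]
    refine Finset.sum_congr rfl fun w _ => ?_
    rw [hlam, Pi.smul_apply, smul_eq_mul]
  rw [h0, map_zero] at he
  exact absurd he hpos.ne

end Pool.Agent.H11.TS
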