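import Pool.Agent.H11.TS.Hie
import Pool.Agent.H33.TR.Fin

/-!
# THEOREM TS, Hio: a polynomial over `L` of degree at most `2^(n^2) ω`

`poly_of_omega`. PROOF: as `poly_of_Z` in `Pool/Agent/H33/TR/Fin.lean` (model; use it for `1 ≤ ω`), with another choice of the polynomial: `d'+1 ≤ n` (`dim_lt`), `idl Z ≠ ⊥` (`idl_ne_bot`), `δ ≥ 1` (see
`poly_of_Z`: the `D' ≥ 1` of `components` satisfies `D' ≤ δ` by `asy`). Put `D = ⌊2^(n^2) ω⌋`. Then `(D+1)^(n-d') > (2^(n^2) ω)^(n-d') ≥ 2^(n^2) ω^(n-d') ≥ 2^(d'^2) δ` (`ω^(n-d') ≥ δ`), so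
`(D+1)^n > 2^(d'^2) δ (D+1)^(d') ≥ finrank (secs Z D)` (`secs_bound`), while `restrictDegree (Fin n) Ω D` has dimension `(D+1)^n` (or: the `(D+1)^n` monomials are independent):
some nonzero `G` of degree `≤ D` in each variable restricts to `0` on `Z`, `G ∈ idl Z`. Then `descend` (H11/TH/DscB) gives a polynomial with coefficients in `L`, and the end of `poly_of_Z` (copy).
`D ≥ 1` as `ω ≥ 1`.
-/

set_option autoImplicit false

open MvPolynomial NumberField

namespace Pool.Agent.H11.TS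

open Pool.Agent.H11.TH Pool.Agent.H33.TR

theorem poly_of_omega {K Ω : Type} [Field K] [NumberField K] [Field Ω] [CharZero Ω] [IsAlgClosed Ω]
    [Algebra K Ω] [IsGalois K Ω] {n : ℕ} (L : IntermediateField K Ω) (Z : Set (Tor Ω n)) (d' : ℕ)
    (δ ω : ℝ) (hZ : ClosedOver L Z) (hZne : Z ≠ Set.univ) (hZd : Equidim Z d')
    (hZδ : HasDeg Z d' δ) (hω : δ ^ (1 / ((n : ℝ) - d')) ≤ ω) :
    1 ≤ ω ∧ ∃ (D : ℕ) (F : MvPolynomial (Fin n) L), 1 ≤ D ∧ (D : ℝ) ≤ 2 ^ (n ^ 2) * ω ∧ F ≠ 0 ∧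
      (∀ i, F.degreeOf i ≤ D) ∧ map (algebraMap L Ω) F ∈ idl Z := by
  classical
  have hn : d' + 1 ≤ n := dim_lt L Z hZ hZne d' hZd
  have hbot : idl Z ≠ ⊥ := Pool.Agent.H11.TH.idl_ne_bot L Z hZ hZne
  obtain ⟨G₀, D', -, -, hD'1, -, c, hc⟩ := components Z d' hZd hbot
  have hasy := asy (d' + 1) d' 1 D' c le_rfl (by rw [one_mul]; exact hD'1)
    (fun m => Module.finrank Ω (secs Z m)) (fun m hm => by
      rw [one_mul, Nat.add_sub_cancel]
      exact hc m hm) δ hZδ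
  have hD'δ : (D' : ℝ) ≤ δ := by
    have h1 := hasy.2
    rw [one_mul] at h1
    exact h1
  have hδ1 : 1 ≤ δ := le_trans (by exact_mod_cast hD'1) hD'δ
  have hexp : (0 : ℝ) < (n : ℝ) - d' := by
    have h1 : ((d' + 1 : ℕ) : ℝ) ≤ n := by exact_mod_cast hn
    push_cast at h1
    linarith
  have hω1 : 1 ≤ ω := (Real.one_le_rpow hδ1 (by positivity)).trans hω
  have hδω : δ ≤ ω ^ (n - d') := by
    have h1 : δ = (δ ^ (1 / ((n : ℝ) - d'))) ^ ((n : ℝ) - d') := by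
      rw [← Real.rpow_mul (by linarith), one_div_mul_cancel hexp.ne', Real.rpow_one]
    rw [h1]
    calc (δ ^ (1 / ((n : ℝ) - d'))) ^ ((n : ℝ) - d') ≤ ω ^ ((n : ℝ) - d') :=
          Real.rpow_le_rpow (Real.rpow_nonneg (by linarith) _) hω hexp.le
      _ = ω ^ (n - d') := by
          rw [← Real.rpow_natCast, Nat.cast_sub (by omega)]
  obtain ⟨D, hD⟩ : ∃ D : ℕ, D = ⌊(2 : ℝ) ^ (n ^ 2) * ω⌋₊ := ⟨_, rfl⟩
  have hpos : (0 : ℝ) ≤ (2 : ℝ) ^ (n ^ 2) * ω := by positivity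
  have hDω : (D : ℝ) ≤ 2 ^ (n ^ 2) * ω := by
    rw [hD]
    exact Nat.floor_le hpos
  have h2one : (1 : ℝ) ≤ (2 : ℝ) ^ (n ^ 2) := one_le_pow₀ (by norm_num)
  have hD1 : 1 ≤ D := by
    rw [hD]
    refine Nat.le_floor ?_
    push_cast
    exact one_le_mul_of_one_le_of_one_le h2one hω1
  have hDlt : (2 : ℝ) ^ (n ^ 2) * ω < (D : ℝ) + 1 := by
    rw [hD]
    exact Nat.lt_floor_add_one _
  have hkey : (2 : ℝ) ^ (d' ^ 2) * δ < ((D : ℝ) + 1) ^ (n - d') := by
    have h1 : ((2 : ℝ) ^ (n ^ 2) * ω) ^ (n - d') < ((D : ℝ) + 1) ^ (n - d') :=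
      pow_lt_pow_left₀ hDlt hpos (by omega)
    refine lt_of_le_of_lt ?_ h1
    rw [mul_pow]
    refine mul_le_mul ?_ hδω (by linarith) (by positivity)
    calc (2 : ℝ) ^ (d' ^ 2) ≤ (2 : ℝ) ^ (n ^ 2) :=
          pow_le_pow_right₀ (by norm_num) (Nat.pow_le_pow_left (by omega) 2)
      _ ≤ ((2 : ℝ) ^ (n ^ 2)) ^ (n - d') := le_self_pow₀ h2one (by omega)
  have hbig : (Module.finrank Ω (secs Z D) : ℝ) < ((D : ℝ) + 1) ^ n := by
    refine lt_of_le_of_lt (secs_bound Z d' hZd hbot δ hZδ D) ?_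
    have h1 : ((D : ℝ) + 1) ^ n = ((D : ℝ) + 1) ^ (n - d') * ((D : ℝ) + 1) ^ d' := by
      rw [← pow_add]
      congr 1
      omega
    rw [h1]
    exact mul_lt_mul_of_pos_right hkey (by positivity)
  have hcard : Module.finrank Ω (secs Z D) < Fintype.card (Bx n D) := by
    have h1 : Fintype.card (Bx n D) = (D + 1) ^ n := by
      unfold Bx
      rw [Fintype.card_fun, Fintype.card_fin, Fintype.card_fin]
    rw [h1]
    exact_mod_cast hbig
  haveI := secs_finite (Ω := Ω) Z D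
  have hmem : ∀ m : Bx n D, (fun z : Z => mn m (crd (z : Tor Ω n))) ∈ secs Z D := by
    intro m
    unfold secs
    refine Submodule.mem_map.2 ⟨monomial (bxf m) 1, ?_, ?_⟩
    · rw [mem_restrictDegree]
      intro s hs i
      have h1 := support_monomial_subset hs
      rw [Finset.mem_singleton] at h1
      rw [h1, bxf_apply]
      exact Nat.lt_succ_iff.1 (m i).2
    · funext z
      show aeval (crd (z : Tor Ω n)) (monomial (bxf m) (1 : Ω)) = _
      rw [aeval_monomial, map_one, one_mul, Finsupp.prod_fintype _ _ (fun i => pow_zero _)]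
      rfl
  let w : Bx n D → secs Z D := fun m => ⟨fun z : Z => mn m (crd (z : Tor Ω n)), hmem m⟩
  have hli : ¬ LinearIndependent Ω w := fun h => absurd h.fintype_card_le_finrank (not_le.2 hcard)
  obtain ⟨g, hg, i₀, hi₀⟩ := Fintype.not_linearIndependent_iff.1 hli
  have hG0 : bxp g ≠ 0 := bxp_ne_zero g fun h => hi₀ (by rw [h]; rfl)
  have hGZ : bxp g ∈ idl Z := by
    rw [mem_idl]
    intro x hx
    rw [aeval_box (bxp g) (bxp_deg g)]
    have h1 := congrArg (fun s : secs Z D => (s : Z → Ω) ⟨x, hx⟩) hg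
    have h2 : ((∑ m, g m • w m : secs Z D) : Z → Ω) ⟨x, hx⟩ = ∑ m, g m * mn m (crd x) := by
      rw [Submodule.coe_sum, Finset.sum_apply]
      rfl
    have h3 : ∑ m, g m * mn m (crd x) = 0 := by
      rw [← h2]
      exact h1
    rw [← h3]
    refine Finset.sum_congr rfl fun m _ => ?_
    rw [coeff_bxp]
    rfl
  obtain ⟨p, hp0, hpZ, hpD, hpL⟩ := descend L Z hZ D (bxp g) hG0 hGZ (bxp_deg g)
  obtain ⟨F, hF⟩ : ∃ F : MvPolynomial (Fin n) L, F = bxp (fun m : Bx n D =>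
    (⟨p.coeff (bxf m), hpL _⟩ : L)) := ⟨_, rfl⟩
  have hmap : map (algebraMap L Ω) F = p := by
    refine MvPolynomial.ext _ _ fun m => ?_
    rw [coeff_map]
    by_cases hm : ∀ l, m l ≤ D
    · obtain ⟨m', rfl⟩ := bxf_surj m hm
      rw [hF, coeff_bxp]
      rfl
    · push Not at hm
      obtain ⟨l, hl⟩ := hm
      have h1 : F.coeff m = 0 := by
        by_contra hne
        have h2 := monomial_le_degreeOf l (mem_support_iff.2 hne)
        have h3 : F.degreeOf l ≤ D := by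
          rw [hF]
          exact bxp_deg _ l
        omega
      have h2 : p.coeff m = 0 := by
        by_contra hne
        have h3 := monomial_le_degreeOf l (mem_support_iff.2 hne)
        have h4 := hpD l
        omega
      rw [h1, h2, map_zero]
  refine ⟨hω1, D, F, hD1, hDω, ?_, ?_, ?_⟩
  · intro h0
    apply hp0
    rw [← hmap, h0, map_zero]
  · intro i
    rw [hF]
    exact bxp_deg _ i
  · rw [hmap]
    exact hpZ

end Pool.Agent.H11.TS
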