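import Pool.Agent.H11.TS.Cor
import Pool.Agent.H11.TS.Hio

/-!
# THEOREM TR*: the transfer with exponent `(1 + ε) r C₁`

`ts_A`. PROOF (model: `tr_A` in `Pool/Agent/H33/TR/Fin.lean`): `a` a natural number with `10 n^2 + 1 ≤ ε a`, `C` from `thm_ts n a`. Given the data, replace `D` by `D' = max D C^a`; `P₀` := the least natural
number with `D' ≤ P₀^a`: `C ≤ P₀` (as `C^a ≤ D'`, unless `P₀ < C` gives `P₀^a < C^a ≤ D'`), `P₀ ≤ 2 D'^(1/a)` (`(P₀ - 1)^a < D'`, `P₀ ≥ 2`). `X = {x ∈ V : ht x ≤ θ}` (`idl X = idl V`, as in `tr_A`).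
Case 1: `1 < C P₀^(10n^2+1) D' θ ≤ C 2^(10n^2+1) D'^(1 + (10n^2+1)/a) θ ≤ C'' D^(1+ε) θ`.
Case 2: `k, N, e, μ, γ`. As `X` is dense (`irr_cover`/argument in `tr_A`: `ch (e i) x = γ i` on all of `V`), `k ≤ r`: otherwise the first `r + 1` of the `e i` contradict `hr`. `γ := γ 0`: no power in
`Λ` (`not_sat`, `e 0 ≠ 0` as `rv (e 0) ≠ 0` by independence), so `c₁ ≤ (dg L γ)^C₁ h(γ)`; `h(γ) ≤ μ₀ θ` (`ht_ch`); `dg L γ ≤ finrank L (adjoin L (range γ))` (conjugates = roots of the minimal polynomial;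
`dg_le_of_poly` or see `H72/PB/BaseDeg`), `finrank * ∏ μ ≤ C N^k`, `∏ μ ≥ μ₀`: `dg ≤ C N^k / μ₀` so `c₁ ≤ (C N^k / μ₀)^C₁ μ₀ θ ≤ C^C₁ N^(k C₁) θ` (`C₁ ≥ 1`, `μ₀ ≥ 1`)
`≤ C''' D^((1+ε) r C₁) θ` (`N ≤ C P₀^(10n^2) D' ≤ C'''' D^(1+ε)`, `k ≤ r`).

`ts_B`. PROOF: `poly_of_omega` and `ts_A` (model `tr_B`): `D ≤ 2^(n^2) ω`.
-/

set_option autoImplicit false
set_option linter.unusedSectionVars false

open MvPolynomial NumberField

namespace Pool.Agent.H11.TS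

open Pool.Agent.H33.TR Pool.Agent.H72.PB Pool.Agent.H11.TH

private theorem dg_le_fr {K Ω : Type} [Field K] [Field Ω] [Algebra K Ω] (L : IntermediateField K Ω)
    (S : Set Ω) (hfd : FiniteDimensional L (IntermediateField.adjoin L S)) (y : Ω) (hy : y ∈ S) :
    dg L y ≤ Module.finrank L (IntermediateField.adjoin L S) := by
  have hmem : y ∈ IntermediateField.adjoin L S := IntermediateField.subset_adjoin L S hy
  obtain ⟨z, hz⟩ : ∃ z : IntermediateField.adjoin L S, z = ⟨y, hmem⟩ := ⟨_, rfl⟩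
  have hzy : algebraMap (IntermediateField.adjoin L S) Ω z = y := by rw [hz]; rfl
  have hint : IsIntegral L z := IsIntegral.of_finite L z
  have h1 : (minpoly L z).natDegree ≤ Module.finrank L (IntermediateField.adjoin L S) :=
    minpoly.natDegree_le z
  have h2 : (minpoly L z).map (algebraMap L Ω) ≠ 0 :=
    (Polynomial.map_ne_zero_iff (algebraMap L Ω).injective).2 (minpoly.ne_zero hint)
  have h3 : ((minpoly L z).map (algebraMap L Ω)).eval y = 0 := by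
    rw [Polynomial.eval_map, ← Polynomial.aeval_def, ← hzy, Polynomial.aeval_algebraMap_apply,
      minpoly.aeval, map_zero]
  have h4 := dg_le_of_poly (L := L) (y := y) ((minpoly L z).map (algebraMap L Ω)) h2
    (fun i => by
      rw [Polynomial.coeff_map]
      exact ((minpoly L z).coeff i).2) h3
  rw [Polynomial.natDegree_map] at h4
  exact h4.trans h1

private theorem pick (a C m D : ℕ) (ε : ℝ) (ha : 1 ≤ a) (hC : 1 ≤ C) (hD : 1 ≤ D)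
    (hm : (m : ℝ) ≤ ε * a) :
    ∃ D' P₀ : ℕ, D ≤ D' ∧ C ≤ P₀ ∧ D' ≤ P₀ ^ a ∧
      (C : ℝ) * (P₀ : ℝ) ^ m * D' ≤
        ((C : ℝ) * 2 ^ m * ((C : ℝ) ^ a) ^ (1 + ε)) * (D : ℝ) ^ (1 + ε) := by
  classical
  obtain ⟨D', hD'⟩ : ∃ D' : ℕ, D' = max D (C ^ a) := ⟨_, rfl⟩
  have hDD : D ≤ D' := by rw [hD']; exact le_max_left _ _
  have hCD : C ^ a ≤ D' := by rw [hD']; exact le_max_right _ _
  have hD'1 : 1 ≤ D' := hD.trans hDD
  have haR : (0 : ℝ) < a := by exact_mod_cast ha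
  have hε : 0 ≤ ε := by
    by_contra hcon
    push Not at hcon
    have h1 : ε * a < 0 := mul_neg_of_neg_of_pos hcon haR
    have h2 : (0 : ℝ) ≤ m := Nat.cast_nonneg m
    linarith
  have hD'R : (1 : ℝ) ≤ D' := by exact_mod_cast hD'1
  have hDR : (1 : ℝ) ≤ D := by exact_mod_cast hD
  have hCR : (1 : ℝ) ≤ C := by exact_mod_cast hC
  have hCaR : (1 : ℝ) ≤ (C : ℝ) ^ a := one_le_pow₀ hCR
  have hD'le : (D' : ℝ) ≤ (C : ℝ) ^ a * D := by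
    rw [hD']
    push_cast
    refine max_le ?_ ?_
    · nlinarith
    · nlinarith
  have hex : ∃ P : ℕ, D' ≤ P ^ a := ⟨D', Nat.le_self_pow (by omega) D'⟩
  obtain ⟨P₀, hP₀⟩ : ∃ P₀ : ℕ, P₀ = Nat.find hex := ⟨_, rfl⟩
  have hP1 : D' ≤ P₀ ^ a := by rw [hP₀]; exact Nat.find_spec hex
  have hPpos : 1 ≤ P₀ := by
    by_contra hcon
    have h0 : P₀ = 0 := by omega
    rw [h0, zero_pow (by omega)] at hP1
    omega
  have hCP : C ≤ P₀ := by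
    by_contra hcon
    push Not at hcon
    have h1 : P₀ ^ a < C ^ a := Nat.pow_lt_pow_left hcon (by omega)
    omega
  have hmin : (P₀ - 1) ^ a < D' := by
    by_contra hcon
    push Not at hcon
    have h1 : Nat.find hex ≤ P₀ - 1 := Nat.find_min' hex hcon
    rw [← hP₀] at h1
    omega
  have hPR : (P₀ : ℝ) ≤ 2 * (D' : ℝ) ^ (1 / (a : ℝ)) := by
    have h1 : ((P₀ : ℝ) - 1) ^ a ≤ D' := by
      have h2 : (((P₀ - 1 : ℕ) : ℝ)) ^ a ≤ D' := by exact_mod_cast hmin.le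
      rwa [Nat.cast_sub hPpos, Nat.cast_one] at h2
    have h3 : (0 : ℝ) ≤ (P₀ : ℝ) - 1 := by
      have : (1 : ℝ) ≤ P₀ := by exact_mod_cast hPpos
      linarith
    have h4 : (P₀ : ℝ) - 1 ≤ (D' : ℝ) ^ (1 / (a : ℝ)) := by
      have h5 : (((P₀ : ℝ) - 1) ^ a) ^ (1 / (a : ℝ)) ≤ (D' : ℝ) ^ (1 / (a : ℝ)) :=
        Real.rpow_le_rpow (by positivity) h1 (by positivity)
      rwa [one_div, Real.pow_rpow_inv_natCast h3 (by omega), ← one_div] at h5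
    have h6 : (1 : ℝ) ≤ (D' : ℝ) ^ (1 / (a : ℝ)) := Real.one_le_rpow hD'R (by positivity)
    linarith
  have hPm : (P₀ : ℝ) ^ m ≤ 2 ^ m * (D' : ℝ) ^ ε := by
    calc (P₀ : ℝ) ^ m ≤ (2 * (D' : ℝ) ^ (1 / (a : ℝ))) ^ m :=
          pow_le_pow_left₀ (Nat.cast_nonneg _) hPR _
      _ = 2 ^ m * (D' : ℝ) ^ ((1 / (a : ℝ)) * m) := by
          rw [mul_pow, Real.rpow_mul (by linarith), Real.rpow_natCast]
      _ ≤ 2 ^ m * (D' : ℝ) ^ ε := by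
          refine mul_le_mul_of_nonneg_left ?_ (by positivity)
          refine Real.rpow_le_rpow_of_exponent_le hD'R ?_
          rw [one_div, inv_mul_le_iff₀ haR]
          linarith
  refine ⟨D', P₀, hDD, hCP, hP1, ?_⟩
  calc (C : ℝ) * (P₀ : ℝ) ^ m * D' ≤ (C : ℝ) * (2 ^ m * (D' : ℝ) ^ ε) * D' := by
        refine mul_le_mul_of_nonneg_right (mul_le_mul_of_nonneg_left hPm (by linarith)) (by linarith)
    _ = (C : ℝ) * 2 ^ m * (D' : ℝ) ^ (1 + ε) := by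
        rw [Real.rpow_add (by linarith), Real.rpow_one]
        ring
    _ ≤ (C : ℝ) * 2 ^ m * ((C : ℝ) ^ a * D) ^ (1 + ε) := by
        refine mul_le_mul_of_nonneg_left ?_ (by positivity)
        exact Real.rpow_le_rpow (by linarith) hD'le (by linarith)
    _ = ((C : ℝ) * 2 ^ m * ((C : ℝ) ^ a) ^ (1 + ε)) * (D : ℝ) ^ (1 + ε) := by
        rw [Real.mul_rpow (by linarith) (by linarith)]
        ring

theorem ts_A (n r : ℕ) (C₁ ε : ℝ) (hC₁ : 1 ≤ C₁) (hε : 0 < ε) : ∃ κ : ℝ, 0 < κ ∧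
    ∀ (K Ω : Type) [Field K] [NumberField K] [Field Ω] [CharZero Ω] [IsAlgClosed Ω] [Algebra K Ω]
      [IsGalois K Ω] (c₁ : ℝ) (Λ : Subgroup Ωˣ) (L : IntermediateField K Ω)
      (_ : ∀ γ : Ωˣ, (∀ m : ℕ, 1 ≤ m → γ ^ m ∉ Λ) →
        c₁ ≤ (dg L (γ : Ω) : ℝ) ^ C₁ * absLogHeight₁ (γ : Ω))
      (Γ : Subgroup (Tor Ω n)) (_ : ∀ x : Tor Ω n, (∀ l, x l ∈ Λ) → x ∈ Γ)
      (V : Set (Tor Ω n)) (_ : (idl V).IsPrime) (_ : Transv K Γ V)
      (_ : ∀ e : Fin (r + 1) → Fin n → ℤ, LinearIndependent ℚ (fun i => rv (e i)) →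
        ∃ i, ∀ γ : Ωˣ, ∃ x ∈ V, ch (e i) x ≠ γ)
      (D : ℕ) (_ : 1 ≤ D) (F : MvPolynomial (Fin n) L) (_ : F ≠ 0) (_ : ∀ i, F.degreeOf i ≤ D)
      (_ : map (algebraMap L Ω) F ∈ idl V)
      (θ : ℝ) (_ : idl {x | x ∈ V ∧ ht x ≤ θ} ≤ idl V),
      κ * min 1 c₁ ≤ (D : ℝ) ^ ((1 + ε) * max 1 (r * C₁)) * θ := by
  classical
  obtain ⟨a, ha⟩ : ∃ a : ℕ, ((10 * n ^ 2 + 1 : ℕ) : ℝ) / ε < a := exists_nat_gt _
  have hma : ((10 * n ^ 2 + 1 : ℕ) : ℝ) ≤ ε * a := by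
    rw [div_lt_iff₀ hε] at ha
    linarith
  have ha1 : 1 ≤ a := by
    by_contra hcon
    have h0 : a = 0 := by omega
    rw [h0, Nat.cast_zero, mul_zero] at hma
    have h1 : ((10 * n ^ 2 + 1 : ℕ) : ℝ) = ((10 * n ^ 2 : ℕ) : ℝ) + 1 := by push_cast; ring
    have h2 : (0 : ℝ) ≤ ((10 * n ^ 2 : ℕ) : ℝ) := Nat.cast_nonneg _
    linarith
  obtain ⟨C, hC1, hTS⟩ := thm_ts n a
  obtain ⟨m, hm⟩ : ∃ m : ℕ, m = 10 * n ^ 2 + 1 := ⟨_, rfl⟩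
  rw [← hm] at hma
  have hCR : (1 : ℝ) ≤ C := by exact_mod_cast hC1
  obtain ⟨A, hA⟩ : ∃ A : ℝ, A = (C : ℝ) * 2 ^ m * ((C : ℝ) ^ a) ^ (1 + ε) := ⟨_, rfl⟩
  have hA0 : 0 < A := by rw [hA]; positivity
  obtain ⟨A₂, hA₂⟩ : ∃ A₂ : ℝ, A₂ = (C : ℝ) ^ C₁ * A ^ (r * C₁) := ⟨_, rfl⟩
  have hA₂0 : 0 < A₂ := by
    rw [hA₂]
    exact mul_pos (Real.rpow_pos_of_pos (by linarith) _) (Real.rpow_pos_of_pos hA0 _)
  refine ⟨1 / (A + A₂), by positivity, ?_⟩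
  intro K Ω _ _ _ _ _ _ _ c₁ Λ L hL Γ hΓ V hV htr hr D hD F hF0 hFD hF θ hθ
  obtain ⟨X, hX⟩ : ∃ X : Set (Tor Ω n), X = {x | x ∈ V ∧ ht x ≤ θ} := ⟨_, rfl⟩
  rw [← hX] at hθ
  have hXV : X ⊆ V := by
    rw [hX]
    exact fun x hx => hx.1
  have hidl : idl X = idl V := by
    refine le_antisymm hθ fun f hf => ?_
    rw [mem_idl] at hf ⊢
    exact fun x hx => hf x (hXV hx)
  have hXp : (idl X).IsPrime := by
    rw [hidl]
    exact hV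
  obtain ⟨x₁, hx₁⟩ := prime_nonempty hXp
  have hxθ : ∀ x ∈ X, ht x ≤ θ := by
    rw [hX]
    exact fun x hx => hx.2
  have hθ0 : 0 ≤ θ := by
    refine le_trans ?_ (hxθ x₁ hx₁)
    unfold ht
    exact Finset.sum_nonneg fun l _ => ht_nonneg _
  have hDR : (1 : ℝ) ≤ D := by exact_mod_cast hD
  obtain ⟨D', P₀, hDD, hCP, hDP, hest⟩ := pick a C m D ε ha1 hC1 hD hma
  rw [← hA] at hest
  obtain ⟨G, hG⟩ : ∃ G : ℝ, G = A * (D : ℝ) ^ (1 + ε) := ⟨_, rfl⟩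
  rw [← hG] at hest
  have hP1 : 1 ≤ P₀ := hC1.trans hCP
  have hPR : (1 : ℝ) ≤ P₀ := by exact_mod_cast hP1
  have hD'1 : 1 ≤ D' := hD.trans hDD
  have hD'R : (1 : ℝ) ≤ D' := by exact_mod_cast hD'1
  have hG1 : 1 ≤ G := by
    refine le_trans ?_ hest
    have h1 : (1 : ℝ) ≤ (P₀ : ℝ) ^ m := one_le_pow₀ hPR
    have h2 : (1 : ℝ) ≤ (C : ℝ) * (P₀ : ℝ) ^ m := by nlinarith
    nlinarith
  obtain ⟨M, hM⟩ : ∃ M : ℝ, M = max 1 (r * C₁) := ⟨_, rfl⟩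
  rw [← hM]
  have hM1 : 1 ≤ M := by rw [hM]; exact le_max_left _ _
  have hM2 : r * C₁ ≤ M := by rw [hM]; exact le_max_right _ _
  have hkey : min 1 c₁ ≤ (A + A₂) * ((D : ℝ) ^ ((1 + ε) * M) * θ) := by
    have hDM0 : (0 : ℝ) ≤ (D : ℝ) ^ ((1 + ε) * M) := Real.rpow_nonneg (by linarith) _
    rcases hTS K Ω L X hXp P₀ D' hCP hD'1 hDP F hF0 (fun i => (hFD i).trans hDD)
      (by rw [hidl]; exact hF) θ hxθ with h1 | ⟨k, N, e, μ, γ, hk, hN, hli, hμ, hμN, hch, hfd, hfr⟩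
    · have h2 : (1 : ℝ) ≤ G * θ := by
        refine h1.le.trans (mul_le_mul_of_nonneg_right ?_ hθ0)
        rw [hm] at hest
        push_cast
        exact hest
      have h3 : (D : ℝ) ^ (1 + ε) ≤ (D : ℝ) ^ ((1 + ε) * M) :=
        Real.rpow_le_rpow_of_exponent_le hDR (by nlinarith)
      calc min 1 c₁ ≤ 1 := min_le_left _ _
        _ ≤ G * θ := h2
        _ = A * ((D : ℝ) ^ (1 + ε) * θ) := by rw [hG]; ring
        _ ≤ A * ((D : ℝ) ^ ((1 + ε) * M) * θ) :=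
            mul_le_mul_of_nonneg_left (mul_le_mul_of_nonneg_right h3 hθ0) hA0.le
        _ ≤ (A + A₂) * ((D : ℝ) ^ ((1 + ε) * M) * θ) :=
            mul_le_mul_of_nonneg_right (by linarith) (mul_nonneg hDM0 hθ0)
    · have hchV : ∀ i, ∀ x ∈ V, ch (e i) x = γ i := by
        intro i
        obtain ⟨j, -, h⟩ := irr_cover hV (le_of_eq hidl) ({()} : Finset Unit) (fun _ => e i)
          (fun _ => γ i) (fun x hx => ⟨(), Finset.mem_singleton_self _, hch i x hx⟩)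
        exact h
      have hkr : k ≤ r := by
        by_contra hcon
        push Not at hcon
        obtain ⟨i, hi⟩ := hr (fun i => e (Fin.castLE hcon i))
          (hli.comp (Fin.castLE hcon) (Fin.castLE_injective hcon))
        obtain ⟨x, hxV, hne⟩ := hi (γ (Fin.castLE hcon i))
        exact hne (hchV _ x hxV)
      obtain ⟨i₀, -⟩ : ∃ i₀ : Fin k, True := ⟨⟨0, hk⟩, trivial⟩
      have he0 : e i₀ ≠ 0 := by
        intro h0
        refine hli.ne_zero i₀ ?_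
        funext j
        show ((e i₀ j : ℤ) : ℚ) = 0
        rw [h0]
        simp
      have hsat := not_sat (K := K) Λ Γ hΓ V hV htr (e i₀) he0 (γ i₀) (hchV i₀)
      have h2 := hL (γ i₀) hsat
      have h3 : absLogHeight₁ ((γ i₀ : Ωˣ) : Ω) ≤ (μ i₀ : ℝ) * θ := by
        rw [← hch i₀ x₁ hx₁]
        refine (ht_ch (K := K) (e i₀) x₁ (μ i₀ : ℝ) ?_).trans
          (mul_le_mul_of_nonneg_left (hxθ x₁ hx₁) (Nat.cast_nonneg _))
        intro l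
        have h4 : ((|e i₀ l| : ℤ) : ℝ) ≤ ((μ i₀ : ℕ) : ℝ) := by exact_mod_cast hμ i₀ l
        rw [Int.cast_abs] at h4
        exact h4
      have hdg : dg L ((γ i₀ : Ωˣ) : Ω) ≤
          Module.finrank L (IntermediateField.adjoin L (Set.range fun i => (γ i : Ω))) :=
        dg_le_fr L _ hfd _ ⟨i₀, rfl⟩
      have hprod : μ i₀ ≤ ∏ i, μ i := by
        have h5 : ∏ i ∈ ({i₀} : Finset (Fin k)), μ i ≤ ∏ i, μ i :=
          Finset.prod_le_prod_of_subset_of_one_le' (Finset.subset_univ _)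
            (fun i _ _ => (hμN i).1)
        rwa [Finset.prod_singleton] at h5
      have hdm : dg L ((γ i₀ : Ωˣ) : Ω) * μ i₀ ≤ C * N ^ k := (Nat.mul_le_mul hdg hprod).trans hfr
      have hN1 : 1 ≤ N := (hμN i₀).1.trans (hμN i₀).2
      have hNR : (1 : ℝ) ≤ N := by exact_mod_cast hN1
      have hNG : (N : ℝ) ≤ G := by
        refine le_trans ?_ hest
        have h5 : (N : ℝ) ≤ (C : ℝ) * (P₀ : ℝ) ^ (10 * n ^ 2) * D' := by exact_mod_cast hN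
        refine h5.trans ?_
        refine mul_le_mul_of_nonneg_right ?_ (by linarith)
        refine mul_le_mul_of_nonneg_left ?_ (by linarith)
        exact pow_le_pow_right₀ hPR (by omega)
      have hdmR : (dg L ((γ i₀ : Ωˣ) : Ω) : ℝ) * μ i₀ ≤ (C : ℝ) * G ^ r := by
        have h5 : (dg L ((γ i₀ : Ωˣ) : Ω) : ℝ) * μ i₀ ≤ (C : ℝ) * (N : ℝ) ^ k := by
          exact_mod_cast hdm
        refine h5.trans (mul_le_mul_of_nonneg_left ?_ (by linarith))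
        calc (N : ℝ) ^ k ≤ G ^ k := pow_le_pow_left₀ (by linarith) hNG _
          _ ≤ G ^ r := pow_le_pow_right₀ hG1 hkr
      have hμR : (1 : ℝ) ≤ μ i₀ := by exact_mod_cast (hμN i₀).1
      have hdg0 : (0 : ℝ) ≤ (dg L ((γ i₀ : Ωˣ) : Ω) : ℝ) := Nat.cast_nonneg _
      have h6 : (dg L ((γ i₀ : Ωˣ) : Ω) : ℝ) ^ C₁ * (μ i₀ : ℝ) ≤ ((C : ℝ) * G ^ r) ^ C₁ := by
        calc (dg L ((γ i₀ : Ωˣ) : Ω) : ℝ) ^ C₁ * (μ i₀ : ℝ)
            ≤ (dg L ((γ i₀ : Ωˣ) : Ω) : ℝ) ^ C₁ * (μ i₀ : ℝ) ^ C₁ := by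
              refine mul_le_mul_of_nonneg_left ?_ (Real.rpow_nonneg hdg0 _)
              calc (μ i₀ : ℝ) = (μ i₀ : ℝ) ^ (1 : ℝ) := (Real.rpow_one _).symm
                _ ≤ (μ i₀ : ℝ) ^ C₁ := Real.rpow_le_rpow_of_exponent_le hμR hC₁
          _ = ((dg L ((γ i₀ : Ωˣ) : Ω) : ℝ) * μ i₀) ^ C₁ := by
              rw [Real.mul_rpow hdg0 (by linarith)]
          _ ≤ ((C : ℝ) * G ^ r) ^ C₁ :=
              Real.rpow_le_rpow (mul_nonneg hdg0 (by linarith)) hdmR (by linarith)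
      have h7 : ((C : ℝ) * G ^ r) ^ C₁ ≤ A₂ * (D : ℝ) ^ ((1 + ε) * M) := by
        have hDe0 : (0 : ℝ) ≤ (D : ℝ) ^ (1 + ε) := Real.rpow_nonneg (by linarith) _
        have h8 : ((C : ℝ) * G ^ r) ^ C₁ = A₂ * (D : ℝ) ^ ((1 + ε) * (r * C₁)) := by
          rw [Real.mul_rpow (by linarith) (by positivity), ← Real.rpow_natCast G r,
            ← Real.rpow_mul (by linarith), hG, Real.mul_rpow hA0.le hDe0, hA₂,
            ← Real.rpow_mul (by linarith)]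
          ring
        rw [h8]
        refine mul_le_mul_of_nonneg_left ?_ hA₂0.le
        exact Real.rpow_le_rpow_of_exponent_le hDR (mul_le_mul_of_nonneg_left hM2 (by linarith))
      calc min 1 c₁ ≤ c₁ := min_le_right _ _
        _ ≤ (dg L ((γ i₀ : Ωˣ) : Ω) : ℝ) ^ C₁ * absLogHeight₁ ((γ i₀ : Ωˣ) : Ω) := h2
        _ ≤ (dg L ((γ i₀ : Ωˣ) : Ω) : ℝ) ^ C₁ * ((μ i₀ : ℝ) * θ) :=
            mul_le_mul_of_nonneg_left h3 (Real.rpow_nonneg hdg0 _)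
        _ = ((dg L ((γ i₀ : Ωˣ) : Ω) : ℝ) ^ C₁ * (μ i₀ : ℝ)) * θ := by ring
        _ ≤ ((C : ℝ) * G ^ r) ^ C₁ * θ := mul_le_mul_of_nonneg_right h6 hθ0
        _ ≤ (A₂ * (D : ℝ) ^ ((1 + ε) * M)) * θ := mul_le_mul_of_nonneg_right h7 hθ0
        _ = A₂ * ((D : ℝ) ^ ((1 + ε) * M) * θ) := by ring
        _ ≤ (A + A₂) * ((D : ℝ) ^ ((1 + ε) * M) * θ) :=
            mul_le_mul_of_nonneg_right (by linarith) (mul_nonneg hDM0 hθ0)
  rw [one_div, inv_mul_le_iff₀ (by positivity)]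
  exact hkey

theorem ts_B (n r : ℕ) (C₁ ε : ℝ) (hC₁ : 1 ≤ C₁) (hε : 0 < ε) : ∃ κ : ℝ, 0 < κ ∧
    ∀ (K Ω : Type) [Field K] [NumberField K] [Field Ω] [CharZero Ω] [IsAlgClosed Ω] [Algebra K Ω]
      [IsGalois K Ω] (c₁ : ℝ) (Λ : Subgroup Ωˣ) (L : IntermediateField K Ω)
      (_ : ∀ γ : Ωˣ, (∀ m : ℕ, 1 ≤ m → γ ^ m ∉ Λ) →
        c₁ ≤ (dg L (γ : Ω) : ℝ) ^ C₁ * absLogHeight₁ (γ : Ω))
      (Γ : Subgroup (Tor Ω n)) (_ : ∀ x : Tor Ω n, (∀ l, x l ∈ Λ) → x ∈ Γ)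
      (V : Set (Tor Ω n)) (_ : (idl V).IsPrime) (_ : Transv K Γ V)
      (_ : ∀ e : Fin (r + 1) → Fin n → ℤ, LinearIndependent ℚ (fun i => rv (e i)) →
        ∃ i, ∀ γ : Ωˣ, ∃ x ∈ V, ch (e i) x ≠ γ)
      (Z : Set (Tor Ω n)) (d' : ℕ) (δ ω : ℝ) (_ : ClosedOver L Z) (_ : Z ≠ Set.univ)
      (_ : Equidim Z d') (_ : HasDeg Z d' δ) (_ : V ⊆ Z) (_ : δ ^ (1 / ((n : ℝ) - d')) ≤ ω)
      (θ : ℝ) (_ : idl {x | x ∈ V ∧ ht x ≤ θ} ≤ idl V),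
      1 ≤ ω ∧ κ * min 1 c₁ ≤ ω ^ ((1 + ε) * max 1 (r * C₁)) * θ := by
  classical
  obtain ⟨κ, hκ, H⟩ := ts_A n r C₁ ε hC₁ hε
  obtain ⟨B, hB⟩ : ∃ B : ℝ, B = ((2 : ℝ) ^ (n ^ 2)) ^ ((1 + ε) * max 1 (r * C₁)) := ⟨_, rfl⟩
  have hB0 : 0 < B := by rw [hB]; positivity
  refine ⟨κ / B, by positivity, ?_⟩
  intro K Ω _ _ _ _ _ _ _ c₁ Λ L hL Γ hΓ V hV htr hr Z d' δ ω hZ hZne hZd hZδ hVZ hω θ hθ
  obtain ⟨hω1, D, F, hD1, hDω, hF0, hFD, hFZ⟩ := poly_of_omega L Z d' δ ω hZ hZne hZd hZδ hω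
  have hFV : map (algebraMap L Ω) F ∈ idl V := by
    rw [mem_idl] at hFZ ⊢
    exact fun x hx => hFZ x (hVZ hx)
  have h1 := H K Ω c₁ Λ L hL Γ hΓ V hV htr hr D hD1 F hF0 hFD hFV θ hθ
  have hθ0 : 0 ≤ θ := by
    obtain ⟨x, hx⟩ : {x | x ∈ V ∧ ht x ≤ θ}.Nonempty := by
      by_contra hcon
      rw [Set.not_nonempty_iff_eq_empty] at hcon
      rw [hcon] at hθ
      apply hV.ne_top
      rw [eq_top_iff]
      refine le_trans ?_ hθ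
      intro f _
      rw [mem_idl]
      intro x hx
      exact absurd hx (Set.notMem_empty x)
    refine le_trans ?_ hx.2
    unfold ht
    exact Finset.sum_nonneg fun l _ => ht_nonneg _
  refine ⟨hω1, ?_⟩
  have hE0 : (0 : ℝ) ≤ (1 + ε) * max 1 (r * C₁) :=
    mul_nonneg (by linarith) (le_trans zero_le_one (le_max_left _ _))
  have h2 : (D : ℝ) ^ ((1 + ε) * max 1 (r * C₁)) ≤ B * ω ^ ((1 + ε) * max 1 (r * C₁)) := by
    rw [hB, ← Real.mul_rpow (by positivity) (by linarith)]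
    exact Real.rpow_le_rpow (Nat.cast_nonneg _) hDω hE0
  have h3 : κ * min 1 c₁ ≤ B * (ω ^ ((1 + ε) * max 1 (r * C₁)) * θ) := by
    refine h1.trans ?_
    calc (D : ℝ) ^ ((1 + ε) * max 1 (r * C₁)) * θ ≤ (B * ω ^ ((1 + ε) * max 1 (r * C₁))) * θ :=
          mul_le_mul_of_nonneg_right h2 hθ0
      _ = B * (ω ^ ((1 + ε) * max 1 (r * C₁)) * θ) := by ring
  rw [div_mul_eq_mul_div, div_le_iff₀ hB0]
  linarith

end Pool.Agent.H11.TS
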