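import Pool.Agent.H11.TS.Cor
import Pool.Agent.H11.TS.Hio

/-!
# THEOREM TS, second corollary: the Lehmer bound for points of tori over `L` implies the bound for all subvarieties

`PtB L Λ k C₁ c₁`: `c₁ ≤ [L(γ_1, .., γ_k) : L]^C₁ ∏ h(γ_i)` for all `γ_1, .., γ_k` which are multiplicatively independent modulo the saturation of `Λ`.

`ts_P`. PROOF: as `ts_A` in `FinA.lean` (model: `tr_A` in `Pool/Agent/H33/TR/Fin.lean`): `a` with `10 n^2 + 1 ≤ ε a`, `C` from `thm_ts n a`, `D' = max D C^a`, `P₀` the least natural number with `D' ≤ P₀^a`,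
`P₀ ≤ 2 D'^(1/a)`, `X = {x ∈ V : ht x ≤ θ}`. Case 1: `1 < C P₀^(10n^2+1) D' θ ≤ C'' D^(1+ε) θ ≤ C'' D^((1+ε) C₁) θ`.
Case 2: `k, N, e, μ, γ`; `ch (e i) x = γ i` for all `x ∈ V` (density, as in `tr_A`). `k ≤ n` (`e i` independent). The `γ i` are independent modulo `Λ`: for `a ≠ 0`, `m ≥ 1`:
`∏ γ_i^(a_i)` is the value of the character `∑ a_i e_i ≠ 0` (independence of the `rv (e i)`), so no power of it is in `Λ` (`not_sat`, H33/TR). So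
`c₁ ≤ A^C₁ ∏ h(γ_i)`, `A = finrank L (adjoin L (range γ))`, `A ∏ μ ≤ C N^k`, `h(γ_i) ≤ μ_i θ` (`ht_ch`), `μ_i ≥ 1`, `C₁ ≥ 1`:
`c₁ ≤ (C N^k / ∏ μ)^C₁ (∏ μ) θ^k ≤ (C N^k)^C₁ θ^k ≤ (C^C₁ N^C₁ θ)^k`. So `min 1 c₁ ≤ C^C₁ N^C₁ θ` if that is `≤ 1` (then its `k`-th power is at most itself), and trivially otherwise.
`N ≤ C P₀^(10n^2) D' ≤ C'' D^(1+ε)`.

`ts_PZ`. PROOF: `poly_of_omega` and `ts_P` (model `tr_B`): `D ≤ 2^(n^2) ω`.

`root_trick`. PROOF: `h_i = h(γ_i)`; each `γ_i` alone is independent modulo `Λ`, so by `h1` (with `δ = 1`): `c ≤ [L(γ_i):L]^2 h_i ≤ A^2 h_i`, `A = [L(γ):L]`; so `h_i ≥ c A^(-2) > 0`. `h₀ = min h_i`,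
`t_i = ⌈h_i / h₀⌉ ≥ 1`, `≤ 2 h_i / h₀`; `ρ_i` with `ρ_i^(t_i) = γ_i` (`Ω` algebraically closed), `h(ρ_i) = h_i / t_i ≤ h₀` (the height of a power: `ht_pow` in H72/PB or H33), independent modulo `Λ`
(`∏ ρ_i^(a_i)` raised to `∏ t_i` is `∏ γ_i^(a_i ∏ t / t_i)`), `[L(ρ):L] ≤ A ∏ t_i` (adjoin the roots one after the other). `hk` with `δ`: `c' ≤ (A ∏ t_i)^(1/k+δ) h₀ ≤ (2^k A ∏ h_i)^(1/k+δ) h₀^(-kδ)`
(`∏ t_i ≤ 2^k ∏ h_i / h₀^k`, exponent of `h₀`: `1 - k (1/k + δ)`). So `(2^k A ∏ h_i)^(1/k+δ) ≥ c' h₀^(kδ) ≥ c' (c A^(-2))^(kδ)`; raise to the power `k/(1+kδ)`: `A ∏ h_i ≥ c'' A^(-2 k^2 δ)`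
(roughly; `A ≥ 1`): choose `δ` with `2 k^2 δ ≤ ε`. If `k = 1` also fine.
-/

set_option autoImplicit false
set_option linter.unusedSectionVars false

open MvPolynomial NumberField

namespace Pool.Agent.H11.TS

open Pool.Agent.H33.TR Pool.Agent.H72.PB Pool.Agent.H11.TH

/-- `γ_1, .., γ_k` are multiplicatively independent modulo the saturation of `Λ` -/
def IndM {Ω : Type} [Field Ω] (Λ : Subgroup Ωˣ) {k : ℕ} (γ : Fin k → Ωˣ) : Prop :=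
  ∀ a : Fin k → ℤ, a ≠ 0 → ∀ m : ℕ, 1 ≤ m → (∏ i, γ i ^ a i) ^ m ∉ Λ

/-- the degree of the field generated by `γ_1, .., γ_k` over `L` -/
noncomputable def degP {K Ω : Type} [Field K] [Field Ω] [Algebra K Ω] (L : IntermediateField K Ω)
    {k : ℕ} (γ : Fin k → Ωˣ) : ℕ :=
  Module.finrank L (IntermediateField.adjoin L (Set.range fun i => (γ i : Ω)))

/-- the Lehmer bound for points of `G_m^k` over `L`, product form -/
def PtB {K Ω : Type} [Field K] [Field Ω] [CharZero Ω] [Algebra K Ω] (L : IntermediateField K Ω)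
    (Λ : Subgroup Ωˣ) (k : ℕ) (C₁ c₁ : ℝ) : Prop :=
  ∀ γ : Fin k → Ωˣ, IndM Λ γ → c₁ ≤ (degP L γ : ℝ) ^ C₁ * ∏ i, absLogHeight₁ (γ i : Ω)

private theorem zpow_sum' {G I : Type} [CommGroup G] (g : G) (s : Finset I) (f : I → ℤ) :
    g ^ (∑ i ∈ s, f i) = ∏ i ∈ s, g ^ f i := by
  classical
  induction s using Finset.induction_on with
  | empty => rw [Finset.sum_empty, Finset.prod_empty, zpow_zero]
  | insert a s ha ih => rw [Finset.sum_insert ha, Finset.prod_insert ha, zpow_add, ih]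

private theorem ch_comb {Ω : Type} [Field Ω] {n k : ℕ} (e : Fin k → Fin n → ℤ) (a : Fin k → ℤ)
    (x : Tor Ω n) : ch (fun l => ∑ i, a i * e i l) x = ∏ i, ch (e i) x ^ a i := by
  unfold ch
  have h : ∀ i, (∏ l, x l ^ e i l) ^ a i = ∏ l, x l ^ (a i * e i l) := by
    intro i
    rw [← Finset.prod_zpow]
    exact Finset.prod_congr rfl fun l _ => by rw [← zpow_mul, mul_comm]
  simp_rw [h]
  rw [Finset.prod_comm]
  exact Finset.prod_congr rfl fun l _ => zpow_sum' _ _ _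

private theorem comb_ne {n k : ℕ} (e : Fin k → Fin n → ℤ) (h : LinearIndependent ℚ (fun i => rv (e i)))
    (a : Fin k → ℤ) (ha : a ≠ 0) : (fun l => ∑ i, a i * e i l) ≠ 0 := by
  intro h0
  apply ha
  funext i
  have h1 := Fintype.linearIndependent_iff.1 h (fun i => (a i : ℚ)) (by
    funext l
    rw [Finset.sum_apply, Pi.zero_apply]
    have h2 := congrFun h0 l
    have h3 : ((∑ i, a i * e i l : ℤ) : ℚ) = 0 := by
      have h4 : (∑ i, a i * e i l : ℤ) = 0 := h2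
      rw [h4, Int.cast_zero]
    rw [← h3]
    push_cast
    exact Finset.sum_congr rfl fun i _ => by rw [Pi.smul_apply, smul_eq_mul]; rfl) i
  exact_mod_cast h1

private theorem pow_rpow (x : ℝ) (hx : 0 ≤ x) (k : ℕ) (c : ℝ) : (x ^ k) ^ c = (x ^ c) ^ k := by
  rw [← Real.rpow_natCast, ← Real.rpow_natCast, ← Real.rpow_mul hx, ← Real.rpow_mul hx, mul_comm]

private theorem choose_P (a C D E10 : ℕ) (ε : ℝ) (ha : 1 ≤ a) (hae : (E10 : ℝ) ≤ ε * a)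
    (hC : 1 ≤ C) (hD : 1 ≤ D) : ∃ P₀ : ℕ, C ≤ P₀ ∧ D ≤ P₀ ^ a ∧
      ((C * P₀ ^ E10 * D : ℕ) : ℝ) ≤ (C * (2 * C) ^ E10 : ℝ) * (D : ℝ) ^ (1 + ε) := by
  obtain ⟨s, hs⟩ : ∃ s : ℕ, s = ⌈(D : ℝ) ^ (1 / (a : ℝ))⌉₊ := ⟨_, rfl⟩
  have hD1 : (1 : ℝ) ≤ D := by exact_mod_cast hD
  have hD0 : (0 : ℝ) < D := by linarith
  have ha0 : (0 : ℝ) < a := by exact_mod_cast ha
  have hr1 : (1 : ℝ) ≤ (D : ℝ) ^ (1 / (a : ℝ)) := Real.one_le_rpow hD1 (by positivity)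
  have hs1 : (D : ℝ) ^ (1 / (a : ℝ)) ≤ s := by
    rw [hs]
    exact Nat.le_ceil _
  have hs1' : 1 ≤ s := by exact_mod_cast hr1.trans hs1
  have hs2 : (s : ℝ) ≤ 2 * (D : ℝ) ^ (1 / (a : ℝ)) := by
    rw [hs]
    have := Nat.ceil_lt_add_one (show (0 : ℝ) ≤ (D : ℝ) ^ (1 / (a : ℝ)) by positivity)
    linarith
  have hDs : (D : ℝ) ≤ (s : ℝ) ^ a := by
    have h1 : (D : ℝ) = ((D : ℝ) ^ (1 / (a : ℝ))) ^ a := by
      rw [← Real.rpow_natCast, ← Real.rpow_mul hD0.le, one_div_mul_cancel ha0.ne', Real.rpow_one]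
    calc (D : ℝ) = ((D : ℝ) ^ (1 / (a : ℝ))) ^ a := h1
      _ ≤ (s : ℝ) ^ a := pow_le_pow_left₀ (by positivity) hs1 _
  refine ⟨C * s, Nat.le_mul_of_pos_right _ hs1', ?_, ?_⟩
  · have h1 : D ≤ s ^ a := by exact_mod_cast hDs
    exact h1.trans (Nat.pow_le_pow_left (Nat.le_mul_of_pos_left _ hC) _)
  · push_cast
    have h2 : ((D : ℝ) ^ (1 / (a : ℝ))) ^ E10 ≤ (D : ℝ) ^ ε := by
      rw [← Real.rpow_natCast, ← Real.rpow_mul hD0.le]
      refine Real.rpow_le_rpow_of_exponent_le hD1 ?_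
      rw [one_div, inv_mul_le_iff₀ ha0, mul_comm]
      exact hae
    calc (C : ℝ) * ((C : ℝ) * s) ^ E10 * D
        ≤ (C : ℝ) * ((C : ℝ) * (2 * (D : ℝ) ^ (1 / (a : ℝ)))) ^ E10 * D := by
          gcongr
      _ = (C : ℝ) * (2 * C) ^ E10 * (((D : ℝ) ^ (1 / (a : ℝ))) ^ E10 * D) := by
          rw [show (C : ℝ) * (2 * (D : ℝ) ^ (1 / (a : ℝ))) = (2 * C) * (D : ℝ) ^ (1 / (a : ℝ)) by ring,
            mul_pow]
          ring
      _ ≤ (C : ℝ) * (2 * C) ^ E10 * ((D : ℝ) ^ ε * D) := by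
          gcongr
      _ = (C : ℝ) * (2 * C) ^ E10 * (D : ℝ) ^ (1 + ε) := by
          rw [Real.rpow_add hD0, Real.rpow_one, mul_comm ((D : ℝ) ^ ε)]

theorem ts_P (n : ℕ) (C₁ ε : ℝ) (hC₁ : 1 ≤ C₁) (hε : 0 < ε) : ∃ κ : ℝ, 0 < κ ∧
    ∀ (K Ω : Type) [Field K] [NumberField K] [Field Ω] [CharZero Ω] [IsAlgClosed Ω] [Algebra K Ω]
      [IsGalois K Ω] (c₁ : ℝ) (_ : 0 ≤ c₁) (Λ : Subgroup Ωˣ) (L : IntermediateField K Ω)
      (_ : ∀ k : ℕ, 1 ≤ k → k ≤ n → PtB L Λ k C₁ c₁)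
      (Γ : Subgroup (Tor Ω n)) (_ : ∀ x : Tor Ω n, (∀ l, x l ∈ Λ) → x ∈ Γ)
      (V : Set (Tor Ω n)) (_ : (idl V).IsPrime) (_ : Transv K Γ V)
      (D : ℕ) (_ : 1 ≤ D) (F : MvPolynomial (Fin n) L) (_ : F ≠ 0) (_ : ∀ i, F.degreeOf i ≤ D)
      (_ : map (algebraMap L Ω) F ∈ idl V)
      (θ : ℝ) (_ : idl {x | x ∈ V ∧ ht x ≤ θ} ≤ idl V),
      κ * min 1 c₁ ≤ (D : ℝ) ^ ((1 + ε) * C₁) * θ := by
  classical
  obtain ⟨a, ha, hae⟩ : ∃ a : ℕ, 1 ≤ a ∧ ((10 * n ^ 2 + 1 : ℕ) : ℝ) ≤ ε * a := by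
    refine ⟨⌈((10 * n ^ 2 + 1 : ℕ) : ℝ) / ε⌉₊ + 1, Nat.le_add_left _ _, ?_⟩
    have h1 := Nat.le_ceil (((10 * n ^ 2 + 1 : ℕ) : ℝ) / ε)
    rw [div_le_iff₀ hε] at h1
    push_cast at h1 ⊢
    nlinarith
  obtain ⟨C, hC, hts⟩ := thm_ts n a
  have hC1 : (1 : ℝ) ≤ C := by exact_mod_cast hC
  obtain ⟨R, hR⟩ : ∃ R : ℝ, R = (C : ℝ) * (2 * C) ^ (10 * n ^ 2 + 1) := ⟨_, rfl⟩
  have hR1 : 1 ≤ R := by
    rw [hR]
    have h1 : (1 : ℝ) ≤ (2 * C : ℝ) ^ (10 * n ^ 2 + 1) := one_le_pow₀ (by linarith)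
    nlinarith
  have hCR : 0 < ((C : ℝ) * R) ^ C₁ := Real.rpow_pos_of_pos (by nlinarith) _
  refine ⟨(((C : ℝ) * R) ^ C₁)⁻¹, inv_pos.2 hCR, ?_⟩
  intro K Ω _ _ _ _ _ _ _ c₁ hc₁ Λ L hP Γ hΓ V hV htr D hD F hF0 hFD hF θ hθ
  have hD1 : (1 : ℝ) ≤ D := by exact_mod_cast hD
  have hD0 : (0 : ℝ) < D := by linarith
  obtain ⟨X, hX⟩ : ∃ X : Set (Tor Ω n), X = {x | x ∈ V ∧ ht x ≤ θ} := ⟨_, rfl⟩
  rw [← hX] at hθ
  have hXV : X ⊆ V := by
    rw [hX]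
    exact fun x hx => hx.1
  have hidl : idl X = idl V := by
    refine le_antisymm hθ fun f hf => ?_
    rw [mem_idl] at hf ⊢
    exact fun x hx => hf x (hXV hx)
  have hXp : (idl X).IsPrime := by
    rw [hidl]
    exact hV
  obtain ⟨x₁, hx₁⟩ := prime_nonempty hXp
  have hxθ : ∀ x ∈ X, ht x ≤ θ := by
    rw [hX]
    exact fun x hx => hx.2
  have hθ0 : 0 ≤ θ := by
    refine le_trans ?_ (hxθ x₁ hx₁)
    unfold ht
    exact Finset.sum_nonneg fun l _ => ht_nonneg _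
  obtain ⟨P₀, hP1, hP2, hP3⟩ := choose_P a C D (10 * n ^ 2 + 1) ε ha hae hC hD
  rw [← hR] at hP3
  obtain ⟨E, hE⟩ : ∃ E : ℝ, E = R * (D : ℝ) ^ (1 + ε) := ⟨_, rfl⟩
  rw [← hE] at hP3
  have hE1 : 1 ≤ E := by
    rw [hE]
    have h1 : (1 : ℝ) ≤ (D : ℝ) ^ (1 + ε) := Real.one_le_rpow hD1 (by linarith)
    nlinarith
  have hCE1 : 1 ≤ (C : ℝ) * E := by nlinarith
  have hECE : E ≤ (C : ℝ) * E := by nlinarith
  have hself : (C : ℝ) * E ≤ ((C : ℝ) * E) ^ C₁ := Real.self_le_rpow_of_one_le hCE1 hC₁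
  have key : min 1 c₁ ≤ ((C : ℝ) * E) ^ C₁ * θ := by
    rcases hts K Ω L X hXp P₀ D hP1 hD hP2 F hF0 hFD (by rw [hidl]; exact hF) θ hxθ with h1 | h1
    · calc min 1 c₁ ≤ 1 := min_le_left _ _
        _ ≤ ((C * P₀ ^ (10 * n ^ 2 + 1) * D : ℕ) : ℝ) * θ := h1.le
        _ ≤ E * θ := mul_le_mul_of_nonneg_right hP3 hθ0
        _ ≤ ((C : ℝ) * E) ^ C₁ * θ := mul_le_mul_of_nonneg_right (hECE.trans hself) hθ0
    · obtain ⟨k, N, e, μ, γ, hk, hN, hli, heμ, hμ, hγX, -, hfin⟩ := h1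
      have hkn : k ≤ n := by
        have h2 := hli.fintype_card_le_finrank
        rwa [Fintype.card_fin, Module.finrank_fintype_fun_eq_card, Fintype.card_fin] at h2
      have hγV : ∀ i, ∀ x ∈ V, ch (e i) x = γ i := by
        intro i
        obtain ⟨_, -, h⟩ := irr_cover hV (le_of_eq hidl) ({()} : Finset Unit) (fun _ => e i)
          (fun _ => γ i) (fun x hx => ⟨(), Finset.mem_singleton_self _, hγX i x hx⟩)
        exact h
      have hind : IndM Λ γ := by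
        intro b hb
        refine not_sat (K := K) Λ Γ hΓ V hV htr (fun l => ∑ i, b i * e i l) (comb_ne e hli b hb) _ ?_
        intro x hx
        rw [ch_comb]
        exact Finset.prod_congr rfl fun i _ => by rw [hγV i x hx]
      have h2 := hP k hk hkn γ hind
      obtain ⟨M, hM⟩ : ∃ M : ℕ, M = ∏ i, μ i := ⟨_, rfl⟩
      have hM1 : (1 : ℝ) ≤ M := by
        rw [hM]
        exact_mod_cast Nat.one_le_iff_ne_zero.2 (Finset.prod_ne_zero_iff.2 fun i _ => by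
          have := (hμ i).1
          omega)
      rw [← hM] at hfin
      have hh : ∏ i, absLogHeight₁ (γ i : Ω) ≤ M * θ ^ k := by
        have h3 : ∏ i, absLogHeight₁ (γ i : Ω) ≤ ∏ i, ((μ i : ℝ) * θ) := by
          refine Finset.prod_le_prod (fun i _ => ht_nonneg _) fun i _ => ?_
          rw [← hγX i x₁ hx₁]
          refine (ht_ch (K := K) (e i) x₁ (μ i) ?_).trans
            (mul_le_mul_of_nonneg_left (hxθ x₁ hx₁) (Nat.cast_nonneg _))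
          intro l
          have h4 : ((|e i l| : ℤ) : ℝ) ≤ ((μ i : ℤ) : ℝ) := by exact_mod_cast heμ i l
          rw [Int.cast_abs] at h4
          exact_mod_cast h4
        refine h3.trans (le_of_eq ?_)
        rw [Finset.prod_mul_distrib, Finset.prod_const, Finset.card_univ, Fintype.card_fin, hM]
        push_cast
        rfl
      obtain ⟨A, hA⟩ : ∃ A : ℕ, A = degP L γ := ⟨_, rfl⟩
      have hAM : (A : ℝ) * M ≤ ((C : ℝ) * N) ^ k := by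
        have h3 : ((A * M : ℕ) : ℝ) ≤ ((C * N ^ k : ℕ) : ℝ) := by
          rw [hA]
          exact_mod_cast hfin
        push_cast at h3
        refine h3.trans ?_
        rw [mul_pow]
        exact mul_le_mul_of_nonneg_right (le_self_pow₀ hC1 (by omega)) (by positivity)
      have hA0 : (0 : ℝ) ≤ A := Nat.cast_nonneg _
      have hCN0 : (0 : ℝ) ≤ (C : ℝ) * N := by positivity
      obtain ⟨y, hy⟩ : ∃ y : ℝ, y = ((C : ℝ) * N) ^ C₁ * θ := ⟨_, rfl⟩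
      have hy0 : 0 ≤ y := by
        rw [hy]
        exact mul_nonneg (Real.rpow_nonneg hCN0 _) hθ0
      have hcy : c₁ ≤ y ^ k := by
        rw [← hA] at h2
        calc c₁ ≤ (A : ℝ) ^ C₁ * ∏ i, absLogHeight₁ (γ i : Ω) := h2
          _ ≤ (A : ℝ) ^ C₁ * (M * θ ^ k) :=
              mul_le_mul_of_nonneg_left hh (Real.rpow_nonneg hA0 _)
          _ ≤ (A : ℝ) ^ C₁ * ((M : ℝ) ^ C₁ * θ ^ k) := by
              refine mul_le_mul_of_nonneg_left ?_ (Real.rpow_nonneg hA0 _)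
              exact mul_le_mul_of_nonneg_right (Real.self_le_rpow_of_one_le hM1 hC₁) (by positivity)
          _ = ((A : ℝ) * M) ^ C₁ * θ ^ k := by
              rw [Real.mul_rpow hA0 (by linarith)]
              ring
          _ ≤ (((C : ℝ) * N) ^ k) ^ C₁ * θ ^ k := by
              refine mul_le_mul_of_nonneg_right ?_ (by positivity)
              exact Real.rpow_le_rpow (by positivity) hAM (by linarith)
          _ = y ^ k := by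
              rw [hy, mul_pow (((C : ℝ) * N) ^ C₁), pow_rpow _ hCN0]
      have hmy : min 1 c₁ ≤ y := by
        rcases le_or_gt y 1 with h3 | h3
        · exact (min_le_right _ _).trans (hcy.trans (pow_le_of_le_one hy0 h3 (by omega)))
        · exact (min_le_left _ _).trans h3.le
      refine hmy.trans ?_
      rw [hy]
      refine mul_le_mul_of_nonneg_right ?_ hθ0
      refine Real.rpow_le_rpow hCN0 ?_ (by linarith)
      refine mul_le_mul_of_nonneg_left ?_ (by linarith)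
      refine le_trans ?_ hP3
      have h4 : N ≤ C * P₀ ^ (10 * n ^ 2 + 1) * D := by
        refine hN.trans (Nat.mul_le_mul_right _ (Nat.mul_le_mul_left _ ?_))
        exact Nat.pow_le_pow_right (hC.trans hP1) (Nat.le_succ _)
      exact_mod_cast h4
  rw [inv_mul_le_iff₀ hCR]
  refine key.trans (le_of_eq ?_)
  rw [hE, ← mul_assoc, Real.mul_rpow (by nlinarith) (Real.rpow_nonneg hD0.le _),
    ← Real.rpow_mul hD0.le]
  ring

theorem ts_PZ (n : ℕ) (C₁ ε : ℝ) (hC₁ : 1 ≤ C₁) (hε : 0 < ε) : ∃ κ : ℝ, 0 < κ ∧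
    ∀ (K Ω : Type) [Field K] [NumberField K] [Field Ω] [CharZero Ω] [IsAlgClosed Ω] [Algebra K Ω]
      [IsGalois K Ω] (c₁ : ℝ) (_ : 0 ≤ c₁) (Λ : Subgroup Ωˣ) (L : IntermediateField K Ω)
      (_ : ∀ k : ℕ, 1 ≤ k → k ≤ n → PtB L Λ k C₁ c₁)
      (Γ : Subgroup (Tor Ω n)) (_ : ∀ x : Tor Ω n, (∀ l, x l ∈ Λ) → x ∈ Γ)
      (V : Set (Tor Ω n)) (_ : (idl V).IsPrime) (_ : Transv K Γ V)
      (Z : Set (Tor Ω n)) (d' : ℕ) (δ ω : ℝ) (_ : ClosedOver L Z) (_ : Z ≠ Set.univ)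
      (_ : Equidim Z d') (_ : HasDeg Z d' δ) (_ : V ⊆ Z) (_ : δ ^ (1 / ((n : ℝ) - d')) ≤ ω)
      (θ : ℝ) (_ : idl {x | x ∈ V ∧ ht x ≤ θ} ≤ idl V),
      1 ≤ ω ∧ κ * min 1 c₁ ≤ ω ^ ((1 + ε) * C₁) * θ := by
  classical
  obtain ⟨κ, hκ, hmain⟩ := ts_P n C₁ ε hC₁ hε
  have hB : (0 : ℝ) < ((2 : ℝ) ^ (n ^ 2)) ^ ((1 + ε) * C₁) := Real.rpow_pos_of_pos (by positivity) _
  refine ⟨κ / ((2 : ℝ) ^ (n ^ 2)) ^ ((1 + ε) * C₁), div_pos hκ hB, ?_⟩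
  intro K Ω _ _ _ _ _ _ _ c₁ hc₁ Λ L hP Γ hΓ V hV htr Z d' δ ω hZ hZne hZd hZδ hVZ hω θ hθ
  obtain ⟨hω1, D, F, hD1, hDω, hF0, hFD, hFZ⟩ := poly_of_omega L Z d' δ ω hZ hZne hZd hZδ hω
  refine ⟨hω1, ?_⟩
  have hFV : map (algebraMap L Ω) F ∈ idl V := by
    rw [mem_idl] at hFZ ⊢
    exact fun x hx => hFZ x (hVZ hx)
  have h1 := hmain K Ω c₁ hc₁ Λ L hP Γ hΓ V hV htr D hD1 F hF0 hFD hFV θ hθ
  have hθ0 : 0 ≤ θ := by
    obtain ⟨x, hx⟩ : {x | x ∈ V ∧ ht x ≤ θ}.Nonempty := by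
      by_contra hcon
      rw [Set.not_nonempty_iff_eq_empty] at hcon
      rw [hcon] at hθ
      apply hV.ne_top
      rw [eq_top_iff]
      refine le_trans ?_ hθ
      intro f _
      rw [mem_idl]
      intro x hx
      exact absurd hx (Set.notMem_empty x)
    refine le_trans ?_ hx.2
    unfold ht
    exact Finset.sum_nonneg fun l _ => ht_nonneg _
  rw [div_mul_eq_mul_div, div_le_iff₀ hB]
  refine h1.trans ?_
  have h2 : (D : ℝ) ^ ((1 + ε) * C₁) ≤ ω ^ ((1 + ε) * C₁) * ((2 : ℝ) ^ (n ^ 2)) ^ ((1 + ε) * C₁) := by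
    rw [← Real.mul_rpow (by linarith) (by positivity), mul_comm ω]
    exact Real.rpow_le_rpow (Nat.cast_nonneg _) hDω (by nlinarith)
  calc (D : ℝ) ^ ((1 + ε) * C₁) * θ
      ≤ ω ^ ((1 + ε) * C₁) * ((2 : ℝ) ^ (n ^ 2)) ^ ((1 + ε) * C₁) * θ :=
        mul_le_mul_of_nonneg_right h2 hθ0
    _ = ω ^ ((1 + ε) * C₁) * θ * ((2 : ℝ) ^ (n ^ 2)) ^ ((1 + ε) * C₁) := by ring

end Pool.Agent.H11.TS
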