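import Pool.Agent.H11.TS.Vdf

/-!
# THEOREM TS, Gra: graded pieces and dimensions

`gra_le`. PROOF: for each `q` choose `f_(q,l) ∈ U`, `l < a_q = finrank (gp U τ_q)`, `v f_(q,l) ≤ v τ_q`, with `res (f_(q,l) / τ_q)` a basis of `gp U τ_q` (it is
finite-dimensional: `finrank` positive or zero; if `finrank = 0` nothing to choose). The family `(q, l) ↦ f_(q,l)` is linearly independent over `k₀`: let
`∑ c_(q,l) f_(q,l) = 0` with some `c ≠ 0`; among the `q` with some `c_(q,l) ≠ 0` take the one with `v τ_q` largest (`τ` distinct values); divide by `τ_q`: the other terms have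
`v < 1` (`v (c f_(q',l) / τ_q) ≤ v τ_q' / v τ_q < 1`), so taking residues `∑_l c_(q,l) res (f_(q,l)/τ_q) = 0`: contradiction. (`res` of a sum: `h.add` repeatedly.)
So `∑ a_q ≤ finrank U`.

`gra_ex`. PROOF: induction on `finrank V`: the values `v f`, `f ∈ V`, `f ≠ 0` are finitely many (elements with different values are linearly independent), or
directly: choose a maximal list `t_0, .., t_S ∈ V` of nonzero elements with different values, ordered `v t_0 > v t_1 > .. > v t_S` (possible: at most `finrank V` of them, `V ≠ ⊥`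
gives `S ≥ 0`). `V_i = {f ∈ V : v f ≤ v t_i}` (a subspace), `V_0 = V`, `V_(i+1) = {f ∈ V : v f < v t_i}` (every nonzero `f ∈ V` has one of the values), `V_(S+1) = 0`. The map
`V_i → κ`, `f ↦ res (f / t_i)` is linear with kernel `V_(i+1)` and range `gp V t_i`: `finrank V_i = finrank (gp V t_i) + finrank V_(i+1)`. Sum up.
-/

set_option autoImplicit false

namespace Pool.Agent.H11.TS

variable {k₀ F Γ κ : Type} [Field k₀] [Field F] [Algebra k₀ F] [LinearOrderedCommGroupWithZero Γ]
  [Field κ] [Algebra k₀ κ] {v : Valuation F Γ} {res : F → κ}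

/-- the elements of `U` of value at most `v τ` -/
private def Uq (h : VR k₀ v res) (U : Submodule k₀ F) (τ : F) : Submodule k₀ F where
  carrier := {f | f ∈ U ∧ v f ≤ v τ}
  zero_mem' := by
    refine ⟨U.zero_mem, ?_⟩
    rw [map_zero]
    exact zero_le
  add_mem' := by
    rintro f f' ⟨hf, hft⟩ ⟨hf', hft'⟩
    exact ⟨U.add_mem hf hf', (v.map_add f f').trans (max_le hft hft')⟩
  smul_mem' := by
    rintro c f ⟨hf, hft⟩
    refine ⟨U.smul_mem c hf, ?_⟩
    rw [Algebra.smul_def, map_mul]
    calc v (algebraMap k₀ F c) * v f ≤ 1 * v τ := mul_le_mul' (h.alg c) hft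
      _ = v τ := one_mul _

private theorem mem_Uq (h : VR k₀ v res) (U : Submodule k₀ F) (τ f : F) :
    f ∈ Uq h U τ ↔ f ∈ U ∧ v f ≤ v τ := Iff.rfl

private theorem Uq_le (h : VR k₀ v res) (U : Submodule k₀ F) (τ : F) : Uq h U τ ≤ U :=
  fun _ hf => hf.1

private theorem v_div_le {f τ : F} (h : v f ≤ v τ) : v (f / τ) ≤ 1 := by
  rw [map_div₀]
  exact div_le_one_of_le₀ h zero_le

private theorem v_div_lt {f τ : F} (hτ : τ ≠ 0) (h : v f < v τ) : v (f / τ) < 1 := by
  have hvt : 0 < v τ := zero_lt_iff.2 ((Valuation.ne_zero_iff v).2 hτ)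
  rw [map_div₀, div_lt_one₀ hvt]
  exact h

/-- the map `f ↦ res (f / τ)` -/
private def rho (h : VR k₀ v res) (U : Submodule k₀ F) (τ : F) : Uq h U τ →ₗ[k₀] κ where
  toFun f := res ((f : F) / τ)
  map_add' := by
    intro f f'
    have h1 := v_div_le f.2.2
    have h2 := v_div_le f'.2.2
    change res (((f : F) + (f' : F)) / τ) = _
    rw [add_div, h.add _ _ h1 h2]
  map_smul' := by
    intro c f
    have h1 := v_div_le f.2.2
    change res ((c • (f : F)) / τ) = c • res ((f : F) / τ)
    rw [Algebra.smul_def, mul_div_assoc, h.mul _ _ (h.alg c) h1, h.res_alg, Algebra.smul_def]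

private theorem rho_apply (h : VR k₀ v res) (U : Submodule k₀ F) (τ : F) (f : Uq h U τ) :
    rho h U τ f = res ((f : F) / τ) := rfl

private theorem range_rho (h : VR k₀ v res) (U : Submodule k₀ F) (τ : F) (hτ : τ ≠ 0) :
    LinearMap.range (rho h U τ) = gp h U τ hτ := by
  ext a
  rw [LinearMap.mem_range, mem_gp]
  constructor
  · rintro ⟨f, hf⟩
    exact ⟨f, f.2.1, f.2.2, hf⟩
  · rintro ⟨f, hf, hft, ha⟩
    exact ⟨⟨f, hf, hft⟩, ha⟩

private theorem fin_Uq (h : VR k₀ v res) (U : Submodule k₀ F) [FiniteDimensional k₀ U] (τ : F) :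
    FiniteDimensional k₀ (Uq h U τ) := Submodule.finiteDimensional_of_le (Uq_le h U τ)

private theorem fin_gp (h : VR k₀ v res) (U : Submodule k₀ F) [FiniteDimensional k₀ U] (τ : F)
    (hτ : τ ≠ 0) : FiniteDimensional k₀ (gp h U τ hτ) := by
  have := fin_Uq h U τ
  rw [← range_rho h U τ hτ]
  infer_instance

private theorem exists_sec (h : VR k₀ v res) (U : Submodule k₀ F) (τ : F) (hτ : τ ≠ 0) :
    ∃ s : gp h U τ hτ →ₗ[k₀] F, ∀ a, s a ∈ U ∧ v (s a) ≤ v τ ∧ res (s a / τ) = a := by
  have hs : LinearMap.range ((rho h U τ).codRestrict (gp h U τ hτ) (fun f => by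
      rw [← range_rho h U τ hτ]
      exact LinearMap.mem_range_self _ f)) = ⊤ := by
    rw [LinearMap.range_eq_top]
    rintro ⟨a, ha⟩
    rw [← range_rho h U τ hτ] at ha
    obtain ⟨f, hf⟩ := ha
    exact ⟨f, Subtype.ext hf⟩
  obtain ⟨s, hs⟩ := LinearMap.exists_rightInverse_of_surjective _ hs
  refine ⟨(Uq h U τ).subtype ∘ₗ s, fun a => ⟨(s a).2.1, (s a).2.2, ?_⟩⟩
  have h1 := congrArg Subtype.val (LinearMap.congr_fun hs a)
  exact h1

private theorem res_sum_zero (v : Valuation F Γ) {I : Type} (s : Finset I) (f : I → F)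
    (hf : ∀ i ∈ s, v (f i) < 1) : v (∑ i ∈ s, f i) < 1 := by
  exact Valuation.map_sum_lt v one_ne_zero hf

theorem gra_le (h : VR k₀ v res) (U : Submodule k₀ F) [FiniteDimensional k₀ U] {Q : Type}
    [Fintype Q] (τ : Q → F) (hτ : ∀ q, τ q ≠ 0) (hinj : Function.Injective (fun q => v (τ q))) :
    ∑ q, Module.finrank k₀ (gp h U (τ q) (hτ q)) ≤ Module.finrank k₀ U := by
  classical
  choose s hs using fun q => exists_sec h U (τ q) (hτ q)
  have hfin : ∀ q, FiniteDimensional k₀ (gp h U (τ q) (hτ q)) := fun q => fin_gp h U (τ q) (hτ q)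
  let Ψ : (∀ q, gp h U (τ q) (hτ q)) →ₗ[k₀] U :=
    (∑ q, s q ∘ₗ LinearMap.proj q).codRestrict U (fun a => by
      rw [LinearMap.sum_apply]
      exact U.sum_mem fun q _ => (hs q (a q)).1)
  have hΨ : ∀ a, ((Ψ a : U) : F) = ∑ q, s q (a q) := by
    intro a
    change (∑ q, s q ∘ₗ LinearMap.proj q) a = _
    rw [LinearMap.sum_apply]
    rfl
  have hin : Function.Injective Ψ := by
    rw [← LinearMap.ker_eq_bot, LinearMap.ker_eq_bot']
    intro a ha
    by_contra hne
    have h0 : ∑ q, s q (a q) = 0 := by rw [← hΨ, ha]; rfl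
    have hex : ∃ q, a q ≠ 0 := by
      by_contra hn
      push Not at hn
      exact hne (funext hn)
    obtain ⟨q₁, hq₁⟩ := hex
    obtain ⟨q, hq, hmax⟩ := Finset.exists_max_image (Finset.univ.filter fun q => a q ≠ 0)
      (fun q => v (τ q)) ⟨q₁, Finset.mem_filter.2 ⟨Finset.mem_univ _, hq₁⟩⟩
    have haq : a q ≠ 0 := (Finset.mem_filter.1 hq).2
    have hlt : v (∑ r ∈ Finset.univ.erase q, s r (a r) / τ q) < 1 := by
      refine res_sum_zero v _ _ fun r hr => ?_
      have hrq : r ≠ q := Finset.ne_of_mem_erase hr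
      by_cases har : a r = 0
      · rw [har, map_zero, zero_div, map_zero]
        exact zero_lt_one
      · refine v_div_lt (hτ q) (lt_of_le_of_lt (hs r (a r)).2.1 (lt_of_le_of_ne ?_ ?_))
        · exact hmax r (Finset.mem_filter.2 ⟨Finset.mem_univ _, har⟩)
        · exact fun he => hrq (hinj he)
    have hsum : s q (a q) / τ q + ∑ r ∈ Finset.univ.erase q, s r (a r) / τ q = 0 := by
      rw [Finset.add_sum_erase _ (fun r => s r (a r) / τ q) (Finset.mem_univ q), ← Finset.sum_div, h0,
        zero_div]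
    have hvq : v (s q (a q) / τ q) < 1 := by
      rw [eq_neg_of_add_eq_zero_left hsum, Valuation.map_neg]
      exact hlt
    have hz : res (s q (a q) / τ q) = 0 := (h.zero_iff _ hvq.le).2 hvq
    rw [(hs q (a q)).2.2] at hz
    exact haq (Subtype.ext hz)
  have h1 := LinearMap.finrank_le_finrank_of_injective hin
  rwa [Module.finrank_pi_fintype] at h1

private theorem exists_top (h : VR k₀ v res) (V : Submodule k₀ F) [FiniteDimensional k₀ V]
    (hV : V ≠ ⊥) : ∃ t ∈ V, t ≠ 0 ∧ ∀ f ∈ V, v f ≤ v t := by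
  classical
  have hnt : Nontrivial V := Submodule.nontrivial_iff_ne_bot.2 hV
  let b := Module.finBasis k₀ V
  have hpos : 0 < Module.finrank k₀ V := Module.finrank_pos
  have : Nonempty (Fin (Module.finrank k₀ V)) := ⟨⟨0, hpos⟩⟩
  obtain ⟨i, _, hi⟩ := Finset.exists_max_image (Finset.univ : Finset (Fin (Module.finrank k₀ V)))
    (fun i => v ((b i : V) : F)) Finset.univ_nonempty
  refine ⟨(b i : V), (b i).2, ?_, ?_⟩
  · intro h0
    exact b.ne_zero i (Subtype.ext h0)
  · intro f hf
    have h1 := congrArg (fun z : V => (z : F)) (b.sum_repr ⟨f, hf⟩)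
    simp only [Submodule.coe_sum, Submodule.coe_smul] at h1
    rw [← h1]
    refine Valuation.map_sum_le v fun j _ => ?_
    rw [Algebra.smul_def, map_mul]
    calc v (algebraMap k₀ F _) * v ((b j : V) : F) ≤ 1 * v ((b i : V) : F) :=
          mul_le_mul' (h.alg _) (hi j (Finset.mem_univ _))
      _ = _ := one_mul _

private theorem gra_ind (h : VR k₀ v res) (r : ℕ) : ∀ (V : Submodule k₀ F)
    [FiniteDimensional k₀ V], Module.finrank k₀ V = r → V ≠ ⊥ →
    ∃ (S : ℕ) (t : Fin (S + 1) → F) (ht : ∀ i, t i ≠ 0), (∀ i, t i ∈ V) ∧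
      (∀ i j, i < j → v (t j) < v (t i)) ∧
      Module.finrank k₀ V ≤ ∑ i, Module.finrank k₀ (gp h V (t i) (ht i)) := by
  induction r using Nat.strong_induction_on with
  | _ r ih =>
    intro V _ hr hV
    obtain ⟨t₀, ht₀V, ht₀, hmax⟩ := exists_top h V hV
    have hU : Uq h V t₀ = V := le_antisymm (Uq_le h V t₀) fun f hf => ⟨hf, hmax f hf⟩
    have hfU := fin_Uq h V t₀
    have hrn := LinearMap.finrank_range_add_finrank_ker (rho h V t₀)
    have hU' : Module.finrank k₀ (Uq h V t₀) = Module.finrank k₀ V := by rw [hU]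
    rw [range_rho h V t₀ ht₀, hU'] at hrn
    set V' : Submodule k₀ F := (LinearMap.ker (rho h V t₀)).map (Uq h V t₀).subtype with hV'
    have hV'V : V' ≤ V := by
      rintro _ ⟨f, _, rfl⟩
      exact f.2.1
    have hV'lt : ∀ f ∈ V', v f < v t₀ := by
      rintro _ ⟨f, hf, rfl⟩
      have h1 : res ((f : F) / t₀) = 0 := hf
      rw [h.zero_iff _ (v_div_le f.2.2), map_div₀,
        div_lt_one₀ (zero_lt_iff.2 ((Valuation.ne_zero_iff v).2 ht₀))] at h1
      exact h1
    have hfV' : FiniteDimensional k₀ V' := Submodule.finiteDimensional_of_le hV'V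
    have hker : Module.finrank k₀ V' = Module.finrank k₀ (LinearMap.ker (rho h V t₀)) :=
      LinearEquiv.finrank_eq (Submodule.equivMapOfInjective _ (Uq h V t₀).subtype_injective _).symm
    have hfg := fin_gp h V t₀ ht₀
    have hg1 : 1 ≤ Module.finrank k₀ (gp h V t₀ ht₀) := by
      rw [Submodule.one_le_finrank_iff]
      intro h0
      have h1 : (1 : κ) ∈ gp h V t₀ ht₀ := ⟨t₀, ht₀V, le_rfl, by rw [div_self ht₀, h.one]⟩
      rw [h0, Submodule.mem_bot] at h1
      exact one_ne_zero h1
    by_cases hb : V' = ⊥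
    · refine ⟨0, fun _ => t₀, fun _ => ht₀, fun _ => ht₀V, ?_, ?_⟩
      · intro i j hij
        have h1 := i.isLt
        have h2 := j.isLt
        have h3 : (i : ℕ) < j := hij
        omega
      · rw [Fin.sum_univ_one]
        have h0 : Module.finrank k₀ V' = 0 := by rw [hb]; exact finrank_bot k₀ F
        change Module.finrank k₀ V ≤ Module.finrank k₀ (gp h V t₀ _)
        omega
    · obtain ⟨S, t, ht, htV, hdec, hsum⟩ := ih (Module.finrank k₀ V') (by omega) V' rfl hb
      refine ⟨S + 1, Fin.cons t₀ t, ?_, ?_, ?_, ?_⟩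
      · intro i
        refine Fin.cases ?_ (fun j => ?_) i
        · exact ht₀
        · exact ht j
      · intro i
        refine Fin.cases ?_ (fun j => ?_) i
        · exact ht₀V
        · exact hV'V (htV j)
      · intro i j
        refine Fin.cases ?_ (fun j => ?_) j
        · intro hij
          exact absurd hij (Fin.not_lt_zero i)
        · refine Fin.cases ?_ (fun i => ?_) i
          · intro _
            exact hV'lt _ (htV j)
          · intro hij
            exact hdec i j (Fin.succ_lt_succ_iff.1 hij)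
      · rw [Fin.sum_univ_succ]
        have h2 : ∑ i, Module.finrank k₀ (gp h V' (t i) (ht i)) ≤
            ∑ i, Module.finrank k₀ (gp h V (t i) (ht i)) := by
          refine Finset.sum_le_sum fun i _ => ?_
          have := fin_gp h V (t i) (ht i)
          refine Submodule.finrank_mono ?_
          rintro a ⟨f, hf, hft, ha⟩
          exact ⟨f, hV'V hf, hft, ha⟩
        change Module.finrank k₀ V ≤ Module.finrank k₀ (gp h V t₀ _) +
          ∑ i, Module.finrank k₀ (gp h V (t i) _)
        omega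

theorem gra_ex (h : VR k₀ v res) (V : Submodule k₀ F) [FiniteDimensional k₀ V] (hV : V ≠ ⊥) :
    ∃ (S : ℕ) (t : Fin (S + 1) → F) (ht : ∀ i, t i ≠ 0), (∀ i, t i ∈ V) ∧
      (∀ i j, i < j → v (t j) < v (t i)) ∧
      Module.finrank k₀ V ≤ ∑ i, Module.finrank k₀ (gp h V (t i) (ht i)) :=
  gra_ind h _ V rfl hV

end Pool.Agent.H11.TS
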