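import Pool.Agent.H11.TS.Stb

/-!
# THEOREM TS, Grd: the relations are graded by the classes modulo the lattice

`Gr L g N Λ`: every relation over `L` supported in `[0, N]^n` splits into relations on the classes modulo `Λ`.

`gr_stb`. PROOF: `S = Stb g ζ hζ N` (finite). For `u ∈ S` the relation `ι ∘ a` over `P` gives `∑_e ι(a_e) tw(u, e) g^e = 0` (`hι`). Multiply by
`tw ζ (-u) e₀` and sum over `u ∈ S`: `∑_e ι(a_e) (∑_(u ∈ S) tw ζ u (e - e₀)) g^e = 0` (`tw_mul`, `tw_add`: `tw ζ (-u) e₀ = tw ζ u (-e₀)`).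
If `e - e₀ ∈ lt S` the inner sum is `Nat.card S` (all `tw ζ u (e - e₀) = ζ^0 = 1`), otherwise it is `0`: there is `u₀ ∈ S` with
`∑ u₀_i (e - e₀)_i = c ≠ 0` in `ZMod p`, so `w = tw ζ u₀ (e - e₀) = ζ^(c.val) ≠ 1` (`ζ` primitive), and translating the sum by `u₀`
multiplies it by `w`. Divide by `Nat.card S ≠ 0` in `P` (characteristic 0).
`gr_inf`: apply the grading by `Λ` and then to the resulting relation (coefficients `a e` or `0`) the grading by `Λ'`; `e - e₀ ∈ Λ ⊓ Λ'` iff both.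
`gr_finset`: induction with `gr_inf` and `gr_top`.
`gr_meet`: if `Λ ∩ [-N, N]^n = 0`, each class contains at most one `e ∈ bx n N`: so `a e g^e = 0`, `a e = 0` for all `e ∈ bx n N`.
-/

set_option autoImplicit false

namespace Pool.Agent.H11.TS

/-- the relations over `L` supported in `[0, N]^n` are graded modulo `Λ` -/
def Gr (L : Type) {F : Type} [Field L] [Field F] [Algebra L F] {n : ℕ} (g : Fin n → F) (N : ℕ)
    (Λ : AddSubgroup (Fin n → ℤ)) : Prop :=
  ∀ a : (Fin n → ℤ) → L, ∑ e ∈ bx n N, algebraMap L F (a e) * mz g e = 0 → ∀ e₀ : Fin n → ℤ,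
    ∑ e ∈ @Finset.filter _ (fun e => e - e₀ ∈ Λ) (Classical.decPred _) (bx n N),
      algebraMap L F (a e) * mz g e = 0

variable {L P F : Type} [Field L] [Field P] [Field F] [Algebra L F] [Algebra P F] {n : ℕ}

private noncomputable def ind (L : Type) [Field L] {n : ℕ} (Λ : AddSubgroup (Fin n → ℤ)) (x : Fin n → ℤ) : L :=
  @ite _ (x ∈ Λ) (Classical.propDecidable _) 1 0

private theorem gr_sum (g : Fin n → F) (N : ℕ) (Λ : AddSubgroup (Fin n → ℤ)) (a : (Fin n → ℤ) → L)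
    (e₀ : Fin n → ℤ) : ∑ e ∈ @Finset.filter _ (fun e => e - e₀ ∈ Λ) (Classical.decPred _) (bx n N),
      algebraMap L F (a e) * mz g e = ∑ e ∈ bx n N, algebraMap L F (a e * ind L Λ (e - e₀)) * mz g e := by
  classical
  rw [Finset.sum_filter]
  refine Finset.sum_congr rfl fun e _ => ?_
  unfold ind
  by_cases h : e - e₀ ∈ Λ
  · rw [if_pos h, if_pos h, mul_one]
  · rw [if_neg h, if_neg h, mul_zero, map_zero, zero_mul]

private theorem gr_iff (g : Fin n → F) (N : ℕ) (Λ : AddSubgroup (Fin n → ℤ)) : Gr L g N Λ ↔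
    ∀ a : (Fin n → ℤ) → L, ∑ e ∈ bx n N, algebraMap L F (a e) * mz g e = 0 → ∀ e₀ : Fin n → ℤ,
      ∑ e ∈ bx n N, algebraMap L F (a e * ind L Λ (e - e₀)) * mz g e = 0 := by
  unfold Gr
  refine forall_congr' fun a => imp_congr_right fun _ => forall_congr' fun e₀ => ?_
  rw [gr_sum]

private theorem sum_tw {p : ℕ} [Fact p.Prime] (ζ : P) (hζ' : IsPrimitiveRoot ζ p) (hζ : ζ ^ p = 1)
    (S : Submodule (ZMod p) (Fin n → ZMod p)) [Fintype S] (x : Fin n → ℤ) :
    ∑ u : S, tw ζ (u : Fin n → ZMod p) x = (Fintype.card S : P) * ind P (lt S) x := by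
  have : NeZero p := ⟨(Fact.out : p.Prime).ne_zero⟩
  unfold ind
  by_cases hx : x ∈ lt S
  · rw [if_pos hx, mul_one, Finset.sum_eq_card_nsmul (b := (1 : P)) (fun u _ => ?_), Finset.card_univ,
      nsmul_eq_mul, mul_one]
    have h1 : ∑ i, (u : Fin n → ZMod p) i * (x i : ZMod p) = 0 := hx u u.2
    unfold tw
    rw [h1, ZMod.val_zero, pow_zero]
  · rw [if_neg hx, mul_zero]
    have h1 : ∃ u₀ ∈ S, ∑ i, u₀ i * (x i : ZMod p) ≠ 0 := by
      by_contra hcon
      push Not at hcon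
      exact hx hcon
    obtain ⟨u₀, hu₀, hne⟩ := h1
    have hw : tw ζ u₀ x ≠ 1 := by
      intro h
      unfold tw at h
      have h2 := (hζ'.pow_eq_one_iff_dvd _).1 h
      have h3 := Nat.eq_zero_of_dvd_of_lt h2 (ZMod.val_lt _)
      exact hne ((ZMod.val_eq_zero _).1 h3)
    have h2 : ∑ u : S, tw ζ (u : Fin n → ZMod p) x = (∑ u : S, tw ζ (u : Fin n → ZMod p) x) * tw ζ u₀ x := by
      rw [Finset.sum_mul]
      rw [← Equiv.sum_comp (Equiv.addRight (⟨u₀, hu₀⟩ : S)) (fun u : S => tw ζ (u : Fin n → ZMod p) x)]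
      refine Finset.sum_congr rfl fun u _ => ?_
      rw [← tw_add ζ hζ]
      rfl
    have h3 : (∑ u : S, tw ζ (u : Fin n → ZMod p) x) * (tw ζ u₀ x - 1) = 0 := by
      rw [mul_sub, ← h2, mul_one, sub_self]
    exact (mul_eq_zero.1 h3).resolve_right (sub_ne_zero.2 hw)

theorem gr_stb [CharZero P] {p : ℕ} [Fact p.Prime] (ι : L →+* P)
    (hι : ∀ x, algebraMap P F (ι x) = algebraMap L F x) (g : Fin n → F) (ζ : P)
    (hζ' : IsPrimitiveRoot ζ p) (hζ : ζ ^ p = 1) (N : ℕ) : Gr L g N (lt (Stb g ζ hζ N)) := by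
  have : NeZero p := ⟨(Fact.out : p.Prime).ne_zero⟩
  rw [gr_iff]
  intro a ha e₀
  obtain ⟨S, hS⟩ : ∃ S, S = Stb g ζ hζ N := ⟨_, rfl⟩
  rw [← hS]
  have hfin : Fintype S := Fintype.ofFinite S
  have hb : ∑ e ∈ bx n N, algebraMap P F (ι (a e)) * mz g e = 0 := by
    rw [← ha]
    exact Finset.sum_congr rfl fun e _ => by rw [hι]
  have h1 : ∀ u : S, ∑ e ∈ bx n N, algebraMap P F (ι (a e) * tw ζ (u : Fin n → ZMod p) (e - e₀)) * mz g e = 0 := by
    intro u
    have hu : (u : Fin n → ZMod p) ∈ Stb g ζ hζ N := hS ▸ u.2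
    have h2 := hu (fun e => ι (a e)) hb
    have h3 : ∑ e ∈ bx n N, algebraMap P F (ι (a e) * tw ζ (u : Fin n → ZMod p) (e - e₀)) * mz g e =
        algebraMap P F (tw ζ (u : Fin n → ZMod p) (-e₀)) *
          ∑ e ∈ bx n N, algebraMap P F (ι (a e) * tw ζ (u : Fin n → ZMod p) e) * mz g e := by
      rw [Finset.mul_sum]
      refine Finset.sum_congr rfl fun e _ => ?_
      rw [sub_eq_add_neg, tw_mul ζ hζ, map_mul, map_mul, map_mul]
      ring
    rw [h3, h2, mul_zero]
  have h2 : ∑ e ∈ bx n N, algebraMap P F (ι (a e) * ((Fintype.card S : P) * ind P (lt S) (e - e₀))) * mz g e = 0 := by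
    calc ∑ e ∈ bx n N, algebraMap P F (ι (a e) * ((Fintype.card S : P) * ind P (lt S) (e - e₀))) * mz g e
        = ∑ e ∈ bx n N, ∑ u : S, algebraMap P F (ι (a e) * tw ζ (u : Fin n → ZMod p) (e - e₀)) * mz g e := by
          refine Finset.sum_congr rfl fun e _ => ?_
          rw [← sum_tw ζ hζ' hζ S (e - e₀), Finset.mul_sum, map_sum, Finset.sum_mul]
      _ = 0 := by
          rw [Finset.sum_comm]
          exact Finset.sum_eq_zero fun u _ => h1 u
  have hc : algebraMap P F (Fintype.card S : P) ≠ 0 := by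
    rw [Ne, map_eq_zero]
    have h3 : Fintype.card S ≠ 0 := Fintype.card_ne_zero
    exact_mod_cast h3
  have h3 : algebraMap P F (Fintype.card S : P) *
      ∑ e ∈ bx n N, algebraMap L F (a e * ind L (lt S) (e - e₀)) * mz g e = 0 := by
    rw [← h2, Finset.mul_sum]
    refine Finset.sum_congr rfl fun e _ => ?_
    have h4 : algebraMap P F (ind P (lt S) (e - e₀)) = algebraMap L F (ind L (lt S) (e - e₀)) := by
      unfold ind
      by_cases h : e - e₀ ∈ lt S
      · rw [if_pos h, if_pos h, map_one, map_one]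
      · rw [if_neg h, if_neg h, map_zero, map_zero]
    rw [map_mul, map_mul, map_mul, h4, hι]
    ring
  exact (mul_eq_zero.1 h3).resolve_left hc

theorem gr_top (g : Fin n → F) (N : ℕ) : Gr L g N ⊤ := by
  rw [gr_iff]
  intro a ha e₀
  rw [← ha]
  refine Finset.sum_congr rfl fun e _ => ?_
  unfold ind
  rw [if_pos (AddSubgroup.mem_top _), mul_one]

theorem gr_inf (g : Fin n → F) (N : ℕ) (Λ Λ' : AddSubgroup (Fin n → ℤ)) (h : Gr L g N Λ)
    (h' : Gr L g N Λ') : Gr L g N (Λ ⊓ Λ') := by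
  rw [gr_iff] at h h' ⊢
  intro a ha e₀
  have h1 := h' (fun e => a e * ind L Λ (e - e₀)) (h a ha e₀) e₀
  rw [← h1]
  refine Finset.sum_congr rfl fun e _ => ?_
  have h2 : ind L (Λ ⊓ Λ') (e - e₀) = ind L Λ (e - e₀) * ind L Λ' (e - e₀) := by
    unfold ind
    by_cases h3 : e - e₀ ∈ Λ
    · by_cases h4 : e - e₀ ∈ Λ'
      · rw [if_pos (AddSubgroup.mem_inf.2 ⟨h3, h4⟩), if_pos h3, if_pos h4, mul_one]
      · rw [if_neg (fun h5 => h4 (AddSubgroup.mem_inf.1 h5).2), if_neg h4, mul_zero]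
    · rw [if_neg (fun h5 => h3 (AddSubgroup.mem_inf.1 h5).1), if_neg h3, zero_mul]
  rw [h2, mul_assoc]

theorem gr_finset (g : Fin n → F) (N : ℕ) {I : Type} (s : Finset I)
    (Λ : I → AddSubgroup (Fin n → ℤ)) (h : ∀ i ∈ s, Gr L g N (Λ i)) :
    Gr L g N (⨅ i ∈ s, Λ i) := by
  classical
  induction s using Finset.induction_on with
  | empty =>
    rw [show (⨅ i ∈ (∅ : Finset I), Λ i) = ⊤ by simp]
    exact gr_top g N
  | insert i s _ ih =>
    rw [Finset.iInf_insert]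
    exact gr_inf g N _ _ (h i (Finset.mem_insert_self i s))
      (ih fun j hj => h j (Finset.mem_insert_of_mem hj))

theorem gr_mono (g : Fin n → F) {N N' : ℕ} (hN : N ≤ N') (Λ : AddSubgroup (Fin n → ℤ))
    (h : Gr L g N' Λ) : Gr L g N Λ := by
  classical
  rw [gr_iff] at h ⊢
  intro a ha e₀
  have hsub : bx n N ⊆ bx n N' := by
    intro e he
    rw [mem_bx] at he ⊢
    intro i
    have h1 := he i
    have h2 : (N : ℤ) ≤ N' := by exact_mod_cast hN
    exact ⟨h1.1, h1.2.trans h2⟩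
  have h1 : ∀ b : (Fin n → ℤ) → L, ∑ e ∈ bx n N', algebraMap L F (if e ∈ bx n N then b e else 0) * mz g e =
      ∑ e ∈ bx n N, algebraMap L F (b e) * mz g e := by
    intro b
    rw [← Finset.sum_subset hsub]
    · refine Finset.sum_congr rfl fun e he => ?_
      rw [if_pos he]
    · intro e _ he
      rw [if_neg he, map_zero, zero_mul]
  have h2 := h (fun e => if e ∈ bx n N then a e else 0) (by rw [h1 a]; exact ha) e₀
  rw [← h1 (fun e => a e * ind L Λ (e - e₀)), ← h2]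
  refine Finset.sum_congr rfl fun e _ => ?_
  split_ifs
  · rfl
  · rw [zero_mul]

theorem gr_meet (g : Fin n → F) (hg : ∀ i, g i ≠ 0) (N : ℕ) (Λ : AddSubgroup (Fin n → ℤ))
    (h : Gr L g N Λ) (a : (Fin n → ℤ) → L) (ha : ∑ e ∈ bx n N, algebraMap L F (a e) * mz g e = 0)
    (ha0 : ∃ e ∈ bx n N, a e ≠ 0) : ∃ e ∈ lb Λ N, e ≠ 0 := by
  classical
  by_contra hcon
  push Not at hcon
  obtain ⟨e₀, he₀, hae⟩ := ha0
  rw [gr_iff] at h
  have h1 := h a ha e₀
  rw [Finset.sum_eq_single e₀] at h1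
  · unfold ind at h1
    rw [sub_self, if_pos Λ.zero_mem, mul_one] at h1
    rcases mul_eq_zero.1 h1 with h2 | h2
    · exact hae ((map_eq_zero (algebraMap L F)).1 h2)
    · exact mz_ne_zero g hg e₀ h2
  · intro e he hne
    have h2 : e - e₀ ∉ Λ := by
      intro h3
      have h4 : e - e₀ ∈ lb Λ N := by
        rw [mem_lb]
        refine ⟨fun i => ?_, h3⟩
        rw [mem_bx] at he he₀
        have h5 := he i
        have h6 := he₀ i
        rw [Pi.sub_apply, abs_le]
        constructor <;> linarith [h5.1, h5.2, h6.1, h6.2]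
      exact hne (sub_eq_zero.1 (hcon _ h4))
    unfold ind
    rw [if_neg h2, mul_zero, map_zero, zero_mul]
  · intro h2
    exact absurd he₀ h2

end Pool.Agent.H11.TS
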