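import Pool.Agent.H11.TS.Vex
import Pool.Agent.H11.TS.Gra

/-!
# THEOREM TS, Gro: the growth theorem

`growth`. PROOF: induction on `d` (for all fields). `d = 0`: `V = ⊥`: `finrank = 0`. Else `0 ≠ w ∈ V`, `q ≥ 1`: `w^(q-1) • V ≤ V^q = V^q * 1 ≤ V^q * B^q` (`1 ∈ B`), of
dimension `finrank V`; powers and products of finite-dimensional subspaces are finite-dimensional.

Step `d → d+1`: `K = 2^d q`, `U = V^(2K) * B^(2K)` (`2^(d+1) q = 2K`). `exists_val` for `y`: `v, κ, res`, `y_i ∈ B`. If `V = ⊥` clear. `gra_ex`: `t_0, .., t_S ∈ V`, values decreasing.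
`A_i := gp V t_i` (contains `1 = res (t_i/t_i)`), `B₀ := gp B 1` (contains `1` and the residues of `y_i`, `i < d`, `i.castSucc`). Induction hypothesis for `k₀, κ, A_i, B₀` and
the residues: `q^d finrank A_i ≤ finrank (A_i^K * B₀^K)`.
(1) `S ≥ 1`. Index set `Q = Fin (S+1) × Fin K`. For `i < S`, `0 ≤ l < K`: `τ(i,l) = t_i^(2K-l) t_(i+1)^l`; for `i = S`: `τ(S,l) = t_(S-1)^l t_S^(2K-l)`. The values are pairwise different:
with `v t_i > v t_(i+1)`: for `i < S` the value is `≤ v(t_i)^(2K)` and `> v(t_i)^K v(t_(i+1))^K ≥ v(t_(i+1))^(2K)`, strictly decreasing in `l`; for `i = S` it is `≥ v(t_S)^(2K)`,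
`< v(t_(S-1))^K v(t_S)^K`, strictly increasing in `l`. And `A_i^K * B₀^K ≤ gp U τ(i,l)`: for `a = res (f_1/t_i) ... res (f_K/t_i) res (b_1) ... res (b_K)` (a generator;
`Submodule.mul_le`, `Submodule.pow_induction_on_left'`, or first show: if `A ≤ gp V₁ τ₁` and `A' ≤ gp V₂ τ₂` then `A * A' ≤ gp (V₁ * V₂) (τ₁ τ₂)`, and
`A ^ k ≤ gp (V^k) (t^k)`; then multiply by the elements `t_i^(K-l) t_(i+1)^l ∈ V^K`: `1 ≤ gp (span {τ'}) τ'`, `span {τ'} ≤ V^K`). So `gp U τ ⊇ A_i^K * B₀^K`:
`finrank (gp U τ(i,l)) ≥ q^d finrank A_i` (`gp U τ` is finite-dimensional, as `U` is). `gra_le`: `finrank U ≥ ∑_i K q^d finrank A_i ≥ K q^d finrank V ≥ q^(d+1) finrank V`.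
(2) `S = 0`: `τ(l) = t_0^(2K) y_d^l`, `0 ≤ l < K`, `y_d = y (last d) ∈ B`, `y_d ≠ 0`, `v y_d < 1`: the values are strictly decreasing; `t_0^K ∈ V^K`, `y_d^l ∈ B^l ≤ B^K`:
`A_0^K * B₀^K ≤ gp U τ(l)`; the same count.
-/

set_option autoImplicit false

namespace Pool.Agent.H11.TS

section gro

variable {k₀ F Γ κ : Type} [Field k₀] [Field F] [Algebra k₀ F] [LinearOrderedCommGroupWithZero Γ]
  [Field κ] [Algebra k₀ κ] {v : Valuation F Γ} {res : F → κ}

private theorem fd_mul_pow (V B : Submodule k₀ F) [FiniteDimensional k₀ V]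
    [FiniteDimensional k₀ B] (n m : ℕ) :
    FiniteDimensional k₀ (V ^ n * B ^ m : Submodule k₀ F) := by
  have h1 : V.FG := Module.Finite.iff_fg.1 inferInstance
  have h2 : B.FG := Module.Finite.iff_fg.1 inferInstance
  exact Module.Finite.iff_fg.2 ((h1.pow n).mul (h2.pow m))

private theorem gp_fd (h : VR k₀ v res) (U : Submodule k₀ F) [FiniteDimensional k₀ U] (t : F)
    (ht : t ≠ 0) : FiniteDimensional k₀ (gp h U t ht) := by
  have hle : ∀ f, v f ≤ v t → v (f / t) ≤ 1 := by
    intro f hf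
    rw [map_div₀]
    exact div_le_one_of_le₀ hf zero_le
  let U' : Submodule k₀ F :=
    { carrier := {f | f ∈ U ∧ v f ≤ v t}
      zero_mem' := ⟨U.zero_mem, by rw [map_zero]; exact zero_le⟩
      add_mem' := by
        rintro a b ⟨ha, ha'⟩ ⟨hb, hb'⟩
        exact ⟨U.add_mem ha hb, (v.map_add a b).trans (max_le ha' hb')⟩
      smul_mem' := by
        rintro c a ⟨ha, ha'⟩
        refine ⟨U.smul_mem c ha, ?_⟩
        rw [Algebra.smul_def, map_mul]
        calc v (algebraMap k₀ F c) * v a ≤ 1 * v t := mul_le_mul' (h.alg c) ha'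
          _ = v t := one_mul _ }
  have hU' : U' ≤ U := fun f hf => hf.1
  haveI : FiniteDimensional k₀ U' := Submodule.finiteDimensional_of_le hU'
  let g : U' →ₗ[k₀] κ :=
    { toFun := fun f => res ((f : F) / t)
      map_add' := by
        rintro ⟨a, ha⟩ ⟨b, hb⟩
        show res ((a + b) / t) = res (a / t) + res (b / t)
        rw [add_div, h.add _ _ (hle a ha.2) (hle b hb.2)]
      map_smul' := by
        rintro c ⟨a, ha⟩
        show res ((c • a) / t) = c • res (a / t)
        rw [Algebra.smul_def, mul_div_assoc, h.mul _ _ (h.alg c) (hle a ha.2), h.res_alg,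
          Algebra.smul_def] }
  have hg : gp h U t ht ≤ LinearMap.range g := by
    rintro a ⟨f, hf, hft, rfl⟩
    exact ⟨⟨f, hf, hft⟩, rfl⟩
  exact Submodule.finiteDimensional_of_le hg

private theorem gp_mul (h : VR k₀ v res) {V₁ V₂ : Submodule k₀ F} {t₁ t₂ : F} (h₁ : t₁ ≠ 0)
    (h₂ : t₂ ≠ 0) (h₁₂ : t₁ * t₂ ≠ 0) {A A' : Submodule k₀ κ} (hA : A ≤ gp h V₁ t₁ h₁)
    (hA' : A' ≤ gp h V₂ t₂ h₂) : A * A' ≤ gp h (V₁ * V₂) (t₁ * t₂) h₁₂ := by
  refine Submodule.mul_le.2 ?_
  intro a ha a' ha'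
  obtain ⟨f, hf, hft, rfl⟩ := hA ha
  obtain ⟨f', hf', hft', rfl⟩ := hA' ha'
  refine ⟨f * f', Submodule.mul_mem_mul hf hf', ?_, ?_⟩
  · rw [map_mul, map_mul]
    exact mul_le_mul' hft hft'
  · rw [mul_div_mul_comm, h.mul]
    · rw [map_div₀]
      exact div_le_one_of_le₀ hft zero_le
    · rw [map_div₀]
      exact div_le_one_of_le₀ hft' zero_le

private theorem gp_one (h : VR k₀ v res) {V : Submodule k₀ F} {t : F} (ht : t ≠ 0) (hV : t ∈ V) :
    (1 : Submodule k₀ κ) ≤ gp h V t ht := by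
  intro a ha
  obtain ⟨c, rfl⟩ := Submodule.mem_one.1 ha
  refine ⟨c • t, V.smul_mem c hV, ?_, ?_⟩
  · rw [Algebra.smul_def, map_mul]
    calc v (algebraMap k₀ F c) * v t ≤ 1 * v t := mul_le_mul' (h.alg c) le_rfl
      _ = v t := one_mul _
  · rw [Algebra.smul_def, mul_div_assoc, div_self ht, mul_one, h.res_alg]

private theorem gp_pow (h : VR k₀ v res) {V : Submodule k₀ F} {t : F} (ht : t ≠ 0)
    {A : Submodule k₀ κ} (hA : A ≤ gp h V t ht) (k : ℕ) :
    A ^ k ≤ gp h (V ^ k) (t ^ k) (pow_ne_zero k ht) := by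
  induction k with
  | zero =>
    intro a ha
    rw [pow_zero] at ha
    obtain ⟨f, hf, hft, rfl⟩ := gp_one h (V := (1 : Submodule k₀ F)) (t := 1) one_ne_zero
      (Submodule.mem_one.2 ⟨1, map_one _⟩) ha
    refine ⟨f, ?_, ?_, ?_⟩
    · rw [pow_zero]
      exact hf
    · rw [pow_zero]
      exact hft
    · rw [pow_zero]
  | succ k ih =>
    intro a ha
    rw [pow_succ] at ha
    obtain ⟨f, hf, hft, rfl⟩ := gp_mul h (pow_ne_zero k ht) ht
      (mul_ne_zero (pow_ne_zero k ht) ht) ih hA ha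
    refine ⟨f, ?_, ?_, ?_⟩
    · rw [pow_succ]
      exact hf
    · rw [pow_succ]
      exact hft
    · rw [pow_succ]

private theorem core (h : VR k₀ v res) (V B : Submodule k₀ F) {t : F} (ht : t ≠ 0) (K : ℕ)
    {s w : F} (hs : s ∈ V ^ K) (hs0 : s ≠ 0) (hw : w ∈ B ^ K) (hw0 : w ≠ 0)
    (hτ : t ^ K * s * w ≠ 0) :
    (gp h V t ht) ^ K * (gp h B 1 one_ne_zero) ^ K ≤
      gp h (V ^ (2 * K) * B ^ (2 * K)) (t ^ K * s * w) hτ := by
  have h0 : (1 : F) ^ K ≠ 0 := pow_ne_zero K one_ne_zero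
  have h1 := gp_pow h ht (le_refl (gp h V t ht)) K
  have h2 := gp_mul h (pow_ne_zero K ht) hs0 (mul_ne_zero (pow_ne_zero K ht) hs0) h1
    (gp_one h hs0 hs)
  have h3 := gp_pow h one_ne_zero (le_refl (gp h B 1 one_ne_zero)) K
  have h4 := gp_mul h h0 hw0 (mul_ne_zero h0 hw0) h3 (gp_one h hw0 hw)
  rw [mul_one] at h2 h4
  have h5 := gp_mul h (mul_ne_zero (pow_ne_zero K ht) hs0) (mul_ne_zero h0 hw0)
    (mul_ne_zero (mul_ne_zero (pow_ne_zero K ht) hs0) (mul_ne_zero h0 hw0)) h2 h4
  have e1 : V ^ K * V ^ K = V ^ (2 * K) := by rw [← pow_add, two_mul]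
  have e2 : B ^ K * B ^ K = B ^ (2 * K) := by rw [← pow_add, two_mul]
  have e3 : t ^ K * s * (1 ^ K * w) = t ^ K * s * w := by rw [one_pow, one_mul]
  intro a ha
  obtain ⟨f, hf, hft, rfl⟩ := h5 ha
  rw [e1, e2] at hf
  rw [e3] at hft
  refine ⟨f, hf, hft, ?_⟩
  rw [e3]

private theorem count (h : VR k₀ v res) (V B : Submodule k₀ F) [FiniteDimensional k₀ V]
    [FiniteDimensional k₀ B] (K c : ℕ) {S : ℕ} (t : Fin (S + 1) → F) (ht : ∀ i, t i ≠ 0)
    (hdim : Module.finrank k₀ V ≤ ∑ i, Module.finrank k₀ (gp h V (t i) (ht i)))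
    (hIH : ∀ i, c * Module.finrank k₀ (gp h V (t i) (ht i)) ≤
      Module.finrank k₀ ((gp h V (t i) (ht i)) ^ K * (gp h B 1 one_ne_zero) ^ K : Submodule k₀ κ))
    (s w : Fin (S + 1) × Fin K → F) (hs : ∀ x, s x ∈ V ^ K) (hs0 : ∀ x, s x ≠ 0)
    (hw : ∀ x, w x ∈ B ^ K) (hw0 : ∀ x, w x ≠ 0)
    (hinj : Function.Injective (fun x : Fin (S + 1) × Fin K => v (t x.1 ^ K * s x * w x))) :
    K * c * Module.finrank k₀ V ≤
      Module.finrank k₀ (V ^ (2 * K) * B ^ (2 * K) : Submodule k₀ F) := by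
  haveI := fd_mul_pow V B (2 * K) (2 * K)
  have hτ : ∀ x : Fin (S + 1) × Fin K, t x.1 ^ K * s x * w x ≠ 0 := fun x =>
    mul_ne_zero (mul_ne_zero (pow_ne_zero K (ht x.1)) (hs0 x)) (hw0 x)
  have h1 := gra_le h (V ^ (2 * K) * B ^ (2 * K)) (fun x => t x.1 ^ K * s x * w x) hτ hinj
  refine le_trans ?_ h1
  have h2 : ∀ x : Fin (S + 1) × Fin K, c * Module.finrank k₀ (gp h V (t x.1) (ht x.1)) ≤
      Module.finrank k₀ (gp h (V ^ (2 * K) * B ^ (2 * K)) (t x.1 ^ K * s x * w x) (hτ x)) := by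
    intro x
    refine (hIH x.1).trans ?_
    haveI := gp_fd h (V ^ (2 * K) * B ^ (2 * K)) _ (hτ x)
    exact Submodule.finrank_mono
      (core h V B (ht x.1) K (hs x) (hs0 x) (hw x) (hw0 x) (hτ x))
  calc K * c * Module.finrank k₀ V
      ≤ K * c * ∑ i, Module.finrank k₀ (gp h V (t i) (ht i)) := Nat.mul_le_mul_left _ hdim
    _ = ∑ x : Fin (S + 1) × Fin K, c * Module.finrank k₀ (gp h V (t x.1) (ht x.1)) := by
      rw [Fintype.sum_prod_type, Finset.mul_sum]
      refine Finset.sum_congr rfl fun i _ => ?_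
      change _ = ∑ _y : Fin K, c * Module.finrank k₀ (gp h V (t i) (ht i))
      rw [Finset.sum_const, Finset.card_univ, Fintype.card_fin, smul_eq_mul, mul_assoc]
    _ ≤ _ := Finset.sum_le_sum fun x _ => h2 x

private theorem chain {a b : Γ} (hb : 0 < b) (hab : b < a) {n l l' : ℕ} (h1 : l < l')
    (h2 : l' ≤ n) : a ^ (n - l') * b ^ l' < a ^ (n - l) * b ^ l := by
  have ha : 0 < a := hb.trans hab
  have e1 : a ^ (n - l) * b ^ l = a ^ (n - l') * b ^ l * a ^ (l' - l) := by
    have : n - l = (n - l') + (l' - l) := by omega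
    rw [this, pow_add, mul_right_comm]
  have e2 : a ^ (n - l') * b ^ l' = a ^ (n - l') * b ^ l * b ^ (l' - l) := by
    have : l' = l + (l' - l) := by omega
    conv_lhs => rw [this, pow_add]
    rw [← this, mul_assoc]
  rw [e1, e2]
  have h3 : b ^ (l' - l) < a ^ (l' - l) := pow_lt_pow_left₀ hab hb.le (by omega)
  exact mul_lt_mul_of_pos_left h3 (mul_pos (pow_pos ha _) (pow_pos hb _))

private theorem chain_le {a b : Γ} (hb : 0 < b) (hab : b < a) {n l l' : ℕ} (h1 : l ≤ l')
    (h2 : l' ≤ n) : a ^ (n - l') * b ^ l' ≤ a ^ (n - l) * b ^ l := by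
  rcases h1.lt_or_eq with h3 | h3
  · exact (chain hb hab h3 h2).le
  · rw [h3]

private theorem chain2 {a : ℕ → Γ} {S : ℕ} (ha : ∀ i, 0 < a i) (hd : ∀ i j, i < j → j ≤ S → a j < a i)
    {n p p' e e' : ℕ} (hp : p < p') (hp' : p' < S) (he : e < n) (he' : e' ≤ n) :
    a p' ^ (n - e') * a (p' + 1) ^ e' < a p ^ (n - e) * a (p + 1) ^ e := by
  have h1 := chain (ha (p + 1)) (hd p (p + 1) (by omega) (by omega)) he le_rfl
  have h2 := chain_le (ha (p' + 1)) (hd p' (p' + 1) (by omega) (by omega)) (Nat.zero_le e') he'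
  rw [Nat.sub_self, pow_zero, one_mul] at h1
  rw [Nat.sub_zero, pow_zero, mul_one] at h2
  refine lt_of_le_of_lt (h2.trans ?_) h1
  rcases (show p + 1 ≤ p' by omega).lt_or_eq with h3 | h3
  · exact pow_le_pow_left₀ (ha p').le (hd (p + 1) p' h3 (by omega)).le n
  · rw [h3]

private theorem mem_pow_mul {V : Submodule k₀ F} {x y : F} (hx : x ∈ V) (hy : y ∈ V) {K l : ℕ}
    (hl : l ≤ K) : x ^ (K - l) * y ^ l ∈ V ^ K := by
  have h1 : V ^ K = V ^ (K - l) * V ^ l := by rw [← pow_add, Nat.sub_add_cancel hl]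
  rw [h1]
  exact Submodule.mul_mem_mul (Submodule.pow_mem_pow V hx _) (Submodule.pow_mem_pow V hy _)

end gro

theorem growth (d : ℕ) : ∀ {k₀ F : Type} [Field k₀] [Field F] [Algebra k₀ F]
    (V B : Submodule k₀ F) [FiniteDimensional k₀ V] [FiniteDimensional k₀ B] (_ : (1 : F) ∈ B)
    (y : Fin d → F) (_ : AlgebraicIndependent k₀ y) (_ : ∀ i, y i ∈ B) (q : ℕ) (_ : 1 ≤ q),
    q ^ d * Module.finrank k₀ V ≤
      Module.finrank k₀ (V ^ (2 ^ d * q) * B ^ (2 ^ d * q) : Submodule k₀ F) := by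
  induction d with
  | zero =>
    intro k₀ F _ _ _ V B _ _ h1 y hy hyB q hq
    rw [pow_zero, one_mul, pow_zero, one_mul]
    by_cases hV : V = ⊥
    · subst hV
      rw [finrank_bot]
      exact Nat.zero_le _
    obtain ⟨w, hw, hw0⟩ := (Submodule.ne_bot_iff V).1 hV
    haveI := fd_mul_pow V B q q
    have hmem : ∀ x : V, w ^ (q - 1) * (x : F) ∈ (V ^ q * B ^ q : Submodule k₀ F) := by
      intro x
      have h2 : w ^ (q - 1) * (x : F) ^ 1 ∈ V ^ q := mem_pow_mul hw x.2 hq
      have h3 : (1 : F) ^ q ∈ B ^ q := Submodule.pow_mem_pow B h1 q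
      have h4 := Submodule.mul_mem_mul h2 h3
      rwa [one_pow, mul_one, pow_one] at h4
    let g : V →ₗ[k₀] (V ^ q * B ^ q : Submodule k₀ F) :=
      ((LinearMap.mulLeft k₀ (w ^ (q - 1))).comp V.subtype).codRestrict _ hmem
    refine LinearMap.finrank_le_finrank_of_injective (f := g) ?_
    intro a b hab
    have h2 : w ^ (q - 1) * (a : F) = w ^ (q - 1) * (b : F) := congrArg Subtype.val hab
    exact Subtype.ext (mul_left_cancel₀ (pow_ne_zero _ hw0) h2)
  | succ d ih =>
    intro k₀ F _ _ _ V B _ _ h1 y hy hyB q hq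
    obtain ⟨Γ, _, v, κ, _, _, res, h, hle, hind, hlt⟩ := exists_val d y hy
    by_cases hV : V = ⊥
    · subst hV
      rw [finrank_bot, mul_zero]
      exact Nat.zero_le _
    obtain ⟨S, t, ht, htV, hdec, hdim⟩ := gra_ex h V hV
    obtain ⟨K, hK⟩ : ∃ K, K = 2 ^ d * q := ⟨_, rfl⟩
    have hKq : q ≤ K := by
      rw [hK]
      exact Nat.le_mul_of_pos_left _ (by positivity)
    have e1 : 2 ^ (d + 1) * q = 2 * K := by
      rw [hK]
      ring
    rw [e1]
    have hfin : ∀ i, FiniteDimensional k₀ (gp h V (t i) (ht i)) := fun i => gp_fd h V _ _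
    haveI hB0 : FiniteDimensional k₀ (gp h B 1 one_ne_zero) := gp_fd h B _ _
    have hIH : ∀ i, q ^ d * Module.finrank k₀ (gp h V (t i) (ht i)) ≤
        Module.finrank k₀
          ((gp h V (t i) (ht i)) ^ K * (gp h B 1 one_ne_zero) ^ K : Submodule k₀ κ) := by
      intro i
      haveI := hfin i
      rw [hK]
      exact ih (gp h V (t i) (ht i)) (gp h B 1 one_ne_zero)
        (gp_one h one_ne_zero h1 (Submodule.mem_one.2 ⟨1, map_one _⟩))
        (fun i => res (y i.castSucc)) hind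
        (fun i => ⟨y i.castSucc, hyB _, by rw [map_one]; exact hle i, by rw [div_one]⟩) q hq
    have key : K * q ^ d * Module.finrank k₀ V ≤
        Module.finrank k₀ (V ^ (2 * K) * B ^ (2 * K) : Submodule k₀ F) := by
      have hone : ∀ l, l ≤ K → ∀ b ∈ B, b ^ l ∈ B ^ K := by
        intro l hl b hb
        have h2 := mem_pow_mul h1 hb hl
        rwa [one_pow, one_mul] at h2
      rcases Nat.eq_zero_or_pos S with hS | hS
      · subst hS
        have hyn : y (Fin.last d) ≠ 0 := by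
          intro h0
          exact hy.ne_zero (Fin.last d) h0
        refine count h V B K (q ^ d) t ht hdim hIH (fun x => t x.1 ^ K)
          (fun x => y (Fin.last d) ^ (x.2 : ℕ)) (fun x => Submodule.pow_mem_pow V (htV _) K)
          (fun x => pow_ne_zero K (ht _)) (fun x => hone _ x.2.2.le _ (hyB _))
          (fun x => pow_ne_zero _ hyn) ?_
        rintro ⟨i, l⟩ ⟨j, m⟩ hij
        obtain rfl : i = j := Subsingleton.elim (α := Fin 1) i j
        have hT : v (t i) ≠ 0 := (Valuation.ne_zero_iff v).2 (ht i)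
        have hij' : v (t i ^ K * t i ^ K * y (Fin.last d) ^ (l : ℕ)) =
          v (t i ^ K * t i ^ K * y (Fin.last d) ^ (m : ℕ)) := hij
        rw [map_mul, map_mul v (t i ^ K * t i ^ K) (y (Fin.last d) ^ (m : ℕ))] at hij'
        have h2 : v (t i ^ K * t i ^ K) ≠ 0 :=
          (Valuation.ne_zero_iff v).2 (mul_ne_zero (pow_ne_zero K (ht i)) (pow_ne_zero K (ht i)))
        have h3 := mul_left_cancel₀ h2 hij'
        rw [map_pow, map_pow] at h3
        have hpos : 0 < v (y (Fin.last d)) :=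
          zero_lt_iff.2 ((Valuation.ne_zero_iff v).2 hyn)
        have h4 : (l : ℕ) = m := by
          rcases lt_trichotomy (l : ℕ) m with h5 | h5 | h5
          · exact absurd h3 (pow_lt_pow_right_of_lt_one₀ hpos hlt h5).ne'
          · exact h5
          · exact absurd h3 (pow_lt_pow_right_of_lt_one₀ hpos hlt h5).ne
        rw [Fin.ext h4]
      · obtain ⟨T, hT⟩ : ∃ T : ℕ → F, T = fun k => if hk : k < S + 1 then t ⟨k, hk⟩ else t 0 :=
          ⟨_, rfl⟩
        have hTV : ∀ k, T k ∈ V := by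
          intro k
          rw [hT]
          dsimp only
          split_ifs
          · exact htV _
          · exact htV _
        have hT0 : ∀ k, T k ≠ 0 := by
          intro k
          rw [hT]
          dsimp only
          split_ifs
          · exact ht _
          · exact ht _
        have hTt : ∀ i : Fin (S + 1), T i = t i := by
          intro i
          rw [hT]
          dsimp only
          rw [dif_pos i.2]
        have hpos : ∀ k, 0 < v (T k) := fun k =>
          zero_lt_iff.2 ((Valuation.ne_zero_iff v).2 (hT0 k))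
        have hdec' : ∀ i j, i < j → j ≤ S → v (T j) < v (T i) := by
          intro i j hij hj
          have h2 := hdec ⟨i, by omega⟩ ⟨j, by omega⟩ hij
          rw [← hTt, ← hTt] at h2
          exact h2
        have hval : ∀ x : Fin (S + 1) × Fin K,
            v (t x.1 ^ K * (t x.1 ^ (K - (x.2 : ℕ)) *
              T (if (x.1 : ℕ) < S then (x.1 : ℕ) + 1 else S - 1) ^ (x.2 : ℕ)) * 1) =
            v (T (min (x.1 : ℕ) (S - 1))) ^
                (2 * K - (if (x.1 : ℕ) < S then (x.2 : ℕ) else 2 * K - (x.2 : ℕ))) *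
              v (T (min (x.1 : ℕ) (S - 1) + 1)) ^
                (if (x.1 : ℕ) < S then (x.2 : ℕ) else 2 * K - (x.2 : ℕ)) := by
          rintro ⟨i, l⟩
          have hl := l.2
          have hi := i.2
          dsimp only
          rw [mul_one, ← hTt i]
          by_cases hiS : (i : ℕ) < S
          · rw [if_pos hiS, if_pos hiS, min_eq_left (by omega : (i : ℕ) ≤ S - 1)]
            have e2 : 2 * K - (l : ℕ) = K + (K - (l : ℕ)) := by omega
            rw [e2, pow_add, map_mul, map_mul, map_pow, map_pow, map_pow, mul_assoc]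
          · rw [if_neg hiS, if_neg hiS, min_eq_right (by omega : S - 1 ≤ (i : ℕ))]
            have e2 : 2 * K - (2 * K - (l : ℕ)) = l := by omega
            have e3 : 2 * K - (l : ℕ) = K + (K - (l : ℕ)) := by omega
            have e4 : S - 1 + 1 = (i : ℕ) := by omega
            rw [e2, e3, e4, pow_add, map_mul, map_mul, map_pow, map_pow, map_pow]
            rw [mul_comm (v (T (S - 1)) ^ (l : ℕ)), mul_assoc]
        refine count h V B K (q ^ d) t ht hdim hIH
          (fun x => t x.1 ^ (K - (x.2 : ℕ)) *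
              T (if (x.1 : ℕ) < S then (x.1 : ℕ) + 1 else S - 1) ^ (x.2 : ℕ))
          (fun _ => 1) (fun x => mem_pow_mul (htV _) (hTV _) x.2.2.le)
          (fun x => mul_ne_zero (pow_ne_zero _ (ht _)) (pow_ne_zero _ (hT0 _)))
          (fun x => ?_) (fun x => one_ne_zero) ?_
        · have h2 := hone 0 (Nat.zero_le _) 1 h1
          rwa [pow_zero] at h2
        · intro x x' hxx
          have hxx' := (hval x).symm.trans (hxx.trans (hval x'))
          obtain ⟨i, l⟩ := x
          obtain ⟨j, m⟩ := x'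
          have hl := l.2
          have hm := m.2
          have hi := i.2
          have hj := j.2
          dsimp only at hxx'
          have hp : min (i : ℕ) (S - 1) = min (j : ℕ) (S - 1) := by
            rcases lt_trichotomy (min (i : ℕ) (S - 1)) (min (j : ℕ) (S - 1)) with h2 | h2 | h2
            · refine absurd hxx' (chain2 (S := S) hpos hdec' h2 (by omega) ?_ ?_).ne'
              · rw [if_pos (by omega)]
                omega
              · split_ifs <;> omega
            · exact h2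
            · refine absurd hxx' (chain2 (S := S) hpos hdec' h2 (by omega) ?_ ?_).ne
              · rw [if_pos (by omega)]
                omega
              · split_ifs <;> omega
          rw [← hp] at hxx'
          have he : (if (i : ℕ) < S then (l : ℕ) else 2 * K - (l : ℕ)) =
              (if (j : ℕ) < S then (m : ℕ) else 2 * K - (m : ℕ)) := by
            have hc := hdec' (min (i : ℕ) (S - 1)) (min (i : ℕ) (S - 1) + 1) (by omega) (by omega)
            rcases lt_trichotomy (if (i : ℕ) < S then (l : ℕ) else 2 * K - (l : ℕ))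
              (if (j : ℕ) < S then (m : ℕ) else 2 * K - (m : ℕ)) with h2 | h2 | h2
            · exact absurd hxx' (chain (hpos _) hc h2 (by split_ifs <;> omega)).ne'
            · exact h2
            · exact absurd hxx' (chain (hpos _) hc h2 (by split_ifs <;> omega)).ne
          have hres : (i : ℕ) = j ∧ (l : ℕ) = m := by
            split_ifs at he <;> omega
          exact Prod.ext (Fin.ext hres.1) (Fin.ext hres.2)
    calc q ^ (d + 1) * Module.finrank k₀ V ≤ K * q ^ d * Module.finrank k₀ V := by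
          rw [pow_succ']
          exact Nat.mul_le_mul_right _ (Nat.mul_le_mul_right _ hKq)
      _ ≤ _ := key

end Pool.Agent.H11.TS
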