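import Pool.Agent.H11.TS.Hip
import Pool.Agent.H11.TH.CmpB

/-!
# THEOREM TS, Hie: the Hilbert function of an equidimensional set

`secs_le_sum`. PROOF: `idl Z` is the intersection of its finitely many minimal primes (it is radical; see the header of `Pool/Agent/H11/TH/CmpB.lean` and the beginning of
`components` there). The map `restrictDegree m → ∏_P R/P` has kernel `restrictDegree m ∩ idl Z`, the kernel of `restrictDegree m → secs Z m` (surjective): so
`finrank (secs Z m) ≤ ∑_P hp P m`.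
`sum_le_secs`. PROOF: separating polynomials `f_P ∉ P`, `f_P ∈ P'` for `P' ≠ P` (see `components`), `c` = a bound of all their degrees. For each `P` choose `hp P m` polynomials
`p_(P,j)` of degree `≤ m` in each variable, independent modulo `P`. The `f_P p_(P,j)` are in `restrictDegree (m + c)` and linearly independent modulo `idl Z`: if `∑ a f_P p ∈ idl Z ⊆ P`, the
terms `P' ≠ P` are in `P`, so `f_P ∑_j a_(P,j) p_(P,j) ∈ P`, so `∑_j a_(P,j) p_(P,j) ∈ P`, `a = 0`. (The same argument as in `components`.)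
`secs_bound`. PROOF: `s = ∑_P hp P m`. By `hp_growth` for every `q ≥ 1`: `q^d s ≤ ∑_P hp P (2^d q (m+1)) ≤ finrank (secs Z (2^d q (m+1) + c))`. Multiply by `d!` and divide by `M^d`,
`M = 2^d q (m+1) + c`; `q → ∞`: `HasDeg` along this subsequence: `d! s / (2^d (m+1))^d ≤ δ`, since `M / q → 2^d (m+1)`. So `finrank (secs Z m) ≤ s ≤ 2^(d^2) (m+1)^d δ / d! ≤ 2^(d^2) δ (m+1)^d`.
-/

set_option autoImplicit false

open MvPolynomial Filter Topology

namespace Pool.Agent.H11.TS

open Pool.Agent.H11.TH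

private theorem restr_finite {Ω : Type} [Field Ω] {n : ℕ} (m : ℕ) :
    Module.Finite Ω (restrictDegree (Fin n) Ω m) := by
  classical
  rw [Module.Finite.iff_fg]
  refine ⟨(Fintype.piFinset (fun _ : Fin n => Finset.range (m + 1))).image
    (fun b : Fin n → ℕ => (monomial (Finsupp.equivFunOnFinite.symm b) (1 : Ω) :
      MvPolynomial (Fin n) Ω)), ?_⟩
  apply le_antisymm
  · rw [Submodule.span_le]
    intro p hp
    simp only [Finset.coe_image, Set.mem_image, Finset.mem_coe, Fintype.mem_piFinset,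
      Finset.mem_range] at hp
    obtain ⟨b, hb, rfl⟩ := hp
    rw [SetLike.mem_coe, mem_restrictDegree]
    intro s hs i
    have hs' := support_monomial_subset hs
    rw [Finset.mem_singleton] at hs'
    subst hs'
    have := hb i
    simp only [Finsupp.equivFunOnFinite_symm_apply_apply]
    omega
  · intro p hp
    rw [mem_restrictDegree] at hp
    rw [p.as_sum]
    refine Submodule.sum_mem _ fun s hs => ?_
    have : (monomial s (coeff s p) : MvPolynomial (Fin n) Ω) =
        coeff s p • monomial s (1 : Ω) := by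
      rw [smul_monomial, smul_eq_mul, mul_one]
    rw [this]
    refine Submodule.smul_mem _ _ (Submodule.subset_span ?_)
    simp only [Finset.coe_image, Set.mem_image, Finset.mem_coe, Fintype.mem_piFinset,
      Finset.mem_range]
    refine ⟨s, fun i => Nat.lt_succ_of_le (hp s hs i), ?_⟩
    congr 1
    ext i
    simp

/-- the restriction map -/
private noncomputable def rst {Ω : Type} [Field Ω] {n : ℕ} (Z : Set (Tor Ω n)) :
    MvPolynomial (Fin n) Ω →ₗ[Ω] (Z → Ω) :=
  LinearMap.pi fun z : Z => (aeval (crd (z : Tor Ω n))).toLinearMap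

private theorem rst_zero {Ω : Type} [Field Ω] {n : ℕ} (Z : Set (Tor Ω n))
    (p : MvPolynomial (Fin n) Ω) : rst Z p = 0 ↔ p ∈ idl Z := by
  unfold idl
  rw [mem_vanishingIdeal_iff]
  constructor
  · rintro h _ ⟨z, hz, rfl⟩
    exact congrFun h ⟨z, hz⟩
  · intro h
    funext z
    exact h _ ⟨z, z.2, rfl⟩

private theorem inter_mem {Ω : Type} [Field Ω] {n : ℕ} (Z : Set (Tor Ω n))
    (p : MvPolynomial (Fin n) Ω) (h : ∀ P ∈ (idl Z).minimalPrimes, p ∈ P) : p ∈ idl Z := by
  have h1 : p ∈ (idl Z).radical := by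
    rw [← Ideal.sInf_minimalPrimes, Submodule.mem_sInf]
    exact h
  obtain ⟨k, hk⟩ := h1
  unfold idl at hk ⊢
  rw [mem_vanishingIdeal_iff] at hk ⊢
  intro x hx
  have h2 := hk x hx
  rw [map_pow] at h2
  exact eq_zero_of_pow_eq_zero h2

private theorem lin_le {k V M ι : Type} [Field k] [AddCommGroup V] [Module k V]
    [AddCommGroup M] [Module k M] [Fintype ι] {N : ι → Type} [∀ i, AddCommGroup (N i)]
    [∀ i, Module k (N i)] (W : Submodule k V) [Module.Finite k W] (R : V →ₗ[k] M)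
    (L : ∀ i, V →ₗ[k] N i) (h : ∀ p ∈ W, (∀ i, L i p = 0) → R p = 0) :
    Module.finrank k (W.map R) ≤ ∑ i, Module.finrank k (W.map (L i)) := by
  let Ψ : W →ₗ[k] ((i : ι) → W.map (L i)) := LinearMap.pi fun i => (L i).submoduleMap W
  have hker : LinearMap.ker Ψ ≤ LinearMap.ker (R.domRestrict W) := by
    intro p hp
    rw [LinearMap.mem_ker] at hp ⊢
    rw [LinearMap.domRestrict_apply]
    refine h p p.2 fun i => ?_
    exact congrArg Subtype.val (congrFun hp i)
  have h1 := LinearMap.finrank_range_add_finrank_ker (R.domRestrict W)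
  have h2 := LinearMap.finrank_range_add_finrank_ker Ψ
  have h3 : Module.finrank k (LinearMap.ker Ψ) ≤
      Module.finrank k (LinearMap.ker (R.domRestrict W)) := Submodule.finrank_mono hker
  rw [LinearMap.range_domRestrict] at h1
  have h5 : Module.finrank k (LinearMap.range Ψ) ≤
      Module.finrank k ((i : ι) → W.map (L i)) := Submodule.finrank_le _
  rw [Module.finrank_pi_fintype] at h5
  omega

private theorem lin_ex {k V N : Type} [Field k] [AddCommGroup V] [Module k V]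
    [AddCommGroup N] [Module k N] (W : Submodule k V) [Module.Finite k W] (L : V →ₗ[k] N) :
    ∃ p : Fin (Module.finrank k (W.map L)) → V, (∀ j, p j ∈ W) ∧
      ∀ a : Fin (Module.finrank k (W.map L)) → k, L (∑ j, a j • p j) = 0 → ∀ j, a j = 0 := by
  let b := Module.finBasis k (W.map L)
  have h1 : ∀ j, ∃ p ∈ W, L p = (b j : N) := fun j => (b j).2
  choose p hp1 hp2 using h1
  refine ⟨p, hp1, fun a ha => ?_⟩
  have h2 : ∑ j, a j • b j = 0 := by
    apply Subtype.ext
    rw [map_sum] at ha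
    rw [Submodule.coe_zero, ← ha, Submodule.coe_sum]
    refine Finset.sum_congr rfl fun j _ => ?_
    rw [map_smul, hp2, Submodule.coe_smul]
  exact Fintype.linearIndependent_iff.mp b.linearIndependent a h2

theorem secs_le_sum {Ω : Type} [Field Ω] {n : ℕ} (Z : Set (Tor Ω n)) (hne : Z.Nonempty)
    (hfin : (idl Z).minimalPrimes.Finite) (m : ℕ) :
    Module.finrank Ω (secs Z m) ≤ ∑ P ∈ hfin.toFinset, hp P m := by
  classical
  have hW : Module.Finite Ω (restrictDegree (Fin n) Ω m) := restr_finite m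
  have h1 := lin_le (restrictDegree (Fin n) Ω m) (rst Z)
    (fun P : {P : Ideal (MvPolynomial (Fin n) Ω) // P ∈ hfin.toFinset} =>
      (Ideal.Quotient.mkₐ Ω P.1).toLinearMap) (by
      intro p _ h
      rw [rst_zero]
      apply inter_mem
      intro P hP
      rw [← Ideal.Quotient.eq_zero_iff_mem]
      exact h ⟨P, hfin.mem_toFinset.mpr hP⟩)
  refine le_trans (le_of_eq rfl) (h1.trans (le_of_eq ?_))
  rw [← Finset.sum_coe_sort hfin.toFinset (fun P => hp P m)]
  rfl

/-- the separating polynomials -/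
private theorem sep {Ω : Type} [Field Ω] {n : ℕ} (Z : Set (Tor Ω n))
    (hfin : (idl Z).minimalPrimes.Finite)
    (P : {P : Ideal (MvPolynomial (Fin n) Ω) // P ∈ hfin.toFinset}) :
    ∃ f : MvPolynomial (Fin n) Ω, f ∉ (P : Ideal (MvPolynomial (Fin n) Ω)) ∧
      ∀ P' : {P : Ideal (MvPolynomial (Fin n) Ω) // P ∈ hfin.toFinset}, P' ≠ P →
        f ∈ (P' : Ideal (MvPolynomial (Fin n) Ω)) := by
  classical
  have hιm : ∀ P : {P : Ideal (MvPolynomial (Fin n) Ω) // P ∈ hfin.toFinset},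
      (P : Ideal (MvPolynomial (Fin n) Ω)) ∈ (idl Z).minimalPrimes :=
    fun P => hfin.mem_toFinset.mp P.2
  have hpr : ∀ P : {P : Ideal (MvPolynomial (Fin n) Ω) // P ∈ hfin.toFinset},
      (P : Ideal (MvPolynomial (Fin n) Ω)).IsPrime := fun P => (hιm P).1.1
  have hle : ∀ P : {P : Ideal (MvPolynomial (Fin n) Ω) // P ∈ hfin.toFinset},
      idl Z ≤ (P : Ideal (MvPolynomial (Fin n) Ω)) := fun P => (hιm P).1.2
  by_contra hcon
  push Not at hcon
  have h1 : (Finset.univ.erase P).inf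
      (fun P' : {P : Ideal (MvPolynomial (Fin n) Ω) // P ∈ hfin.toFinset} =>
        (P' : Ideal (MvPolynomial (Fin n) Ω))) ≤ (P : Ideal (MvPolynomial (Fin n) Ω)) := by
    intro f hf
    by_contra hfP
    obtain ⟨P', hP', hf'⟩ := hcon f hfP
    apply hf'
    have h2 : (Finset.univ.erase P).inf
        (fun P' : {P : Ideal (MvPolynomial (Fin n) Ω) // P ∈ hfin.toFinset} =>
          (P' : Ideal (MvPolynomial (Fin n) Ω))) ≤ (P' : Ideal (MvPolynomial (Fin n) Ω)) :=
      Finset.inf_le (Finset.mem_erase.mpr ⟨hP', Finset.mem_univ P'⟩)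
    exact h2 hf
  obtain ⟨P', hP', h3⟩ := (Ideal.IsPrime.inf_le' (hpr P)).mp h1
  have h4 : (P : Ideal (MvPolynomial (Fin n) Ω)) ≤ (P' : Ideal (MvPolynomial (Fin n) Ω)) :=
    (hιm P).2 ⟨hpr P', hle P'⟩ h3
  exact (Finset.mem_erase.mp hP').1 (Subtype.ext (le_antisymm h3 h4))

theorem sum_le_secs {Ω : Type} [Field Ω] {n : ℕ} (Z : Set (Tor Ω n)) (hne : Z.Nonempty)
    (hfin : (idl Z).minimalPrimes.Finite) :
    ∃ c : ℕ, ∀ m : ℕ, ∑ P ∈ hfin.toFinset, hp P m ≤ Module.finrank Ω (secs Z (m + c)) := by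
  classical
  let ι : Type := {P : Ideal (MvPolynomial (Fin n) Ω) // P ∈ hfin.toFinset}
  have hιm : ∀ P : ι, (P : Ideal (MvPolynomial (Fin n) Ω)) ∈ (idl Z).minimalPrimes :=
    fun P => hfin.mem_toFinset.mp P.2
  have hpr : ∀ P : ι, (P : Ideal (MvPolynomial (Fin n) Ω)).IsPrime := fun P => (hιm P).1.1
  have hle : ∀ P : ι, idl Z ≤ (P : Ideal (MvPolynomial (Fin n) Ω)) := fun P => (hιm P).1.2
  have hsep := sep Z hfin
  choose f hf1 hf2 using hsep
  refine ⟨∑ P : ι, ∑ l', (f P).degreeOf l', fun m => ?_⟩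
  set E : ℕ := ∑ P : ι, ∑ l', (f P).degreeOf l' with hEdef
  have hEP : ∀ (P : ι) (l' : Fin n), (f P).degreeOf l' ≤ E := fun P l' =>
    (Finset.single_le_sum (f := fun l' => (f P).degreeOf l') (fun _ _ => Nat.zero_le _)
      (Finset.mem_univ l')).trans
    (Finset.single_le_sum (f := fun P : ι => ∑ l', (f P).degreeOf l') (fun _ _ => Nat.zero_le _)
      (Finset.mem_univ P))
  have hW : Module.Finite Ω (restrictDegree (Fin n) Ω m) := restr_finite m
  have hfd : ∀ P : ι, Module.Finite Ω ((restrictDegree (Fin n) Ω m).map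
      (Ideal.Quotient.mkₐ Ω P.1).toLinearMap) := fun P => Module.Finite.map _ _
  -- the polynomials
  have hex : ∀ P : ι, ∃ p : Fin (hp P.1 m) → MvPolynomial (Fin n) Ω,
      (∀ j, p j ∈ restrictDegree (Fin n) Ω m) ∧
      ∀ a : Fin (hp P.1 m) → Ω, (∑ j, a j • p j) ∈ P.1 → ∀ j, a j = 0 := by
    intro P
    obtain ⟨p, h1, h2⟩ := lin_ex (restrictDegree (Fin n) Ω m)
      (Ideal.Quotient.mkₐ Ω P.1).toLinearMap
    refine ⟨p, h1, fun a ha => h2 a ?_⟩
    rw [← Ideal.Quotient.eq_zero_iff_mem] at ha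
    exact ha
  choose p hp1 hp2 using hex
  have hQ : ∀ (P : ι) (j : Fin (hp P.1 m)),
      f P * p P j ∈ restrictDegree (Fin n) Ω (m + E) := by
    intro P j
    rw [mem_restrictDegree]
    intro s hs l'
    have h1 : (f P * p P j).degreeOf l' ≤ m + E := by
      refine (degreeOf_mul_le _ _ _).trans ?_
      have h2 := hEP P l'
      have h3 : (p P j).degreeOf l' ≤ m := by
        rw [degreeOf_le_iff]
        intro t ht
        exact (mem_restrictDegree _ _ _).mp (hp1 P j) t ht l'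
      omega
    exact (degreeOf_le_iff.mp h1) s hs
  let v : (Σ P : ι, Fin (hp P.1 m)) → secs Z (m + E) := fun Pj =>
    ⟨rst Z (f Pj.1 * p Pj.1 Pj.2), Submodule.mem_map_of_mem (hQ Pj.1 Pj.2)⟩
  have hlin : LinearIndependent Ω v := by
    rw [Fintype.linearIndependent_iff]
    intro a ha
    have hT : (∑ Pj : (Σ P : ι, Fin (hp P.1 m)), a Pj • (f Pj.1 * p Pj.1 Pj.2)) ∈ idl Z := by
      rw [← rst_zero, map_sum]
      have h1 := congrArg (fun w : secs Z (m + E) => (w : Z → Ω)) ha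
      simp only [Submodule.coe_sum, Submodule.coe_smul, Submodule.coe_zero] at h1
      rw [← h1]
      refine Finset.sum_congr rfl fun Pj _ => ?_
      rw [map_smul]
    rw [Fintype.sum_sigma] at hT
    rintro ⟨P, j⟩
    have h1 := hle P hT
    rw [← Finset.add_sum_erase Finset.univ _ (Finset.mem_univ P)] at h1
    have h2 : ∑ P' ∈ Finset.univ.erase P, ∑ j : Fin (hp P'.1 m),
        a ⟨P', j⟩ • (f P' * p P' j) ∈ (P : Ideal (MvPolynomial (Fin n) Ω)) := by
      refine Ideal.sum_mem _ fun P' hP' => Ideal.sum_mem _ fun j _ => ?_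
      rw [smul_eq_C_mul]
      refine Ideal.mul_mem_left _ _ ?_
      exact Ideal.mul_mem_right _ _ (hf2 P' P (Finset.mem_erase.mp hP').1.symm)
    have h3 := (Ideal.add_mem_iff_left _ h2).mp h1
    have h4 : ∑ j : Fin (hp P.1 m), a ⟨P, j⟩ • (f P * p P j) =
        f P * ∑ j : Fin (hp P.1 m), a ⟨P, j⟩ • p P j := by
      rw [Finset.mul_sum]
      refine Finset.sum_congr rfl fun j _ => ?_
      rw [mul_smul_comm]
    have h5 : f P * ∑ j : Fin (hp P.1 m), a ⟨P, j⟩ • p P j ∈
        (P : Ideal (MvPolynomial (Fin n) Ω)) := by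
      rw [← h4]
      exact h3
    exact hp2 P (fun j => a ⟨P, j⟩) (((hpr P).mem_or_mem h5).resolve_left (hf1 P)) j
  haveI := secs_finite Z (m + E)
  have hcard := hlin.fintype_card_le_finrank
  rw [Fintype.card_sigma] at hcard
  refine le_trans (le_of_eq ?_) hcard
  rw [← Finset.sum_coe_sort hfin.toFinset (fun P => hp P m)]
  refine Finset.sum_congr rfl fun P _ => ?_
  rw [Fintype.card_fin]

theorem secs_bound {Ω : Type} [Field Ω] {n : ℕ} (Z : Set (Tor Ω n)) (d : ℕ) (hd : Equidim Z d)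
    (hbot : idl Z ≠ ⊥) (δ : ℝ) (hδ : HasDeg Z d δ) (m : ℕ) :
    (Module.finrank Ω (secs Z m) : ℝ) ≤ 2 ^ (d ^ 2) * δ * ((m : ℝ) + 1) ^ d := by
  classical
  obtain ⟨hZ, hdim⟩ := hd
  have hfin : (idl Z).minimalPrimes.Finite := Ideal.finite_minimalPrimes_of_isNoetherianRing _ _
  obtain ⟨c, hc⟩ := sum_le_secs Z hZ hfin
  have h0 := secs_le_sum Z hZ hfin m
  set s : ℕ := ∑ P ∈ hfin.toFinset, hp P m with hs
  have hgrow : ∀ q : ℕ, 1 ≤ q →
      q ^ d * s ≤ Module.finrank Ω (secs Z (2 ^ d * q * (m + 1) + c)) := by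
    intro q hq
    refine le_trans ?_ (hc _)
    rw [hs, Finset.mul_sum]
    refine Finset.sum_le_sum fun P hP => ?_
    have hP' := hfin.mem_toFinset.mp hP
    refine hp_growth P hP'.1.1 ?_ d (hdim P hP') m q hq
    intro h
    apply hbot
    rw [eq_bot_iff, ← h]
    exact hP'.1.2
  -- the limit
  have hpos : (0 : ℝ) < 2 ^ d * ((m : ℝ) + 1) := by positivity
  have hsub : Tendsto (fun q : ℕ => 2 ^ d * q * (m + 1) + c) atTop atTop := by
    refine tendsto_atTop_mono (f := fun q : ℕ => q) (fun q => ?_) tendsto_id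
    have h1 : 1 ≤ 2 ^ d := Nat.one_le_two_pow
    calc q ≤ 2 ^ d * q := Nat.le_mul_of_pos_left _ h1
      _ ≤ 2 ^ d * q * (m + 1) := Nat.le_mul_of_pos_right _ (Nat.succ_pos _)
      _ ≤ _ := Nat.le_add_right _ _
  have hlim1 := hδ.comp hsub
  have hlim2 : Tendsto (fun q : ℕ => (q : ℝ) / ((2 ^ d * q * (m + 1) + c : ℕ) : ℝ)) atTop
      (𝓝 (1 / (2 ^ d * ((m : ℝ) + 1)))) := by
    have h1 : Tendsto (fun q : ℕ => 1 / (2 ^ d * ((m : ℝ) + 1) + (c : ℝ) / (q : ℝ))) atTop
        (𝓝 (1 / (2 ^ d * ((m : ℝ) + 1) + 0))) := by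
      refine Tendsto.div tendsto_const_nhds ?_ (by rw [add_zero]; exact hpos.ne')
      exact tendsto_const_nhds.add (tendsto_const_div_atTop_nhds_zero_nat (c : ℝ))
    rw [add_zero] at h1
    refine h1.congr' ?_
    filter_upwards [eventually_ge_atTop 1] with q hq
    have hq0 : (q : ℝ) ≠ 0 := by
      have : q ≠ 0 := by omega
      exact_mod_cast this
    push_cast
    have h2 : (2 : ℝ) ^ d * (q : ℝ) * ((m : ℝ) + 1) + (c : ℝ) =
        (q : ℝ) * (2 ^ d * ((m : ℝ) + 1) + (c : ℝ) / (q : ℝ)) := by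
      field_simp
    rw [h2, div_mul_eq_div_div, div_self hq0]
  have hlim3 : Tendsto (fun q : ℕ => (d.factorial : ℝ) * (s : ℝ) *
      ((q : ℝ) / ((2 ^ d * q * (m + 1) + c : ℕ) : ℝ)) ^ d) atTop
      (𝓝 ((d.factorial : ℝ) * (s : ℝ) * (1 / (2 ^ d * ((m : ℝ) + 1))) ^ d)) :=
    tendsto_const_nhds.mul (hlim2.pow d)
  have hle : (d.factorial : ℝ) * (s : ℝ) * (1 / (2 ^ d * ((m : ℝ) + 1))) ^ d ≤ δ := by
    refine le_of_tendsto_of_tendsto hlim3 hlim1 ?_
    filter_upwards [eventually_ge_atTop 1] with q hq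
    have h1 := hgrow q hq
    have h2 : ((q : ℝ)) ^ d * (s : ℝ) ≤
        (Module.finrank Ω (secs Z (2 ^ d * q * (m + 1) + c)) : ℝ) := by exact_mod_cast h1
    simp only [Function.comp]
    rw [div_pow, mul_div_assoc', mul_assoc, mul_comm (s : ℝ) _]
    refine div_le_div_of_nonneg_right ?_ (by positivity)
    exact mul_le_mul_of_nonneg_left h2 (by positivity)
  have hδ0 : 0 ≤ δ := le_trans (by positivity) hle
  have hfac : (1 : ℝ) ≤ (d.factorial : ℝ) := by
    have h1 : 1 ≤ d.factorial := Nat.factorial_pos d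
    exact_mod_cast h1
  have h5 : (s : ℝ) ≤ 2 ^ (d ^ 2) * δ * ((m : ℝ) + 1) ^ d := by
    have h6 : (d.factorial : ℝ) * (s : ℝ) ≤ δ * (2 ^ d * ((m : ℝ) + 1)) ^ d := by
      rw [one_div, inv_pow, ← div_eq_mul_inv, div_le_iff₀ (by positivity)] at hle
      exact hle
    have h7 : (s : ℝ) ≤ (d.factorial : ℝ) * (s : ℝ) :=
      le_mul_of_one_le_left (Nat.cast_nonneg _) hfac
    refine h7.trans (h6.trans (le_of_eq ?_))
    rw [mul_pow, ← pow_mul, ← pow_two]
    ring
  refine le_trans ?_ h5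
  exact_mod_cast h0

end Pool.Agent.H11.TS
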