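import Pool.Agent.H11.TS.Gro
import Pool.Agent.H11.TH.NoeB

/-!
# THEOREM TS, Hip: the Hilbert function of a prime ideal

`hp P m`: the dimension of the polynomials of degree at most `m` in each variable modulo `P`.

`hp_growth`. PROOF: `F` = the fraction field of `R / P` (`R = MvPolynomial (Fin n) k`; a domain), `ψ : R → F`. `V = ψ(restrictDegree m)`, `B = ψ(restrictDegree 1)`; finite-dimensional
(`restr_finite` in `Pool/Agent/H11/TH/Sec.lean` or direct), `1 ∈ B`; `finrank V = hp P m` (`R / P → F` is injective and linear). `indep_coords` (`NoeB`): `I` with `d ≤ I.card` and no nonzero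
`p ∈ P` with `p.vars ⊆ I`: choose `d` of the coordinates (an injection `c : Fin d → Fin n` with values in `I`), `y_i = ψ(X (c i)) ∈ B` are algebraically independent over `k`: if
`p(y) = 0` for `p : MvPolynomial (Fin d) k` then `rename c p ∈ P` has its variables in `I`, so it is `0`, so `p = 0`. `growth`, and `V^K * B^K ≤ ψ(restrictDegree (K (m+1)))`
(products of polynomials: the degrees add). `K = 2^d q`.
-/

set_option autoImplicit false

open MvPolynomial

namespace Pool.Agent.H11.TS

/-- the Hilbert function of the ideal `P` -/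
noncomputable def hp {k : Type} [Field k] {n : ℕ} (P : Ideal (MvPolynomial (Fin n) k)) (m : ℕ) : ℕ :=
  Module.finrank k ((restrictDegree (Fin n) k m).map (Ideal.Quotient.mkₐ k P).toLinearMap)

private theorem rd_iff {k : Type} [Field k] {n : ℕ} (p : MvPolynomial (Fin n) k) (m : ℕ) :
    p ∈ restrictDegree (Fin n) k m ↔ ∀ i, p.degreeOf i ≤ m := by
  classical
  rw [mem_restrictDegree_iff_sup]
  exact forall_congr' fun i => by rw [degreeOf_def]

private theorem rd_finite {k : Type} [Field k] {n : ℕ} (m : ℕ) :
    Module.Finite k (restrictDegree (Fin n) k m) := by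
  classical
  rw [Module.Finite.iff_fg]
  refine ⟨(Fintype.piFinset (fun _ : Fin n => Finset.range (m + 1))).image
    (fun b : Fin n → ℕ => (monomial (Finsupp.equivFunOnFinite.symm b) (1 : k) : MvPolynomial (Fin n) k)), ?_⟩
  apply le_antisymm
  · rw [Submodule.span_le]
    intro p hp
    simp only [Finset.coe_image, Set.mem_image, Finset.mem_coe, Fintype.mem_piFinset,
      Finset.mem_range] at hp
    obtain ⟨b, hb, rfl⟩ := hp
    rw [SetLike.mem_coe, mem_restrictDegree]
    intro s hs i
    have hs' := support_monomial_subset hs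
    rw [Finset.mem_singleton] at hs'
    subst hs'
    have := hb i
    simp only [Finsupp.equivFunOnFinite_symm_apply_apply]
    omega
  · intro p hp
    rw [mem_restrictDegree] at hp
    rw [p.as_sum]
    refine Submodule.sum_mem _ fun s hs => ?_
    have : (monomial s (coeff s p) : MvPolynomial (Fin n) k) =
        coeff s p • monomial s (1 : k) := by
      rw [smul_monomial, smul_eq_mul, mul_one]
    rw [this]
    refine Submodule.smul_mem _ _ (Submodule.subset_span ?_)
    simp only [Finset.coe_image, Set.mem_image, Finset.mem_coe, Fintype.mem_piFinset,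
      Finset.mem_range]
    refine ⟨s, fun i => Nat.lt_succ_of_le (hp s hs i), ?_⟩
    congr 1
    ext i
    simp

private theorem rd_one {k : Type} [Field k] {n : ℕ} (m : ℕ) :
    (1 : MvPolynomial (Fin n) k) ∈ restrictDegree (Fin n) k m := by
  rw [rd_iff]
  intro i
  have h1 : (1 : MvPolynomial (Fin n) k).degreeOf i = 0 := by
    rw [← C_1, degreeOf_C]
  rw [h1]
  exact Nat.zero_le _

private theorem rd_X {k : Type} [Field k] {n : ℕ} (j : Fin n) :
    (X j : MvPolynomial (Fin n) k) ∈ restrictDegree (Fin n) k 1 := by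
  classical
  rw [rd_iff]
  intro i
  rw [degreeOf_X]
  split_ifs <;> omega

private theorem rd_mul {k : Type} [Field k] {n : ℕ} (a b : ℕ) :
    restrictDegree (Fin n) k a * restrictDegree (Fin n) k b ≤ restrictDegree (Fin n) k (a + b) := by
  rw [Submodule.mul_le]
  intro p hp q hq
  rw [rd_iff] at hp hq ⊢
  intro i
  exact (degreeOf_mul_le i p q).trans (Nat.add_le_add (hp i) (hq i))

private theorem rd_pow {k : Type} [Field k] {n : ℕ} (a K : ℕ) :
    restrictDegree (Fin n) k a ^ K ≤ restrictDegree (Fin n) k (K * a) := by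
  induction K with
  | zero =>
    rw [pow_zero, Submodule.one_le]
    exact rd_one _
  | succ K ih =>
    rw [pow_succ]
    refine (mul_le_mul' ih le_rfl).trans ((rd_mul _ _).trans (le_of_eq ?_))
    congr 1
    ring

theorem hp_growth {k : Type} [Field k] {n : ℕ} (P : Ideal (MvPolynomial (Fin n) k))
    (hP : P.IsPrime) (hP0 : P ≠ ⊥) (d : ℕ) (hd : ringKrullDim (MvPolynomial (Fin n) k ⧸ P) = d)
    (m q : ℕ) (hq : 1 ≤ q) : q ^ d * hp P m ≤ hp P (2 ^ d * q * (m + 1)) := by
  classical
  have hdom : IsDomain (MvPolynomial (Fin n) k ⧸ P) := Ideal.Quotient.isDomain P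
  obtain ⟨I, -, -, hId, hI, -⟩ := Pool.Agent.H11.TH.indep_coords P hP hP0 d hd
  let F := FractionRing (MvPolynomial (Fin n) k ⧸ P)
  let φ : (MvPolynomial (Fin n) k ⧸ P) →ₐ[k] F := IsScalarTower.toAlgHom k (MvPolynomial (Fin n) k ⧸ P) F
  have hφ : Function.Injective φ := IsFractionRing.injective (MvPolynomial (Fin n) k ⧸ P) F
  let ψ : MvPolynomial (Fin n) k →ₐ[k] F := φ.comp (Ideal.Quotient.mkₐ k P)
  have hψ0 : ∀ p, ψ p = 0 → p ∈ P := by
    intro p hp
    have h1 : φ (Ideal.Quotient.mk P p) = 0 := hp
    rw [← map_zero φ] at h1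
    exact Ideal.Quotient.eq_zero_iff_mem.1 (hφ h1)
  have hfr : ∀ N : ℕ, Module.finrank k ((restrictDegree (Fin n) k N).map ψ.toLinearMap) = hp P N := by
    intro N
    unfold hp
    have h1 : (restrictDegree (Fin n) k N).map ψ.toLinearMap =
        ((restrictDegree (Fin n) k N).map (Ideal.Quotient.mkₐ k P).toLinearMap).map φ.toLinearMap := by
      rw [← Submodule.map_comp]
      rfl
    rw [h1]
    exact (Submodule.equivMapOfInjective φ.toLinearMap hφ _).finrank_eq.symm
  have hfin : ∀ N : ℕ, Module.Finite k ((restrictDegree (Fin n) k N).map ψ.toLinearMap) := by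
    intro N
    have := rd_finite (k := k) (n := n) N
    exact Module.Finite.map _ _
  have i1 := hfin m
  have i2 := hfin 1
  let c : Fin d → Fin n := fun j => (I.equivFin.symm (Fin.castLE hId j) : Fin n)
  have hc : Function.Injective c := fun i j h =>
    Fin.castLE_injective hId (I.equivFin.symm.injective (Subtype.val_injective h))
  have hcI : ∀ j, c j ∈ I := fun j => (I.equivFin.symm (Fin.castLE hId j)).2
  have hind : AlgebraicIndependent k (fun j : Fin d => ψ (X (c j))) := by
    rw [algebraicIndependent_iff]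
    intro p hp
    have h1 : aeval (fun j : Fin d => ψ (X (c j))) p = ψ (rename c p) := by
      have h2 : (aeval (fun j : Fin d => ψ (X (c j))) : MvPolynomial (Fin d) k →ₐ[k] F) =
          ψ.comp (rename c) := by
        apply MvPolynomial.algHom_ext
        intro j
        show aeval (fun j : Fin d => ψ (X (c j))) (X j) = ψ (rename c (X j))
        rw [aeval_X, rename_X]
      rw [h2]
      rfl
    rw [h1] at hp
    have h3 : (rename c p).vars ⊆ I := by
      refine (vars_rename _ _).trans ?_
      intro i hi
      obtain ⟨j, -, rfl⟩ := Finset.mem_image.1 hi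
      exact hcI j
    have h4 := hI _ (hψ0 _ hp) h3
    exact rename_injective _ hc (h4.trans (map_zero _).symm)
  have h1 := growth d ((restrictDegree (Fin n) k m).map ψ.toLinearMap)
    ((restrictDegree (Fin n) k 1).map ψ.toLinearMap)
    ⟨1, rd_one 1, map_one ψ⟩ (fun j : Fin d => ψ (X (c j))) hind
    (fun j => ⟨X (c j), rd_X (c j), rfl⟩) q hq
  rw [hfr m] at h1
  refine h1.trans ?_
  rw [← hfr]
  have i3 := hfin (2 ^ d * q * (m + 1))
  apply Submodule.finrank_mono
  rw [← Submodule.map_pow, ← Submodule.map_pow, ← Submodule.map_mul]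
  apply Submodule.map_mono
  refine (mul_le_mul' (rd_pow m _) (rd_pow 1 _)).trans ((rd_mul _ _).trans (le_of_eq ?_))
  congr 1
  ring

end Pool.Agent.H11.TS
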