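import Pool.Agent.H11.TS.Defs

/-!
# THEOREM TS, Prd: products of vectors with leading indices

`wt W b = ∑_l b_l W^l`.
`wt_inj`: PROOF: the digits in base `W` (`b_l ≤ m < W`): induction on `n`, or `Nat.ofDigits`, or compare with
`finFunctionFinEquiv_apply` (see `phi_eq` in `Pool/Agent/H33/TR/Loc.lean`): embed `Bx n m` in `Fin n → Fin W` by `Fin.castLE`.

`prod_vec`. PROOF: `G c := ∑ over b : Fin T → Bx n m with ∀ l, c l = ∑_i b_i l, of ∏_i φ i (b i)`. The identity:
`∏_i ∑_b φ i b * mn b z = ∑_(b : Fin T → Bx n m) ∏_i φ i (b i) * mn (b i) z` (`Finset.prod_univ_sum`, `Fintype.piFinset_univ`), and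
`∏_i mn (b i) z = mn c z` for the `c` with `c l = ∑_i b_i l ≤ T m`; group the `b` by `c` (`Finset.sum_fiberwise`). `v (G c) ≤ 1`: ultrametric,
each term is a product of numbers of size `≤ 1`. For `c = w` or `wt c > wt w`: let `b` be a term of `G c`, `b ≠ u`. As
`∑_i wt (b i) = wt c ≥ wt w = ∑_i wt (u i)` (wt is additive: `wt c = ∑_i wt (b i)` when `c l = ∑_i b_i l`) and `wt` is injective on
`Bx n m` (`m < T m + 1` if `1 ≤ T`; `T = 0`: both are empty functions, `b = u`), either all `wt (b i) = wt (u i)`, so `b = u`, or some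
`wt (b i) > wt (u i)`: then `v (φ i (b i)) < 1` and the whole term has value `< 1` (the others `≤ 1`).
If `wt c > wt w` then `b ≠ u` always and `v (G c) < 1`; if `c = w` the term `b = u` has value `1` (it is in the sum by `hw`), the others
`< 1`, so `v (G w) = 1`. (`sum_lt`, `sum_le`, `hv.add_eq_max_of_ne` as in `Pool/Agent/H33/TH2/Loc.lean`.)
-/

set_option autoImplicit false

namespace Pool.Agent.H11.TS

open Pool.Agent.H33.TR

/-- the weight -/
def wt {n m : ℕ} (W : ℕ) (b : Bx n m) : ℕ := ∑ l, ((b l : Fin (m + 1)) : ℕ) * W ^ (l : ℕ)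

theorem wt_inj {n m W : ℕ} (h : m < W) : Function.Injective (wt W : Bx n m → ℕ) := by
  intro b b' hbb
  have hW : m + 1 ≤ W := h
  have key : ∀ b : Bx n m, wt W b = ((finFunctionFinEquiv (fun l => Fin.castLE hW (b l)) : Fin (W ^ n)) : ℕ) := by
    intro b
    rw [finFunctionFinEquiv_apply]
    rfl
  rw [key, key] at hbb
  have h1 := finFunctionFinEquiv.injective (Fin.ext hbb)
  funext l
  have h2 := congrFun h1 l
  apply Fin.ext
  have h3 := congrArg (fun x : Fin W => (x : ℕ)) h2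
  simpa using h3

private theorem sum_le {E : Type} [Field E] (v : AbsoluteValue E ℝ) (hv : IsNonarchimedean v) {I : Type}
    (s : Finset I) (f : I → E) (r : ℝ) (hr : 0 ≤ r) (h : ∀ i ∈ s, v (f i) ≤ r) : v (∑ i ∈ s, f i) ≤ r := by
  rcases s.eq_empty_or_nonempty with rfl | hs
  · rw [Finset.sum_empty, map_zero]
    exact hr
  · obtain ⟨i, hi, hle⟩ := hv.finset_image_add_of_nonempty f hs
    exact hle.trans (h i hi)

private theorem sum_lt {E : Type} [Field E] (v : AbsoluteValue E ℝ) (hv : IsNonarchimedean v) {I : Type}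
    (s : Finset I) (f : I → E) (h : ∀ i ∈ s, v (f i) < 1) : v (∑ i ∈ s, f i) < 1 := by
  rcases s.eq_empty_or_nonempty with rfl | hs
  · rw [Finset.sum_empty, map_zero]
    exact one_pos
  · obtain ⟨i, hi, hle⟩ := hv.finset_image_add_of_nonempty f hs
    exact lt_of_le_of_lt hle (h i hi)

/-- the sum of the exponents -/
private def sx {n m T : ℕ} (b : Fin T → Bx n m) : Bx n (T * m) := fun l =>
  ⟨∑ i, ((b i l : Fin (m + 1)) : ℕ), by
    have h1 : ∑ i, ((b i l : Fin (m + 1)) : ℕ) ≤ ∑ _i : Fin T, m :=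
      Finset.sum_le_sum fun i _ => Nat.lt_succ_iff.1 (b i l).2
    rw [Finset.sum_const, Finset.card_univ, Fintype.card_fin, smul_eq_mul] at h1
    omega⟩

private theorem sx_val {n m T : ℕ} (b : Fin T → Bx n m) (l : Fin n) :
    ((sx b l : Fin (T * m + 1)) : ℕ) = ∑ i, ((b i l : Fin (m + 1)) : ℕ) := rfl

private theorem wt_sx {n m T W : ℕ} (b : Fin T → Bx n m) : wt W (sx b) = ∑ i, wt W (b i) := by
  unfold wt
  rw [Finset.sum_comm]
  refine Finset.sum_congr rfl fun l _ => ?_
  rw [sx_val, Finset.sum_mul]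

private theorem mn_sx {E : Type} [Field E] {n m T : ℕ} (b : Fin T → Bx n m) (z : Fin n → E) :
    mn (sx b) z = ∏ i, mn (b i) z := by
  unfold mn
  rw [Finset.prod_comm]
  refine Finset.prod_congr rfl fun l _ => ?_
  rw [sx_val, Finset.prod_pow_eq_pow_sum]

theorem prod_vec {E : Type} [Field E] (v : AbsoluteValue E ℝ) (hv : IsNonarchimedean v)
    {n m T : ℕ} (φ : Fin T → Bx n m → E) (u : Fin T → Bx n m) (h1 : ∀ i b, v (φ i b) ≤ 1)
    (h2 : ∀ i, v (φ i (u i)) = 1)
    (h3 : ∀ i b, wt (T * m + 1) (u i) < wt (T * m + 1) b → v (φ i b) < 1)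
    (w : Bx n (T * m)) (hw : ∀ l, ((w l : Fin (T * m + 1)) : ℕ) = ∑ i, ((u i l : Fin (m + 1)) : ℕ)) :
    ∃ G : Bx n (T * m) → E,
      (∀ z : Fin n → E, ∑ c, G c * mn c z = ∏ i, ∑ b, φ i b * mn b z) ∧ (∀ c, v (G c) ≤ 1) ∧
      v (G w) = 1 ∧ ∀ c, wt (T * m + 1) w < wt (T * m + 1) c → v (G c) < 1 := by
  classical
  have huw : sx u = w := by
    funext l
    apply Fin.ext
    rw [sx_val, hw]
  have hle1 : ∀ b : Fin T → Bx n m, v (∏ i, φ i (b i)) ≤ 1 := by
    intro b
    rw [map_prod]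
    exact Finset.prod_le_one (fun i _ => v.nonneg _) fun i _ => h1 _ _
  have hlt1 : ∀ b : Fin T → Bx n m, b ≠ u → wt (T * m + 1) w ≤ wt (T * m + 1) (sx b) → v (∏ i, φ i (b i)) < 1 := by
    intro b hb hwt
    have hex : ∃ i, wt (T * m + 1) (u i) < wt (T * m + 1) (b i) := by
      by_contra hcon
      push Not at hcon
      apply hb
      rw [← huw, wt_sx, wt_sx] at hwt
      have heq : ∑ i, wt (T * m + 1) (b i) = ∑ i, wt (T * m + 1) (u i) :=
        le_antisymm (Finset.sum_le_sum fun i _ => hcon i) hwt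
      have h4 := (Finset.sum_eq_sum_iff_of_le fun i _ => hcon i).1 heq
      funext i
      have hT : 1 ≤ T := by
        have := i.2
        omega
      have hm : m < T * m + 1 := by
        have : 1 * m ≤ T * m := Nat.mul_le_mul_right _ hT
        omega
      exact wt_inj hm (h4 i (Finset.mem_univ _))
    obtain ⟨i, hi⟩ := hex
    rw [map_prod, ← Finset.mul_prod_erase Finset.univ _ (Finset.mem_univ i)]
    calc v (φ i (b i)) * ∏ x ∈ Finset.univ.erase i, v (φ x (b x)) ≤ v (φ i (b i)) * 1 := by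
          refine mul_le_mul_of_nonneg_left ?_ (v.nonneg _)
          exact Finset.prod_le_one (fun i _ => v.nonneg _) fun i _ => h1 _ _
      _ < 1 := by
          rw [mul_one]
          exact h3 _ _ hi
  refine ⟨fun c => ∑ b with sx b = c, ∏ i, φ i (b i), ?_, ?_, ?_, ?_⟩
  · intro z
    rw [Finset.prod_univ_sum, Fintype.piFinset_univ]
    rw [← Finset.sum_fiberwise Finset.univ (sx (n := n) (m := m) (T := T))]
    refine Finset.sum_congr rfl fun c _ => ?_
    rw [Finset.sum_mul]
    refine Finset.sum_congr rfl fun b hb => ?_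
    rw [← (Finset.mem_filter.1 hb).2, mn_sx, Finset.prod_mul_distrib]
  · intro c
    exact sum_le v hv _ _ 1 zero_le_one fun b _ => hle1 b
  · have hmem : u ∈ Finset.univ.filter fun b : Fin T → Bx n m => sx b = w :=
      Finset.mem_filter.2 ⟨Finset.mem_univ _, huw⟩
    show v (∑ b with sx b = w, ∏ i, φ i (b i)) = 1
    rw [← Finset.add_sum_erase _ _ hmem]
    have e1 : v (∏ i, φ i (u i)) = 1 := by
      rw [map_prod]
      exact Finset.prod_eq_one fun i _ => h2 i
    have e2 : v (∑ b ∈ (Finset.univ.filter fun b : Fin T → Bx n m => sx b = w).erase u, ∏ i, φ i (b i)) < 1 := by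
      refine sum_lt v hv _ _ fun b hb => ?_
      obtain ⟨hne, hb⟩ := Finset.mem_erase.1 hb
      refine hlt1 b hne ?_
      rw [(Finset.mem_filter.1 hb).2]
    have h5 := hv.add_eq_max_of_ne (x := ∏ i, φ i (u i))
      (y := ∑ b ∈ (Finset.univ.filter fun b : Fin T → Bx n m => sx b = w).erase u, ∏ i, φ i (b i))
      (by rw [e1]; exact e2.ne')
    rw [h5, e1, max_eq_left e2.le]
  · intro c hc
    refine sum_lt v hv _ _ fun b hb => ?_
    have hbc := (Finset.mem_filter.1 hb).2
    refine hlt1 b ?_ (by rw [hbc]; exact hc.le)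
    rintro rfl
    rw [← hbc, huw] at hc
    exact lt_irrefl _ hc

end Pool.Agent.H11.TS
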