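import Pool.Agent.H11.TS.Defs

/-!
# THEOREM TS, Sms: T-fold sums in a box

`sumset`. PROOF: `dec w i` has coordinates `(w l + i) / T` (natural division), `i < T`; it is `≤ m` since
`w l + i ≤ T m + T - 1`. Hermite: `∑_(i < T) (a + i) / T = a` (induction on `a`: from `a` to `a + 1` exactly one summand changes, by `1`;
or write `a = T q + r`, the summands with `i ≥ T - r` are `q + 1`, the others `q`). `W` := all `w` with `dec w i ∈ S` for all `i`.
The complement of `W`: for some `i < T` and some `b ∉ S`: `dec w i = b`, so for every `l` the number `w l` is one of the `T` numbers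
`T b_l - i, .., T b_l - i + T - 1` (in `ℤ`): for given `(i, b)` at most `T ^ n` such `w` (inject `w` to `fun l => w l + i - T b_l : Fin T`).
Hence `card (univ \ W) ≤ T * ((m+1)^n - S.card) * T^n` (`Finset.card_biUnion_le`), `card univ = (T m + 1)^n`.
-/

set_option autoImplicit false

namespace Pool.Agent.H11.TS

open Pool.Agent.H33.TR

private theorem hermite (T : ℕ) (hT : 1 ≤ T) (a : ℕ) : ∑ i ∈ Finset.range T, (a + i) / T = a := by
  induction a with
  | zero =>
    refine Finset.sum_eq_zero fun i hi => ?_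
    rw [Nat.zero_add]
    exact Nat.div_eq_of_lt (Finset.mem_range.1 hi)
  | succ a ih =>
    have h1 := Finset.sum_range_succ (fun i => (a + i) / T) T
    have h2 := Finset.sum_range_succ' (fun i => (a + i) / T) T
    have h3 : (a + T) / T = a / T + 1 := Nat.add_div_right a hT
    have h4 : ∑ i ∈ Finset.range T, (a + 1 + i) / T = ∑ i ∈ Finset.range T, (a + (i + 1)) / T :=
      Finset.sum_congr rfl fun i _ => by rw [show a + 1 + i = a + (i + 1) by omega]
    rw [h4]
    simp only [Nat.add_zero] at h2
    rw [h1, ih, h3] at h2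
    omega

theorem sumset (n m T : ℕ) (hT : 1 ≤ T) (S : Finset (Bx n m)) :
    ∃ (W : Finset (Bx n (T * m))) (dec : Bx n (T * m) → Fin T → Bx n m),
      (T * m + 1) ^ n ≤ W.card + T ^ (n + 1) * ((m + 1) ^ n - S.card) ∧
      ∀ w ∈ W, (∀ i, dec w i ∈ S) ∧
        ∀ l, ((w l : Fin (T * m + 1)) : ℕ) = ∑ i, ((dec w i l : Fin (m + 1)) : ℕ) := by
  classical
  have hb : ∀ (w : Bx n (T * m)) (i : Fin T) (l : Fin n), ((w l : ℕ) + (i : ℕ)) / T < m + 1 := by
    intro w i l
    have h1 := (w l).isLt
    have h2 := i.isLt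
    rw [Nat.div_lt_iff_lt_mul hT, Nat.add_mul, Nat.one_mul, Nat.mul_comm m T]
    omega
  let dec : Bx n (T * m) → Fin T → Bx n m := fun w i l => ⟨((w l : ℕ) + (i : ℕ)) / T, hb w i l⟩
  have hdec : ∀ w i l, ((dec w i l : Fin (m + 1)) : ℕ) = ((w l : ℕ) + (i : ℕ)) / T := fun _ _ _ => rfl
  refine ⟨Finset.univ.filter fun w => ∀ i, dec w i ∈ S, dec, ?_, ?_⟩
  · have hsub : (Finset.univ.filter fun w => ¬ ∀ i, dec w i ∈ S) ⊆
        ((Finset.univ : Finset (Fin T)) ×ˢ Sᶜ).biUnion fun q => Finset.univ.filter fun w => dec w q.1 = q.2 := by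
      intro w hw
      rw [Finset.mem_filter, not_forall] at hw
      obtain ⟨_, i, hi⟩ := hw
      rw [Finset.mem_biUnion]
      refine ⟨(i, dec w i), ?_, ?_⟩
      · rw [Finset.mem_product]
        exact ⟨Finset.mem_univ _, Finset.mem_compl.2 hi⟩
      · rw [Finset.mem_filter]
        exact ⟨Finset.mem_univ _, rfl⟩
    have hone : ∀ q ∈ ((Finset.univ : Finset (Fin T)) ×ˢ Sᶜ),
        (Finset.univ.filter fun w : Bx n (T * m) => dec w q.1 = q.2).card ≤ T ^ n := by
      intro q _
      have h1 : (Finset.univ.filter fun w : Bx n (T * m) => dec w q.1 = q.2).card ≤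
          (Finset.univ : Finset (Fin n → Fin T)).card := by
        refine Finset.card_le_card_of_injOn (fun w l => ⟨((w l : ℕ) + (q.1 : ℕ)) % T, Nat.mod_lt _ hT⟩)
          (fun w _ => Finset.mem_coe.2 (Finset.mem_univ _)) ?_
        intro w hw w' hw' hww
        rw [Finset.mem_coe, Finset.mem_filter] at hw hw'
        funext l
        have e1 : ((w l : ℕ) + (q.1 : ℕ)) / T = ((w' l : ℕ) + (q.1 : ℕ)) / T := by
          have := congrArg (fun f : Bx n m => ((f l : Fin (m + 1)) : ℕ)) (hw.2.trans hw'.2.symm)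
          simpa only [hdec] using this
        have e2 : ((w l : ℕ) + (q.1 : ℕ)) % T = ((w' l : ℕ) + (q.1 : ℕ)) % T := by
          have := congrArg (fun f : Fin n → Fin T => ((f l : Fin T) : ℕ)) hww
          simpa only using this
        apply Fin.ext
        have d1 := Nat.div_add_mod ((w l : ℕ) + (q.1 : ℕ)) T
        have d2 := Nat.div_add_mod ((w' l : ℕ) + (q.1 : ℕ)) T
        rw [e1, e2] at d1
        omega
      refine h1.trans (le_of_eq ?_)
      rw [Finset.card_univ, Fintype.card_fun, Fintype.card_fin, Fintype.card_fin]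
    have hcard : (Finset.univ.filter fun w => ¬ ∀ i, dec w i ∈ S).card ≤ T ^ (n + 1) * ((m + 1) ^ n - S.card) := by
      refine (Finset.card_le_card hsub).trans ?_
      refine (Finset.card_biUnion_le_card_mul _ _ _ hone).trans ?_
      rw [Finset.card_product, Finset.card_univ, Fintype.card_fin, Finset.card_compl]
      have h2 : Fintype.card (Bx n m) = (m + 1) ^ n := by
        rw [Fintype.card_fun, Fintype.card_fin, Fintype.card_fin]
      rw [h2, pow_succ]
      apply le_of_eq
      ring
    have htot := Finset.card_filter_add_card_filter_not (s := (Finset.univ : Finset (Bx n (T * m))))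
      (fun w => ∀ i, dec w i ∈ S)
    have h3 : (Finset.univ : Finset (Bx n (T * m))).card = (T * m + 1) ^ n := by
      rw [Finset.card_univ, Fintype.card_fun, Fintype.card_fin, Fintype.card_fin]
    rw [h3] at htot
    omega
  · intro w hw
    refine ⟨(Finset.mem_filter.1 hw).2, fun l => ?_⟩
    simp only [hdec]
    rw [Fin.sum_univ_eq_sum_range (fun i => ((w l : ℕ) + i) / T) T]
    exact (hermite T hT (w l : ℕ)).symm

end Pool.Agent.H11.TS
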