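import Pool.Agent.H11.TS.Ech
import Pool.Agent.H11.TS.Sms
import Pool.Agent.H11.TS.Prd

/-!
# THEOREM TS, LocG: the local inequality for minors, general form

`loc_minor_gen`: at a nonarchimedean absolute value `v`, `R` a space of vectors on the box `{0..m}^n` of codimension at most `h`, `z_1, .., z_r` points with
`v (∑_b f_b^e z_i^b) ≤ ε ∏_l max(1, |z_il|)^m` for all `f ∈ R` with coordinates of size at most `1` (`e ≥ 1` a fixed exponent: `e = 1` for Frobenius rows, `e = p` for `p`-th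
powers), `0 ≤ ε ≤ 1`, `C_1, .., C_r ∈ {0..Tm}^n` distinct: `v (det (z_i^(C_j))) ≤ ε^(T (r - T^(n+1) h)) ∏ H(z_i)^(T m)`. Same proof as `loc_minor` (LocR).
-/

set_option autoImplicit false

namespace Pool.Agent.H11.TS

open Pool.Agent.H33.TR

private theorem mn_le {E : Type} [Field E] (v : AbsoluteValue E ℝ) {k M : ℕ} (m : Bx k M)
    (y : Fin k → E) : v (mn m y) ≤ ∏ l, (max 1 (v (y l))) ^ M := by
  unfold mn
  rw [map_prod]
  refine Finset.prod_le_prod (fun l _ => v.nonneg _) fun l _ => ?_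
  rw [map_pow]
  calc v (y l) ^ (m l : ℕ) ≤ (max 1 (v (y l))) ^ (m l : ℕ) :=
        pow_le_pow_left₀ (v.nonneg _) (le_max_right _ _) _
    _ ≤ (max 1 (v (y l))) ^ M :=
        pow_le_pow_right₀ (le_max_left _ _) (by have := (m l).2; omega)

private theorem bd_nonneg {E : Type} [Field E] (v : AbsoluteValue E ℝ) {k : ℕ} (M : ℕ)
    (y : Fin k → E) : 0 ≤ ∏ l, (max 1 (v (y l))) ^ M :=
  Finset.prod_nonneg fun _ _ => pow_nonneg (zero_le_one.trans (le_max_left _ _)) _

private theorem stp {E : Type} [Field E] (v : AbsoluteValue E ℝ) (hv : IsNonarchimedean v)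
    {n m T r h e : ℕ} (hT : 1 ≤ T) (he : e ≠ 0) (ε : ℝ) (R : Submodule E (Bx n m → E))
    (hR : (m + 1) ^ n ≤ Module.finrank E R + h) (z : Fin r → Fin n → E)
    (hz : ∀ f ∈ R, (∀ b, v (f b) ≤ 1) → ∀ i,
      v (∑ b, f b ^ e * mn b (z i)) ≤ ε * ∏ l, (max 1 (v (z i l))) ^ m) :
    ∃ (W : Finset (Bx n (T * m))) (G : Bx n (T * m) → Bx n (T * m) → E),
      (T * m + 1) ^ n ≤ W.card + T ^ (n + 1) * h ∧
      (∀ w ∈ W, v (G w w) = 1 ∧ (∀ b, v (G w b) ≤ 1) ∧
        ∀ b, wt (T * m + 1) w < wt (T * m + 1) b → v (G w b) < 1) ∧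
      ∀ w ∈ W, ∀ i, v (∑ b, G w b * mn b (z i)) ≤
        ε ^ T * ∏ l, (max 1 (v (z i l))) ^ (T * m) := by
  classical
  have hm : m < T * m + 1 := by nlinarith
  obtain ⟨S, f, hS, hf⟩ := echelon v (wt (T * m + 1) : Bx n m → ℕ) (wt_inj hm) R
  obtain ⟨W, dec, hW, hdec⟩ := sumset n m T hT S
  have hex : ∀ w, ∃ G : Bx n (T * m) → E, w ∈ W →
      (∀ z : Fin n → E, ∑ b, G b * mn b z = ∏ i, ∑ b, f (dec w i) b ^ e * mn b z) ∧
      (∀ b, v (G b) ≤ 1) ∧ v (G w) = 1 ∧ ∀ b, wt (T * m + 1) w < wt (T * m + 1) b → v (G b) < 1 := by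
    intro w
    by_cases hw : w ∈ W
    · obtain ⟨h1, h2⟩ := hdec w hw
      obtain ⟨G, hG⟩ := prod_vec v hv (fun i b => f (dec w i) b ^ e) (dec w)
        (fun i b => by
          rw [map_pow]
          exact pow_le_one₀ (v.nonneg _) ((hf _ (h1 i)).2.2.1 b))
        (fun i => by
          rw [map_pow, (hf _ (h1 i)).2.1, one_pow])
        (fun i b hb => by
          rw [map_pow]
          exact pow_lt_one₀ (v.nonneg _) ((hf _ (h1 i)).2.2.2 b hb) he) w h2
      exact ⟨G, fun _ => hG⟩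
    · exact ⟨0, fun h => absurd h hw⟩
  choose G hG using hex
  refine ⟨W, G, ?_, ?_, ?_⟩
  · have h1 : (m + 1) ^ n - S.card ≤ h := by omega
    have h2 := Nat.mul_le_mul_left (T ^ (n + 1)) h1
    omega
  · intro w hw
    obtain ⟨-, h2, h3, h4⟩ := hG w hw
    exact ⟨h3, h2, h4⟩
  · intro w hw i
    obtain ⟨h1, -, -, -⟩ := hG w hw
    rw [h1, map_prod]
    have h2 : ∀ t : Fin T, v (∑ b, f (dec w t) b ^ e * mn b (z i)) ≤
        ε * ∏ l, (max 1 (v (z i l))) ^ m := by
      intro t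
      obtain ⟨h3, -⟩ := hdec w hw
      obtain ⟨h4, -, h5, -⟩ := hf _ (h3 t)
      exact hz _ h4 h5 i
    refine (Finset.prod_le_prod (fun t _ => v.nonneg _) fun t _ => h2 t).trans (le_of_eq ?_)
    rw [Finset.prod_const, Finset.card_univ, Fintype.card_fin, mul_pow, ← Finset.prod_pow]
    congr 1
    refine Finset.prod_congr rfl fun l _ => ?_
    rw [← pow_mul]
    congr 1
    ring

private theorem stq {E : Type} [Field E] (v : AbsoluteValue E ℝ) (hv : IsNonarchimedean v)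
    {n M r D : ℕ} (W : Finset (Bx n M)) (G : Bx n M → Bx n M → E) (hW : (M + 1) ^ n ≤ W.card + D)
    (hG : ∀ w ∈ W, v (G w w) = 1 ∧ (∀ b, v (G w b) ≤ 1) ∧
      ∀ b, wt (M + 1) w < wt (M + 1) b → v (G w b) < 1)
    (C : Fin r → Bx n M) (hC : Function.Injective C) :
    ∃ (U : Finset (Bx n M)) (q lam : Bx n M → Bx n M → E), r ≤ U.card + D ∧
      ∀ u ∈ U, (v (q u u) = 1 ∧ (∀ b, v (q u b) ≤ 1) ∧
        ∀ b, wt (M + 1) u < wt (M + 1) b → v (q u b) < 1) ∧
      (∀ b, (∀ i, C i ≠ b) → q u b = 0) ∧ (∀ w ∈ W, v (lam u w) ≤ 1) ∧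
      ∀ b, q u b = ∑ w ∈ W, lam u w * G w b := by
  classical
  have hinj : Function.Injective (wt (M + 1) : Bx n M → ℕ) := wt_inj (Nat.lt_succ_self M)
  have hli := ortho_li v hv (wt (M + 1) : Bx n M → ℕ) hinj W G hG
  obtain ⟨Λ, hΛ⟩ : ∃ Λ : (W → E) →ₗ[E] (Bx n M → E), Λ = Fintype.linearCombination E (fun w : W => G w) :=
    ⟨_, rfl⟩
  have hΛi : Function.Injective Λ := by
    rw [hΛ]
    exact linearIndependent_iff_injective_fintypeLinearCombination.1 hli
  have hΛa : ∀ x b, Λ x b = ∑ w : W, x w * G w b := by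
    intro x b
    rw [hΛ, Fintype.linearCombination_apply, Finset.sum_apply]
    exact Finset.sum_congr rfl fun w _ => by rw [Pi.smul_apply, smul_eq_mul]
  obtain ⟨C', hC'⟩ : ∃ C' : Finset (Bx n M), C' = Finset.univ.image C := ⟨_, rfl⟩
  have hC'c : C'.card = r := by
    rw [hC', Finset.card_image_of_injective _ hC, Finset.card_univ, Fintype.card_fin]
  obtain ⟨ψ, hψ⟩ : ∃ ψ : (Bx n M → E) →ₗ[E] ((C'ᶜ : Finset (Bx n M)) → E), ∀ x b, ψ x b = x b :=
    ⟨LinearMap.funLeft E E (fun b : (C'ᶜ : Finset (Bx n M)) => (b : Bx n M)), fun x b => rfl⟩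
  have hK : r ≤ Module.finrank E (Submodule.map Λ (LinearMap.ker (ψ ∘ₗ Λ))) + D := by
    have h1 : Module.finrank E (Submodule.map Λ (LinearMap.ker (ψ ∘ₗ Λ))) =
        Module.finrank E (LinearMap.ker (ψ ∘ₗ Λ)) :=
      (LinearEquiv.finrank_eq (Submodule.equivMapOfInjective Λ hΛi (LinearMap.ker (ψ ∘ₗ Λ)))).symm
    have h2 := LinearMap.finrank_range_add_finrank_ker (ψ ∘ₗ Λ)
    have h3 : Module.finrank E (LinearMap.range (ψ ∘ₗ Λ)) ≤ (C'ᶜ).card := by
      refine (Submodule.finrank_le _).trans (le_of_eq ?_)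
      rw [Module.finrank_fintype_fun_eq_card, Fintype.card_coe]
    have h4 : Module.finrank E (W → E) = W.card := by
      rw [Module.finrank_fintype_fun_eq_card, Fintype.card_coe]
    have h5 : C'.card + (C'ᶜ).card = (M + 1) ^ n := by
      rw [Finset.card_add_card_compl, Fintype.card_fun, Fintype.card_fin, Fintype.card_fin]
    omega
  obtain ⟨U, q, hU, hq⟩ := echelon v (wt (M + 1) : Bx n M → ℕ) hinj
    (Submodule.map Λ (LinearMap.ker (ψ ∘ₗ Λ)))
  have hex : ∀ u, ∃ x : Bx n M → E, u ∈ U → (∀ b, (∀ i, C i ≠ b) → q u b = 0) ∧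
      ∀ b, q u b = ∑ w ∈ W, x w * G w b := by
    intro u
    by_cases hu : u ∈ U
    · obtain ⟨x, hx, hxq⟩ := Submodule.mem_map.1 (hq u hu).1
      refine ⟨fun w => if h : w ∈ W then x ⟨w, h⟩ else 0, fun _ => ⟨?_, ?_⟩⟩
      · intro b hb
        have hb' : b ∈ (C'ᶜ : Finset (Bx n M)) := by
          rw [Finset.mem_compl, hC', Finset.mem_image]
          rintro ⟨i, -, hi⟩
          exact hb i hi
        have h1 := congrFun (LinearMap.mem_ker.1 hx) ⟨b, hb'⟩
        rw [LinearMap.comp_apply, hψ, hxq] at h1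
        exact h1
      · intro b
        rw [← hxq, hΛa, ← Finset.sum_coe_sort W]
        refine Finset.sum_congr rfl fun w _ => ?_
        change x w * G w b = (if h : (w : Bx n M) ∈ W then x ⟨w, h⟩ else 0) * G w b
        rw [dif_pos w.2]
    · exact ⟨0, fun h => absurd h hu⟩
  choose lam hlam using hex
  refine ⟨U, q, lam, by omega, fun u hu => ?_⟩
  obtain ⟨-, h1, h2, h3⟩ := hq u hu
  obtain ⟨h4, h5⟩ := hlam u hu
  refine ⟨⟨h1, h2, h3⟩, h4, ?_, h5⟩
  refine ortho v hv (wt (M + 1) : Bx n M → ℕ) hinj W G hG (lam u) fun b => ?_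
  rw [← h5]
  exact h2 b

theorem loc_minor_gen {E : Type} [Field E] (v : AbsoluteValue E ℝ) (hv : IsNonarchimedean v)
    {n m T r h e : ℕ} (hT : 1 ≤ T) (he : e ≠ 0) (ε : ℝ) (hε0 : 0 ≤ ε) (hvp : ε ≤ 1)
    (R : Submodule E (Bx n m → E)) (hR : (m + 1) ^ n ≤ Module.finrank E R + h)
    (z : Fin r → Fin n → E)
    (hz : ∀ f ∈ R, (∀ b, v (f b) ≤ 1) → ∀ i,
      v (∑ b, f b ^ e * mn b (z i)) ≤ ε * ∏ l, (max 1 (v (z i l))) ^ m)
    (C : Fin r → Bx n (T * m)) (hC : Function.Injective C) :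
    v (Matrix.det (Matrix.of fun i j : Fin r => mn (C j) (z i))) ≤
      ε ^ (T * (r - T ^ (n + 1) * h)) * ∏ i, ∏ l, (max 1 (v (z i l))) ^ (T * m) := by
  classical
  obtain ⟨W, G, hW, hG, hWv⟩ := stp v hv hT he ε R hR z hz
  obtain ⟨U, q, lam, hU, hUq⟩ := stq v hv W G hW hG C hC
  have hval : ∀ u ∈ U, ∀ i, v (∑ b, q u b * mn b (z i)) ≤
      ε ^ T * ∏ l, (max 1 (v (z i l))) ^ (T * m) := by
    intro u hu i
    obtain ⟨-, -, h3, h4⟩ := hUq u hu
    have h5 : ∑ b, q u b * mn b (z i) =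
        ∑ w ∈ W, lam u w * ∑ b, G w b * mn b (z i) := by
      calc ∑ b, q u b * mn b (z i)
          = ∑ b, ∑ w ∈ W, lam u w * (G w b * mn b (z i)) := by
            refine Finset.sum_congr rfl fun b _ => ?_
            rw [h4, Finset.sum_mul]
            exact Finset.sum_congr rfl fun w _ => by ring
        _ = ∑ w ∈ W, ∑ b, lam u w * (G w b * mn b (z i)) := Finset.sum_comm
        _ = _ := by
            refine Finset.sum_congr rfl fun w _ => ?_
            rw [Finset.mul_sum]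
    rw [h5]
    have hB : 0 ≤ ε ^ T * ∏ l, (max 1 (v (z i l))) ^ (T * m) :=
      mul_nonneg (pow_nonneg hε0 _) (bd_nonneg v _ (z i))
    rcases W.eq_empty_or_nonempty with h | h
    · rw [h, Finset.sum_empty, map_zero]
      exact hB
    · obtain ⟨w, hw, hle⟩ := hv.finset_image_add_of_nonempty
        (fun w => lam u w * ∑ b, G w b * mn b (z i)) h
      refine hle.trans ?_
      rw [map_mul]
      calc v (lam u w) * v (∑ b, G w b * mn b (z i))
          ≤ 1 * (ε ^ T * ∏ l, (max 1 (v (z i l))) ^ (T * m)) :=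
            mul_le_mul (h3 w hw) (hWv w hw i) (v.nonneg _) zero_le_one
        _ = _ := one_mul _
  -- the matrix of the column operations
  obtain ⟨P, hP⟩ : ∃ P : Matrix (Fin r) (Fin r) E, P = Matrix.of fun i' i =>
      if C i ∈ U then q (C i) (C i') else if i' = i then 1 else 0 := ⟨_, rfl⟩
  have hP1 : ∀ i j, v (P i j) ≤ 1 := by
    intro i j
    rw [hP, Matrix.of_apply]
    split_ifs with h1 h2
    · exact (hUq _ h1).1.2.1 _
    · rw [map_one]
    · rw [map_zero]
      exact zero_le_one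
  have hPdet : v P.det = 1 := by
    refine unimod v hv (fun i => wt (T * m + 1) (C i))
      (fun i j h => hC (wt_inj (Nat.lt_succ_self (T * m)) h)) P hP1 ?_ ?_
    · intro j
      rw [hP, Matrix.of_apply]
      by_cases h1 : C j ∈ U
      · rw [if_pos h1]
        exact (hUq _ h1).1.1
      · rw [if_neg h1, if_pos rfl]
        exact map_one v
    · intro i j hij
      rw [hP, Matrix.of_apply]
      split_ifs with h1 h2
      · exact (hUq _ h1).1.2.2 _ hij
      · exfalso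
        rw [h2] at hij
        exact lt_irrefl _ hij
      · rw [map_zero]
        exact one_pos
  obtain ⟨Y, hY⟩ : ∃ Y : Matrix (Fin r) (Fin r) E, Y = Matrix.of fun i j : Fin r => mn (C j) (z i) :=
    ⟨_, rfl⟩
  obtain ⟨H, hH⟩ : ∃ H : Fin r → ℝ, H = fun i => ∏ l, (max 1 (v (z i l))) ^ (T * m) := ⟨_, rfl⟩
  obtain ⟨J, hJ⟩ : ∃ J : Finset (Fin r), J = Finset.univ.filter (fun i => C i ∈ U) := ⟨_, rfl⟩
  have hJc : U.card ≤ J.card := by
    have h1 : U ⊆ J.image C := by
      intro u hu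
      have h2 : ∃ i, C i = u := by
        by_contra hcon
        push Not at hcon
        obtain ⟨⟨h3, -⟩, h4, -⟩ := hUq u hu
        rw [h4 u hcon, map_zero] at h3
        exact zero_ne_one h3
      obtain ⟨i, rfl⟩ := h2
      refine Finset.mem_image_of_mem _ ?_
      rw [hJ, Finset.mem_filter]
      exact ⟨Finset.mem_univ _, hu⟩
    exact (Finset.card_le_card h1).trans Finset.card_image_le
  have hYH : ∀ i j, v (Y i j) ≤ H i := by
    intro i j
    rw [hY, Matrix.of_apply, hH]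
    exact mn_le v _ _
  have hdet : v Y.det = v (Y * P).det := by
    rw [Matrix.det_mul, map_mul, hPdet, mul_one]
  have hgoal := det_le v hv (Y * P) H (ε ^ T) J ?_ ?_
  · rw [← hY, hdet]
    refine hgoal.trans ?_
    rw [hH]
    refine mul_le_mul_of_nonneg_right ?_ (Finset.prod_nonneg fun i _ => bd_nonneg v _ (z i))
    rw [← pow_mul]
    refine pow_le_pow_of_le_one hε0 hvp ?_
    refine Nat.mul_le_mul_left T ?_
    omega
  · -- all entries
    intro i j
    rw [Matrix.mul_apply]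
    obtain ⟨j', -, hle⟩ := hv.finset_image_add_of_nonempty
      (fun j' : Fin r => Y i j' * P j' j) ⟨j, Finset.mem_univ j⟩
    refine hle.trans ?_
    rw [map_mul]
    calc v (Y i j') * v (P j' j) ≤ H i * 1 :=
          mul_le_mul (hYH i j') (hP1 _ _) (v.nonneg _) ((v.nonneg _).trans (hYH i j'))
      _ = H i := mul_one _
  · -- the entries of the new columns
    intro i j hj
    rw [hJ, Finset.mem_filter] at hj
    have hjU := hj.2
    rw [Matrix.mul_apply]
    have h1 : ∑ j' : Fin r, Y i j' * P j' j = ∑ b, q (C j) b * mn b (z i) := by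
      refine Finset.sum_of_injOn C (fun a _ b _ h => hC h) (fun a _ => Finset.mem_coe.2 (Finset.mem_univ _))
        ?_ ?_
      · intro b _ hb
        have h2 : q (C j) b = 0 := by
          refine (hUq _ hjU).2.1 b fun i' hi' => hb ?_
          exact ⟨i', Finset.mem_coe.2 (Finset.mem_univ _), hi'⟩
        rw [h2, zero_mul]
      · intro j' _
        rw [hP, Matrix.of_apply, if_pos hjU, hY, Matrix.of_apply, mul_comm]
    rw [h1, hH]
    exact hval _ hjU i

end Pool.Agent.H11.TS
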