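import Pool.Agent.H11.TS.Ech
import Pool.Agent.H11.TS.Sms
import Pool.Agent.H11.TS.Prd

/-!
# THEOREM TS, LocR: the local inequality for minors

`loc_minor`: at a nonarchimedean absolute value `v`, all `y_i` satisfy the relations `y^b = ∑_(j ∈ I) c_(b,j) y^j`, `b ∉ I`, of degree `m`,
`C_1, .., C_r ∈ {0..Tm}^n` distinct: `v (det (y_i^(p C_j))) ≤ v(p)^(T (r - T^(n+1) |I|)) ∏ H(y_i)^(p T m)`.

PROOF (`M = T m`, `Φ = wt (M + 1)`, injective on both boxes, all sums ultrametric):
1. `R` := span of the vectors `R_b = single b 1 - ∑_(j ∈ I) c b j • single j 1`, `b ∉ I`, in `Bx n m → E`; they are independent (coordinate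
   `b`), so `(m+1)^n - I.card ≤ finrank R`. Every `f ∈ R` satisfies `∑_b f b * mn b (y i) = 0` for all `i`.
2. `echelon` for `R`, `Φ`: `S`, `f`. `sumset` for `S`: `W`, `dec`, `M'+1 := (M+1)^n ≤ W.card + T^(n+1) I.card` (as
   `(m+1)^n - S.card ≤ I.card`). For `w ∈ W`: `prod_vec` with `φ i b = f (dec w i) b ^ p`, `u i = dec w i` (`v (x^p) = v(x)^p`): `G w`, and
   `v (∑_c G w c * mn c (z)) ≤ (v p)^T * ∏_l max 1 (v (y_l))^(p M)` for `z = y_i^p` (coordinatewise), because each factor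
   `∑_b f b ^ p * mn b (y^p) = ∑_b (f b * mn b y)^p` has value `≤ v p * (∏_l max 1 (v y_l)^m)^p`: `Pool.Agent.H92.SR.loc_pow`,
   exactly as at the end of `loc_T` in `Pool/Agent/H33/TH2/Loc.lean` (copy that part; `p ≠ 2` is used there).
3. `span (G w, w ∈ W)` has dimension `W.card` (`ortho_li`); intersect with `E^C` = the vectors supported on the set
   `C' := image of C` (dimension `r`): the intersection `Q` has dimension `≥ W.card + r - (M+1)^n ≥ r - T^(n+1) I.card` (natural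
   subtraction; `Submodule.finrank_sup_add_finrank_inf_eq`). `echelon` for `Q`: `U`, `q u`, `u ∈ U`. Each `u ∈ U` lies in `C'` (as `q u u ≠ 0`).
4. `q u = ∑_(w ∈ W) lam w • G w` with `v (q u b) ≤ 1`, so `v (lam w) ≤ 1` (`ortho`) and
   `v (∑_c q u c * mn c (y_i)^p) ≤ (v p)^T * ∏_l max 1 (v (y_i l))^(p M)`.
5. `P : Matrix (Fin r) (Fin r) E`, `P i' i = q (C i) (C i')` if `C i ∈ U`, else `1` or `0`: `unimod` (in H33/TR/Loc, with
   `Φ ∘ C`, injective) gives `v P.det = 1`. `Y = of (mn (C j) (y i) ^ p)`, the columns `i` with `C i ∈ U` of `Y * P` are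
   `∑_c q (C i) c * mn c (y)^p` (supported on `C'`), all entries of `Y * P` are `≤ ∏ max 1 ..^(pM)` (as the entries of `P` are `≤ 1`):
   `det_le` (H33/TR/Loc) with `q = (v p)^T`, `T = {i | C i ∈ U}` of cardinality `U.card ≥ r - T^(n+1) I.card`, and
   `((v p)^T)^(U.card) ≤ (v p)^(T (r - ..))` since `v p ≤ 1` (`p` is an integer: `v (p : E) ≤ 1` by the ultrametric inequality,
   `IsNonarchimedean.apply_natCast_le_one..` or see H33/H92 files).
-/

set_option autoImplicit false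

namespace Pool.Agent.H11.TS

open Pool.Agent.H33.TR

private theorem mn_pow {E : Type} [Field E] {k M : ℕ} (p : ℕ) (m : Bx k M) (y : Fin k → E) :
    mn m (fun l => y l ^ p) = mn m y ^ p := by
  unfold mn
  rw [← Finset.prod_pow]
  refine Finset.prod_congr rfl fun l _ => ?_
  rw [← pow_mul, ← pow_mul, mul_comm]

private theorem mn_le {E : Type} [Field E] (v : AbsoluteValue E ℝ) {k M : ℕ} (m : Bx k M)
    (y : Fin k → E) : v (mn m y) ≤ ∏ l, (max 1 (v (y l))) ^ M := by
  unfold mn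
  rw [map_prod]
  refine Finset.prod_le_prod (fun l _ => v.nonneg _) fun l _ => ?_
  rw [map_pow]
  calc v (y l) ^ (m l : ℕ) ≤ (max 1 (v (y l))) ^ (m l : ℕ) :=
        pow_le_pow_left₀ (v.nonneg _) (le_max_right _ _) _
    _ ≤ (max 1 (v (y l))) ^ M :=
        pow_le_pow_right₀ (le_max_left _ _) (by have := (m l).2; omega)

private theorem bd_nonneg {E : Type} [Field E] (v : AbsoluteValue E ℝ) {k : ℕ} (M : ℕ)
    (y : Fin k → E) : 0 ≤ ∏ l, (max 1 (v (y l))) ^ M :=
  Finset.prod_nonneg fun _ _ => pow_nonneg (zero_le_one.trans (le_max_left _ _)) _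

private theorem fac {E : Type} [Field E] (v : AbsoluteValue E ℝ) (hv : IsNonarchimedean v)
    (p : ℕ) (hp : p.Prime) (hp2 : p ≠ 2) {n m : ℕ} (f : Bx n m → E) (hf : ∀ b, v (f b) ≤ 1)
    (y : Fin n → E) (h0 : ∑ b, f b * mn b y = 0) :
    v (∑ b, f b ^ p * mn b (fun l => y l ^ p)) ≤ v (p : E) * ∏ l, (max 1 (v (y l))) ^ (p * m) := by
  have h3 := Pool.Agent.H92.SR.loc_pow v hv p hp hp2 (Finset.univ : Finset (Bx n m)) (fun _ => (1 : ℤ))
    (fun _ => Or.inr (Or.inl rfl)) (fun z => f z * mn z y)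
    (∏ l, (max 1 (v (y l))) ^ m) (bd_nonneg v m y) (fun z _ => by
      rw [map_mul]
      calc v (f z) * v (mn z y) ≤ 1 * ∏ l, (max 1 (v (y l))) ^ m :=
            mul_le_mul (hf z) (mn_le v z y) (v.nonneg _) zero_le_one
        _ = _ := one_mul _) (by
      simp only [Int.cast_one, one_mul]
      exact h0)
  have h4 : ∑ b, f b ^ p * mn b (fun l => y l ^ p) =
      ∑ z ∈ (Finset.univ : Finset (Bx n m)), ((1 : ℤ) : E) * (f z * mn z y) ^ p := by
    refine Finset.sum_congr rfl fun z _ => ?_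
    rw [mn_pow, Int.cast_one, one_mul, mul_pow]
  have h5 : (∏ l, (max 1 (v (y l))) ^ m) ^ p = ∏ l, (max 1 (v (y l))) ^ (p * m) := by
    rw [← Finset.prod_pow]
    refine Finset.prod_congr rfl fun l _ => ?_
    rw [← pow_mul, mul_comm]
  rw [h4, ← h5]
  exact h3

private theorem rel_sub {E : Type} [Field E] {n m r : ℕ} (I : Finset (Bx n m))
    (c : Bx n m → Bx n m → E) (y : Fin r → Fin n → E)
    (hy : ∀ i, ∀ b, b ∉ I → mn b (y i) = ∑ j ∈ I, c b j * mn j (y i)) :
    ∃ R : Submodule E (Bx n m → E), (m + 1) ^ n ≤ Module.finrank E R + I.card ∧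
      ∀ f ∈ R, ∀ i, ∑ b, f b * mn b (y i) = 0 := by
  classical
  obtain ⟨φ, hφ⟩ : ∃ φ : (Bx n m → E) →ₗ[E] (I → E), ∀ f j, φ f j = f j + ∑ b ∈ Iᶜ, f b * c b j := by
    refine ⟨{ toFun := fun f j => f j + ∑ b ∈ Iᶜ, f b * c b j, map_add' := ?_, map_smul' := ?_ },
      fun f j => rfl⟩
    · intro f g
      funext j
      simp only [Pi.add_apply, add_mul, Finset.sum_add_distrib]
      ring
    · intro a f
      funext j
      simp only [Pi.smul_apply, smul_eq_mul, RingHom.id_apply, mul_add, Finset.mul_sum, mul_assoc]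
  refine ⟨LinearMap.ker φ, ?_, ?_⟩
  · have h1 := LinearMap.finrank_range_add_finrank_ker φ
    have h2 : Module.finrank E (LinearMap.range φ) ≤ I.card := by
      refine (Submodule.finrank_le _).trans (le_of_eq ?_)
      rw [Module.finrank_fintype_fun_eq_card, Fintype.card_coe]
    have h3 : Module.finrank E (Bx n m → E) = (m + 1) ^ n := by
      rw [Module.finrank_fintype_fun_eq_card, Fintype.card_fun, Fintype.card_fin, Fintype.card_fin]
    omega
  · intro f hf i
    have hf' : ∀ j ∈ I, f j + ∑ b ∈ Iᶜ, f b * c b j = 0 := by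
      intro j hj
      have h1 := congrFun (LinearMap.mem_ker.1 hf) ⟨j, hj⟩
      rw [hφ] at h1
      exact h1
    rw [← Finset.sum_add_sum_compl I]
    have h1 : ∑ b ∈ Iᶜ, f b * mn b (y i) = ∑ j ∈ I, (∑ b ∈ Iᶜ, f b * c b j) * mn j (y i) := by
      calc ∑ b ∈ Iᶜ, f b * mn b (y i) = ∑ b ∈ Iᶜ, ∑ j ∈ I, f b * c b j * mn j (y i) := by
            refine Finset.sum_congr rfl fun b hb => ?_
            rw [hy i b (Finset.mem_compl.1 hb), Finset.mul_sum]
            exact Finset.sum_congr rfl fun j _ => by ring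
        _ = ∑ j ∈ I, ∑ b ∈ Iᶜ, f b * c b j * mn j (y i) := Finset.sum_comm
        _ = _ := by
            refine Finset.sum_congr rfl fun j _ => ?_
            rw [Finset.sum_mul]
    rw [h1, ← Finset.sum_add_distrib]
    refine Finset.sum_eq_zero fun j hj => ?_
    rw [← add_mul, hf' j hj, zero_mul]

private theorem stp {E : Type} [Field E] (v : AbsoluteValue E ℝ) (hv : IsNonarchimedean v)
    (p : ℕ) (hp : p.Prime) (hp2 : p ≠ 2) {n m T r : ℕ} (hT : 1 ≤ T) (I : Finset (Bx n m))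
    (c : Bx n m → Bx n m → E) (y : Fin r → Fin n → E)
    (hy : ∀ i, ∀ b, b ∉ I → mn b (y i) = ∑ j ∈ I, c b j * mn j (y i)) :
    ∃ (W : Finset (Bx n (T * m))) (G : Bx n (T * m) → Bx n (T * m) → E),
      (T * m + 1) ^ n ≤ W.card + T ^ (n + 1) * I.card ∧
      (∀ w ∈ W, v (G w w) = 1 ∧ (∀ b, v (G w b) ≤ 1) ∧
        ∀ b, wt (T * m + 1) w < wt (T * m + 1) b → v (G w b) < 1) ∧
      ∀ w ∈ W, ∀ i, v (∑ b, G w b * mn b (fun l => y i l ^ p)) ≤
        v (p : E) ^ T * ∏ l, (max 1 (v (y i l))) ^ (p * (T * m)) := by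
  classical
  have hm : m < T * m + 1 := by nlinarith
  obtain ⟨R, hR, hR0⟩ := rel_sub I c y hy
  obtain ⟨S, f, hS, hf⟩ := echelon v (wt (T * m + 1) : Bx n m → ℕ) (wt_inj hm) R
  obtain ⟨W, dec, hW, hdec⟩ := sumset n m T hT S
  have hex : ∀ w, ∃ G : Bx n (T * m) → E, w ∈ W →
      (∀ z : Fin n → E, ∑ b, G b * mn b z = ∏ i, ∑ b, f (dec w i) b ^ p * mn b z) ∧
      (∀ b, v (G b) ≤ 1) ∧ v (G w) = 1 ∧ ∀ b, wt (T * m + 1) w < wt (T * m + 1) b → v (G b) < 1 := by
    intro w
    by_cases hw : w ∈ W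
    · obtain ⟨h1, h2⟩ := hdec w hw
      obtain ⟨G, hG⟩ := prod_vec v hv (fun i b => f (dec w i) b ^ p) (dec w)
        (fun i b => by
          rw [map_pow]
          exact pow_le_one₀ (v.nonneg _) ((hf _ (h1 i)).2.2.1 b))
        (fun i => by
          rw [map_pow, (hf _ (h1 i)).2.1, one_pow])
        (fun i b hb => by
          rw [map_pow]
          exact pow_lt_one₀ (v.nonneg _) ((hf _ (h1 i)).2.2.2 b hb) hp.ne_zero) w h2
      exact ⟨G, fun _ => hG⟩
    · exact ⟨0, fun h => absurd h hw⟩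
  choose G hG using hex
  refine ⟨W, G, ?_, ?_, ?_⟩
  · have h1 : (m + 1) ^ n - S.card ≤ I.card := by omega
    have h2 := Nat.mul_le_mul_left (T ^ (n + 1)) h1
    omega
  · intro w hw
    obtain ⟨-, h2, h3, h4⟩ := hG w hw
    exact ⟨h3, h2, h4⟩
  · intro w hw i
    obtain ⟨h1, -, -, -⟩ := hG w hw
    rw [h1, map_prod]
    have h2 : ∀ t : Fin T, v (∑ b, f (dec w t) b ^ p * mn b (fun l => y i l ^ p)) ≤
        v (p : E) * ∏ l, (max 1 (v (y i l))) ^ (p * m) := by
      intro t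
      obtain ⟨h3, -⟩ := hdec w hw
      obtain ⟨h4, -, h5, -⟩ := hf _ (h3 t)
      exact fac v hv p hp hp2 _ h5 (y i) (hR0 _ h4 i)
    refine (Finset.prod_le_prod (fun t _ => v.nonneg _) fun t _ => h2 t).trans (le_of_eq ?_)
    rw [Finset.prod_const, Finset.card_univ, Fintype.card_fin, mul_pow, ← Finset.prod_pow]
    congr 1
    refine Finset.prod_congr rfl fun l _ => ?_
    rw [← pow_mul]
    congr 1
    ring

private theorem stq {E : Type} [Field E] (v : AbsoluteValue E ℝ) (hv : IsNonarchimedean v)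
    {n M r D : ℕ} (W : Finset (Bx n M)) (G : Bx n M → Bx n M → E) (hW : (M + 1) ^ n ≤ W.card + D)
    (hG : ∀ w ∈ W, v (G w w) = 1 ∧ (∀ b, v (G w b) ≤ 1) ∧
      ∀ b, wt (M + 1) w < wt (M + 1) b → v (G w b) < 1)
    (C : Fin r → Bx n M) (hC : Function.Injective C) :
    ∃ (U : Finset (Bx n M)) (q lam : Bx n M → Bx n M → E), r ≤ U.card + D ∧
      ∀ u ∈ U, (v (q u u) = 1 ∧ (∀ b, v (q u b) ≤ 1) ∧
        ∀ b, wt (M + 1) u < wt (M + 1) b → v (q u b) < 1) ∧
      (∀ b, (∀ i, C i ≠ b) → q u b = 0) ∧ (∀ w ∈ W, v (lam u w) ≤ 1) ∧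
      ∀ b, q u b = ∑ w ∈ W, lam u w * G w b := by
  classical
  have hinj : Function.Injective (wt (M + 1) : Bx n M → ℕ) := wt_inj (Nat.lt_succ_self M)
  have hli := ortho_li v hv (wt (M + 1) : Bx n M → ℕ) hinj W G hG
  obtain ⟨Λ, hΛ⟩ : ∃ Λ : (W → E) →ₗ[E] (Bx n M → E), Λ = Fintype.linearCombination E (fun w : W => G w) :=
    ⟨_, rfl⟩
  have hΛi : Function.Injective Λ := by
    rw [hΛ]
    exact linearIndependent_iff_injective_fintypeLinearCombination.1 hli
  have hΛa : ∀ x b, Λ x b = ∑ w : W, x w * G w b := by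
    intro x b
    rw [hΛ, Fintype.linearCombination_apply, Finset.sum_apply]
    exact Finset.sum_congr rfl fun w _ => by rw [Pi.smul_apply, smul_eq_mul]
  obtain ⟨C', hC'⟩ : ∃ C' : Finset (Bx n M), C' = Finset.univ.image C := ⟨_, rfl⟩
  have hC'c : C'.card = r := by
    rw [hC', Finset.card_image_of_injective _ hC, Finset.card_univ, Fintype.card_fin]
  obtain ⟨ψ, hψ⟩ : ∃ ψ : (Bx n M → E) →ₗ[E] ((C'ᶜ : Finset (Bx n M)) → E), ∀ x b, ψ x b = x b :=
    ⟨LinearMap.funLeft E E (fun b : (C'ᶜ : Finset (Bx n M)) => (b : Bx n M)), fun x b => rfl⟩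
  have hK : r ≤ Module.finrank E (Submodule.map Λ (LinearMap.ker (ψ ∘ₗ Λ))) + D := by
    have h1 : Module.finrank E (Submodule.map Λ (LinearMap.ker (ψ ∘ₗ Λ))) =
        Module.finrank E (LinearMap.ker (ψ ∘ₗ Λ)) :=
      (LinearEquiv.finrank_eq (Submodule.equivMapOfInjective Λ hΛi (LinearMap.ker (ψ ∘ₗ Λ)))).symm
    have h2 := LinearMap.finrank_range_add_finrank_ker (ψ ∘ₗ Λ)
    have h3 : Module.finrank E (LinearMap.range (ψ ∘ₗ Λ)) ≤ (C'ᶜ).card := by
      refine (Submodule.finrank_le _).trans (le_of_eq ?_)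
      rw [Module.finrank_fintype_fun_eq_card, Fintype.card_coe]
    have h4 : Module.finrank E (W → E) = W.card := by
      rw [Module.finrank_fintype_fun_eq_card, Fintype.card_coe]
    have h5 : C'.card + (C'ᶜ).card = (M + 1) ^ n := by
      rw [Finset.card_add_card_compl, Fintype.card_fun, Fintype.card_fin, Fintype.card_fin]
    omega
  obtain ⟨U, q, hU, hq⟩ := echelon v (wt (M + 1) : Bx n M → ℕ) hinj
    (Submodule.map Λ (LinearMap.ker (ψ ∘ₗ Λ)))
  have hex : ∀ u, ∃ x : Bx n M → E, u ∈ U → (∀ b, (∀ i, C i ≠ b) → q u b = 0) ∧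
      ∀ b, q u b = ∑ w ∈ W, x w * G w b := by
    intro u
    by_cases hu : u ∈ U
    · obtain ⟨x, hx, hxq⟩ := Submodule.mem_map.1 (hq u hu).1
      refine ⟨fun w => if h : w ∈ W then x ⟨w, h⟩ else 0, fun _ => ⟨?_, ?_⟩⟩
      · intro b hb
        have hb' : b ∈ (C'ᶜ : Finset (Bx n M)) := by
          rw [Finset.mem_compl, hC', Finset.mem_image]
          rintro ⟨i, -, hi⟩
          exact hb i hi
        have h1 := congrFun (LinearMap.mem_ker.1 hx) ⟨b, hb'⟩
        rw [LinearMap.comp_apply, hψ, hxq] at h1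
        exact h1
      · intro b
        rw [← hxq, hΛa, ← Finset.sum_coe_sort W]
        refine Finset.sum_congr rfl fun w _ => ?_
        change x w * G w b = (if h : (w : Bx n M) ∈ W then x ⟨w, h⟩ else 0) * G w b
        rw [dif_pos w.2]
    · exact ⟨0, fun h => absurd h hu⟩
  choose lam hlam using hex
  refine ⟨U, q, lam, by omega, fun u hu => ?_⟩
  obtain ⟨-, h1, h2, h3⟩ := hq u hu
  obtain ⟨h4, h5⟩ := hlam u hu
  refine ⟨⟨h1, h2, h3⟩, h4, ?_, h5⟩
  refine ortho v hv (wt (M + 1) : Bx n M → ℕ) hinj W G hG (lam u) fun b => ?_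
  rw [← h5]
  exact h2 b

theorem loc_minor {E : Type} [Field E] (v : AbsoluteValue E ℝ) (hv : IsNonarchimedean v)
    (p : ℕ) (hp : p.Prime) (hp2 : p ≠ 2) {n m T r : ℕ} (hT : 1 ≤ T) (I : Finset (Bx n m))
    (c : Bx n m → Bx n m → E) (y : Fin r → Fin n → E)
    (hy : ∀ i, ∀ b, b ∉ I → mn b (y i) = ∑ j ∈ I, c b j * mn j (y i))
    (C : Fin r → Bx n (T * m)) (hC : Function.Injective C) :
    v (Matrix.det (Matrix.of fun i j : Fin r => mn (C j) (y i) ^ p)) ≤
      v (p : E) ^ (T * (r - T ^ (n + 1) * I.card)) *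
        ∏ i, ∏ l, (max 1 (v (y i l))) ^ (p * (T * m)) := by
  classical
  obtain ⟨W, G, hW, hG, hWv⟩ := stp v hv p hp hp2 hT I c y hy
  obtain ⟨U, q, lam, hU, hUq⟩ := stq v hv W G hW hG C hC
  have hvp : v (p : E) ≤ 1 := IsNonarchimedean.apply_natCast_le_one hv
  have hval : ∀ u ∈ U, ∀ i, v (∑ b, q u b * mn b (fun l => y i l ^ p)) ≤
      v (p : E) ^ T * ∏ l, (max 1 (v (y i l))) ^ (p * (T * m)) := by
    intro u hu i
    obtain ⟨-, -, h3, h4⟩ := hUq u hu
    have h5 : ∑ b, q u b * mn b (fun l => y i l ^ p) =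
        ∑ w ∈ W, lam u w * ∑ b, G w b * mn b (fun l => y i l ^ p) := by
      calc ∑ b, q u b * mn b (fun l => y i l ^ p)
          = ∑ b, ∑ w ∈ W, lam u w * (G w b * mn b (fun l => y i l ^ p)) := by
            refine Finset.sum_congr rfl fun b _ => ?_
            rw [h4, Finset.sum_mul]
            exact Finset.sum_congr rfl fun w _ => by ring
        _ = ∑ w ∈ W, ∑ b, lam u w * (G w b * mn b (fun l => y i l ^ p)) := Finset.sum_comm
        _ = _ := by
            refine Finset.sum_congr rfl fun w _ => ?_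
            rw [Finset.mul_sum]
    rw [h5]
    have hB : 0 ≤ v (p : E) ^ T * ∏ l, (max 1 (v (y i l))) ^ (p * (T * m)) :=
      mul_nonneg (pow_nonneg (v.nonneg _) _) (bd_nonneg v _ (y i))
    rcases W.eq_empty_or_nonempty with h | h
    · rw [h, Finset.sum_empty, map_zero]
      exact hB
    · obtain ⟨w, hw, hle⟩ := hv.finset_image_add_of_nonempty
        (fun w => lam u w * ∑ b, G w b * mn b (fun l => y i l ^ p)) h
      refine hle.trans ?_
      rw [map_mul]
      calc v (lam u w) * v (∑ b, G w b * mn b (fun l => y i l ^ p))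
          ≤ 1 * (v (p : E) ^ T * ∏ l, (max 1 (v (y i l))) ^ (p * (T * m))) :=
            mul_le_mul (h3 w hw) (hWv w hw i) (v.nonneg _) zero_le_one
        _ = _ := one_mul _
  -- the matrix of the column operations
  obtain ⟨P, hP⟩ : ∃ P : Matrix (Fin r) (Fin r) E, P = Matrix.of fun i' i =>
      if C i ∈ U then q (C i) (C i') else if i' = i then 1 else 0 := ⟨_, rfl⟩
  have hP1 : ∀ i j, v (P i j) ≤ 1 := by
    intro i j
    rw [hP, Matrix.of_apply]
    split_ifs with h1 h2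
    · exact (hUq _ h1).1.2.1 _
    · rw [map_one]
    · rw [map_zero]
      exact zero_le_one
  have hPdet : v P.det = 1 := by
    refine unimod v hv (fun i => wt (T * m + 1) (C i))
      (fun i j h => hC (wt_inj (Nat.lt_succ_self (T * m)) h)) P hP1 ?_ ?_
    · intro j
      rw [hP, Matrix.of_apply]
      by_cases h1 : C j ∈ U
      · rw [if_pos h1]
        exact (hUq _ h1).1.1
      · rw [if_neg h1, if_pos rfl]
        exact map_one v
    · intro i j hij
      rw [hP, Matrix.of_apply]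
      split_ifs with h1 h2
      · exact (hUq _ h1).1.2.2 _ hij
      · exfalso
        rw [h2] at hij
        exact lt_irrefl _ hij
      · rw [map_zero]
        exact one_pos
  obtain ⟨Y, hY⟩ : ∃ Y : Matrix (Fin r) (Fin r) E, Y = Matrix.of fun i j : Fin r => mn (C j) (y i) ^ p :=
    ⟨_, rfl⟩
  obtain ⟨H, hH⟩ : ∃ H : Fin r → ℝ, H = fun i => ∏ l, (max 1 (v (y i l))) ^ (p * (T * m)) := ⟨_, rfl⟩
  obtain ⟨J, hJ⟩ : ∃ J : Finset (Fin r), J = Finset.univ.filter (fun i => C i ∈ U) := ⟨_, rfl⟩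
  have hJc : U.card ≤ J.card := by
    have h1 : U ⊆ J.image C := by
      intro u hu
      have h2 : ∃ i, C i = u := by
        by_contra hcon
        push Not at hcon
        obtain ⟨⟨h3, -⟩, h4, -⟩ := hUq u hu
        rw [h4 u hcon, map_zero] at h3
        exact zero_ne_one h3
      obtain ⟨i, rfl⟩ := h2
      refine Finset.mem_image_of_mem _ ?_
      rw [hJ, Finset.mem_filter]
      exact ⟨Finset.mem_univ _, hu⟩
    exact (Finset.card_le_card h1).trans Finset.card_image_le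
  have hYH : ∀ i j, v (Y i j) ≤ H i := by
    intro i j
    rw [hY, Matrix.of_apply, hH, map_pow]
    calc v (mn (C j) (y i)) ^ p ≤ (∏ l, (max 1 (v (y i l))) ^ (T * m)) ^ p :=
          pow_le_pow_left₀ (v.nonneg _) (mn_le v _ _) _
      _ = ∏ l, (max 1 (v (y i l))) ^ (p * (T * m)) := by
          rw [← Finset.prod_pow]
          refine Finset.prod_congr rfl fun l _ => ?_
          rw [← pow_mul, mul_comm]
  have hdet : v Y.det = v (Y * P).det := by
    rw [Matrix.det_mul, map_mul, hPdet, mul_one]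
  have hgoal := det_le v hv (Y * P) H (v (p : E) ^ T) J ?_ ?_
  · rw [← hY, hdet]
    refine hgoal.trans ?_
    rw [hH]
    refine mul_le_mul_of_nonneg_right ?_ (Finset.prod_nonneg fun i _ => bd_nonneg v _ (y i))
    rw [← pow_mul]
    refine pow_le_pow_of_le_one (v.nonneg _) hvp ?_
    refine Nat.mul_le_mul_left T ?_
    omega
  · -- all entries
    intro i j
    rw [Matrix.mul_apply]
    obtain ⟨j', -, hle⟩ := hv.finset_image_add_of_nonempty
      (fun j' : Fin r => Y i j' * P j' j) ⟨j, Finset.mem_univ j⟩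
    refine hle.trans ?_
    rw [map_mul]
    calc v (Y i j') * v (P j' j) ≤ H i * 1 :=
          mul_le_mul (hYH i j') (hP1 _ _) (v.nonneg _) ((v.nonneg _).trans (hYH i j'))
      _ = H i := mul_one _
  · -- the entries of the new columns
    intro i j hj
    rw [hJ, Finset.mem_filter] at hj
    have hjU := hj.2
    rw [Matrix.mul_apply]
    have h1 : ∑ j' : Fin r, Y i j' * P j' j = ∑ b, q (C j) b * mn b (fun l => y i l ^ p) := by
      refine Finset.sum_of_injOn C (fun a _ b _ h => hC h) (fun a _ => Finset.mem_coe.2 (Finset.mem_univ _))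
        ?_ ?_
      · intro b _ hb
        have h2 : q (C j) b = 0 := by
          refine (hUq _ hjU).2.1 b fun i' hi' => hb ?_
          exact ⟨i', Finset.mem_coe.2 (Finset.mem_univ _), hi'⟩
        rw [h2, zero_mul]
      · intro j' _
        rw [hP, Matrix.of_apply, if_pos hjU, hY, Matrix.of_apply, mn_pow, mul_comm]
    rw [h1, hH]
    exact hval _ hjU i

end Pool.Agent.H11.TS
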