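import Pool.Agent.H11.TS.Stb

/-!
# THEOREM TS, OrbL: the lower bound for the functions on all translates

`wn_ge`. PROOF: `S = Stb g ζ hζ N₀`; `Q := (Fin n → ZMod p) ⧸ S` is finite, `R = Nat.card Q ≤ p^n`; `u_j`, `j ∈ Q`, representatives
(`Quotient.out`). For `i ≠ j` in `Q`: `u_j - u_i ∉ S`, so there is `a` with `∑_(bx n N₀) a_e g^e = 0` and
`∑ a_e tw(u_j - u_i, e) g^e ≠ 0`. Let `f_ij(u) = ∑_e algebraMap (a_e * tw ζ (u - u_i) e) * mz g e`; it is in `WN p g ζ N₀`
(`tw ζ (u - u_i) e = tw ζ u e * tw ζ (-u_i) e`), `f_ij(u_i) = 0`, `f_ij(u_j) ≠ 0`. Products: `WN N * WN N' ⊆ WN (N + N')` pointwise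
(`tw_mul`, `mz_add`: products of generators are generators; `Submodule.span_induction` or `Submodule.span_mul_span` for the algebra of functions
`(Fin n → ZMod p) → F` over `P`). `P_j := ∏_(i ≠ j) f_ij ∈ WN ((R - 1) N₀)`, `P_j(u_i) = 0` for `i ≠ j`, `P_j(u_j) ≠ 0` (`F` is a field).
Let `B ⊆ bx n N` with `B.card = hd P g (bx n N)` and `(mz g e)_(e ∈ B)` linearly independent over `P`. The family
`(j, e) ∈ Q × B ↦ P_j * (fun u => algebraMap P F (tw ζ u e) * mz g e)` lies in `WN (N + (R-1) N₀) ≤ WN (N + p^n N₀)` and is linearly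
independent over `P`: evaluate a relation at `u_i`: `P_i(u_i) ∑_e c_(i,e) tw(u_i, e) g^e = 0`, so `c_(i,e) tw(u_i,e) = 0`, `c_(i,e) = 0`
(`tw_ne_zero`). So `R * hd ≤ finrank` (`LinearIndependent.fintype_card_le_finrank`; `WN` is finite-dimensional).
-/

set_option autoImplicit false
set_option linter.unusedSectionVars false

namespace Pool.Agent.H11.TS

variable {P F : Type} [Field P] [Field F] [Algebra P F] {p n : ℕ} [Fact p.Prime]

/-- the function on the translates of the monomial with exponent `e` -/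
private noncomputable def vc (g : Fin n → F) (ζ : P) (e : Fin n → ℤ) : (Fin n → ZMod p) → F :=
  fun u => algebraMap P F (tw ζ u e) * mz g e

private theorem vc_mem (g : Fin n → F) (ζ : P) {N : ℕ} {e : Fin n → ℤ} (he : e ∈ bx n N) :
    vc g ζ e ∈ WN p g ζ N :=
  Submodule.subset_span ⟨e, he, rfl⟩

private theorem vc_mul (g : Fin n → F) (hg : ∀ i, g i ≠ 0) (ζ : P) (hζ : ζ ^ p = 1) (e e' : Fin n → ℤ) :
    (vc g ζ (e + e') : (Fin n → ZMod p) → F) = vc g ζ e * vc g ζ e' := by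
  funext u
  simp only [vc, Pi.mul_apply]
  rw [tw_mul ζ hζ, mz_add g hg, map_mul]
  ring

private theorem wn_mul (g : Fin n → F) (hg : ∀ i, g i ≠ 0) (ζ : P) (hζ : ζ ^ p = 1) {N N' : ℕ}
    {f f' : (Fin n → ZMod p) → F} (hf : f ∈ WN p g ζ N) (hf' : f' ∈ WN p g ζ N') :
    f * f' ∈ WN p g ζ (N + N') := by
  have h1 : WN p g ζ N * WN p g ζ N' ≤ WN p g ζ (N + N') := by
    unfold WN
    rw [Submodule.span_mul_span, Submodule.span_le]
    rintro _ ⟨_, ⟨e, he, rfl⟩, _, ⟨e', he', rfl⟩, rfl⟩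
    have h2 := vc_mul (p := p) g hg ζ hζ e e'
    have he1 : e ∈ bx n N := he
    have he2 : e' ∈ bx n N' := he'
    rw [mem_bx] at he1 he2
    have h3 : e + e' ∈ bx n (N + N') := by
      rw [mem_bx]
      intro i
      have a := he1 i
      have b := he2 i
      rw [Pi.add_apply]
      push_cast
      omega
    have h4 := vc_mem (p := p) g ζ h3
    rw [h2] at h4
    exact h4
  exact h1 (Submodule.mul_mem_mul hf hf')

private theorem wn_mono' (g : Fin n → F) (ζ : P) {N N' : ℕ} (h : N ≤ N') : WN p g ζ N ≤ WN p g ζ N' := by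
  unfold WN
  refine Submodule.span_mono (Set.image_mono ?_)
  intro e he
  have he1 : e ∈ bx n N := he
  rw [mem_bx] at he1
  have : e ∈ bx n N' := by
    rw [mem_bx]
    intro i
    have a := he1 i
    omega
  exact this

private theorem wn_one (g : Fin n → F) (ζ : P) (N : ℕ) : (1 : (Fin n → ZMod p) → F) ∈ WN p g ζ N := by
  have h0 : (0 : Fin n → ℤ) ∈ bx n N := by
    rw [mem_bx]
    intro i
    exact ⟨le_rfl, by rw [Pi.zero_apply]; exact_mod_cast Nat.zero_le N⟩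
  have h1 := vc_mem (p := p) g ζ h0
  have h2 : (vc g ζ 0 : (Fin n → ZMod p) → F) = 1 := by
    funext u
    simp only [vc, Pi.one_apply]
    rw [tw_zero', mz_zero, map_one, one_mul]
  rw [h2] at h1
  exact h1

private theorem wn_prod (g : Fin n → F) (hg : ∀ i, g i ≠ 0) (ζ : P) (hζ : ζ ^ p = 1) (N₀ : ℕ) {ι : Type}
    (s : Finset ι) (f : ι → (Fin n → ZMod p) → F) (hf : ∀ i ∈ s, f i ∈ WN p g ζ N₀) :
    ∏ i ∈ s, f i ∈ WN p g ζ (s.card * N₀) := by
  classical
  induction s using Finset.induction_on with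
  | empty => simpa using wn_one (p := p) g ζ (0 * N₀)
  | insert a s ha ih =>
    rw [Finset.prod_insert ha, Finset.card_insert_of_notMem ha]
    have h1 := wn_mul g hg ζ hζ (hf a (Finset.mem_insert_self a s))
      (ih fun i hi => hf i (Finset.mem_insert_of_mem hi))
    have h2 : (s.card + 1) * N₀ = N₀ + s.card * N₀ := by ring
    rw [h2]
    exact h1

private theorem wn_sum (g : Fin n → F) (ζ : P) (hζ : ζ ^ p = 1) (N₀ : ℕ) (a : (Fin n → ℤ) → P)
    (v : Fin n → ZMod p) :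
    (fun u => ∑ e ∈ bx n N₀, algebraMap P F (a e * tw ζ (u - v) e) * mz g e) ∈ WN p g ζ N₀ := by
  have h1 : (fun u => ∑ e ∈ bx n N₀, algebraMap P F (a e * tw ζ (u - v) e) * mz g e) =
      ∑ e ∈ bx n N₀, (a e * tw ζ (-v) e) • (vc g ζ e : (Fin n → ZMod p) → F) := by
    funext u
    rw [Finset.sum_apply]
    refine Finset.sum_congr rfl fun e _ => ?_
    rw [Pi.smul_apply, Algebra.smul_def, sub_eq_add_neg, tw_add ζ hζ]
    simp only [vc, map_mul]
    ring
  rw [h1]
  exact Submodule.sum_mem _ fun e he => Submodule.smul_mem _ _ (vc_mem g ζ he)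

/-- the separating functions -/
private theorem sep (g : Fin n → F) (ζ : P) (hζ : ζ ^ p = 1) (N₀ : ℕ) (v w : Fin n → ZMod p)
    (h : w - v ∉ Stb g ζ hζ N₀) : ∃ f ∈ WN p g ζ N₀, f v = 0 ∧ f w ≠ 0 := by
  have h1 : ¬ ∀ a : (Fin n → ℤ) → P, ∑ e ∈ bx n N₀, algebraMap P F (a e) * mz g e = 0 →
      ∑ e ∈ bx n N₀, algebraMap P F (a e * tw ζ (w - v) e) * mz g e = 0 := h
  push Not at h1
  obtain ⟨a, ha, hb⟩ := h1
  refine ⟨_, wn_sum g ζ hζ N₀ a v, ?_, hb⟩
  rw [← ha]
  refine Finset.sum_congr rfl fun e _ => ?_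
  rw [sub_self, tw_zero, mul_one]

/-- the interpolating functions -/
private theorem interp (g : Fin n → F) (hg : ∀ i, g i ≠ 0) (ζ : P) (hζ : ζ ^ p = 1) (N₀ : ℕ) {ι : Type}
    [Fintype ι] (v : ι → Fin n → ZMod p) (hv : ∀ i j, i ≠ j → v j - v i ∉ Stb g ζ hζ N₀) :
    ∃ q : ι → (Fin n → ZMod p) → F, ∀ j, q j ∈ WN p g ζ (Fintype.card ι * N₀) ∧ q j (v j) ≠ 0 ∧
      ∀ i, i ≠ j → q j (v i) = 0 := by
  classical
  have h1 : ∀ i j, ∃ f ∈ WN p g ζ N₀, i ≠ j → f (v i) = 0 ∧ f (v j) ≠ 0 := by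
    intro i j
    by_cases hij : i = j
    · exact ⟨0, Submodule.zero_mem _, fun h => absurd hij h⟩
    · obtain ⟨f, hf, h2⟩ := sep g ζ hζ N₀ (v i) (v j) (hv i j hij)
      exact ⟨f, hf, fun _ => h2⟩
  choose f hf hf2 using h1
  refine ⟨fun j => ∏ i ∈ Finset.univ.erase j, f i j, fun j => ⟨?_, ?_, ?_⟩⟩
  · refine wn_mono' g ζ ?_ (wn_prod g hg ζ hζ N₀ (Finset.univ.erase j) (fun i => f i j) fun i _ => hf i j)
    exact Nat.mul_le_mul_right _ ((Finset.card_le_univ _))
  · show (∏ i ∈ Finset.univ.erase j, f i j) (v j) ≠ 0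
    rw [Finset.prod_apply, Finset.prod_ne_zero_iff]
    intro i hi
    exact (hf2 i j (Finset.ne_of_mem_erase hi)).2
  · intro i hi
    show (∏ i ∈ Finset.univ.erase j, f i j) (v i) = 0
    rw [Finset.prod_apply]
    exact Finset.prod_eq_zero (Finset.mem_erase.2 ⟨hi, Finset.mem_univ i⟩) (hf2 i j hi).1

theorem wn_ge (g : Fin n → F) (hg : ∀ i, g i ≠ 0) (ζ : P) (hζ : ζ ^ p = 1) (N N₀ : ℕ) :
    Nat.card ((Fin n → ZMod p) ⧸ Stb g ζ hζ N₀) * hd P g (bx n N) ≤
      Module.finrank P (WN p g ζ (N + p ^ n * N₀)) := by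
  classical
  have : NeZero p := ⟨(Fact.out : p.Prime).ne_zero⟩
  have : Finite ((Fin n → ZMod p) ⧸ Stb g ζ hζ N₀) :=
    Finite.of_surjective _ (Submodule.mkQ_surjective (Stb g ζ hζ N₀))
  have := Fintype.ofFinite ((Fin n → ZMod p) ⧸ Stb g ζ hζ N₀)
  rw [Nat.card_eq_fintype_card]
  have hcard : Fintype.card ((Fin n → ZMod p) ⧸ Stb g ζ hζ N₀) ≤ p ^ n := by
    have h1 := Fintype.card_le_of_surjective _ (Submodule.mkQ_surjective (Stb g ζ hζ N₀))
    refine h1.trans (le_of_eq ?_)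
    rw [Fintype.card_fun, ZMod.card, Fintype.card_fin]
  -- the representatives
  obtain ⟨v, hv⟩ : ∃ v : ((Fin n → ZMod p) ⧸ Stb g ζ hζ N₀) → Fin n → ZMod p,
      ∀ i, (Stb g ζ hζ N₀).mkQ (v i) = i :=
    ⟨Function.surjInv (Submodule.mkQ_surjective (Stb g ζ hζ N₀)),
      Function.surjInv_eq (Submodule.mkQ_surjective (Stb g ζ hζ N₀))⟩
  have hv2 : ∀ i j, i ≠ j → v j - v i ∉ Stb g ζ hζ N₀ := by
    intro i j hij hmem
    apply hij
    rw [← hv i, ← hv j, eq_comm, ← sub_eq_zero, ← map_sub]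
    exact (Submodule.Quotient.mk_eq_zero _).2 hmem
  obtain ⟨q, hq⟩ := interp g hg ζ hζ N₀ v hv2
  -- the basis of monomials
  obtain ⟨b, hb1, hb2, hb3⟩ := exists_linearIndependent P (mz g '' (bx n N : Set (Fin n → ℤ)))
  have hbf : b.Finite := ((bx n N).finite_toSet.image (mz g)).subset hb1
  have := hbf.fintype
  have hbc : hd P g (bx n N) = Fintype.card b := by
    unfold hd
    rw [← hb2]
    have h1 := finrank_span_eq_card hb3
    rw [Subtype.range_coe] at h1
    exact h1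
  have h2 : ∀ x : b, ∃ e ∈ bx n N, mz g e = x := fun x => hb1 x.2
  choose ex hex hex2 using h2
  have hmem : ∀ y : ((Fin n → ZMod p) ⧸ Stb g ζ hζ N₀) × b,
      q y.1 * vc g ζ (ex y.2) ∈ WN p g ζ (N + p ^ n * N₀) := by
    intro y
    refine wn_mono' g ζ ?_ (wn_mul g hg ζ hζ (hq y.1).1 (vc_mem g ζ (hex y.2)))
    have h3 := Nat.mul_le_mul_right N₀ hcard
    omega
  have hfin : Module.Finite P (WN p g ζ (N + p ^ n * N₀)) := by
    unfold WN
    exact FiniteDimensional.span_of_finite P ((bx n (N + p ^ n * N₀)).finite_toSet.image _)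
  rw [hbc, ← Fintype.card_prod]
  have hli : LinearIndependent P (fun y : ((Fin n → ZMod p) ⧸ Stb g ζ hζ N₀) × b =>
      q y.1 * vc g ζ (ex y.2)) := by
    rw [Fintype.linearIndependent_iff]
    rintro c hc ⟨i, x⟩
    have h3 := congrFun hc (v i)
    rw [Finset.sum_apply, Fintype.sum_prod_type, Finset.sum_eq_single i, Pi.zero_apply] at h3
    · have h4 : q i (v i) * ∑ x : b, (c (i, x) * tw ζ (v i) (ex x)) • (x : F) = 0 := by
        rw [← h3, Finset.mul_sum]
        refine Finset.sum_congr rfl fun x _ => ?_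
        rw [Pi.smul_apply, Pi.mul_apply, Algebra.smul_def, Algebra.smul_def, map_mul]
        simp only [vc]
        rw [hex2]
        ring
      have h5 := (mul_eq_zero.1 h4).resolve_left (hq i).2.1
      have h6 := (Fintype.linearIndependent_iff.1 hb3) (fun x => c (i, x) * tw ζ (v i) (ex x)) h5 x
      exact (mul_eq_zero.1 h6).resolve_right (tw_ne_zero ζ hζ _ _)
    · intro j _ hj
      refine Finset.sum_eq_zero fun x _ => ?_
      rw [Pi.smul_apply, Pi.mul_apply, (hq j).2.2 i (Ne.symm hj), zero_mul, smul_zero]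
    · intro h
      exact absurd (Finset.mem_univ i) h
  have hli2 : LinearIndependent P (fun y : ((Fin n → ZMod p) ⧸ Stb g ζ hζ N₀) × b =>
      (⟨q y.1 * vc g ζ (ex y.2), hmem y⟩ : WN p g ζ (N + p ^ n * N₀))) := by
    refine LinearIndependent.of_comp (WN p g ζ (N + p ^ n * N₀)).subtype ?_
    exact hli
  exact hli2.fintype_card_le_finrank

end Pool.Agent.H11.TS
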