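import Pool.Agent.H11.TS.OrbU
import Pool.Agent.H11.TS.OrbL

/-!
# THEOREM TS, OrbI: the orbit inequality

`orbit_ineq`. PROOF: `R := Nat.card (.. ⧸ S)`, `R * Nat.card S = p^n` (`Submodule.card_eq_card_quotient_mul_card` or
`AddSubgroup.card_eq_card_quotient_mul_card_addSubgroup`; `Nat.card (Fin n → ZMod p) = p^n`). `wn_ge`, `wn_mono`, `wn_le`:
`R hd(bx N) ≤ p^n hd(p bx M) = R (Nat.card S) hd(p bx M)`; cancel `R > 0`.
-/

set_option autoImplicit false

namespace Pool.Agent.H11.TS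

variable {P F : Type} [Field P] [Field F] [Algebra P F] {p n : ℕ} [Fact p.Prime]

theorem orbit_ineq (g : Fin n → F) (hg : ∀ i, g i ≠ 0) (ζ : P) (hζ : ζ ^ p = 1) (N N₀ M : ℕ)
    (h : N + p ^ n * N₀ ≤ p * M + (p - 1)) :
    hd P g (bx n N) ≤ Nat.card (Stb g ζ hζ N₀) *
      hd P g ((bx n M).image (fun e => (p : ℤ) • e)) := by
  have hp0 : NeZero p := ⟨(Fact.out : p.Prime).ne_zero⟩
  have hfin : Finite ((Fin n → ZMod p) ⧸ Stb g ζ hζ N₀) :=
    Finite.of_surjective _ (Submodule.mkQ_surjective (Stb g ζ hζ N₀))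
  have hWf : Module.Finite P (WN p g ζ (p * M + (p - 1))) := by
    unfold WN
    exact FiniteDimensional.span_of_finite P ((Finset.finite_toSet _).image _)
  have h1 := wn_ge g hg ζ hζ N N₀
  have h2 : Module.finrank P (WN p g ζ (N + p ^ n * N₀)) ≤
      Module.finrank P (WN p g ζ (p * M + (p - 1))) := Submodule.finrank_mono (wn_mono g ζ h)
  have h3 := wn_le g hg ζ hζ M
  have h4 := Submodule.card_eq_card_quotient_mul_card (Stb g ζ hζ N₀)
  have h5 : Nat.card (Fin n → ZMod p) = p ^ n := by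
    rw [Nat.card_eq_fintype_card, Fintype.card_fun, ZMod.card, Fintype.card_fin]
  have h6 : 0 < Nat.card ((Fin n → ZMod p) ⧸ Stb g ζ hζ N₀) := Nat.card_pos
  rw [h5] at h4
  have h7 : Nat.card ((Fin n → ZMod p) ⧸ Stb g ζ hζ N₀) * hd P g (bx n N) ≤
      Nat.card ((Fin n → ZMod p) ⧸ Stb g ζ hζ N₀) * (Nat.card (Stb g ζ hζ N₀) *
        hd P g ((bx n M).image (fun e => (p : ℤ) • e))) := by
    refine (h1.trans (h2.trans h3)).trans (le_of_eq ?_)
    rw [h4]
    ring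
  exact Nat.le_of_mul_le_mul_left h7 h6

end Pool.Agent.H11.TS
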