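import Pool.Agent.H11.TS.Stb

/-!
# THEOREM TS, OrbU: the upper bound for the functions on all translates

`wn_le`. PROOF: every `e ∈ [0, pM + p-1]^n` is `b + p a` with `b ∈ [0, p-1]^n`, `a ∈ [0, M]^n` (division with remainder). Then
`tw ζ u e = tw ζ u b` (`tw_mul`, `tw_smul`) and `mz g e = mz g b * mz g (p a)`. So the vector of `e` is the image of `mz g (p a)` under the
`P`-linear map `T_b : F → ((Fin n → ZMod p) → F)`, `f ↦ fun u => algebraMap P F (tw ζ u b) * mz g b * f`. Hence
`WN ≤ ∑_(b ∈ [0,p-1]^n) map T_b (span_P (mz g '' (p • bx n M)))`, and each summand has dimension `≤ hd P g (..)`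
(`Submodule.finrank_map_le`); there are `p^n` of them (`card_bx` with `N = p - 1`).
`wn_mono`: `bx n N ⊆ bx n N'`.
-/

set_option autoImplicit false

namespace Pool.Agent.H11.TS

variable {P F : Type} [Field P] [Field F] [Algebra P F] {p n : ℕ} [Fact p.Prime]

theorem wn_mono (g : Fin n → F) (ζ : P) {N N' : ℕ} (h : N ≤ N') : WN p g ζ N ≤ WN p g ζ N' := by
  refine Submodule.span_mono (Set.image_mono ?_)
  intro e he
  have he' : e ∈ bx n N := he
  rw [mem_bx] at he'
  change e ∈ bx n N'
  rw [mem_bx]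
  intro i
  have h1 := he' i
  have h2 : (N : ℤ) ≤ N' := by exact_mod_cast h
  exact ⟨h1.1, h1.2.trans h2⟩

private theorem ou_fr {K V : Type} [Field K] [AddCommGroup V] [Module K V] {I : Type} [Fintype I]
    (u : I → V) (U : Submodule K V) (h : U ≤ Submodule.span K (Set.range u)) :
    Module.finrank K U ≤ Fintype.card I := by
  have h1 : Module.Finite K (Submodule.span K (Set.range u)) :=
    FiniteDimensional.span_of_finite K (Set.finite_range u)
  exact (Submodule.finrank_mono h).trans (finrank_range_le_card u)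

/-- division with remainder -/
private theorem ou_div (M : ℕ) (e : Fin n → ℤ) (he : e ∈ bx n (p * M + (p - 1))) :
    ∃ b ∈ bx n (p - 1), ∃ a ∈ bx n M, e = b + (p : ℤ) • a := by
  have hp : 1 ≤ p := (Fact.out : p.Prime).one_le
  have hp0 : (0 : ℤ) < p := by exact_mod_cast hp
  rw [mem_bx] at he
  refine ⟨fun i => e i % p, ?_, fun i => e i / p, ?_, ?_⟩
  · rw [mem_bx]
    intro i
    have h1 := Int.emod_nonneg (e i) hp0.ne'
    have h2 := Int.emod_lt_of_pos (e i) hp0
    refine ⟨h1, ?_⟩
    push_cast [Nat.cast_sub hp]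
    omega
  · rw [mem_bx]
    intro i
    have h1 := (he i).1
    have h2 := (he i).2
    push_cast [Nat.cast_sub hp] at h2
    refine ⟨Int.ediv_nonneg h1 hp0.le, ?_⟩
    have h3 : e i / p < (M : ℤ) + 1 := by
      refine Int.ediv_lt_of_lt_mul hp0 ?_
      have h4 : ((M : ℤ) + 1) * p = p * M + p := by ring
      rw [h4]
      omega
    omega
  · funext i
    change e i = e i % p + (p : ℤ) • (e i / p)
    rw [smul_eq_mul]
    exact (Int.emod_add_mul_ediv (e i) p).symm

/-- the map `f ↦ (ζ^(u b) g^b f)_u` -/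
private noncomputable def ou_T (g : Fin n → F) (ζ : P) (b : Fin n → ℤ) :
    F →ₗ[P] ((Fin n → ZMod p) → F) :=
  LinearMap.pi fun u => LinearMap.mulLeft P (algebraMap P F (tw ζ u b) * mz g b)

private theorem ou_T_apply (g : Fin n → F) (ζ : P) (b : Fin n → ℤ) (f : F) (u : Fin n → ZMod p) :
    ou_T g ζ b f u = algebraMap P F (tw ζ u b) * mz g b * f := rfl

theorem wn_le (g : Fin n → F) (hg : ∀ i, g i ≠ 0) (ζ : P) (hζ : ζ ^ p = 1) (M : ℕ) :
    Module.finrank P (WN p g ζ (p * M + (p - 1))) ≤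
      p ^ n * hd P g ((bx n M).image (fun e => (p : ℤ) • e)) := by
  classical
  set S := Submodule.span P (mz g '' (((bx n M).image (fun e => (p : ℤ) • e) :
    Finset (Fin n → ℤ)) : Set (Fin n → ℤ))) with hS
  have hSf : Module.Finite P S :=
    FiniteDimensional.span_of_finite P ((Finset.finite_toSet _).image _)
  have w := Module.finBasis P S
  have hp : 1 ≤ p := (Fact.out : p.Prime).one_le
  have key := ou_fr (K := P)
    (fun bk : {b // b ∈ bx n (p - 1)} × Fin (Module.finrank P S) =>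
      ou_T (p := p) g ζ (bk.1 : Fin n → ℤ) (w bk.2 : F)) (WN p g ζ (p * M + (p - 1))) ?_
  · rw [Fintype.card_prod, Fintype.card_fin, Fintype.card_coe, card_bx, Nat.sub_add_cancel hp] at key
    exact key
  · refine Submodule.span_le.2 ?_
    rintro _ ⟨e, he, rfl⟩
    obtain ⟨b, hb, a, ha, rfl⟩ := ou_div M e he
    have hx : mz g ((p : ℤ) • a) ∈ S :=
      Submodule.subset_span ⟨(p : ℤ) • a, Finset.mem_coe.2 (Finset.mem_image_of_mem _ ha), rfl⟩
    have h2 := congrArg (fun z : S => (z : F)) (w.sum_repr ⟨mz g ((p : ℤ) • a), hx⟩)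
    simp only [Submodule.coe_sum, Submodule.coe_smul] at h2
    have h3 : (fun u : Fin n → ZMod p => algebraMap P F (tw ζ u (b + (p : ℤ) • a)) *
        mz g (b + (p : ℤ) • a)) = ou_T (p := p) g ζ b (mz g ((p : ℤ) • a)) := by
      funext u
      rw [ou_T_apply, tw_mul ζ hζ, tw_smul, mul_one, mz_add g hg, mul_assoc]
    change (fun u : Fin n → ZMod p => algebraMap P F (tw ζ u (b + (p : ℤ) • a)) *
        mz g (b + (p : ℤ) • a)) ∈ Submodule.span P _
    rw [h3, ← h2, map_sum]
    refine Submodule.sum_mem _ fun k _ => ?_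
    rw [map_smul]
    exact Submodule.smul_mem _ _ (Submodule.subset_span ⟨(⟨b, hb⟩, k), rfl⟩)

end Pool.Agent.H11.TS
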