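import Pool.Agent.H11.TS.GloR
import Pool.Agent.H11.TS.Dsc

/-!
# THEOREM TS, ThA: Theorem (A), the values of the monomials at the p-th power

`thmA`. PROOF: `h := hd P g (bx n m)`. Choose `I : Finset (Bx n m)` with `I.card = h` such that the `mz g b`, `b ∈ I`, are a basis over `P` of the
span of all `mz g b`, `b ∈ Bx n m` (`exists_linearIndependent`, `exists_linearIndependent'`; `bx n m` is the image of `Bx n m` under
the cast `b ↦ fun l => (b l : ℤ)`): so `mz g b = ∑_(j ∈ I) c b j • mz g j` with `c b j ∈ P`, `b ∉ I`. By `rel_orb` these relations hold at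
all `y = mv σ x`, `x ∈ X`, `σ` over `P`: `mn b (crd y) = ∑ c b j * mn j (crd y)`.
Suppose `hd P g (image) > 2 T^(n+1) h`. Take `r = 2 T^(n+1) h + 1` exponents `C_j ∈ Bx n (T m)` (injective) with the `mz g (p C_j)` linearly
independent over `P`. `minor` gives `y : Fin r → ..` with `det (ch (p C_j) (y i)) ≠ 0`, and `ch (p C_j) y = (mn (C_j) (crd y))^p`.
Contradiction with `glo_minor`: the elements of `P` and the coordinates are algebraic (`Ω / K` is Galois, so algebraic, `K / ℚ` finite: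
`IsIntegral ℚ`, as in `Pool/Agent/H33/TR/Ind.lean` or `Rk1.lean`), the heights of `mv σ x` are those of `x` (a lemma `ht_mv`/`ht_conj` is in
`Pool/Agent/H33/TR` or `Pool/Agent/H72/PB`; heights are invariant under automorphisms), and `hnum`: `log r! ≤ r log r`,
`r ≤ (T m + 1)^n`, `r ≤ 2 (r - T^(n+1) h)`: `log r! + r p T m θ ≤ r (log ((Tm+1)^n) + p T m θ) < r (T/2) log p ≤ T (r - T^(n+1) h) log p`.
-/

set_option autoImplicit false

open NumberField

namespace Pool.Agent.H11.TS

open Pool.Agent.H11.TH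

variable {K Ω F : Type} [Field K] [NumberField K] [Field Ω] [CharZero Ω] [IsAlgClosed Ω]
  [Algebra K Ω] [IsGalois K Ω] [Field F] [Algebra Ω F] {n : ℕ}

private def cst {n N : ℕ} (b : Pool.Agent.H33.TR.Bx n N) : Fin n → ℤ := fun l => ((b l : ℕ) : ℤ)

private theorem cst_inj {n N : ℕ} : Function.Injective (cst : Pool.Agent.H33.TR.Bx n N → Fin n → ℤ) := by
  intro b b' h
  funext l
  have h1 := congrFun h l
  unfold cst at h1
  exact Fin.ext (by exact_mod_cast h1)

private theorem cst_range {n N : ℕ} :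
    Set.range (cst : Pool.Agent.H33.TR.Bx n N → Fin n → ℤ) = (bx n N : Set (Fin n → ℤ)) := by
  ext e
  rw [Finset.mem_coe, mem_bx]
  constructor
  · rintro ⟨b, rfl⟩ i
    unfold cst
    have h1 := (b i).2
    constructor
    · positivity
    · have h2 : (b i : ℕ) ≤ N := by omega
      exact_mod_cast h2
  · intro h
    refine ⟨fun l => ⟨(e l).toNat, ?_⟩, ?_⟩
    · have h1 := h l
      omega
    · funext l
      unfold cst
      have h1 := h l
      simp only
      omega

private theorem exists_ind (L : Type) {F B : Type} [Field L] [Field F] [Algebra L F] [Fintype B]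
    (w : B → F) : ∃ (κ : Type) (_ : Fintype κ) (a : κ → B), Function.Injective a ∧
      Submodule.span L (Set.range (w ∘ a)) = Submodule.span L (Set.range w) ∧
      LinearIndependent L (w ∘ a) ∧ Fintype.card κ = Module.finrank L (Submodule.span L (Set.range w)) := by
  obtain ⟨κ, a, ha, hs, hli⟩ := exists_linearIndependent' L w
  have : Finite κ := Finite.of_injective a ha
  have := Fintype.ofFinite κ
  refine ⟨κ, this, a, ha, hs, hli, ?_⟩
  rw [← hs, finrank_span_eq_card hli]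

private theorem ch_cst {Ω : Type} [Field Ω] {n N : ℕ} (b : Pool.Agent.H33.TR.Bx n N) (y : Tor Ω n) :
    ((ch (cst b) y : Ωˣ) : Ω) = Pool.Agent.H33.TR.mn b (crd y) := by
  unfold ch cst Pool.Agent.H33.TR.mn crd
  push_cast
  refine Finset.prod_congr rfl fun l _ => ?_
  rw [zpow_natCast]

private theorem ch_smul {Ω : Type} [Field Ω] {n N : ℕ} (p : ℕ) (b : Pool.Agent.H33.TR.Bx n N)
    (y : Tor Ω n) : ((ch ((p : ℤ) • cst b) y : Ωˣ) : Ω) = Pool.Agent.H33.TR.mn b (crd y) ^ p := by
  rw [← ch_cst, ← Units.val_pow_eq_pow_val]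
  congr 1
  unfold ch
  rw [← Finset.prod_pow]
  refine Finset.prod_congr rfl fun l _ => ?_
  rw [Pi.smul_apply, smul_eq_mul, mul_comm, zpow_mul, zpow_natCast]

private theorem num_fin (r T n m p h Q : ℕ) (θ : ℝ) (hr : r = 2 * T ^ (n + 1) * h + 1) (hp : 2 ≤ p)
    (hrQ : r ≤ Q) (hQ : Q = (T * m + 1) ^ n)
    (hnum : 2 * (Real.log (((T * m + 1) ^ n : ℕ) : ℝ) + ((p * (T * m) : ℕ) : ℝ) * θ) <
      T * Real.log p) :
    Real.log (r.factorial : ℕ) + (r : ℝ) * (((p * (T * m) : ℕ) : ℝ) * θ) <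
      (T * (r - T ^ (n + 1) * h) : ℕ) * Real.log p := by
  have hr0 : 0 < r := by omega
  have hrR : (0 : ℝ) < r := by exact_mod_cast hr0
  have hlp : 0 ≤ Real.log p := Real.log_nonneg (by exact_mod_cast (by omega : 1 ≤ p))
  have e1 : Real.log (r.factorial : ℕ) ≤ r * Real.log (((T * m + 1) ^ n : ℕ) : ℝ) := by
    have e2 : ((r.factorial : ℕ) : ℝ) ≤ (r : ℝ) ^ r := by exact_mod_cast Nat.factorial_le_pow r
    have e3 : Real.log (r.factorial : ℕ) ≤ r * Real.log r := by
      have := Real.log_le_log (by exact_mod_cast Nat.factorial_pos r) e2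
      rwa [Real.log_pow] at this
    refine e3.trans (mul_le_mul_of_nonneg_left ?_ hrR.le)
    refine Real.log_le_log hrR ?_
    rw [← hQ]
    exact_mod_cast hrQ
  have e4 : (r : ℝ) / 2 ≤ ((r - T ^ (n + 1) * h : ℕ) : ℝ) := by
    have e5 : r ≤ 2 * (r - T ^ (n + 1) * h) := by
      have e6 : r = 2 * (T ^ (n + 1) * h) + 1 := by rw [hr]; ring
      omega
    have e7 : (r : ℝ) ≤ 2 * ((r - T ^ (n + 1) * h : ℕ) : ℝ) := by exact_mod_cast e5
    linarith
  have e8 : (T : ℝ) * ((r : ℝ) / 2) * Real.log p ≤ (T * (r - T ^ (n + 1) * h) : ℕ) * Real.log p := by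
    rw [Nat.cast_mul]
    refine mul_le_mul_of_nonneg_right ?_ hlp
    exact mul_le_mul_of_nonneg_left e4 (Nat.cast_nonneg _)
  refine lt_of_lt_of_le ?_ e8
  have e9 : (r : ℝ) * (2 * (Real.log (((T * m + 1) ^ n : ℕ) : ℝ) + ((p * (T * m) : ℕ) : ℝ) * θ)) <
      r * (T * Real.log p) := mul_lt_mul_of_pos_left hnum hrR
  nlinarith

theorem thmA (P : IntermediateField K Ω) (X : Set (Tor Ω n)) (g : Fin n → F) (hg : Mdl X g)
    (θ : ℝ) (hθ : ∀ x ∈ X, ht x ≤ θ) (p : ℕ) (hp : p.Prime) (hp2 : p ≠ 2) (T m : ℕ) (hT : 1 ≤ T)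
    (hnum : 2 * (Real.log (((T * m + 1) ^ n : ℕ) : ℝ) + ((p * (T * m) : ℕ) : ℝ) * θ) <
      T * Real.log p) :
    hd P g ((bx n (T * m)).image (fun e => (p : ℤ) • e)) ≤
      2 * T ^ (n + 1) * hd P g (bx n m) := by
  classical
  -- step 1: a basis of the monomials of degree m
  obtain ⟨κ, _, a, ha, has, hali, hac⟩ := exists_ind P (fun b : Pool.Agent.H33.TR.Bx n m => mz g (cst b))
  have hrm : Set.range (fun b : Pool.Agent.H33.TR.Bx n m => mz g (cst b)) =
      mz g '' (bx n m : Set (Fin n → ℤ)) := by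
    rw [← cst_range, ← Set.range_comp]
    rfl
  have hacard : Fintype.card κ = hd P g (bx n m) := by
    rw [hac, hrm]
    rfl
  have hex : ∀ b : Pool.Agent.H33.TR.Bx n m, ∃ c : κ → P, ∑ i, c i • mz g (cst (a i)) = mz g (cst b) := by
    intro b
    have h1 : mz g (cst b) ∈ Submodule.span P (Set.range ((fun b : Pool.Agent.H33.TR.Bx n m =>
        mz g (cst b)) ∘ a)) := by
      rw [has]
      exact Submodule.subset_span ⟨b, rfl⟩
    exact (Submodule.mem_span_range_iff_exists_fun P).1 h1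
  choose c hc using hex
  obtain ⟨I, hI⟩ : ∃ I : Finset (Pool.Agent.H33.TR.Bx n m), I = Finset.univ.map ⟨a, ha⟩ := ⟨_, rfl⟩
  have hIc : I.card = hd P g (bx n m) := by
    rw [hI, Finset.card_map, Finset.card_univ, hacard]
  obtain ⟨dd, hdd⟩ : ∃ dd : Pool.Agent.H33.TR.Bx n m → Pool.Agent.H33.TR.Bx n m → P,
      dd = fun b => Function.extend a (c b) 0 := ⟨_, rfl⟩
  have hrel : ∀ b, ∑ j ∈ I, algebraMap P F (dd b j) * mz g (cst j) = mz g (cst b) := by
    intro b
    rw [hI, Finset.sum_map, ← hc b]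
    refine Finset.sum_congr rfl fun i _ => ?_
    rw [Algebra.smul_def]
    congr 2
    rw [hdd]
    exact ha.extend_apply _ _ i
  -- step 2: the relations at the conjugates
  have horb : ∀ (σ : Ω ≃ₐ[K] Ω) (x : Tor Ω n), (∀ z ∈ P, σ z = z) → x ∈ X → ∀ b, b ∉ I →
      Pool.Agent.H33.TR.mn b (crd (mv σ x)) =
        ∑ j ∈ I, (dd b j : Ω) * Pool.Agent.H33.TR.mn j (crd (mv σ x)) := by
    intro σ x hσ hx b hb
    obtain ⟨f, hf⟩ : ∃ f : (Fin n → ℤ) → P, f = Function.extend cst
      (fun j : Pool.Agent.H33.TR.Bx n m => if j = b then -1 else dd b j) 0 := ⟨_, rfl⟩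
    have hfv : ∀ j : Pool.Agent.H33.TR.Bx n m, f (cst j) = if j = b then -1 else dd b j := by
      intro j
      rw [hf]
      exact cst_inj.extend_apply _ _ j
    have hne : ∀ j ∈ I, j ≠ b := fun j hj h => hb (h ▸ hj)
    have h1 : ∑ e ∈ (insert b I).image cst, algebraMap P F (f e) * mz g e = 0 := by
      rw [Finset.sum_image fun _ _ _ _ h => cst_inj h, Finset.sum_insert hb, hfv, if_pos rfl, map_neg,
        map_one, neg_one_mul]
      have h2 : ∑ j ∈ I, algebraMap P F (f (cst j)) * mz g (cst j) = mz g (cst b) := by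
        rw [← hrel b]
        refine Finset.sum_congr rfl fun j hj => ?_
        rw [hfv, if_neg (hne j hj)]
      rw [h2, neg_add_cancel]
    have h2 := rel_orb P X g hg _ f h1 σ hσ x hx
    rw [Finset.sum_image fun _ _ _ _ h => cst_inj h, Finset.sum_insert hb, hfv, if_pos rfl] at h2
    have h3 : ∑ j ∈ I, (f (cst j) : Ω) * ((ch (cst j) (mv σ x) : Ωˣ) : Ω) =
        ∑ j ∈ I, (dd b j : Ω) * Pool.Agent.H33.TR.mn j (crd (mv σ x)) := by
      refine Finset.sum_congr rfl fun j hj => ?_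
      rw [hfv, if_neg (hne j hj), ch_cst]
    rw [h3, ch_cst] at h2
    have h4 : (((-1 : P)) : Ω) = -1 := by push_cast; rfl
    rw [h4] at h2
    linear_combination -h2
  -- step 3: independent monomials
  by_contra hcon
  push Not at hcon
  obtain ⟨r, hr⟩ : ∃ r : ℕ, r = 2 * T ^ (n + 1) * hd P g (bx n m) + 1 := ⟨_, rfl⟩
  obtain ⟨κ', _, a', ha', has', hali', hac'⟩ := exists_ind P
    (fun b : Pool.Agent.H33.TR.Bx n (T * m) => mz g ((p : ℤ) • cst b))
  have hrm' : Set.range (fun b : Pool.Agent.H33.TR.Bx n (T * m) => mz g ((p : ℤ) • cst b)) =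
      mz g '' (((bx n (T * m)).image fun e => (p : ℤ) • e : Finset (Fin n → ℤ)) : Set (Fin n → ℤ)) := by
    rw [Finset.coe_image, ← cst_range, ← Set.range_comp, ← Set.range_comp]
    rfl
  have hrk : r ≤ Fintype.card κ' := by
    rw [hac', hrm', hr]
    exact hcon
  have hkQ : Fintype.card κ' ≤ (T * m + 1) ^ n := by
    refine (Fintype.card_le_of_injective a' ha').trans (le_of_eq ?_)
    rw [Fintype.card_fun, Fintype.card_fin, Fintype.card_fin]
  obtain ⟨em, hem⟩ : ∃ em : Fin r → κ', Function.Injective em :=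
    ⟨fun i => (Fintype.equivFin κ').symm (Fin.castLE hrk i), fun i j hij =>
      Fin.castLE_injective hrk ((Fintype.equivFin κ').symm.injective hij)⟩
  obtain ⟨y, hy, hdet⟩ := minor P X g hg (fun i : Fin r => (p : ℤ) • cst (a' (em i))) (hali'.comp em hem)
  apply hdet
  have h1 := glo_minor p hp hp2 hT I (fun b j => (dd b j : Ω)) (fun b j => Pool.Agent.H72.PB.int_all K _)
    (fun i => crd (y i)) (fun i l => Pool.Agent.H72.PB.int_all K _)
    (fun i b hb => by
      obtain ⟨x, hx, σ, hσ, hyx⟩ := hy i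
      rw [hyx]
      exact horb σ x hσ hx b hb)
    (fun i => a' (em i)) (ha'.comp hem) θ
    (fun i => by
      obtain ⟨x, hx, σ, hσ, hyx⟩ := hy i
      rw [hyx]
      have h2 : ∑ l, absLogHeight₁ (crd (mv σ x) l) = ht x := by
        unfold ht
        refine Finset.sum_congr rfl fun l _ => ?_
        exact Pool.Agent.H72.PB.height_map σ _
      rw [h2]
      exact hθ x hx)
    (by
      rw [hIc]
      exact num_fin r T n m p _ _ θ hr hp.two_le (hrk.trans hkQ) rfl hnum)
  rw [← h1]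
  congr 1
  ext i j
  rw [Matrix.of_apply, Matrix.of_apply, ch_smul]

end Pool.Agent.H11.TS
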