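import Pool.Agent.H11.TS.Cyc
import Pool.Agent.H11.TS.ThA
import Pool.Agent.H11.TS.OrbI
import Pool.Agent.H11.TS.Grd

/-!
# THEOREM TS, Pdt: the data of a prime

`PData L g p τ Mx`: a decreasing family `S N` of subspaces of `(ℤ/p)^n` such that the relations over `L` in `[0, N]^n` are graded modulo
`lt (S N)` and `hd (bx ((pτ)^4 N)) ≤ p (2 (2τ)^(n+1) |S N₀|)^4 hd (bx N)` for `p^n N₀ ≤ N`, `(pτ)^4 N ≤ Mx`.

`prime_data`. PROOF: `P`, `ζ`, `ι`, `s` from `exists_cyc`; `S N = Stb g ζ hζ N` (`stb_anti`, `gr_stb`; the compatibility `hι` of the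
algebra maps to `F`: both are `algebraMap Ω F` of the element, `IsScalarTower.algebraMap_apply`). One step: for `p^n N₀ ≤ m`, `p τ m ≤ Mx`:
`orbit_ineq` with `N = p τ m`, `M = 2 τ m` (`p τ m + p^n N₀ ≤ p (2 τ m) + (p-1)`, as `p^n N₀ ≤ m ≤ p τ m`) and `thmA` with `T = 2 τ`, `m`
(`hnum` for `m ≤ Mx`: `(2τ m + 1)^n ≤ (2τ Mx + 1)^n`, `θ ≥ 0`): `hd P g (bx n (p τ m)) ≤ 2 (2τ)^(n+1) |S N₀| hd P g (bx n m)`.
Four steps (`m = N, pτN, (pτ)^2 N, (pτ)^3 N`), then `hd_base_le` with `q = p` and `hd_base_ge`.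
-/

set_option autoImplicit false

open NumberField

namespace Pool.Agent.H11.TS

open Pool.Agent.H11.TH

/-- the data of the prime `p` -/
def PData (L : Type) {F : Type} [Field L] [Field F] [Algebra L F] {n : ℕ} (g : Fin n → F)
    (p τ Mx : ℕ) : Prop :=
  ∃ S : ℕ → Submodule (ZMod p) (Fin n → ZMod p), Antitone S ∧ (∀ N, Gr L g N (lt (S N))) ∧
    ∀ N₀ N : ℕ, p ^ n * N₀ ≤ N → (p * τ) ^ 4 * N ≤ Mx →
      hd L g (bx n ((p * τ) ^ 4 * N)) ≤
        p * (2 * (2 * τ) ^ (n + 1) * Nat.card (S N₀)) ^ 4 * hd L g (bx n N)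

variable {K Ω F : Type} [Field K] [NumberField K] [Field Ω] [CharZero Ω] [IsAlgClosed Ω]
  [Algebra K Ω] [IsGalois K Ω] [Field F] [Algebra Ω F] {n : ℕ}

theorem prime_data (L : IntermediateField K Ω) (X : Set (Tor Ω n)) (g : Fin n → F) (hg : Mdl X g)
    (θ : ℝ) (hθ0 : 0 ≤ θ) (hθ : ∀ x ∈ X, ht x ≤ θ) (p : ℕ) (hp : p.Prime) (hp2 : p ≠ 2) (τ Mx : ℕ)
    (hτ : 1 ≤ τ)
    (hnum : 2 * (Real.log (((2 * τ * Mx + 1) ^ n : ℕ) : ℝ) + ((p * (2 * τ * Mx) : ℕ) : ℝ) * θ) <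
      (2 * τ : ℕ) * Real.log p) :
    PData L g p τ Mx := by
  classical
  have : Fact p.Prime := ⟨hp⟩
  obtain ⟨P, ζ, ι, hζ', hι0, s, hs⟩ := exists_cyc L p hp
  have hζ : ζ ^ p = 1 := hζ'.pow_eq_one
  have hι : ∀ x : L, algebraMap P F (ι x) = algebraMap L F x := by
    intro x
    rw [IsScalarTower.algebraMap_apply P Ω F, IsScalarTower.algebraMap_apply L Ω F]
    exact congrArg _ (hι0 x)
  have : CharZero P := charZero_of_injective_algebraMap (algebraMap K P).injective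
  have hp1 : 1 ≤ p := hp.one_lt.le
  have hpt : 1 ≤ p * τ := Nat.mul_pos hp1 hτ
  refine ⟨fun N => Stb g ζ hζ N, fun a b h => stb_anti g ζ hζ h,
    fun N => gr_stb ι hι g ζ hζ' hζ N, ?_⟩
  intro N₀ N hN hM
  have step : ∀ m : ℕ, p ^ n * N₀ ≤ m → p * τ * m ≤ Mx →
      hd P g (bx n (p * τ * m)) ≤
        2 * (2 * τ) ^ (n + 1) * Nat.card (Stb g ζ hζ N₀) * hd P g (bx n m) := by
    intro m hm hmM
    have hmm : m ≤ p * τ * m := Nat.le_mul_of_pos_left m hpt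
    have h0 : p * τ * m + p ^ n * N₀ ≤ p * (2 * τ * m) + (p - 1) := by
      have : p * (2 * τ * m) = p * τ * m + p * τ * m := by ring
      omega
    have h1 := orbit_ineq g hg.1 ζ hζ (p * τ * m) N₀ (2 * τ * m) h0
    have hmx : m ≤ Mx := hmm.trans hmM
    have h3 : 2 * τ * m ≤ 2 * τ * Mx := Nat.mul_le_mul_left _ hmx
    have h4 : ((2 * τ * m + 1) ^ n : ℕ) ≤ ((2 * τ * Mx + 1) ^ n : ℕ) :=
      Nat.pow_le_pow_left (by omega) n
    have h5 : Real.log (((2 * τ * m + 1) ^ n : ℕ) : ℝ) ≤ Real.log (((2 * τ * Mx + 1) ^ n : ℕ) : ℝ) := by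
      refine Real.log_le_log ?_ (by exact_mod_cast h4)
      exact_mod_cast Nat.pow_pos (Nat.succ_pos _)
    have h6 : ((p * (2 * τ * m) : ℕ) : ℝ) * θ ≤ ((p * (2 * τ * Mx) : ℕ) : ℝ) * θ := by
      refine mul_le_mul_of_nonneg_right ?_ hθ0
      exact_mod_cast Nat.mul_le_mul_left p h3
    have h2 := thmA P X g hg θ hθ p hp hp2 (2 * τ) m (by omega) (by linarith)
    calc hd P g (bx n (p * τ * m)) ≤ Nat.card (Stb g ζ hζ N₀) *
          hd P g ((bx n (2 * τ * m)).image (fun e => (p : ℤ) • e)) := h1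
      _ ≤ Nat.card (Stb g ζ hζ N₀) * (2 * (2 * τ) ^ (n + 1) * hd P g (bx n m)) :=
          Nat.mul_le_mul_left _ h2
      _ = 2 * (2 * τ) ^ (n + 1) * Nat.card (Stb g ζ hζ N₀) * hd P g (bx n m) := by ring
  set C := 2 * (2 * τ) ^ (n + 1) * Nat.card (Stb g ζ hζ N₀) with hC
  have hle : ∀ m : ℕ, m ≤ p * τ * m := fun m => Nat.le_mul_of_pos_left m hpt
  have e4 : (p * τ) ^ 4 * N = p * τ * (p * τ * (p * τ * (p * τ * N))) := by ring
  rw [e4] at hM ⊢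
  have l1 := hle N
  have l2 := hle (p * τ * N)
  have l3 := hle (p * τ * (p * τ * N))
  have l4 := hle (p * τ * (p * τ * (p * τ * N)))
  have s1 := step N hN (l2.trans (l3.trans (l4.trans hM)))
  have s2 := step (p * τ * N) (hN.trans l1) (l3.trans (l4.trans hM))
  have s3 := step (p * τ * (p * τ * N)) (hN.trans (l1.trans l2)) (l4.trans hM)
  have s4 := step (p * τ * (p * τ * (p * τ * N))) (hN.trans (l1.trans (l2.trans l3))) hM
  have t1 := hd_base_le ι hι p s hs g (bx n (p * τ * (p * τ * (p * τ * (p * τ * N)))))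
  have t2 := hd_base_ge ι hι g (bx n N)
  have u : hd P g (bx n (p * τ * (p * τ * (p * τ * (p * τ * N))))) ≤ C ^ 4 * hd P g (bx n N) := by
    calc _ ≤ C * hd P g (bx n (p * τ * (p * τ * (p * τ * N)))) := s4
      _ ≤ C * (C * hd P g (bx n (p * τ * (p * τ * N)))) := Nat.mul_le_mul_left _ s3
      _ ≤ C * (C * (C * hd P g (bx n (p * τ * N)))) :=
          Nat.mul_le_mul_left _ (Nat.mul_le_mul_left _ s2)
      _ ≤ C * (C * (C * (C * hd P g (bx n N)))) :=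
          Nat.mul_le_mul_left _ (Nat.mul_le_mul_left _ (Nat.mul_le_mul_left _ s1))
      _ = C ^ 4 * hd P g (bx n N) := by ring
  calc _ ≤ p * hd P g (bx n (p * τ * (p * τ * (p * τ * (p * τ * N))))) := t1
    _ ≤ p * (C ^ 4 * hd P g (bx n N)) := Nat.mul_le_mul_left _ u
    _ ≤ p * (C ^ 4 * hd L g (bx n N)) := Nat.mul_le_mul_left _ (Nat.mul_le_mul_left _ t2)
    _ = p * C ^ 4 * hd L g (bx n N) := by ring

end Pool.Agent.H11.TS
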