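import Pool.Agent.H11.TS.Hdb

/-!
# THEOREM TS, Stb: the stabiliser of the relations

`tw_add`, `tw_zero`, `tw_mul` (multiplicative in `u` and in `e`) and `Stb g ζ hζ N`: the subspace of the `u ∈ (ℤ/p)^n` whose twist preserves the
relations with coefficients in `P` supported in `[0, N]^n`. `stb_anti`.
-/

set_option autoImplicit false

namespace Pool.Agent.H11.TS

variable {P F : Type} [Field P] [Field F] [Algebra P F] {p n : ℕ} [Fact p.Prime]

theorem pow_val_add (ζ : P) (hζ : ζ ^ p = 1) (a b : ZMod p) :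
    ζ ^ (a + b).val = ζ ^ a.val * ζ ^ b.val := by
  have hp : p ≠ 0 := (Fact.out : p.Prime).ne_zero
  have : NeZero p := ⟨hp⟩
  rw [ZMod.val_add, ← pow_add]
  conv_rhs => rw [← Nat.mod_add_div (a.val + b.val) p, pow_add, pow_mul, hζ, one_pow, mul_one]

theorem tw_add (ζ : P) (hζ : ζ ^ p = 1) (u u' : Fin n → ZMod p) (e : Fin n → ℤ) :
    tw ζ (u + u') e = tw ζ u e * tw ζ u' e := by
  unfold tw
  rw [← pow_val_add ζ hζ, ← Finset.sum_add_distrib]
  congr 2
  exact Finset.sum_congr rfl fun i _ => by rw [Pi.add_apply, add_mul]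

theorem tw_mul (ζ : P) (hζ : ζ ^ p = 1) (u : Fin n → ZMod p) (e e' : Fin n → ℤ) :
    tw ζ u (e + e') = tw ζ u e * tw ζ u e' := by
  unfold tw
  rw [← pow_val_add ζ hζ, ← Finset.sum_add_distrib]
  congr 2
  exact Finset.sum_congr rfl fun i _ => by
    rw [Pi.add_apply]
    push_cast
    ring

theorem tw_zero (ζ : P) (e : Fin n → ℤ) : tw (p := p) ζ 0 e = 1 := by
  have : NeZero p := ⟨(Fact.out : p.Prime).ne_zero⟩
  unfold tw
  simp

theorem tw_zero' (ζ : P) (u : Fin n → ZMod p) : tw ζ u 0 = 1 := by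
  have : NeZero p := ⟨(Fact.out : p.Prime).ne_zero⟩
  unfold tw
  simp

theorem tw_ne_zero (ζ : P) (hζ : ζ ^ p = 1) (u : Fin n → ZMod p) (e : Fin n → ℤ) :
    tw ζ u e ≠ 0 := by
  unfold tw
  refine pow_ne_zero _ ?_
  rintro rfl
  rw [zero_pow (Fact.out : p.Prime).ne_zero] at hζ
  exact zero_ne_one hζ

/-- exponents divisible by `p` are not twisted -/
theorem tw_smul (ζ : P) (u : Fin n → ZMod p) (e : Fin n → ℤ) : tw ζ u ((p : ℤ) • e) = 1 := by
  have : NeZero p := ⟨(Fact.out : p.Prime).ne_zero⟩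
  unfold tw
  have h : ∑ i, u i * ((((p : ℤ) • e) i : ℤ) : ZMod p) = 0 := by
    refine Finset.sum_eq_zero fun i _ => ?_
    rw [Pi.smul_apply, smul_eq_mul]
    push_cast
    simp
  rw [h, ZMod.val_zero, pow_zero]

/-- the stabiliser of the relations supported in `[0, N]^n` -/
def Stb (g : Fin n → F) (ζ : P) (hζ : ζ ^ p = 1) (N : ℕ) : Submodule (ZMod p) (Fin n → ZMod p) where
  carrier := {u | ∀ a : (Fin n → ℤ) → P, ∑ e ∈ bx n N, algebraMap P F (a e) * mz g e = 0 →
    ∑ e ∈ bx n N, algebraMap P F (a e * tw ζ u e) * mz g e = 0}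
  zero_mem' := by
    intro a ha
    rw [← ha]
    refine Finset.sum_congr rfl fun e _ => ?_
    rw [tw_zero, mul_one]
  add_mem' := by
    intro u u' hu hu' a ha
    rw [← hu' (fun e => a e * tw ζ u e) (hu a ha)]
    refine Finset.sum_congr rfl fun e _ => ?_
    rw [tw_add ζ hζ, mul_assoc]
  smul_mem' := by
    intro c u hu
    have : NeZero p := ⟨(Fact.out : p.Prime).ne_zero⟩
    have key : ∀ k : ℕ, ∀ a : (Fin n → ℤ) → P, ∑ e ∈ bx n N, algebraMap P F (a e) * mz g e = 0 →
        ∑ e ∈ bx n N, algebraMap P F (a e * tw ζ (k • u) e) * mz g e = 0 := by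
      intro k
      induction k with
      | zero =>
        intro a ha
        rw [← ha]
        refine Finset.sum_congr rfl fun e _ => ?_
        rw [zero_smul, tw_zero, mul_one]
      | succ k ih =>
        intro a ha
        rw [← hu (fun e => a e * tw ζ (k • u) e) (ih a ha)]
        refine Finset.sum_congr rfl fun e _ => ?_
        rw [succ_nsmul, tw_add ζ hζ, mul_assoc]
    intro a ha
    have h1 : c • u = c.val • u := by
      conv_lhs => rw [← ZMod.natCast_zmod_val c]
      rw [Nat.cast_smul_eq_nsmul]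
    rw [h1]
    exact key c.val a ha

theorem stb_anti (g : Fin n → F) (ζ : P) (hζ : ζ ^ p = 1) {N N' : ℕ} (h : N ≤ N') :
    Stb g ζ hζ N' ≤ Stb g ζ hζ N := by
  classical
  intro u hu a ha
  have hsub : bx n N ⊆ bx n N' := by
    intro e he
    rw [mem_bx] at he ⊢
    intro i
    have h1 := he i
    have h2 : (N : ℤ) ≤ N' := by exact_mod_cast h
    exact ⟨h1.1, h1.2.trans h2⟩
  have h1 : ∀ b : (Fin n → ℤ) → P, ∑ e ∈ bx n N', algebraMap P F (if e ∈ bx n N then b e else 0) * mz g e =
      ∑ e ∈ bx n N, algebraMap P F (b e) * mz g e := by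
    intro b
    rw [← Finset.sum_subset hsub]
    · refine Finset.sum_congr rfl fun e he => ?_
      rw [if_pos he]
    · intro e _ he
      rw [if_neg he, map_zero, zero_mul]
  have h2 := hu (fun e => if e ∈ bx n N then a e else 0) (by rw [h1 a]; exact ha)
  rw [← h1 (fun e => a e * tw ζ u e), ← h2]
  refine Finset.sum_congr rfl fun e _ => ?_
  split_ifs
  · rfl
  · rw [zero_mul]

/-- the functions on the translates given by the polynomials with exponents in `[0, N]^n` -/
noncomputable def WN (p : ℕ) (g : Fin n → F) (ζ : P) (N : ℕ) : Submodule P ((Fin n → ZMod p) → F) :=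
  Submodule.span P ((fun (e : Fin n → ℤ) (u : Fin n → ZMod p) => algebraMap P F (tw ζ u e) * mz g e) ''
    (bx n N : Set (Fin n → ℤ)))

end Pool.Agent.H11.TS
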