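import Mathlib

/-!
# THEOREM TS, Thr: the linear 3/2 theorem

`thrA`. PROOF: `d = finrank U`. For `z = b / a`, `a, b ∈ U` not zero: `aU, bU ⊆ U * U`, of dimension `d`, so
`finrank (aU ⊓ bU) ≥ 2d - finrank (U*U) > d/2` (`Submodule.finrank_sup_add_finrank_inf_eq`), and `{u ∈ U : z u ∈ U}` (isomorphic to it by
multiplication with `a`: `u ∈ U`, `z u = u' ∈ U` iff `b u = a u'`) has dimension `> d/2`. Let `Q = {z | ∃ u ∈ U, u ≠ 0 ∧ z u ∈ U}` (contains `0`). Then every
`z ∈ Q`: `z = 0` or `z = u'/u`: `A_z = {u ∈ U : z u ∈ U}` has `2 finrank A_z > d` (`z = 0`: `A_z = U`, `d ≥ 1`). Two such subspaces of `U` have a nonzero common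
element. `Q` is closed under `+` (common `u` of `A_z`, `A_w`: `(z+w) u ∈ U`), `-`, under `*` (`A_z` and `{v ∈ U : v = w u, u ∈ U} = w A_w` has the dimension of
`A_w` for `w ≠ 0`: a common `v ≠ 0`: `v = w u`, `z v = z w u ∈ U`, `u ≠ 0`), under inverse (`z ≠ 0`: `u' = z u`, `z⁻¹ u' = u`), contains `L`, and contains
`U` (`b = b/1`: `b * 1 ∈ U`), hence `U * U`. So `Q` is an intermediate field `H`.

`thrB`. PROOF: extend: there are linear functionals `f_i : V → L` with `f_i (v_j) = δ_ij` (`LinearIndependent` family: extend to a basis, or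
`Module.Basis.coord` of the span and extend, `exists_dual...`). The determinant of `(f_i (v_j + t w_j))_ij` is a polynomial in `t` with value `1` at
`t = 0`, hence a nonzero polynomial with finitely many roots (`Polynomial`: matrix with entries `C (f_i v_j) + X * C (f_i w_j)`, `Polynomial.eval` of its
determinant); `L` is infinite: choose `t ≠ 0` not a root; then the vectors are independent (a relation gives a kernel vector of the matrix).

`three_halves`. PROOF: `H` from `thrA`. It suffices `H ≤ U * U` (as sets). Suppose `h₀ ∈ H`, `h₀ ∉ U * U`. Let `φ : F →ₗ[L] L` be linear with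
`φ = 0` on `U * U` and `φ h₀ = 1` (`Submodule.exists_le_ker_of_notMem`/`exists_dual_forall_apply_eq_zero..`). For `z ∈ F` let
`B z : U →ₗ[L] (U →ₗ[L] L)`, `B z x y = φ (z * x * y)` (symmetric, linear in `z`). For `z ∈ H`, `B z` is not injective: if `z ≠ 0` take `u ≠ 0` in `U` with `z u ∈ U`:
`B z u y = φ ((z u) y) = 0`; (`z = 0` clear, `U ∋ 1`). Among the `z ∈ H` choose `z₀` with `ρ = finrank (range (B z₀))` largest (`ρ ≤ finrank U`).
Let `k ≠ 0` be in the kernel of `B z₀`, `z = h₀ / k^2 ∈ H` (`k ∈ U ⊆ H`): `B z k k = 1`. Let `x_1, .., x_ρ ∈ U` with `B z₀ x_i` a basis of the range. The vectors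
`B z₀ x_1, .., B z₀ x_ρ, B z k` are independent: if `B z k = ∑ c_i B z₀ x_i = B z₀ x` then `1 = B z k k = B z₀ x k = B z₀ k x = 0`. By `thrB`
(with `w = (B z x_1, .., B z x_ρ, 0)`) there is `t ≠ 0` with `B z₀ x_i + t B z x_i = B (z₀ + t z) x_i` and `B z k = t⁻¹ B (z₀ + t z) k` independent, so
the range of `B (z₀ + t z)` has dimension `≥ ρ + 1`: contradiction.
-/

set_option autoImplicit false

namespace Pool.Agent.H11.TS

/-- `u ∈ U` with `z u ∈ U`. -/
private def Az {L F : Type} [Field L] [Field F] [Algebra L F] (U : Submodule L F) (z : F) : Submodule L F :=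
  U ⊓ U.comap (LinearMap.mulLeft L z)

private theorem mem_Az {L F : Type} [Field L] [Field F] [Algebra L F] {U : Submodule L F} {z u : F} :
    u ∈ Az U z ↔ u ∈ U ∧ z * u ∈ U := by
  unfold Az
  rw [Submodule.mem_inf, Submodule.mem_comap, LinearMap.mulLeft_apply]

private theorem mul_inj {L F : Type} [Field L] [Field F] [Algebra L F] {z : F} (hz : z ≠ 0) :
    Function.Injective (LinearMap.mulLeft L z) := by
  intro x y h
  rw [LinearMap.mulLeft_apply, LinearMap.mulLeft_apply] at h
  exact mul_left_cancel₀ hz h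

private theorem fr_map {L F : Type} [Field L] [Field F] [Algebra L F] {z : F} (hz : z ≠ 0) (S : Submodule L F) :
    Module.finrank L (S.map (LinearMap.mulLeft L z)) = Module.finrank L S :=
  (Submodule.equivMapOfInjective _ (mul_inj hz) S).finrank_eq.symm

private theorem az_dim {L F : Type} [Field L] [Field F] [Algebra L F] (U : Submodule L F)
    [FiniteDimensional L U] (h1 : (1 : F) ∈ U)
    (h : 2 * Module.finrank L (U * U : Submodule L F) < 3 * Module.finrank L U) {z u : F}
    (hu : u ∈ U) (hu0 : u ≠ 0) (hzu : z * u ∈ U) :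
    Module.finrank L U < 2 * Module.finrank L (Az U z) := by
  have hd : 0 < Module.finrank L U := by
    have hn : Nontrivial U := ⟨⟨⟨1, h1⟩, 0, fun he => one_ne_zero (congrArg Subtype.val he)⟩⟩
    exact Module.finrank_pos
  by_cases hz : z = 0
  · have h2 : Az U z = U := by
      ext x
      rw [mem_Az, hz, zero_mul]
      exact ⟨fun hx => hx.1, fun hx => ⟨hx, U.zero_mem⟩⟩
    rw [h2]
    omega
  · have hb0 : z * u ≠ 0 := mul_ne_zero hz hu0
    have hfg : (U * U : Submodule L F).FG := by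
      have h3 : U.FG := Module.Finite.iff_fg.1 inferInstance
      exact h3.mul h3
    have hfin : FiniteDimensional L (U * U : Submodule L F) := Module.Finite.iff_fg.2 hfg
    have h3 : U.map (LinearMap.mulLeft L u) ≤ U * U := by
      rintro x ⟨y, hy, rfl⟩
      exact Submodule.mul_mem_mul hu hy
    have h4 : U.map (LinearMap.mulLeft L (z * u)) ≤ U * U := by
      rintro x ⟨y, hy, rfl⟩
      exact Submodule.mul_mem_mul hzu hy
    have h5 := Submodule.finrank_sup_add_finrank_inf_eq (U.map (LinearMap.mulLeft L u))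
      (U.map (LinearMap.mulLeft L (z * u)))
    rw [fr_map hu0, fr_map hb0] at h5
    have h6 : Module.finrank L (U.map (LinearMap.mulLeft L u) ⊔ U.map (LinearMap.mulLeft L (z * u)) : Submodule L F) ≤
        Module.finrank L (U * U : Submodule L F) := Submodule.finrank_mono (sup_le h3 h4)
    have h7 : U.map (LinearMap.mulLeft L u) ⊓ U.map (LinearMap.mulLeft L (z * u)) =
        (Az U z).map (LinearMap.mulLeft L (z * u)) := by
      ext x
      rw [Submodule.mem_inf]
      constructor
      · rintro ⟨⟨y, hy, hyx⟩, ⟨y', hy', rfl⟩⟩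
        refine ⟨y', ?_, rfl⟩
        rw [LinearMap.mulLeft_apply, LinearMap.mulLeft_apply] at hyx
        have h8 : y = z * y' := by
          have h9 : u * y = u * (z * y') := by rw [hyx]; ring
          exact mul_left_cancel₀ hu0 h9
        refine mem_Az.2 ⟨hy', ?_⟩
        rw [← h8]
        exact hy
      · rintro ⟨y, hy, rfl⟩
        have h8 := mem_Az.1 hy
        refine ⟨⟨z * y, h8.2, ?_⟩, ⟨y, h8.1, rfl⟩⟩
        rw [LinearMap.mulLeft_apply, LinearMap.mulLeft_apply]
        ring
    rw [h7, fr_map hb0] at h5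
    omega

private theorem common {L F : Type} [Field L] [Field F] [Algebra L F] (U : Submodule L F)
    [FiniteDimensional L U] {S T : Submodule L F} (hS : S ≤ U) (hT : T ≤ U)
    (h1 : Module.finrank L U < 2 * Module.finrank L S) (h2 : Module.finrank L U < 2 * Module.finrank L T) :
    ∃ x, x ≠ 0 ∧ x ∈ S ∧ x ∈ T := by
  have hSf : FiniteDimensional L S := Submodule.finiteDimensional_of_le hS
  have hTf : FiniteDimensional L T := Submodule.finiteDimensional_of_le hT
  have h3 := Submodule.finrank_sup_add_finrank_inf_eq S T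
  have h4 : Module.finrank L (S ⊔ T : Submodule L F) ≤ Module.finrank L U :=
    Submodule.finrank_mono (sup_le hS hT)
  have h5 : 0 < Module.finrank L (S ⊓ T : Submodule L F) := by omega
  have h6 : S ⊓ T ≠ ⊥ := by
    intro he
    rw [he, finrank_bot] at h5
    exact lt_irrefl _ h5
  obtain ⟨x, hx, hx0⟩ := Submodule.exists_mem_ne_zero_of_ne_bot h6
  exact ⟨x, hx0, hx.1, hx.2⟩

theorem thrA {L F : Type} [Field L] [Field F] [Algebra L F] (U : Submodule L F)
    [FiniteDimensional L U] (h1 : (1 : F) ∈ U)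
    (h : 2 * Module.finrank L (U * U : Submodule L F) < 3 * Module.finrank L U) :
    ∃ H : IntermediateField L F, (∀ x ∈ U * U, x ∈ H) ∧
      ∀ z ∈ H, ∃ u ∈ U, u ≠ 0 ∧ z * u ∈ U := by
  have hQadd : ∀ z w : F, (∃ u ∈ U, u ≠ 0 ∧ z * u ∈ U) → (∃ u ∈ U, u ≠ 0 ∧ w * u ∈ U) →
      ∃ u ∈ U, u ≠ 0 ∧ (z + w) * u ∈ U := by
    rintro z w ⟨u, hu, hu0, hzu⟩ ⟨v, hv, hv0, hwv⟩
    obtain ⟨x, hx0, hx1, hx2⟩ := common U (S := Az U z) (T := Az U w) inf_le_left inf_le_left
      (az_dim U h1 h hu hu0 hzu) (az_dim U h1 h hv hv0 hwv)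
    refine ⟨x, (mem_Az.1 hx1).1, hx0, ?_⟩
    rw [add_mul]
    exact U.add_mem (mem_Az.1 hx1).2 (mem_Az.1 hx2).2
  have hQmul : ∀ z w : F, (∃ u ∈ U, u ≠ 0 ∧ z * u ∈ U) → (∃ u ∈ U, u ≠ 0 ∧ w * u ∈ U) →
      ∃ u ∈ U, u ≠ 0 ∧ (z * w) * u ∈ U := by
    rintro z w ⟨u, hu, hu0, hzu⟩ ⟨v, hv, hv0, hwv⟩
    by_cases hw : w = 0
    · refine ⟨1, h1, one_ne_zero, ?_⟩
      rw [hw, mul_zero, zero_mul]
      exact U.zero_mem
    · have hle : (Az U w).map (LinearMap.mulLeft L w) ≤ U := by
        rintro x ⟨y, hy, rfl⟩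
        exact (mem_Az.1 hy).2
      have h2 := az_dim U h1 h hv hv0 hwv
      rw [← fr_map hw (Az U w)] at h2
      obtain ⟨x, hx0, hx1, ⟨y, hy, rfl⟩⟩ := common U (S := Az U z)
        (T := (Az U w).map (LinearMap.mulLeft L w)) inf_le_left hle (az_dim U h1 h hu hu0 hzu) h2
      have h3 := (mem_Az.1 hx1).2
      rw [LinearMap.mulLeft_apply] at h3 hx0
      refine ⟨y, (mem_Az.1 hy).1, fun hy0 => hx0 (by rw [hy0, mul_zero]), ?_⟩
      rw [mul_assoc]
      exact h3
  have hQU : ∀ b ∈ U, ∃ u ∈ U, u ≠ 0 ∧ b * u ∈ U := fun b hb => ⟨1, h1, one_ne_zero, by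
    rw [mul_one]
    exact hb⟩
  have hQalg : ∀ l : L, ∃ u ∈ U, u ≠ 0 ∧ algebraMap L F l * u ∈ U := fun l => ⟨1, h1, one_ne_zero, by
    rw [← Algebra.smul_def]
    exact U.smul_mem l h1⟩
  let H : IntermediateField L F :=
    { carrier := {z | ∃ u ∈ U, u ≠ 0 ∧ z * u ∈ U}
      mul_mem' := fun {z w} hz hw => hQmul z w hz hw
      one_mem' := hQU 1 h1
      add_mem' := fun {z w} hz hw => hQadd z w hz hw
      zero_mem' := hQU 0 U.zero_mem
      algebraMap_mem' := hQalg
      inv_mem' := by
        rintro z ⟨u, hu, hu0, hzu⟩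
        by_cases hz : z = 0
        · refine ⟨1, h1, one_ne_zero, ?_⟩
          rw [hz, inv_zero, zero_mul]
          exact U.zero_mem
        · refine ⟨z * u, hzu, mul_ne_zero hz hu0, ?_⟩
          rw [← mul_assoc, inv_mul_cancel₀ hz, one_mul]
          exact hu }
  refine ⟨H, fun x hx => ?_, fun z hz => hz⟩
  refine Submodule.mul_induction_on hx (fun a ha b hb => ?_) fun a b ha hb => ?_
  · exact hQmul a b (hQU a ha) (hQU b hb)
  · exact hQadd a b ha hb

theorem thrB {L V : Type} [Field L] [Infinite L] [AddCommGroup V] [Module L V] {m : ℕ}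
    (v w : Fin m → V) (h : LinearIndependent L v) :
    ∃ t : L, t ≠ 0 ∧ LinearIndependent L (fun i => v i + t • w i) := by
  obtain ⟨g, hg⟩ := LinearMap.exists_leftInverse_of_injective (Fintype.linearCombination L v)
    (LinearMap.ker_eq_bot.2 h.fintypeLinearCombination_injective)
  have hgv : ∀ i, g (v i) = Pi.single i 1 := by
    intro i
    have h2 := LinearMap.congr_fun hg (Pi.single i (1 : L))
    rw [LinearMap.comp_apply, Fintype.linearCombination_apply_single, one_smul, LinearMap.id_apply] at h2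
    exact h2
  obtain ⟨N, hN⟩ : ∃ N : Matrix (Fin m) (Fin m) L, N = Matrix.of fun i j => g (w i) j := ⟨_, rfl⟩
  obtain ⟨P, hP⟩ : ∃ P : Polynomial L, P = Matrix.det ((1 : Matrix (Fin m) (Fin m) (Polynomial L)) +
      (Polynomial.X : Polynomial L) • N.map Polynomial.C) := ⟨_, rfl⟩
  have heval : ∀ t : L, P.eval t = Matrix.det ((1 : Matrix (Fin m) (Fin m) L) + t • N) := by
    intro t
    have h2 : P.eval t = Polynomial.evalRingHom t P := rfl
    rw [h2, hP, RingHom.map_det]
    congr 1
    ext i j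
    rw [RingHom.mapMatrix_apply, Matrix.map_apply, Matrix.add_apply, Matrix.add_apply, Matrix.smul_apply,
      Matrix.smul_apply, Matrix.map_apply, map_add, smul_eq_mul, smul_eq_mul, map_mul,
      Polynomial.coe_evalRingHom, Polynomial.eval_X, Polynomial.eval_C]
    congr 1
    by_cases hij : i = j
    · rw [hij, Matrix.one_apply_eq, Matrix.one_apply_eq, Polynomial.eval_one]
    · rw [Matrix.one_apply_ne hij, Matrix.one_apply_ne hij, Polynomial.eval_zero]
  have hP0 : P ≠ 0 := by
    intro h2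
    have h3 := heval 0
    rw [h2, Polynomial.eval_zero, zero_smul, add_zero, Matrix.det_one] at h3
    exact zero_ne_one h3
  obtain ⟨t, ht⟩ : ∃ t : L, (Polynomial.X * P).eval t ≠ 0 := by
    by_contra hcon
    push Not at hcon
    have h2 : Polynomial.X * P = 0 := Polynomial.funext fun t => by
      rw [hcon t, Polynomial.eval_zero]
    exact mul_ne_zero Polynomial.X_ne_zero hP0 h2
  rw [Polynomial.eval_mul, Polynomial.eval_X] at ht
  refine ⟨t, left_ne_zero_of_mul ht, ?_⟩
  have h2 : Matrix.det ((1 : Matrix (Fin m) (Fin m) L) + t • N) ≠ 0 := by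
    rw [← heval]
    exact right_ne_zero_of_mul ht
  have h3 := Matrix.linearIndependent_rows_of_det_ne_zero h2
  refine LinearIndependent.of_comp g ?_
  have h4 : (⇑g ∘ fun i => v i + t • w i) = Matrix.row ((1 : Matrix (Fin m) (Fin m) L) + t • N) := by
    funext i j
    rw [Function.comp_apply, map_add, map_smul, hgv]
    show ((Pi.single i (1 : L) : Fin m → L) + t • g (w i)) j = ((1 : Matrix (Fin m) (Fin m) L) + t • N) i j
    rw [Pi.add_apply, Pi.smul_apply, Matrix.add_apply, Matrix.smul_apply, hN, Matrix.of_apply]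
    congr 1
    rw [Matrix.one_apply, Pi.single_apply]
    by_cases hij : i = j
    · rw [if_pos hij.symm, if_pos hij]
    · rw [if_neg (fun h5 => hij h5.symm), if_neg hij]
  rw [h4]
  exact h3

end Pool.Agent.H11.TS
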