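import Pool.Agent.H11.TS.Thr

/-!
# THEOREM TS, Thr2: the linear 3/2 theorem

`three_halves`. PROOF in the header of `Thr.lean` (last paragraph); `thrA`, `thrB` may be sorried.
-/

set_option autoImplicit false

namespace Pool.Agent.H11.TS

private theorem rank_step {L V W : Type} [Field L] [Infinite L] [AddCommGroup V] [Module L V]
    [FiniteDimensional L V] [AddCommGroup W] [Module L W] (B C : V →ₗ[L] W) (k : V)
    (hk : B k = 0) (hn : C k ∉ LinearMap.range B) :
    ∃ t : L, t ≠ 0 ∧ Module.finrank L (LinearMap.range B) + 1 ≤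
      Module.finrank L (LinearMap.range (B + t • C)) := by
  classical
  set ρ := Module.finrank L (LinearMap.range B) with hρ
  let b := Module.finBasis L (LinearMap.range B)
  have hb : ∀ i, ∃ x : V, B x = (b i : W) := fun i => (b i).2
  choose xs hxs using hb
  have hli : LinearIndependent L (fun i => B (xs i)) := by
    have h2 : (fun i => B (xs i)) = (LinearMap.range B).subtype ∘ b := by
      funext i
      rw [hxs i]
      rfl
    rw [h2]
    exact b.linearIndependent.map' _ (Submodule.ker_subtype _)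
  have hspan : Submodule.span L (Set.range fun i => B (xs i)) ≤ LinearMap.range B := by
    rw [Submodule.span_le]
    rintro _ ⟨i, rfl⟩
    exact ⟨xs i, rfl⟩
  have hli2 : LinearIndependent L (Fin.cons (C k) (fun i => B (xs i)) : Fin (ρ + 1) → W) :=
    linearIndependent_finCons.2 ⟨hli, fun hm => hn (hspan hm)⟩
  obtain ⟨t, ht, hli3⟩ := thrB _ (Fin.cons 0 (fun i => C (xs i)) : Fin (ρ + 1) → W) hli2
  refine ⟨t, ht, ?_⟩
  have hmem : ∀ i, (Fin.cons (C k) (fun i => B (xs i)) : Fin (ρ + 1) → W) i +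
      t • (Fin.cons 0 (fun i => C (xs i)) : Fin (ρ + 1) → W) i ∈ LinearMap.range (B + t • C) := by
    intro i
    refine Fin.cases ?_ (fun i => ?_) i
    · rw [Fin.cons_zero, Fin.cons_zero, smul_zero, add_zero]
      refine ⟨t⁻¹ • k, ?_⟩
      rw [map_smul, LinearMap.add_apply, LinearMap.smul_apply, hk, zero_add, smul_smul,
        inv_mul_cancel₀ ht, one_smul]
    · rw [Fin.cons_succ, Fin.cons_succ]
      exact ⟨xs i, rfl⟩
  have hli4 : LinearIndependent L (fun i => (⟨_, hmem i⟩ : LinearMap.range (B + t • C))) :=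
    LinearIndependent.of_comp (LinearMap.range (B + t • C)).subtype hli3
  have h5 := hli4.fintype_card_le_finrank
  rwa [Fintype.card_fin] at h5

/-- the bilinear form `(x, y) ↦ φ (z * x * y)` on `U` -/
private noncomputable def bfm {L F : Type} [Field L] [Field F] [Algebra L F] (U : Submodule L F)
    (φ : F →ₗ[L] L) (z : F) : U →ₗ[L] (U →ₗ[L] L) :=
  LinearMap.mk₂ L (fun x y : U => φ (z * (x : F) * (y : F)))
    (fun x x' y => by
      rw [← map_add]
      congr 1
      push_cast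
      ring)
    (fun c x y => by
      rw [← map_smul]
      congr 1
      rw [Submodule.coe_smul, mul_smul_comm, smul_mul_assoc])
    (fun x y y' => by
      rw [← map_add]
      congr 1
      push_cast
      ring)
    (fun c x y => by
      rw [← map_smul]
      congr 1
      rw [Submodule.coe_smul, mul_smul_comm])

private theorem bfm_apply {L F : Type} [Field L] [Field F] [Algebra L F] (U : Submodule L F)
    (φ : F →ₗ[L] L) (z : F) (x y : U) : bfm U φ z x y = φ (z * (x : F) * (y : F)) := rfl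

private theorem bfm_add {L F : Type} [Field L] [Field F] [Algebra L F] (U : Submodule L F)
    (φ : F →ₗ[L] L) (z w : F) (t : L) : bfm U φ (z + t • w) = bfm U φ z + t • bfm U φ w := by
  refine LinearMap.ext fun x => LinearMap.ext fun y => ?_
  rw [LinearMap.add_apply, LinearMap.add_apply, LinearMap.smul_apply, LinearMap.smul_apply,
    bfm_apply, bfm_apply, bfm_apply, ← map_smul, ← map_add]
  congr 1
  rw [add_mul, add_mul, smul_mul_assoc, smul_mul_assoc]

private theorem bfm_step {L F : Type} [Field L] [Infinite L] [Field F] [Algebra L F]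
    (U : Submodule L F) [FiniteDimensional L U] (H : IntermediateField L F) (hU : ∀ u ∈ U, u ∈ H)
    (φ : F →ₗ[L] L) (x₀ : F) (hx₀ : x₀ ∈ H) (hφ : φ x₀ = 1)
    (z₀ : F) (hz₀ : z₀ ∈ H) (k : U) (hk : k ≠ 0) (hk0 : bfm U φ z₀ k = 0) :
    ∃ z₁ ∈ H, Module.finrank L (LinearMap.range (bfm U φ z₀)) + 1 ≤
      Module.finrank L (LinearMap.range (bfm U φ z₁)) := by
  have hk' : (k : F) ≠ 0 := fun h => hk (Subtype.ext h)
  have hzH : x₀ / (k : F) ^ 2 ∈ H := H.div_mem hx₀ (pow_mem (hU _ k.2) 2)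
  have hzk : x₀ / (k : F) ^ 2 * (k : F) * (k : F) = x₀ := by
    field_simp
  have hnot : bfm U φ (x₀ / (k : F) ^ 2) k ∉ LinearMap.range (bfm U φ z₀) := by
    rintro ⟨y, hy⟩
    have e1 : bfm U φ (x₀ / (k : F) ^ 2) k k = 1 := by
      rw [bfm_apply, hzk, hφ]
    have e2 : bfm U φ z₀ y k = 0 := by
      have e3 : bfm U φ z₀ y k = bfm U φ z₀ k y := by
        rw [bfm_apply, bfm_apply]
        congr 1
        ring
      rw [e3, hk0]
      rfl
    rw [hy, e1] at e2
    exact one_ne_zero e2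
  obtain ⟨t, _, h2⟩ := rank_step (bfm U φ z₀) (bfm U φ (x₀ / (k : F) ^ 2)) k hk0 hnot
  rw [← bfm_add] at h2
  exact ⟨_, H.add_mem hz₀ (H.smul_mem hzH), h2⟩

theorem three_halves {L F : Type} [Field L] [Infinite L] [Field F] [Algebra L F]
    (U : Submodule L F) [FiniteDimensional L U] (h1 : (1 : F) ∈ U)
    (h : 2 * Module.finrank L (U * U : Submodule L F) < 3 * Module.finrank L U) :
    ∃ H : IntermediateField L F, ∀ x, x ∈ H ↔ x ∈ U * U := by
  obtain ⟨H, hH1, hH2⟩ := thrA U h1 h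
  refine ⟨H, fun x₀ => ⟨fun hx₀ => ?_, hH1 x₀⟩⟩
  by_contra hx1
  obtain ⟨φ, hφ1, hφ2⟩ : ∃ φ : F →ₗ[L] L, φ x₀ = 1 ∧ ∀ y ∈ U * U, φ y = 0 := by
    obtain ⟨f, hf1, hf2⟩ := Submodule.exists_le_ker_of_notMem hx1
    refine ⟨(f x₀)⁻¹ • f, ?_, fun y hy => ?_⟩
    · rw [LinearMap.smul_apply, smul_eq_mul, inv_mul_cancel₀ hf1]
    · rw [LinearMap.smul_apply, LinearMap.mem_ker.1 (hf2 hy), smul_zero]
  have hU : ∀ u ∈ U, u ∈ H := by
    intro u hu
    have := hH1 _ (Submodule.mul_mem_mul hu h1)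
    rwa [mul_one] at this
  have hker : ∀ z ∈ H, ∃ k : U, k ≠ 0 ∧ bfm U φ z k = 0 := by
    intro z hz
    obtain ⟨u, hu, hu0, hzu⟩ := hH2 z hz
    refine ⟨⟨u, hu⟩, fun h => hu0 (congrArg Subtype.val h), LinearMap.ext fun y => ?_⟩
    rw [bfm_apply, LinearMap.zero_apply]
    exact hφ2 _ (Submodule.mul_mem_mul hzu y.2)
  have hall : ∀ m : ℕ, ∃ z ∈ H, m ≤ Module.finrank L (LinearMap.range (bfm U φ z)) := by
    intro m
    induction m with
    | zero => exact ⟨0, H.zero_mem, Nat.zero_le _⟩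
    | succ m ih =>
      obtain ⟨z, hz, hm⟩ := ih
      obtain ⟨k, hk, hk0⟩ := hker z hz
      obtain ⟨z₁, hz₁, h2⟩ := bfm_step U H hU φ x₀ hx₀ hφ1 z hz k hk hk0
      exact ⟨z₁, hz₁, (Nat.add_le_add_right hm 1).trans h2⟩
  obtain ⟨z, _, hm⟩ := hall (Module.finrank L U + 1)
  have h3 := LinearMap.finrank_range_le (bfm U φ z)
  omega

end Pool.Agent.H11.TS
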