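import Mathlib

/-!
# THEOREM TS, Vdf: valuations trivial on a subfield, residues, graded pieces (definitions)

`VR k₀ v res`: `v` is a valuation of `F`, `≤ 1` on the subfield `k₀`, and `res : F → κ` is additive and multiplicative on `{v ≤ 1}` with kernel
`{v < 1}`, compatible with `k₀` (its values outside `{v ≤ 1}` are irrelevant).
`gp v res h V t`: the graded piece `{res (f / t) : f ∈ V, v f ≤ v t}`, a `k₀`-subspace of `κ` (for `t ≠ 0`).
-/

set_option autoImplicit false

namespace Pool.Agent.H11.TS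

/-- a valuation trivial on `k₀` with its residue map -/
structure VR (k₀ : Type) {F Γ κ : Type} [Field k₀] [Field F] [Algebra k₀ F]
    [LinearOrderedCommGroupWithZero Γ] [Field κ] [Algebra k₀ κ] (v : Valuation F Γ)
    (res : F → κ) : Prop where
  alg : ∀ c : k₀, v (algebraMap k₀ F c) ≤ 1
  add : ∀ x y, v x ≤ 1 → v y ≤ 1 → res (x + y) = res x + res y
  mul : ∀ x y, v x ≤ 1 → v y ≤ 1 → res (x * y) = res x * res y
  zero_iff : ∀ x, v x ≤ 1 → (res x = 0 ↔ v x < 1)
  res_alg : ∀ c : k₀, res (algebraMap k₀ F c) = algebraMap k₀ κ c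

variable {k₀ F Γ κ : Type} [Field k₀] [Field F] [Algebra k₀ F] [LinearOrderedCommGroupWithZero Γ]
  [Field κ] [Algebra k₀ κ] {v : Valuation F Γ} {res : F → κ}

theorem VR.one (h : VR k₀ v res) : res 1 = 1 := by
  have h1 := h.res_alg 1
  rwa [map_one, map_one] at h1

/-- the graded piece -/
def gp (h : VR k₀ v res) (V : Submodule k₀ F) (t : F) (ht : t ≠ 0) : Submodule k₀ κ where
  carrier := {a | ∃ f ∈ V, v f ≤ v t ∧ res (f / t) = a}
  zero_mem' := by
    refine ⟨0, V.zero_mem, ?_, ?_⟩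
    · rw [map_zero]
      exact zero_le
    · rw [zero_div]
      have h1 := h.res_alg 0
      rwa [map_zero, map_zero] at h1
  add_mem' := by
    rintro a b ⟨f, hf, hft, rfl⟩ ⟨f', hf', hft', rfl⟩
    have hvt : v t ≠ 0 := (Valuation.ne_zero_iff v).2 ht
    have h1 : v (f / t) ≤ 1 := by
      rw [map_div₀]
      exact div_le_one_of_le₀ hft zero_le
    have h2 : v (f' / t) ≤ 1 := by
      rw [map_div₀]
      exact div_le_one_of_le₀ hft' zero_le
    refine ⟨f + f', V.add_mem hf hf', (v.map_add f f').trans (max_le hft hft'), ?_⟩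
    rw [add_div, h.add _ _ h1 h2]
  smul_mem' := by
    rintro c a ⟨f, hf, hft, rfl⟩
    have h1 : v (f / t) ≤ 1 := by
      rw [map_div₀]
      exact div_le_one_of_le₀ hft zero_le
    refine ⟨c • f, V.smul_mem c hf, ?_, ?_⟩
    · rw [Algebra.smul_def, map_mul]
      calc v (algebraMap k₀ F c) * v f ≤ 1 * v t := mul_le_mul' (h.alg c) hft
        _ = v t := one_mul _
    · rw [Algebra.smul_def, mul_div_assoc, h.mul _ _ (h.alg c) h1, h.res_alg, Algebra.smul_def]

theorem mem_gp (h : VR k₀ v res) (V : Submodule k₀ F) (t : F) (ht : t ≠ 0) (a : κ) :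
    a ∈ gp h V t ht ↔ ∃ f ∈ V, v f ≤ v t ∧ res (f / t) = a := Iff.rfl

end Pool.Agent.H11.TS
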