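import Pool.Agent.H11.TS.Vdf

/-!
# THEOREM TS, Vex: existence of the valuation

`exists_val`. PROOF (Chevalley): `y : Fin (d+1) → F` algebraically independent over `k₀`, `S = k₀[y]` (`Algebra.adjoin`/the range of `aeval y`, isomorphic to
`MvPolynomial (Fin (d+1)) k₀` by `hy`), `𝔮 ⊂ S` the prime ideal generated by `y_d` (`y_d` the last one; `X (last)` is prime in the polynomial ring, the quotient
is the polynomial ring in the others), `R = S_𝔮 ⊂ F` the local subring (localization at the complement, inside `F`). There is a valuation subring `O` of `F` with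
`R ⊆ O` and (maximal ideal of `O`) `∩ R` = the maximal ideal of `R` (Mathlib: `Mathlib/RingTheory/Valuation/LocalSubring.lean`,
`LocalSubring.exists_le_valuationSubring`: every local subring is dominated by a valuation subring). `Γ = O.ValueGroup`, `v = O.valuation`, `κ` = the residue
field of `O` (`IsLocalRing.ResidueField O`), an algebra over `k₀` by `k₀ → R → O → κ`, `res x` = the residue of `x` if `x ∈ O` (`v x ≤ 1`), `0` otherwise.
`v y_d < 1` as `y_d` is in the maximal ideal. The residues of `y_0, .., y_(d-1)`: for a nonzero polynomial `p` in `d` variables over `k₀` the element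
`p(y_0, .., y_(d-1)) ∈ S` is not in `𝔮`, so a unit of `R`, so its residue is not `0`: algebraically independent.
(An alternative: any `O` obtained from a maximal element by Zorn. Or: use a valuation of `k₀(y)` given by the `y_d`-adic order and extend it.)
-/

set_option autoImplicit false

namespace Pool.Agent.H11.TS

open IntermediateField.algebraAdjoinAdjoin in
private theorem vex_tr {k₀ F : Type} [Field k₀] [Field F] [Algebra k₀ F] (S : Set F) (x : F)
    (h : Transcendental (Algebra.adjoin k₀ S) x) :
    Transcendental (IntermediateField.adjoin k₀ S) x := fun h1 =>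
  h ((IsFractionRing.isAlgebraic_iff (Algebra.adjoin k₀ S) (IntermediateField.adjoin k₀ S) F).2 h1)

open Polynomial in
private theorem vex_top {L F : Type} [Field L] [Field F] [Algebra L F] (x : F)
    (h : Transcendental L x) (t : (Algebra.adjoin L {x}).toSubring) (ht : (t : F) = x) :
    Ideal.span {t} ≠ ⊤ := by
  intro h1
  rw [Ideal.span_singleton_eq_top] at h1
  obtain ⟨u, hu⟩ := h1.exists_right_inv
  obtain ⟨f, hf⟩ : (u : F) ∈ (aeval x : L[X] →ₐ[L] F).range :=
    (Algebra.adjoin_singleton_eq_range_aeval L x) ▸ u.2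
  refine h ⟨X * f - 1, ?_, ?_⟩
  · intro h3
    have h4 := congrArg (fun g => coeff g 0) h3
    simp at h4
  · have h5 : (t : F) * (u : F) = 1 := by
      rw [← Subring.coe_mul, hu]
      rfl
    have h6 : aeval x f = (u : F) := hf
    have h7 : x * (u : F) = 1 := by
      refine Eq.trans ?_ h5
      exact congrArg (fun a : F => a * (u : F)) ht.symm
    rw [map_sub, map_mul, aeval_X, map_one, h6, h7, sub_self]

theorem exists_val {k₀ F : Type} [Field k₀] [Field F] [Algebra k₀ F] (d : ℕ) (y : Fin (d + 1) → F)
    (hy : AlgebraicIndependent k₀ y) :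
    ∃ (Γ : Type) (_ : LinearOrderedCommGroupWithZero Γ) (v : Valuation F Γ) (κ : Type)
      (_ : Field κ) (_ : Algebra k₀ κ) (res : F → κ), VR k₀ v res ∧
      (∀ i : Fin d, v (y i.castSucc) ≤ 1) ∧
      AlgebraicIndependent k₀ (fun i : Fin d => res (y i.castSucc)) ∧ v (y (Fin.last d)) < 1 := by
  classical
  have hyd : AlgebraicIndependent k₀ (fun i : Fin d => y i.castSucc) :=
    hy.comp _ (Fin.castSucc_injective d)
  have h1 : Transcendental (Algebra.adjoin k₀ (y '' Set.range (Fin.castSucc (n := d))))
      (y (Fin.last d)) := hy.transcendental_adjoin (by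
    rintro ⟨i, hi⟩
    exact (Fin.castSucc_lt_last i).ne hi)
  have h2 := vex_tr _ _ h1
  have hyL : ∀ i : Fin d, y i.castSucc ∈
      IntermediateField.adjoin k₀ (y '' Set.range (Fin.castSucc (n := d))) := fun i =>
    IntermediateField.subset_adjoin _ _ ⟨_, ⟨i, rfl⟩, rfl⟩
  generalize IntermediateField.adjoin k₀ (y '' Set.range (Fin.castSucc (n := d))) = L at h2 hyL
  obtain ⟨B, hB1, hB2⟩ := Ideal.image_subset_nonunits_valuationSubring
    (Ideal.span {(⟨y (Fin.last d), Algebra.self_mem_adjoin_singleton L _⟩ :
      (Algebra.adjoin L {y (Fin.last d)}).toSubring)}) (vex_top _ h2 _ rfl)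
  have hLB : ∀ x ∈ L, x ∈ B := fun x hx =>
    hB1 ((Algebra.adjoin L {y (Fin.last d)}).algebraMap_mem ⟨x, hx⟩)
  have hkB : ∀ c : k₀, algebraMap k₀ F c ∈ B := fun c => hLB _ (L.algebraMap_mem c)
  let φ : k₀ →+* B := (algebraMap k₀ F).codRestrict B.toSubring hkB
  let alg : Algebra k₀ (IsLocalRing.ResidueField B) := ((IsLocalRing.residue B).comp φ).toAlgebra
  let res : F → IsLocalRing.ResidueField B := fun x =>
    if h : x ∈ B then IsLocalRing.residue B ⟨x, h⟩ else 0
  have hres : ∀ (x : F) (h : x ∈ B), res x = IsLocalRing.residue B ⟨x, h⟩ := fun x h => dif_pos h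
  refine ⟨B.ValueGroup, inferInstance, B.valuation, IsLocalRing.ResidueField B, inferInstance, alg,
    res, ?_, fun i => (B.valuation_le_one_iff _).2 (hLB _ (hyL i)), ?_, ?_⟩
  · refine ⟨fun c => (B.valuation_le_one_iff _).2 (hkB c), fun x z hx hz => ?_, fun x z hx hz => ?_,
      fun x hx => ?_, fun c => ?_⟩
    · rw [B.valuation_le_one_iff] at hx hz
      rw [hres x hx, hres z hz, hres _ (B.add_mem _ _ hx hz), ← map_add]
      rfl
    · rw [B.valuation_le_one_iff] at hx hz
      rw [hres x hx, hres z hz, hres _ (B.mul_mem _ _ hx hz), ← map_mul]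
      rfl
    · rw [B.valuation_le_one_iff] at hx
      rw [hres x hx, IsLocalRing.residue_eq_zero_iff, B.valuation_lt_one_iff]
    · rw [hres _ (hkB c)]
      rfl
  · rw [algebraicIndependent_iff]
    intro p hp
    by_contra hp0
    have h3 : (MvPolynomial.aeval (fun i : Fin d => res (y i.castSucc)) p :
        IsLocalRing.ResidueField B) = IsLocalRing.residue B
          (MvPolynomial.eval₂Hom φ (fun i : Fin d => (⟨y i.castSucc, hLB _ (hyL i)⟩ : B)) p) := by
      have h4 : (MvPolynomial.aeval (fun i : Fin d => res (y i.castSucc)) :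
          MvPolynomial (Fin d) k₀ →ₐ[k₀] IsLocalRing.ResidueField B).toRingHom =
          (IsLocalRing.residue B).comp (MvPolynomial.eval₂Hom φ
            (fun i : Fin d => (⟨y i.castSucc, hLB _ (hyL i)⟩ : B))) := by
        refine MvPolynomial.ringHom_ext (fun c => ?_) fun i => ?_
        · simp only [AlgHom.toRingHom_eq_coe, RingHom.coe_coe, MvPolynomial.aeval_C,
            RingHom.comp_apply, MvPolynomial.eval₂Hom_C]
          rfl
        · simp only [AlgHom.toRingHom_eq_coe, RingHom.coe_coe, MvPolynomial.aeval_X,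
            RingHom.comp_apply, MvPolynomial.eval₂Hom_X']
          exact hres _ _
      exact DFunLike.congr_fun h4 p
    have h5 : ((MvPolynomial.eval₂Hom φ (fun i : Fin d => (⟨y i.castSucc, hLB _ (hyL i)⟩ : B)) p :
        B) : F) = MvPolynomial.aeval (fun i : Fin d => y i.castSucc) p := by
      have h4 : B.subtype.comp (MvPolynomial.eval₂Hom φ
            (fun i : Fin d => (⟨y i.castSucc, hLB _ (hyL i)⟩ : B))) =
          (MvPolynomial.aeval (fun i : Fin d => y i.castSucc) :
            MvPolynomial (Fin d) k₀ →ₐ[k₀] F).toRingHom := by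
        refine MvPolynomial.ringHom_ext (fun c => ?_) fun i => ?_
        · simp only [AlgHom.toRingHom_eq_coe, RingHom.coe_coe, MvPolynomial.aeval_C,
            RingHom.comp_apply, MvPolynomial.eval₂Hom_C]
          rfl
        · simp only [AlgHom.toRingHom_eq_coe, RingHom.coe_coe, MvPolynomial.aeval_X,
            RingHom.comp_apply, MvPolynomial.eval₂Hom_X']
          rfl
      exact DFunLike.congr_fun h4 p
    have h6 : MvPolynomial.aeval (fun i : Fin d => y i.castSucc) p ≠ 0 := fun h7 =>
      hp0 ((algebraicIndependent_iff.1 hyd) p h7)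
    have h7 : MvPolynomial.aeval (fun i : Fin d => y i.castSucc) p ∈ L := by
      have h8 : L.val (MvPolynomial.aeval (fun i : Fin d => (⟨y i.castSucc, hyL i⟩ : L)) p) =
          MvPolynomial.aeval (fun i : Fin d => y i.castSucc) p := by
        rw [MvPolynomial.comp_aeval_apply]
        rfl
      rw [← h8]
      exact (MvPolynomial.aeval (fun i : Fin d => (⟨y i.castSucc, hyL i⟩ : L)) p).2
    rw [h3, IsLocalRing.residue_eq_zero_iff, B.valuation_lt_one_iff, h5] at hp
    have h9 := (B.valuation_le_one_iff _).2 (hLB _ (inv_mem h7))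
    rw [map_inv₀] at h9
    have h10 : B.valuation (MvPolynomial.aeval (fun i : Fin d => y i.castSucc) p) ≠ 0 :=
      (Valuation.ne_zero_iff _).2 h6
    have h11 := (one_lt_inv₀ (zero_lt_iff.2 h10)).2 hp
    exact absurd h9 (not_le.2 h11)
  · exact B.mem_nonunits_iff.1
      (hB2 ⟨_, Ideal.mem_span_singleton_self _, rfl⟩)

end Pool.Agent.H11.TS
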